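import Pool.Agent.E8B.Defs

set_option autoImplicit false

namespace Pool.Agent.E8B

open Finset

universe u

variable {V : Type u} [Fintype V] [DecidableEq V] {G : SimpleGraph V} [DecidableRel G.Adj]

/-- A cycle of length five. -/
private structure AllFull_P5 (G : SimpleGraph V) (v x p q y : V) : Prop where
  vx : G.Adj v x
  xp : G.Adj x p
  pq : G.Adj p q
  qy : G.Adj q y
  yv : G.Adj y v
  vp : v ≠ p
  vq : v ≠ q
  xq : x ≠ q
  xy : x ≠ y
  py : p ≠ y

omit [Fintype V] [DecidableEq V] [DecidableRel G.Adj] in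
private theorem AllFull_P5.rot {v x p q y : V} (h : AllFull_P5 G v x p q y) :
    AllFull_P5 G x p q y v :=
  ⟨h.xp, h.pq, h.qy, h.yv, h.vx, h.xq, h.xy, h.py, h.vp.symm, h.vq.symm⟩

omit [Fintype V] [DecidableEq V] [DecidableRel G.Adj] in
private theorem AllFull_P5.flip {v x p q y : V} (h : AllFull_P5 G v x p q y) :
    AllFull_P5 G v y q p x :=
  ⟨h.yv.symm, h.qy.symm, h.pq.symm, h.xp.symm, h.vx.symm, h.vq, h.vp, h.py.symm, h.xy.symm,
    h.xq.symm⟩

omit [Fintype V] [DecidableEq V] [DecidableRel G.Adj] in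
private theorem AllFull_P5.ang {v x p q y : V} (h : AllFull_P5 G v x p q y) :
    Ang G x v y p q :=
  ⟨h.vx, h.yv.symm, h.xy, h.xp, h.pq, h.qy, h.vp.symm, h.vq.symm⟩

omit [Fintype V] [DecidableEq V] [DecidableRel G.Adj] in
private theorem AllFull_ofAng (h5 : G5 G) {v x p q y : V} (h : Ang G x v y p q) :
    AllFull_P5 G v x p q y := by
  refine ⟨h.vx, h.xp, h.pq, h.qy, h.vy.symm, h.pv.symm, h.qv.symm, ?_, h.xy, ?_⟩
  · rintro rfl
    exact h5.1 _ _ _ h.vx h.qy h.vy.symm
  · rintro rfl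
    exact h5.1 _ _ _ h.vx h.xp h.vy.symm

omit [Fintype V] [DecidableEq V] [DecidableRel G.Adj] in
/-- Two pentagons through the edge `v x` which leave `v` differently leave `x` differently. -/
private theorem AllFull_L1 (hu : Uniq G) {v x p q y p' q' z : V} (h : AllFull_P5 G v x p q y)
    (h' : AllFull_P5 G v x p' q' z) (yz : y ≠ z) : p ≠ p' := by
  rintro rfl
  have h1 := h.rot.flip
  have h2 := h'.rot.flip
  exact yz (hu _ _ _ _ _ _ _ h1.ang h2.ang).1

omit [DecidableRel G.Adj] in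
private theorem AllFull_N [DecidableRel G.Adj] (hcub : ∀ x, (G.neighborFinset x).card = 3)
    {v x y z : V} (hx : G.Adj v x) (hy : G.Adj v y) (hz : G.Adj v z) (xy : x ≠ y) (xz : x ≠ z)
    (yz : y ≠ z) : G.neighborFinset v = {x, y, z} := by
  symm
  apply Finset.eq_of_subset_of_card_le
  · intro w hw
    simp only [Finset.mem_insert, Finset.mem_singleton] at hw
    rw [SimpleGraph.mem_neighborFinset]
    rcases hw with rfl | rfl | rfl <;> assumption
  · rw [hcub v, Finset.card_eq_three.2 ⟨x, y, z, xy, xz, yz, rfl⟩]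

private theorem AllFull_mem {v x y z w : V} (h : G.neighborFinset v = {x, y, z})
    (hw : G.Adj v w) : w = x ∨ w = y ∨ w = z := by
  rw [← SimpleGraph.mem_neighborFinset, h] at hw
  simpa using hw

/-- A connected cubic graph of girth at least five in which every pair of neighbours of a vertex is
in exactly one cycle of length five, with at least 20 vertices, is the dodecahedron.
Proof. Take a vertex `o` with the neighbours `a, b, c`. `Ang a o b`: `o, a, a1, b2, b`;
`Ang b o c`: `o, b, b1, c2, c`; `Ang c o a`: `o, c, c1, a2, a`. `a1 ≠ a2`: otherwise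
`Ang o a a1` has the two solutions `b, b2` and `c, c1` (as `(p, q)`: `Ang G o a a1 b b2` and
`Ang G o a a1 c c1`), against uniqueness (`b ≠ c`). So `N(a) = {o, a1, a2}`, also
`N(b) = {o, b1, b2}`, `N(c) = {o, c1, c2}`. Let `A1` be the third neighbour of `a1` (besides
`a, b2`), and so on: `N(a1) = {a, b2, A1}`, `N(b2) = {b, a1, B2}`, `N(b1) = {b, c2, B1}`,
`N(c2) = {c, b1, C2}`, `N(c1) = {c, a2, C1}`, `N(a2) = {a, c1, A2}`.
`Ang a1 a a2 p q` for some `p, q`; `p ∈ {b2, A1}`; `p = b2` is impossible (then `Ang a a1 b2` has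
the solution `(o, b)` and another one `(a2, q)`, since `a, a1, b2, q, a2` is a cycle); so `p = A1`,
in the same way `q = A2`, so `A1 ~ A2`. Also `B1 ~ B2`, `C1 ~ C2`.
`Ang A1 a1 b2 p q`: `q ∈ {b, B2}`, `q = b` is impossible by uniqueness; so `q = B2` and `p = zab`
is a common neighbour of `A1` and `B2`, `zab ≠ a1`. `zab ≠ A2` (otherwise `Ang a1 A1 A2` has the
solutions `(a, a2)` and `(b2, B2)`), so `N(A1) = {a1, A2, zab}`, and similarly
`N(B2) = {b2, B1, zab}`, `N(B1) = {b1, B2, zbc}`, `N(C2) = {c2, C1, zbc}`, `N(C1) = {c1, C2, zca}`,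
`N(A2) = {a2, A1, zca}`.
`Ang zab A1 A2 p q`: `q ∈ {a2, zca}`; `q = a2` is impossible by uniqueness; so `q = zca` and `p` is
a common neighbour `t` of `zab` and `zca`, different from `A1`; also `t ≠ B2` (otherwise
`Ang A1 zab B2` has the solutions `(a1, b2)` and `(A2, zca)`, and `A2 ≠ a1`). So
`N(zab) = {A1, B2, t}` and `t ~ zca`. In the same way the third neighbour of `zab` is adjacent to
`zbc` (with `Ang zab B2 B1`), so `t ~ zab, zbc, zca`. `zab, zbc, zca` are different (e.g. if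
`zab = zca` then `A1, A2, zab` is a triangle), so `N(t) = {zab, zbc, zca}`, and also
`N(zbc) = {B1, C2, t}`, `N(zca) = {C1, A2, t}`.
So the set of the 20 vertices is closed under adjacency, by connectedness it is everything, and
because of `20 ≤ |V|` the 20 vertices are different. -/
theorem all_full (hcub : ∀ x, (G.neighborFinset x).card = 3) (hc : G.Connected) (h5 : G5 G)
    (hu : Uniq G) (hfull : ∀ x v y, G.Adj v x → G.Adj v y → x ≠ y → ∃ p q, Ang G x v y p q)
    (h20 : 20 ≤ Fintype.card V) :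
    ∃ o a b c a1 a2 b1 b2 c1 c2 A1 A2 B1 B2 C1 C2 zab zbc zca t : V,
      Dode G o a b c a1 a2 b1 b2 c1 c2 A1 A2 B1 B2 C1 C2 zab zbc zca t := by
  have pent : ∀ x v y, G.Adj v x → G.Adj v y → x ≠ y → ∃ p q, AllFull_P5 G v x p q y := by
    intro x v y hx hy hxy
    obtain ⟨p, q, h⟩ := hfull x v y hx hy hxy
    exact ⟨p, q, AllFull_ofAng h5 h⟩
  obtain ⟨o⟩ := hc.nonempty
  obtain ⟨a, b, c, ab, ac, bc, hN⟩ := Finset.card_eq_three.1 (hcub o)
  have oa : G.Adj o a := by
    rw [← SimpleGraph.mem_neighborFinset, hN]; simp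
  have ob : G.Adj o b := by
    rw [← SimpleGraph.mem_neighborFinset, hN]; simp
  have oc : G.Adj o c := by
    rw [← SimpleGraph.mem_neighborFinset, hN]; simp
  -- the three pentagons at `o`
  obtain ⟨a1, b2, P1⟩ := pent a o b oa ob ab
  obtain ⟨b1, c2, P2⟩ := pent b o c ob oc bc
  obtain ⟨c1, a2, P3⟩ := pent c o a oc oa ac.symm
  -- `a`
  have a12 : a1 ≠ a2 := AllFull_L1 hu P1 P3.flip bc
  have b12 : b1 ≠ b2 := AllFull_L1 hu P2 P1.flip ac.symm
  have c12 : c1 ≠ c2 := AllFull_L1 hu P3 P2.flip ab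
  have Na : G.neighborFinset a = {o, a1, a2} :=
    AllFull_N hcub oa.symm P1.xp P3.flip.xp P1.vp P3.vq a12
  have Nb : G.neighborFinset b = {o, b1, b2} :=
    AllFull_N hcub ob.symm P2.xp P1.flip.xp P2.vp P1.vq b12
  have Nc : G.neighborFinset c = {o, c1, c2} :=
    AllFull_N hcub oc.symm P3.xp P2.flip.xp P3.vp P2.vq c12
  -- the pentagons opposite to `o`
  obtain ⟨A1, A2, Q1⟩ := pent a1 a a2 P1.xp P3.flip.xp a12
  obtain ⟨B1, B2, Q2⟩ := pent b1 b b2 P2.xp P1.flip.xp b12
  obtain ⟨C1, C2, Q3⟩ := pent c1 c c2 P3.xp P2.flip.xp c12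
  -- `P1 : o a a1 b2 b`
  have e1 : b2 ≠ A1 := AllFull_L1 hu P1.rot Q1 P3.vq
  have e2 : c1 ≠ A2 := AllFull_L1 hu P3.flip.rot Q1.flip P1.vp
  have e3 : c2 ≠ B1 := AllFull_L1 hu P2.rot Q2 P1.vq
  have e4 : a1 ≠ B2 := AllFull_L1 hu P1.flip.rot Q2.flip P2.vp
  have e5 : a2 ≠ C1 := AllFull_L1 hu P3.rot Q3 P2.vq
  have e6 : b1 ≠ C2 := AllFull_L1 hu P2.flip.rot Q3.flip P3.vp
  have Na1 : G.neighborFinset a1 = {a, b2, A1} :=
    AllFull_N hcub P1.xp.symm P1.pq Q1.xp P1.xq Q1.vp e1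
  have Na2 : G.neighborFinset a2 = {a, c1, A2} :=
    AllFull_N hcub P3.flip.xp.symm P3.flip.pq Q1.flip.xp P3.flip.xq Q1.vq e2
  have Nb1 : G.neighborFinset b1 = {b, c2, B1} :=
    AllFull_N hcub P2.xp.symm P2.pq Q2.xp P2.xq Q2.vp e3
  have Nb2 : G.neighborFinset b2 = {b, a1, B2} :=
    AllFull_N hcub P1.flip.xp.symm P1.flip.pq Q2.flip.xp P1.flip.xq Q2.vq e4
  have Nc1 : G.neighborFinset c1 = {c, a2, C1} :=
    AllFull_N hcub P3.xp.symm P3.pq Q3.xp P3.xq Q3.vp e5
  have Nc2 : G.neighborFinset c2 = {c, b1, C2} :=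
    AllFull_N hcub P2.flip.xp.symm P2.flip.pq Q3.flip.xp P2.flip.xq Q3.vq e6
  -- the pentagons `R`
  obtain ⟨zab, R1⟩ : ∃ z, AllFull_P5 G a1 b2 B2 z A1 := by
    obtain ⟨q, z, R⟩ := pent b2 a1 A1 P1.pq Q1.xp e1
    have h1 : q ≠ b := AllFull_L1 hu R P1.rot.rot Q1.vp.symm
    rcases AllFull_mem Nb2 R.xp with h | h | h
    · exact absurd h h1
    · exact absurd h R.vp.symm
    · exact ⟨z, h ▸ R⟩
  obtain ⟨zbc, R2⟩ : ∃ z, AllFull_P5 G b1 c2 C2 z B1 := by
    obtain ⟨q, z, R⟩ := pent c2 b1 B1 P2.pq Q2.xp e3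
    have h1 : q ≠ c := AllFull_L1 hu R P2.rot.rot Q2.vp.symm
    rcases AllFull_mem Nc2 R.xp with h | h | h
    · exact absurd h h1
    · exact absurd h R.vp.symm
    · exact ⟨z, h ▸ R⟩
  obtain ⟨zca, R3⟩ : ∃ z, AllFull_P5 G c1 a2 A2 z C1 := by
    obtain ⟨q, z, R⟩ := pent a2 c1 C1 P3.pq Q3.xp e5
    have h1 : q ≠ a := AllFull_L1 hu R P3.rot.rot Q3.vp.symm
    rcases AllFull_mem Na2 R.xp with h | h | h
    · exact absurd h h1
    · exact absurd h R.vp.symm
    · exact ⟨z, h ▸ R⟩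
  -- `Q1 : a a1 A1 A2 a2`, `R1 : a1 b2 B2 zab A1`
  have f1 : A2 ≠ zab := AllFull_L1 hu Q1.rot R1.flip P1.xq
  have f2 : B1 ≠ zab := AllFull_L1 hu Q2.flip.rot R1.rot P1.flip.xq
  have f3 : B2 ≠ zbc := AllFull_L1 hu Q2.rot R2.flip P2.xq
  have f4 : C1 ≠ zbc := AllFull_L1 hu Q3.flip.rot R2.rot P2.flip.xq
  have f5 : C2 ≠ zca := AllFull_L1 hu Q3.rot R3.flip P3.xq
  have f6 : A1 ≠ zca := AllFull_L1 hu Q1.flip.rot R3.rot P3.flip.xq
  have NA1 : G.neighborFinset A1 = {a1, A2, zab} :=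
    AllFull_N hcub Q1.xp.symm Q1.pq R1.flip.xp Q1.xq R1.vq f1
  have NB2 : G.neighborFinset B2 = {b2, B1, zab} :=
    AllFull_N hcub Q2.flip.xp.symm Q2.flip.pq R1.pq Q2.flip.xq R1.xq f2
  have NB1 : G.neighborFinset B1 = {b1, B2, zbc} :=
    AllFull_N hcub Q2.xp.symm Q2.pq R2.flip.xp Q2.xq R2.vq f3
  have NC2 : G.neighborFinset C2 = {c2, C1, zbc} :=
    AllFull_N hcub Q3.flip.xp.symm Q3.flip.pq R2.pq Q3.flip.xq R2.xq f4
  have NC1 : G.neighborFinset C1 = {c1, C2, zca} :=
    AllFull_N hcub Q3.xp.symm Q3.pq R3.flip.xp Q3.xq R3.vq f5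
  have NA2 : G.neighborFinset A2 = {a2, A1, zca} :=
    AllFull_N hcub Q1.flip.xp.symm Q1.flip.pq R3.pq Q1.flip.xq R3.xq f6
  -- the pentagons at `t`
  obtain ⟨t, S1⟩ : ∃ t, AllFull_P5 G A1 A2 zca t zab := by
    obtain ⟨q, z, R⟩ := pent A2 A1 zab Q1.pq R1.flip.xp f1
    have h1 : q ≠ a2 := AllFull_L1 hu R Q1.rot.rot R1.vq.symm
    rcases AllFull_mem NA2 R.xp with h | h | h
    · exact absurd h h1
    · exact absurd h R.vp.symm
    · exact ⟨z, h ▸ R⟩
  have g1 : B2 ≠ t := AllFull_L1 hu R1.flip.rot S1.flip Q1.xq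
  have Nzab : G.neighborFinset zab = {A1, B2, t} :=
    AllFull_N hcub R1.qy R1.pq.symm S1.qy.symm R1.py.symm S1.vq g1
  have S2 : AllFull_P5 G B2 B1 zbc t zab := by
    obtain ⟨q, z, R⟩ := pent B1 B2 zab Q2.pq.symm R1.pq f2
    have h1 : q ≠ b1 := AllFull_L1 hu R Q2.flip.rot.rot R1.xq.symm
    have hq : q = zbc := by
      rcases AllFull_mem NB1 R.xp with h | h | h
      · exact absurd h h1
      · exact absurd h R.vp.symm
      · exact h
    subst hq
    have h2 : z ≠ A1 := AllFull_L1 hu R.flip R1.rot.rot Q2.flip.xq.symm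
    have hz : z = t := by
      rcases AllFull_mem Nzab R.qy.symm with h | h | h
      · exact absurd h h2
      · exact absurd h R.vq.symm
      · exact h
    subst hz
    exact R
  have g2 : zbc ≠ zca := AllFull_L1 hu S2.flip.rot S1.flip.rot R1.py
  have Nt : G.neighborFinset t = {zab, zbc, zca} :=
    AllFull_N hcub S1.qy S2.pq.symm S1.pq.symm S2.py.symm S1.py.symm g2
  have g3 : C2 ≠ t := AllFull_L1 hu R2.flip.rot S2.rot Q2.xq
  have Nzbc : G.neighborFinset zbc = {B1, C2, t} :=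
    AllFull_N hcub R2.qy R2.pq.symm S2.pq R2.py.symm S2.xq g3
  have g4 : C1 ≠ t := AllFull_L1 hu R3.rot.rot S1.rot Q1.flip.xq
  have Nzca : G.neighborFinset zca = {A2, C1, t} :=
    AllFull_N hcub R3.pq.symm R3.qy S1.pq R3.py S1.xq g4
  refine ⟨o, a, b, c, a1, a2, b1, b2, c1, c2, A1, A2, B1, B2, C1, C2, zab, zbc, zca, t, ?_, hN,
    Na, Nb, Nc, Na1, Nb2, Nb1, Nc2, Nc1, Na2, ?_, ?_, ?_⟩
  · set l : List V := [o, a, b, c, a1, a2, b1, b2, c1, c2, A1, A2, B1, B2, C1, C2, zab, zbc,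
      zca, t] with hl
    have hclosed : ∀ v ∈ l, ∀ w, G.Adj v w → w ∈ l := by
      intro v hv w hw
      rw [hl] at hv ⊢
      simp only [List.mem_cons, List.not_mem_nil, or_false] at hv ⊢
      rcases hv with rfl | rfl | rfl | rfl | rfl | rfl | rfl | rfl | rfl | rfl | rfl | rfl | rfl |
        rfl | rfl | rfl | rfl | rfl | rfl | rfl
      · rcases AllFull_mem hN hw with h | h | h <;> simp [h]
      · rcases AllFull_mem Na hw with h | h | h <;> simp [h]
      · rcases AllFull_mem Nb hw with h | h | h <;> simp [h]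
      · rcases AllFull_mem Nc hw with h | h | h <;> simp [h]
      · rcases AllFull_mem Na1 hw with h | h | h <;> simp [h]
      · rcases AllFull_mem Na2 hw with h | h | h <;> simp [h]
      · rcases AllFull_mem Nb1 hw with h | h | h <;> simp [h]
      · rcases AllFull_mem Nb2 hw with h | h | h <;> simp [h]
      · rcases AllFull_mem Nc1 hw with h | h | h <;> simp [h]
      · rcases AllFull_mem Nc2 hw with h | h | h <;> simp [h]
      · rcases AllFull_mem NA1 hw with h | h | h <;> simp [h]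
      · rcases AllFull_mem NA2 hw with h | h | h <;> simp [h]
      · rcases AllFull_mem NB1 hw with h | h | h <;> simp [h]
      · rcases AllFull_mem NB2 hw with h | h | h <;> simp [h]
      · rcases AllFull_mem NC1 hw with h | h | h <;> simp [h]
      · rcases AllFull_mem NC2 hw with h | h | h <;> simp [h]
      · rcases AllFull_mem Nzab hw with h | h | h <;> simp [h]
      · rcases AllFull_mem Nzbc hw with h | h | h <;> simp [h]
      · rcases AllFull_mem Nzca hw with h | h | h <;> simp [h]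
      · rcases AllFull_mem Nt hw with h | h | h <;> simp [h]
    have hall : ∀ w, w ∈ l := by
      intro w
      have hr := (SimpleGraph.reachable_iff_reflTransGen o w).1 (hc.preconnected o w)
      induction hr with
      | refl => simp [hl]
      | tail _ hbc ih => exact hclosed _ ih _ hbc
    have huniv : l.toFinset = Finset.univ := by
      ext w
      simp [hall w]
    have hcard : l.toFinset.card = Fintype.card V := by
      rw [huniv, Finset.card_univ]
    have hle : l.toFinset.card ≤ l.length := List.toFinset_card_le l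
    have hlen : l.length = 20 := by simp [hl]
    have heq : l.toFinset.card = l.length := by omega
    have := (Multiset.toFinset_card_eq_card_iff_nodup (m := (l : Multiset V))).1 (by
      simpa using heq)
    simpa using this
  · rw [NA2]
  · rw [NB2]
  · rw [NC2]

end Pool.Agent.E8B
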