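import Pool.Agent.E8B.Defs

set_option autoImplicit false

namespace Pool.Agent.E8B

open Finset

universe u

variable {V : Type u} {β : Type*} [Fintype V] [DecidableEq V] {G : SimpleGraph V}
  [DecidableRel G.Adj] {L : V → Finset β}

/-- With `I = ∅`. -/
theorem good_empty {W : Finset V} (hW : ∀ x ∈ W, ∀ y ∈ W, ¬ G.Adj x y)
    (hL : ∀ x, 5 ≤ (L x).card) : Good G L ∅ W := by
  refine ⟨∅, ⟨by simp, by simpa using hW, by simp⟩, ?_⟩
  have hne : ∀ x : V, ∃ b, b ∈ L x := fun x => Finset.card_pos.1 (by have := hL x; omega)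
  choose g hg using hne
  exact ⟨g, by simp, by simp⟩

/-- If `I` is the set for `D \ J` and `W ∪ J`, take `I ∪ J`; same `g`. -/
theorem commit {D W J : Finset V} (hJ : J ⊆ D) (h : Good G L (D \ J) (W ∪ J)) : Good G L D W := by
  obtain ⟨I, hI, g, hg, hc⟩ := h
  have e : I ∪ J ∪ W = I ∪ (W ∪ J) := by
    ext x; simp only [mem_union]; tauto
  have hm : ∀ v ∈ D, v ∉ I ∪ J → v ∈ D \ J ∧ v ∉ I := by
    intro v hv hvI
    simp only [mem_union, not_or] at hvI
    exact ⟨mem_sdiff.2 ⟨hv, hvI.2⟩, hvI.1⟩
  refine ⟨I ∪ J, ⟨union_subset (hI.sub.trans sdiff_subset) hJ, ?_, ?_⟩, g, ?_, ?_⟩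
  · rw [e]; exact hI.ind
  · intro v hv hvI
    rw [e]
    exact hI.dom v (hm v hv hvI).1 (hm v hv hvI).2
  · intro v hv hvI
    exact hg v (hm v hv hvI).1 (hm v hv hvI).2
  · intro u hu v hv huI hvI hn
    exact hc u (hm u hu huI).1 v (hm v hv hvI).1 (hm u hu huI).2 (hm v hv hvI).2 hn

omit [Fintype V] [DecidableRel G.Adj] in
theorem Near.symm' {u v : V} (h : Near G u v) : Near G v u := by
  refine ⟨h.1.symm, ?_⟩
  rcases h.2 with h | ⟨w, h1, h2⟩
  · exact Or.inl h.symm
  · exact Or.inr ⟨w, h2.symm, h1.symm⟩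

/-- Take the pair `I`, `g` for `D.erase v` and `W`. If `v` has no neighbour in `I ∪ W`, then
`insert v I` with the same `g` works. Otherwise `v` is dominated and gets a colour of `L v` which
is not in the image of `S` under `g`. -/
theorem peel {D W : Finset V} {v : V} (hv : v ∈ D) (hL : 5 ≤ (L v).card)
    (h : Good G L (D.erase v) W)
    (cnt : ∀ I, Pair G (D.erase v) W I → (∃ x ∈ I ∪ W, G.Adj v x) →
      ∃ S : Finset V, S.card ≤ 4 ∧ Nr G (D.erase v) I v S) : Good G L D W := by
  classical
  obtain ⟨I, hI, g, hg, hc⟩ := h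
  by_cases hd : ∃ x ∈ I ∪ W, G.Adj v x
  · obtain ⟨S, hS, hN⟩ := cnt I hI hd
    have hpos : (L v \ S.image g).Nonempty := by
      rw [← Finset.card_pos]
      have h1 := Finset.le_card_sdiff (S.image g) (L v)
      have h2 : (S.image g).card ≤ S.card := card_image_le
      omega
    obtain ⟨c, hc'⟩ := hpos
    have hcL : c ∈ L v := (mem_sdiff.1 hc').1
    have hcS : ∀ w ∈ S, g w ≠ c := by
      intro w hw e
      exact (mem_sdiff.1 hc').2 (mem_image.2 ⟨w, hw, e⟩)
    refine ⟨I, ⟨hI.sub.trans (erase_subset _ _), hI.ind, ?_⟩, Function.update g v c, ?_, ?_⟩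
    · intro w hw hwI
      by_cases e : w = v
      · subst e; exact hd
      · exact hI.dom w (mem_erase.2 ⟨e, hw⟩) hwI
    · intro w hw hwI
      by_cases e : w = v
      · subst e; simpa using hcL
      · rw [Function.update_of_ne e]
        exact hg w (mem_erase.2 ⟨e, hw⟩) hwI
    · intro a ha b hb haI hbI hn
      by_cases e : a = v
      · by_cases e' : b = v
        · exact absurd (e.trans e'.symm) hn.1
        · rw [e, Function.update_self, Function.update_of_ne e']
          refine (hcS b (hN b (mem_erase.2 ⟨e', hb⟩) hbI ?_)).symm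
          rw [← e]; exact hn
      · by_cases e' : b = v
        · rw [e', Function.update_self, Function.update_of_ne e]
          refine hcS a (hN a (mem_erase.2 ⟨e, ha⟩) haI ?_)
          rw [← e']; exact hn.symm'
        · rw [Function.update_of_ne e, Function.update_of_ne e']
          exact hc a (mem_erase.2 ⟨e, ha⟩) b (mem_erase.2 ⟨e', hb⟩) haI hbI hn
  · push Not at hd
    have hm : ∀ w ∈ D, w ∉ insert v I → w ∈ D.erase v ∧ w ∉ I := by
      intro w hw hwI
      simp only [mem_insert, not_or] at hwI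
      exact ⟨mem_erase.2 ⟨hwI.1, hw⟩, hwI.2⟩
    refine ⟨insert v I, ⟨?_, ?_, ?_⟩, g, ?_, ?_⟩
    · exact insert_subset hv (hI.sub.trans (erase_subset _ _))
    · rw [insert_union]
      intro x hx y hy
      rcases mem_insert.1 hx with ex | hx'
      · rcases mem_insert.1 hy with ey | hy'
        · rw [ex, ey]; exact G.loopless.irrefl _
        · rw [ex]; exact hd y hy'
      · rcases mem_insert.1 hy with ey | hy'
        · rw [ey]; exact fun h => hd x hx' h.symm
        · exact hI.ind x hx' y hy'
    · intro w hw hwI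
      obtain ⟨x, hx, h⟩ := hI.dom w (hm w hw hwI).1 (hm w hw hwI).2
      refine ⟨x, ?_, h⟩
      rw [insert_union]
      exact mem_insert_of_mem hx
    · intro w hw hwI
      exact hg w (hm w hw hwI).1 (hm w hw hwI).2
    · intro a ha b hb haI hbI hn
      exact hc a (hm a ha haI).1 b (hm b hb hbI).1 (hm a ha haI).2 (hm b hb hbI).2 hn

/-- If `x ∈ I` then the two other vertices of the closed neighbourhood of `x`, otherwise one of
the neighbours of `x` is in `I ∪ W` and it is not `v`, so at most two vertices remain. -/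
theorem cov_in {D' W I : Finset V} {v x : V} (hx3 : (G.neighborFinset x).card ≤ 3)
    (hP : Pair G D' W I) (hD : Disjoint D' W) (hvx : G.Adj v x) (hx : x ∈ D') (hv : v ∉ D')
    (hvW : v ∉ W) : ∃ S : Finset V, S.card ≤ 2 ∧ Cov G D' I v x S := by
  have hvN : v ∈ G.neighborFinset x := by
    rw [SimpleGraph.mem_neighborFinset]; exact hvx.symm
  have c1 : ((G.neighborFinset x).erase v).card ≤ 2 := by
    rw [card_erase_of_mem hvN]; omega
  by_cases hxI : x ∈ I
  · refine ⟨(G.neighborFinset x).erase v, c1, ?_⟩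
    intro w _ hwI hwv h
    rcases h with rfl | h
    · exact absurd hxI hwI
    · exact mem_erase.2 ⟨hwv, by rw [SimpleGraph.mem_neighborFinset]; exact h⟩
  · obtain ⟨y, hy, hxy⟩ := hP.dom x hx hxI
    have hyv : y ≠ v := by
      rintro rfl
      rcases mem_union.1 hy with h | h
      · exact hv (hP.sub h)
      · exact hvW h
    have hyN : y ∈ (G.neighborFinset x).erase v :=
      mem_erase.2 ⟨hyv, by rw [SimpleGraph.mem_neighborFinset]; exact hxy⟩
    refine ⟨insert x (((G.neighborFinset x).erase v).erase y), ?_, ?_⟩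
    · refine (card_insert_le _ _).trans ?_
      rw [card_erase_of_mem hyN]; omega
    · intro w hw hwI hwv h
      rcases h with rfl | h
      · exact mem_insert_self _ _
      · refine mem_insert_of_mem (mem_erase.2 ⟨?_, mem_erase.2 ⟨hwv, ?_⟩⟩)
        · rintro rfl
          rcases mem_union.1 hy with h | h
          · exact hwI h
          · exact (Finset.disjoint_left.1 hD) hw h
        · rw [SimpleGraph.mem_neighborFinset]; exact h

/-- A neighbour `x` outside `D'` contributes only its neighbours in `D'`. -/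
theorem cov_out {D' I : Finset V} {v x : V} {S : Finset V} (hx : x ∉ D')
    (hS : G.neighborFinset x ∩ D' ⊆ insert v S) : Cov G D' I v x S := by
  intro w hw _ hwv h
  rcases h with rfl | h
  · exact absurd hw hx
  · have := hS (mem_inter.2 ⟨by rw [SimpleGraph.mem_neighborFinset]; exact h, hw⟩)
    rcases mem_insert.1 this with h | h
    · exact absurd h hwv
    · exact h

/-- A neighbour of a vertex outside `D'`, in both cases. -/
theorem cov_two {D' W I : Finset V} {v x : V} (hx3 : (G.neighborFinset x).card ≤ 3)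
    (hP : Pair G D' W I) (hD : Disjoint D' W) (hvx : G.Adj v x) (hv : v ∉ D') (hvW : v ∉ W)
    (h2 : x ∉ D' → (G.neighborFinset x ∩ D').card ≤ 2) :
    ∃ S : Finset V, S.card ≤ 2 ∧ Cov G D' I v x S := by
  by_cases hx : x ∈ D'
  · exact cov_in hx3 hP hD hvx hx hv hvW
  · exact ⟨G.neighborFinset x ∩ D', h2 hx, cov_out hx (subset_insert _ _)⟩

/-- The contributions of the three neighbours together. -/
theorem nr_of_cov {D' I : Finset V} {v a b c : V} {Sa Sb Sc : Finset V}
    (hN : G.neighborFinset v ⊆ {a, b, c}) (ha : Cov G D' I v a Sa) (hb : Cov G D' I v b Sb)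
    (hc : Cov G D' I v c Sc) : Nr G D' I v (Sa ∪ Sb ∪ Sc) := by
  intro w hw hwI hn
  have key : ∀ t, G.Adj v t → (w = t ∨ G.Adj t w) → w ∈ Sa ∪ Sb ∪ Sc := by
    intro t ht h
    have htm : t ∈ ({a, b, c} : Finset V) := hN (by rw [SimpleGraph.mem_neighborFinset]; exact ht)
    simp only [mem_insert, mem_singleton] at htm
    rcases htm with rfl | rfl | rfl
    · exact mem_union_left _ (mem_union_left _ (ha w hw hwI hn.1.symm h))
    · exact mem_union_left _ (mem_union_right _ (hb w hw hwI hn.1.symm h))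
    · exact mem_union_right _ (hc w hw hwI hn.1.symm h)
  rcases hn.2 with h | ⟨t, h1, h2⟩
  · exact key w h (Or.inl rfl)
  · exact key t h1 (Or.inr h2)

/-- Removing a set from `D`. -/
theorem Inv.sdiff {D S : Finset V} (h : Inv G D)
    (hS : ∀ v ∈ S, v ∈ D → (G.neighborFinset v ∩ (D \ S)).card ≤ 2) : Inv G (D \ S) := by
  intro w hw
  by_cases hwD : w ∈ D
  · have hwS : w ∈ S := by
      by_contra hn
      exact hw (mem_sdiff.2 ⟨hwD, hn⟩)
    exact hS w hwS hwD
  · exact (card_le_card (inter_subset_inter_left sdiff_subset)).trans (h w hwD)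

end Pool.Agent.E8B
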