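import Pool.Agent.E8B.Calc1

set_option autoImplicit false

namespace Pool.Agent.E8B

open Finset

universe u

variable {V : Type u} {β : Type*} [Fintype V] [DecidableEq V] {G : SimpleGraph V}
  [DecidableRel G.Adj] {L : V → Finset β}

private theorem exists_ne_of_two {A : Finset β} (h : 2 ≤ A.card) (x : β) : ∃ a ∈ A, a ≠ x := by
  classical
  have : 0 < (A.erase x).card := by
    have := Finset.pred_card_le_card_erase (s := A) (a := x)
    omega
  obtain ⟨a, ha⟩ := Finset.card_pos.mp this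
  rw [Finset.mem_erase] at ha
  exact ⟨a, ha.2, ha.1⟩

private theorem exists_ne_of_three {A : Finset β} (h : 3 ≤ A.card) (x y : β) :
    ∃ a ∈ A, a ≠ x ∧ a ≠ y := by
  classical
  have : 0 < ((A.erase x).erase y).card := by
    have h1 := Finset.pred_card_le_card_erase (s := A) (a := x)
    have h2 := Finset.pred_card_le_card_erase (s := A.erase x) (a := y)
    omega
  obtain ⟨a, ha⟩ := Finset.card_pos.mp this
  rw [Finset.mem_erase, Finset.mem_erase] at ha
  exact ⟨a, ha.2.2, ha.2.1, ha.1⟩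

/-- Four finite sets of colours on a cycle of length four, possibly with the chord `2 4`.
If `A1` and `A3` have a common element, use it twice. Otherwise choose `a2 ∈ A2` and then
`a4 ∈ A4` such that neither `A1 ⊆ {a2, a4}` nor `A3 ⊆ {a2, a4}`: as `A1` and `A3` are disjoint and
have at least two elements, for given `a2` there is at most one bad `a4` (and with the chord also
`a4 = a2` is bad, but then `A4` has three elements). -/
theorem c4_choose (A1 A2 A3 A4 : Finset β) (ch : Prop) (h1 : 2 ≤ A1.card) (h3 : 2 ≤ A3.card)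
    (h2 : 2 ≤ A2.card) (h4 : 2 ≤ A4.card) (h2' : ch → 3 ≤ A2.card) (h4' : ch → 3 ≤ A4.card) :
    ∃ a1 ∈ A1, ∃ a2 ∈ A2, ∃ a3 ∈ A3, ∃ a4 ∈ A4,
      a1 ≠ a2 ∧ a2 ≠ a3 ∧ a3 ≠ a4 ∧ a4 ≠ a1 ∧ (ch → a2 ≠ a4) := by
  classical
  by_cases hc : ∃ x ∈ A1, x ∈ A3
  · obtain ⟨x, hx1, hx3⟩ := hc
    obtain ⟨a2, ha2, n2⟩ := exists_ne_of_two h2 x
    by_cases hch : ch
    · obtain ⟨a4, ha4, n4, n4'⟩ := exists_ne_of_three (h4' hch) x a2
      exact ⟨x, hx1, a2, ha2, x, hx3, a4, ha4, n2.symm, n2, n4.symm, n4, fun _ => n4'.symm⟩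
    · obtain ⟨a4, ha4, n4⟩ := exists_ne_of_two h4 x
      exact ⟨x, hx1, a2, ha2, x, hx3, a4, ha4, n2.symm, n2, n4.symm, n4, fun h => absurd h hch⟩
  · have hdis : ∀ x ∈ A1, x ∉ A3 := fun x h1 h3 => hc ⟨x, h1, h3⟩
    obtain ⟨a2, ha2⟩ : A2.Nonempty := Finset.card_pos.mp (by omega)
    obtain ⟨b1, hb1, nb1⟩ := exists_ne_of_two h1 a2
    obtain ⟨b3, hb3, nb3⟩ := exists_ne_of_two h3 a2
    -- a4 with a1 ≠ a4 possible in A1 and in A3
    have key : ∀ a4, (a2 ∈ A1 → a4 ≠ b1) → (a2 ∈ A3 → a4 ≠ b3) →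
        (∃ a1 ∈ A1, a1 ≠ a2 ∧ a1 ≠ a4) ∧ ∃ a3 ∈ A3, a3 ≠ a2 ∧ a3 ≠ a4 := by
      intro a4 k1 k3
      refine ⟨?_, ?_⟩
      · by_cases hm : a2 ∈ A1
        · exact ⟨b1, hb1, nb1, (k1 hm).symm⟩
        · obtain ⟨a1, ha1, n⟩ := exists_ne_of_two h1 a4
          exact ⟨a1, ha1, fun h => hm (h ▸ ha1), n⟩
      · by_cases hm : a2 ∈ A3
        · exact ⟨b3, hb3, nb3, (k3 hm).symm⟩
        · obtain ⟨a3, ha3, n⟩ := exists_ne_of_two h3 a4
          exact ⟨a3, ha3, fun h => hm (h ▸ ha3), n⟩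
    obtain ⟨a4, ha4, k1, k3, kc⟩ : ∃ a4 ∈ A4, (a2 ∈ A1 → a4 ≠ b1) ∧ (a2 ∈ A3 → a4 ≠ b3) ∧
        (ch → a2 ≠ a4) := by
      by_cases hm1 : a2 ∈ A1
      · have hm3 := hdis a2 hm1
        by_cases hch : ch
        · obtain ⟨a4, ha4, n, n'⟩ := exists_ne_of_three (h4' hch) b1 a2
          exact ⟨a4, ha4, fun _ => n, fun h => absurd h hm3, fun _ => n'.symm⟩
        · obtain ⟨a4, ha4, n⟩ := exists_ne_of_two h4 b1
          exact ⟨a4, ha4, fun _ => n, fun h => absurd h hm3, fun h => absurd h hch⟩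
      · by_cases hch : ch
        · obtain ⟨a4, ha4, n, n'⟩ := exists_ne_of_three (h4' hch) b3 a2
          exact ⟨a4, ha4, fun h => absurd h hm1, fun _ => n, fun _ => n'.symm⟩
        · obtain ⟨a4, ha4, n⟩ := exists_ne_of_two h4 b3
          exact ⟨a4, ha4, fun h => absurd h hm1, fun _ => n, fun h => absurd h hch⟩
    obtain ⟨⟨a1, ha1, m1, m1'⟩, a3, ha3, m3, m3'⟩ := key a4 k1 k3
    exact ⟨a1, ha1, a2, ha2, a3, ha3, a4, ha4, m1, m3.symm, m3', m1'.symm, kc⟩

/-- Take the pair `I`, `g` for `D \ {k1, k2, k3, k4}` and `W` and colour `k1, k2, k3, k4` by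
`c4_choose` (with `A i` = the colours of `L (k i)` which are not used on `S i`, and
`ch = Near G k2 k4`). All four are dominated by `W`. -/
theorem peel4 {D W : Finset V} {k1 k2 k3 k4 : V} (hL : ∀ v, 5 ≤ (L v).card)
    (hk : [k1, k2, k3, k4].Nodup) (hD : ∀ k ∈ [k1, k2, k3, k4], k ∈ D)
    (hW : ∀ k ∈ [k1, k2, k3, k4], ∃ x ∈ W, G.Adj k x)
    (h13 : ¬ Near G k1 k3)
    (h : Good G L (D \ {k1, k2, k3, k4}) W)
    (cnt : ∀ I, Pair G (D \ {k1, k2, k3, k4}) W I →
      (∃ S : Finset V, S.card ≤ 3 ∧ Nr G (D \ {k1, k2, k3, k4}) I k1 S) ∧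
      (∃ S : Finset V, S.card ≤ 3 ∧ Nr G (D \ {k1, k2, k3, k4}) I k3 S) ∧
      (∃ S : Finset V, S.card ≤ 3 ∧ (Near G k2 k4 → S.card ≤ 2) ∧
        Nr G (D \ {k1, k2, k3, k4}) I k2 S) ∧
      (∃ S : Finset V, S.card ≤ 3 ∧ (Near G k2 k4 → S.card ≤ 2) ∧
        Nr G (D \ {k1, k2, k3, k4}) I k4 S)) : Good G L D W := by
  classical
  obtain ⟨I, hI, g, hg, hc⟩ := h
  obtain ⟨⟨S1, c1, n1⟩, ⟨S3, c3, n3⟩, ⟨S2, c2, c2', n2⟩, ⟨S4, c4, c4', n4⟩⟩ := cnt I hI
  have hcard : ∀ (k : V) (S : Finset V), (L k).card ≤ (L k \ S.image g).card + S.card := by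
    intro k S
    have e1 := Finset.card_le_card_sdiff_add_card (s := L k) (t := S.image g)
    have e2 := Finset.card_image_le (s := S) (f := g)
    omega
  obtain ⟨a1, ha1, a2, ha2, a3, ha3, a4, ha4, d12, d23, d34, d41, d24⟩ :=
    c4_choose (L k1 \ S1.image g) (L k2 \ S2.image g) (L k3 \ S3.image g) (L k4 \ S4.image g)
      (Near G k2 k4)
      (by have := hcard k1 S1; have := hL k1; omega)
      (by have := hcard k3 S3; have := hL k3; omega)
      (by have := hcard k2 S2; have := hL k2; omega)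
      (by have := hcard k4 S4; have := hL k4; omega)
      (fun hn => by have := hcard k2 S2; have := hL k2; have := c2' hn; omega)
      (fun hn => by have := hcard k4 S4; have := hL k4; have := c4' hn; omega)
  rw [Finset.mem_sdiff] at ha1 ha2 ha3 ha4
  simp only [List.nodup_cons, List.mem_cons, List.not_mem_nil, or_false, not_or,
    not_false_eq_true, List.nodup_nil, and_true] at hk
  obtain ⟨⟨k12, k13, k14⟩, ⟨k23, k24⟩, k34⟩ := hk
  set g' : V → β := fun v =>
    if v = k1 then a1 else if v = k2 then a2 else if v = k3 then a3 else if v = k4 then a4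
    else g v with hg'
  have g1 : g' k1 = a1 := by simp [hg']
  have g2 : g' k2 = a2 := by simp [hg', Ne.symm k12]
  have g3 : g' k3 = a3 := by simp [hg', Ne.symm k13, Ne.symm k23]
  have g4 : g' k4 = a4 := by simp [hg', Ne.symm k14, Ne.symm k24, Ne.symm k34]
  have g0 : ∀ v, v ∉ ({k1, k2, k3, k4} : Finset V) → g' v = g v := by
    intro v hv
    simp only [Finset.mem_insert, Finset.mem_singleton, not_or] at hv
    simp [hg', hv.1, hv.2.1, hv.2.2.1, hv.2.2.2]
  have hout : ∀ (k : V) (S : Finset V) (a : β), a ∉ S.image g →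
      Nr G (D \ {k1, k2, k3, k4}) I k S → ∀ w ∈ D, w ∉ I → w ∉ ({k1, k2, k3, k4} : Finset V) →
      Near G k w → a ≠ g' w := by
    intro k S a ha hn w hw hwI hwK hnear heq
    rw [g0 w hwK] at heq
    exact ha (Finset.mem_image.mpr ⟨w, hn w (Finset.mem_sdiff.mpr ⟨hw, hwK⟩) hwI hnear, heq.symm⟩)
  refine ⟨I, ⟨hI.sub.trans Finset.sdiff_subset, hI.ind, ?_⟩, g', ?_, ?_⟩
  · intro v hv hvI
    by_cases hvK : v ∈ ({k1, k2, k3, k4} : Finset V)
    · obtain ⟨x, hx, hax⟩ := hW v (by simpa using hvK)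
      exact ⟨x, Finset.mem_union_right _ hx, hax⟩
    · exact hI.dom v (Finset.mem_sdiff.mpr ⟨hv, hvK⟩) hvI
  · intro v hv hvI
    by_cases hvK : v ∈ ({k1, k2, k3, k4} : Finset V)
    · simp only [Finset.mem_insert, Finset.mem_singleton] at hvK
      rcases hvK with rfl | rfl | rfl | rfl
      · rw [g1]; exact ha1.1
      · rw [g2]; exact ha2.1
      · rw [g3]; exact ha3.1
      · rw [g4]; exact ha4.1
    · rw [g0 v hvK]
      exact hg v (Finset.mem_sdiff.mpr ⟨hv, hvK⟩) hvI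
  · have hKK : ∀ u ∈ ({k1, k2, k3, k4} : Finset V), ∀ v ∈ D, v ∉ I → Near G u v →
        g' u ≠ g' v := by
      intro u hu v hv hvI hn
      by_cases hvK : v ∈ ({k1, k2, k3, k4} : Finset V)
      · simp only [Finset.mem_insert, Finset.mem_singleton] at hu hvK
        rcases hu with rfl | rfl | rfl | rfl
        · rcases hvK with rfl | rfl | rfl | rfl
          · exact absurd rfl hn.1
          · rw [g1, g2]; exact d12
          · exact absurd hn h13
          · rw [g1, g4]; exact d41.symm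
        · rcases hvK with rfl | rfl | rfl | rfl
          · rw [g2, g1]; exact d12.symm
          · exact absurd rfl hn.1
          · rw [g2, g3]; exact d23
          · rw [g2, g4]; exact d24 hn
        · rcases hvK with rfl | rfl | rfl | rfl
          · exact absurd hn.symm' h13
          · rw [g3, g2]; exact d23.symm
          · exact absurd rfl hn.1
          · rw [g3, g4]; exact d34
        · rcases hvK with rfl | rfl | rfl | rfl
          · rw [g4, g1]; exact d41
          · rw [g4, g2]; exact (d24 hn.symm').symm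
          · rw [g4, g3]; exact d34.symm
          · exact absurd rfl hn.1
      · simp only [Finset.mem_insert, Finset.mem_singleton] at hu
        rcases hu with rfl | rfl | rfl | rfl
        · rw [g1]; exact hout _ S1 a1 ha1.2 n1 v hv hvI hvK hn
        · rw [g2]; exact hout _ S2 a2 ha2.2 n2 v hv hvI hvK hn
        · rw [g3]; exact hout _ S3 a3 ha3.2 n3 v hv hvI hvK hn
        · rw [g4]; exact hout _ S4 a4 ha4.2 n4 v hv hvI hvK hn
    intro u hu v hv huI hvI hn
    by_cases huK : u ∈ ({k1, k2, k3, k4} : Finset V)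
    · exact hKK u huK v hv hvI hn
    · by_cases hvK : v ∈ ({k1, k2, k3, k4} : Finset V)
      · exact (hKK v hvK u hu huI hn.symm').symm
      · rw [g0 u huK, g0 v hvK]
        exact hc u (Finset.mem_sdiff.mpr ⟨hu, huK⟩) v (Finset.mem_sdiff.mpr ⟨hv, hvK⟩) huI hvI hn

end Pool.Agent.E8B
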