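import Pool.Agent.E8B.Side

set_option autoImplicit false

namespace Pool.Agent.E8B

open Finset

universe u

variable {V : Type u} [Fintype V] [DecidableEq V] {G : SimpleGraph V} [DecidableRel G.Adj]

omit [Fintype V] [DecidableEq V] in
private theorem Cross_pe_cons (x a : V) (l : List V) (y : V) :
    pe x (a :: l) y = s(x, a) :: pe a l y := by simp [pe]

omit [Fintype V] [DecidableEq V] in
private theorem Cross_pe_append (x y z : V) (l1 l2 : List V) :
    pe x (l1 ++ y :: l2) z = pe x l1 y ++ pe y l2 z := by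
  induction l1 generalizing x with
  | nil => simp [pe]
  | cons a l1 ih => rw [List.cons_append, Cross_pe_cons, ih, Cross_pe_cons, List.cons_append]

omit [Fintype V] in
private theorem Cross_mem_cyc (x : V) (l : List V) (e : Sym2 V) :
    e ∈ cyc (x :: l) ↔ e ∈ pe x l x := by
  unfold cyc pe
  rw [List.mem_toFinset, List.rotate_cons_succ, List.rotate_zero]

omit [Fintype V] [DecidableEq V] [DecidableRel G.Adj] in
private theorem Cross_ch_cons {x a : V} {l : List V} {y : V} :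
    Ch G x (a :: l) y ↔ G.Adj x a ∧ Ch G a l y := by
  unfold Ch
  rw [List.cons_append, List.isChain_cons_cons]

omit [Fintype V] [DecidableEq V] [DecidableRel G.Adj] in
private theorem Cross_ch_nil {x y : V} : Ch G x [] y ↔ G.Adj x y := by
  unfold Ch
  rw [List.nil_append, List.isChain_cons_cons]
  simp

omit [Fintype V] [DecidableEq V] [DecidableRel G.Adj] in
private theorem Cross_ch_append {x y z : V} {l1 l2 : List V} (h1 : Ch G x l1 y)
    (h2 : Ch G y l2 z) : Ch G x (l1 ++ y :: l2) z := by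
  induction l1 generalizing x with
  | nil => rw [List.nil_append, Cross_ch_cons]; exact ⟨Cross_ch_nil.1 h1, h2⟩
  | cons a l1 ih =>
    rw [Cross_ch_cons] at h1
    rw [List.cons_append, Cross_ch_cons]
    exact ⟨h1.1, ih h1.2⟩

omit [Fintype V] [DecidableEq V] [DecidableRel G.Adj] in
private theorem Cross_ch_reverse {x y : V} {l : List V} (h : Ch G x l y) :
    Ch G y l.reverse x := by
  induction l generalizing x with
  | nil => exact Cross_ch_nil.2 (Cross_ch_nil.1 h).symm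
  | cons a l ih =>
    rw [Cross_ch_cons] at h
    rw [List.reverse_cons]
    exact Cross_ch_append (ih h.2) (Cross_ch_nil.2 h.1.symm)

omit [Fintype V] [DecidableEq V] in
private theorem Cross_pe_reverse (x y : V) (l : List V) (e : Sym2 V) :
    e ∈ pe y l.reverse x ↔ e ∈ pe x l y := by
  induction l generalizing x with
  | nil => simp [pe, Sym2.eq_swap]
  | cons a l ih =>
    rw [List.reverse_cons, Cross_pe_append, List.mem_append, ih, Cross_pe_cons, List.mem_cons]
    have h : pe a [] x = [s(x, a)] := by simp [pe, Sym2.eq_swap]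
    rw [h, List.mem_singleton, or_comm]

/-- The vertices of a path. -/
private def Vx (x : V) (l : List V) (y v : V) : Prop := v = x ∨ v ∈ l ∨ v = y

omit [Fintype V] [DecidableEq V] [DecidableRel G.Adj] in
private theorem Cross_pe_mem {x y : V} {l : List V} (h : Ch G x l y) {e : Sym2 V}
    (he : e ∈ pe x l y) : ∃ u w, e = s(u, w) ∧ G.Adj u w ∧ Vx x l y u ∧ Vx x l y w := by
  induction l generalizing x with
  | nil =>
    have h1 : pe x [] y = [s(x, y)] := by simp [pe]
    rw [h1, List.mem_singleton] at he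
    exact ⟨x, y, he, Cross_ch_nil.1 h, Or.inl rfl, Or.inr (Or.inr rfl)⟩
  | cons a l ih =>
    rw [Cross_ch_cons] at h
    rw [Cross_pe_cons, List.mem_cons] at he
    rcases he with he | he
    · exact ⟨x, a, he, h.1, Or.inl rfl, Or.inr (Or.inl List.mem_cons_self)⟩
    · obtain ⟨u, w, h1, h2, h3, h4⟩ := ih h.2 he
      refine ⟨u, w, h1, h2, ?_, ?_⟩
      · rcases h3 with rfl | h3 | h3
        · exact Or.inr (Or.inl List.mem_cons_self)
        · exact Or.inr (Or.inl (List.mem_cons_of_mem _ h3))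
        · exact Or.inr (Or.inr h3)
      · rcases h4 with rfl | h4 | h4
        · exact Or.inr (Or.inl List.mem_cons_self)
        · exact Or.inr (Or.inl (List.mem_cons_of_mem _ h4))
        · exact Or.inr (Or.inr h4)

omit [Fintype V] [DecidableEq V] [DecidableRel G.Adj] in
/-- An edge at `v` of a path: `v` is on the path. -/
private theorem Cross_vx {x y : V} {l : List V} (h : Ch G x l y) {v w : V}
    (he : s(v, w) ∈ pe x l y) : Vx x l y v := by
  obtain ⟨u, u', h1, _, h3, h4⟩ := Cross_pe_mem h he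
  rw [Sym2.eq_iff] at h1
  rcases h1 with ⟨rfl, _⟩ | ⟨rfl, _⟩
  · exact h3
  · exact h4

omit [Fintype V] [DecidableEq V] [DecidableRel G.Adj] in
/-- Two paths with at most one common vertex have no common edge. -/
private theorem Cross_disj {x y x' y' : V} {l l' : List V} (h : Ch G x l y) (h' : Ch G x' l' y')
    (z : V) (hz : ∀ v, Vx x l y v → Vx x' l' y' v → v = z) {e : Sym2 V} (he : e ∈ pe x l y) :
    e ∉ pe x' l' y' := by
  intro he'
  obtain ⟨u, w, rfl, h2, h3, h4⟩ := Cross_pe_mem h he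
  have h5 := Cross_vx h' he'
  rw [Sym2.eq_swap] at he'
  have h6 := Cross_vx h' he'
  have h7 := hz u h3 h5
  have h8 := hz w h4 h6
  rw [h7, h8] at h2
  exact G.loopless.irrefl _ h2

omit [Fintype V] [DecidableEq V] [DecidableRel G.Adj] in
/-- The first edge. -/
private theorem Cross_first {x y : V} {l : List V} (h : Ch G x l y) :
    ∃ a, G.Adj x a ∧ s(x, a) ∈ pe x l y ∧ (a ∈ l ∨ a = y) := by
  cases l with
  | nil => exact ⟨y, Cross_ch_nil.1 h, by simp [pe], Or.inr rfl⟩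
  | cons a l =>
    exact ⟨a, (Cross_ch_cons.1 h).1, by rw [Cross_pe_cons]; exact List.mem_cons_self,
      Or.inl List.mem_cons_self⟩

omit [Fintype V] [DecidableEq V] [DecidableRel G.Adj] in
/-- The last edge. -/
private theorem Cross_last {x y : V} {l : List V} (h : Ch G x l y) :
    ∃ a, G.Adj y a ∧ s(y, a) ∈ pe x l y ∧ (a ∈ l ∨ a = x) := by
  obtain ⟨a, h1, h2, h3⟩ := Cross_first (Cross_ch_reverse h)
  rw [Cross_pe_reverse] at h2
  rw [List.mem_reverse] at h3
  exact ⟨a, h1, h2, h3⟩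

omit [DecidableEq V] in
private theorem Cross_pe_sub {x y : V} {l : List V} (h : Ch G x l y) {e : Sym2 V}
    (he : e ∈ pe x l y) : e ∈ G.edgeFinset := by
  obtain ⟨u, w, rfl, h2, _, _⟩ := Cross_pe_mem h he
  simpa using h2

/-- A cycle of at least three vertices is the boundary of a set of faces. -/
private theorem Cross_span (S : FaceStruct G) {x : V} {l : List V} (h : Ch G x l x)
    (nd : (x :: l).Nodup) (h2 : 2 ≤ l.length) :
    ∃ T : Finset S.F, ∀ e, e ∈ pe x l x ↔ Odd (T.filter (e ∈ S.B ·)).card := by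
  obtain ⟨T, hT⟩ := S.span (cyc (x :: l)) (by
    intro e he
    rw [Cross_mem_cyc] at he
    exact Cross_pe_sub h he) (fun v => even_cyc nd (by rw [List.length_cons]; omega) v)
  refine ⟨T, fun e => ?_⟩
  rw [← hT e, Cross_mem_cyc]

private theorem Cross_odd_face (S : FaceStruct G) {e : Sym2 V} {T : Finset S.F}
    (h : Odd (T.filter (e ∈ S.B ·)).card) : ∃ f, e ∈ S.B f := by
  have h1 : 0 < (T.filter (e ∈ S.B ·)).card := h.pos
  obtain ⟨f, hf⟩ := card_pos.1 h1
  exact ⟨f, (mem_filter.1 hf).2⟩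

/-- For an edge in an even number of the faces of `T`. -/
private theorem Cross_in_iff (S : FaceStruct G) {e : Sym2 V} {k : S.F} (hk : e ∈ S.B k)
    (T : Finset S.F) (hT : ¬ Odd (T.filter (e ∈ S.B ·)).card) : S.In T e ↔ k ∈ T := by
  constructor
  · rintro ⟨f, hfT, hf⟩
    by_contra hkT
    apply hT
    have h2 : (univ.filter (e ∈ S.B ·)).card = 2 := by
      rcases S.two e with h | h
      · rw [card_eq_zero, filter_eq_empty_iff] at h
        exact absurd hk (h (mem_univ k))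
      · exact h
    have hsub : T.filter (e ∈ S.B ·) ⊆ (univ.filter (e ∈ S.B ·)).erase k := by
      intro g hg
      rw [mem_filter] at hg
      rw [mem_erase, mem_filter]
      refine ⟨?_, mem_univ _, hg.2⟩
      rintro rfl
      exact hkT hg.1
    have h3 := card_le_card hsub
    rw [card_erase_of_mem (show k ∈ univ.filter (e ∈ S.B ·) from
      mem_filter.2 ⟨mem_univ _, hk⟩), h2] at h3
    have h4 : 0 < (T.filter (e ∈ S.B ·)).card := card_pos.2 ⟨f, mem_filter.2 ⟨hfT, hf⟩⟩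
    have h5 : (T.filter (e ∈ S.B ·)).card = 1 := by omega
    rw [h5]
    exact odd_one
  · intro hkT
    exact ⟨k, hkT, hk⟩

/-- For an edge in an odd number of the faces of `T`. -/
private theorem Cross_odd_iff (S : FaceStruct G) {e : Sym2 V} {k k' : S.F} (hk : e ∈ S.B k)
    (hk' : e ∈ S.B k') (hne : k ≠ k') (T : Finset S.F)
    (hT : Odd (T.filter (e ∈ S.B ·)).card) : ¬ (k ∈ T ↔ k' ∈ T) := by
  have h2 : (univ.filter (e ∈ S.B ·)).card = 2 := by
    rcases S.two e with h | h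
    · rw [card_eq_zero, filter_eq_empty_iff] at h
      exact absurd hk (h (mem_univ k))
    · exact h
  have hu : ({k, k'} : Finset S.F) = univ.filter (e ∈ S.B ·) := by
    apply eq_of_subset_of_card_le
    · intro f hf
      rw [mem_insert, mem_singleton] at hf
      rw [mem_filter]
      rcases hf with rfl | rfl
      · exact ⟨mem_univ _, hk⟩
      · exact ⟨mem_univ _, hk'⟩
    · rw [h2, card_pair hne]
  have hTf : T.filter (e ∈ S.B ·) = ({k, k'} : Finset S.F).filter (· ∈ T) := by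
    rw [hu]
    ext f
    simp only [mem_filter, mem_univ, true_and]
    exact and_comm
  intro hiff
  rw [hTf] at hT
  by_cases h : k ∈ T
  · have h' := hiff.1 h
    rw [filter_true_of_mem, card_pair hne] at hT
    · exact absurd hT (by decide)
    · intro f hf
      rw [mem_insert, mem_singleton] at hf
      rcases hf with rfl | rfl
      · exact h
      · exact h'
  · have h' : k' ∉ T := fun h1 => h (hiff.2 h1)
    rw [filter_false_of_mem, card_empty] at hT
    · exact absurd hT (by decide)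
    · intro f hf
      rw [mem_insert, mem_singleton] at hf
      rcases hf with rfl | rfl
      · exact h
      · exact h'

private theorem Cross_odd_symmDiff (S : FaceStruct G) (T T1 : Finset S.F) (e : Sym2 V) :
    Odd ((symmDiff T T1).filter (e ∈ S.B ·)).card ↔
      ¬ (Odd (T.filter (e ∈ S.B ·)).card ↔ Odd (T1.filter (e ∈ S.B ·)).card) := by
  have h1 : (symmDiff T T1).filter (e ∈ S.B ·) =
      symmDiff (T.filter (e ∈ S.B ·)) (T1.filter (e ∈ S.B ·)) := by
    ext f
    simp only [mem_filter, mem_symmDiff]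
    tauto
  rw [h1]
  generalize T.filter (e ∈ S.B ·) = X
  generalize T1.filter (e ∈ S.B ·) = Y
  have h2 : (symmDiff X Y).card = (X \ Y).card + (Y \ X).card := by
    rw [symmDiff_def, sup_eq_union, card_union_of_disjoint]
    rw [disjoint_left]
    intro d h1 h2
    exact (mem_sdiff.1 h1).2 (mem_sdiff.1 h2).1
  have h3 := Finset.card_sdiff_add_card_inter X Y
  have h4 := Finset.card_sdiff_add_card_inter Y X
  rw [inter_comm Y X] at h4
  rw [h2, ← h3, ← h4]
  simp only [Nat.odd_iff]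
  omega

private theorem Cross_prop {a b c d e : Prop} (e1 : ¬ (a ↔ b)) (g1 : d ↔ c)
    (g2 : (a ∧ ¬ c ∨ c ∧ ¬ a) ↔ (e ∧ ¬ d ∨ d ∧ ¬ e)) : ¬ (b ↔ e) := by
  tauto

private theorem Cross_main (S : FaceStruct G) (h3 : ∀ x, (G.neighborFinset x).card ≤ 3)
    {p q r s : V} {A B C D P Q : List V}
    (ndZ1 : (p :: (A ++ q :: (B ++ r :: P.reverse))).Nodup)
    (ndZ2 : (q :: (B ++ r :: (C ++ s :: Q.reverse))).Nodup)
    (qA : ∀ v, Vx q Q s v → Vx p A q v → v = q)
    (qB : ∀ v, Vx q Q s v → Vx q B r v → v = q)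
    (qC : ∀ v, Vx q Q s v → Vx r C s v → v = s)
    (qD : ∀ v, Vx q Q s v → Vx s D p v → v = s)
    (qP : ∀ v, Vx q Q s v → Vx p P r v → v = s)
    (pA : ∀ v, Vx p P r v → Vx p A q v → v = p)
    (pB : ∀ v, Vx p P r v → Vx q B r v → v = r)
    (pC : ∀ v, Vx p P r v → Vx r C s v → v = r)
    (pD : ∀ v, Vx p P r v → Vx s D p v → v = p)
    (iA : ∀ v, (v ∈ A ∨ v = q) → ¬ Vx r C s v ∧ ¬ Vx s D p v ∧ ¬ Vx p P r v)
    (iD : ∀ v, (v ∈ D ∨ v = s) → ¬ Vx p A q v ∧ ¬ Vx q B r v ∧ ¬ Vx p P r v)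
    (iQ : ∀ v, v ∈ Q → ¬ Vx p A q v ∧ ¬ Vx q B r v ∧ ¬ Vx r C s v ∧ ¬ Vx s D p v ∧
      ¬ Vx p P r v)
    (iP : ∀ v, v ∈ P → ¬ Vx p A q v ∧ ¬ Vx q B r v ∧ ¬ Vx r C s v ∧ ¬ Vx s D p v)
    (AD : ∀ v, (v ∈ A ∨ v = q) → (v ∈ D ∨ v = s) → False)
    (AP : ∀ v, (v ∈ A ∨ v = q) → (v ∈ P ∨ v = r) → False)
    (DP : ∀ v, (v ∈ D ∨ v = s) → (v ∈ P ∨ v = r) → False)
    (hA : Ch G p A q) (hB : Ch G q B r) (hC : Ch G r C s) (hD : Ch G s D p)
    (hP : Ch G p P r) (hQ : Ch G q Q s) (T : Finset S.F)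
    (hT : ∀ e, e ∈ cyc (p :: A ++ q :: B ++ r :: C ++ s :: D) ↔
      Odd (T.filter (e ∈ S.B ·)).card) :
    ∀ e ∈ pe p P r, ∀ e' ∈ pe q Q s, ¬ (S.In T e ↔ S.In T e') := by
  -- the cycles
  have hZ : ∀ e, (e ∈ pe p A q ∨ e ∈ pe q B r ∨ e ∈ pe r C s ∨ e ∈ pe s D p) ↔
      Odd (T.filter (e ∈ S.B ·)).card := by
    intro e
    rw [← hT e]
    have h1 : p :: A ++ q :: B ++ r :: C ++ s :: D = p :: (A ++ q :: (B ++ r :: (C ++ s :: D))) := by
      simp
    rw [h1, Cross_mem_cyc, Cross_pe_append, Cross_pe_append, Cross_pe_append, List.mem_append,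
      List.mem_append, List.mem_append]
  obtain ⟨T1, hT1⟩ := Cross_span S (Cross_ch_append hA (Cross_ch_append hB (Cross_ch_reverse hP)))
    ndZ1 (by simp; omega)
  have hZ1 : ∀ e, (e ∈ pe p A q ∨ e ∈ pe q B r ∨ e ∈ pe p P r) ↔
      Odd (T1.filter (e ∈ S.B ·)).card := by
    intro e
    rw [← hT1 e, Cross_pe_append, Cross_pe_append, List.mem_append, List.mem_append,
      Cross_pe_reverse]
  obtain ⟨T3, hT3⟩ := Cross_span S (Cross_ch_append hB (Cross_ch_append hC (Cross_ch_reverse hQ)))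
    ndZ2 (by simp; omega)
  have hZ3 : ∀ e, (e ∈ pe q B r ∨ e ∈ pe r C s ∨ e ∈ pe q Q s) ↔
      Odd (T3.filter (e ∈ S.B ·)).card := by
    intro e
    rw [← hT3 e, Cross_pe_append, Cross_pe_append, List.mem_append, List.mem_append,
      Cross_pe_reverse]
  have fA : ∀ e ∈ pe p A q, ∃ f, e ∈ S.B f := fun e he => Cross_odd_face S ((hZ e).1 (Or.inl he))
  have fD : ∀ e ∈ pe s D p, ∃ f, e ∈ S.B f := fun e he =>
    Cross_odd_face S ((hZ e).1 (Or.inr (Or.inr (Or.inr he))))
  have fP : ∀ e ∈ pe p P r, ∃ f, e ∈ S.B f := fun e he =>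
    Cross_odd_face S ((hZ1 e).1 (Or.inr (Or.inr he)))
  have fQ : ∀ e ∈ pe q Q s, ∃ f, e ∈ S.B f := fun e he =>
    Cross_odd_face S ((hZ3 e).1 (Or.inr (Or.inr he)))
  have hT2 : ∀ e, Odd ((symmDiff T T1).filter (e ∈ S.B ·)).card ↔
      ¬ ((e ∈ pe p A q ∨ e ∈ pe q B r ∨ e ∈ pe r C s ∨ e ∈ pe s D p) ↔
        (e ∈ pe p A q ∨ e ∈ pe q B r ∨ e ∈ pe p P r)) := by
    intro e
    rw [Cross_odd_symmDiff, ← hZ e, ← hZ1 e]
  -- no odd edges at interior vertices
  have oQT : ∀ v ∈ Q, ∀ w, ¬ Odd (T.filter (s(v, w) ∈ S.B ·)).card := by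
    intro v hv w
    rw [← hZ]
    obtain ⟨h1, h2, h3, h4, _⟩ := iQ v hv
    rintro (h | h | h | h)
    · exact h1 (Cross_vx hA h)
    · exact h2 (Cross_vx hB h)
    · exact h3 (Cross_vx hC h)
    · exact h4 (Cross_vx hD h)
  have oQT1 : ∀ v ∈ Q, ∀ w, ¬ Odd (T1.filter (s(v, w) ∈ S.B ·)).card := by
    intro v hv w
    rw [← hZ1]
    obtain ⟨h1, h2, _, _, h5⟩ := iQ v hv
    rintro (h | h | h)
    · exact h1 (Cross_vx hA h)
    · exact h2 (Cross_vx hB h)
    · exact h5 (Cross_vx hP h)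
  have oQT2 : ∀ v ∈ Q, ∀ w, ¬ Odd ((symmDiff T T1).filter (s(v, w) ∈ S.B ·)).card := by
    intro v hv w
    rw [Cross_odd_symmDiff]
    exact not_not.2 (iff_of_false (oQT v hv w) (oQT1 v hv w))
  have oPT : ∀ v ∈ P, ∀ w, ¬ Odd (T.filter (s(v, w) ∈ S.B ·)).card := by
    intro v hv w
    rw [← hZ]
    obtain ⟨h1, h2, h3, h4⟩ := iP v hv
    rintro (h | h | h | h)
    · exact h1 (Cross_vx hA h)
    · exact h2 (Cross_vx hB h)
    · exact h3 (Cross_vx hC h)
    · exact h4 (Cross_vx hD h)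
  have oDT1 : ∀ v, (v ∈ D ∨ v = s) → ∀ w, ¬ Odd (T1.filter (s(v, w) ∈ S.B ·)).card := by
    intro v hv w
    rw [← hZ1]
    obtain ⟨h1, h2, h5⟩ := iD v hv
    rintro (h | h | h)
    · exact h1 (Cross_vx hA h)
    · exact h2 (Cross_vx hB h)
    · exact h5 (Cross_vx hP h)
  have oAT2 : ∀ v, (v ∈ A ∨ v = q) → ∀ w,
      ¬ Odd ((symmDiff T T1).filter (s(v, w) ∈ S.B ·)).card := by
    intro v hv w
    rw [hT2]
    obtain ⟨h1, h2, h3⟩ := iA v hv
    have h4 : s(v, w) ∉ pe r C s := fun h => h1 (Cross_vx hC h)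
    have h5 : s(v, w) ∉ pe s D p := fun h => h2 (Cross_vx hD h)
    have h6 : s(v, w) ∉ pe p P r := fun h => h3 (Cross_vx hP h)
    simp only [h4, h5, h6, or_false, iff_self, not_true, not_false_iff]
  -- edges of P and Q
  have nP : ∀ e ∈ pe p P r, ¬ Odd (T.filter (e ∈ S.B ·)).card := by
    intro e he
    rw [← hZ]
    rintro (h | h | h | h)
    · exact Cross_disj hP hA p pA he h
    · exact Cross_disj hP hB r pB he h
    · exact Cross_disj hP hC r pC he h
    · exact Cross_disj hP hD p pD he h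
  have nQ : ∀ e ∈ pe q Q s, ¬ Odd (T.filter (e ∈ S.B ·)).card := by
    intro e he
    rw [← hZ]
    rintro (h | h | h | h)
    · exact Cross_disj hQ hA q qA he h
    · exact Cross_disj hQ hB q qB he h
    · exact Cross_disj hQ hC s qC he h
    · exact Cross_disj hQ hD s qD he h
  have nQ1 : ∀ e ∈ pe q Q s, ¬ Odd (T1.filter (e ∈ S.B ·)).card := by
    intro e he
    rw [← hZ1]
    rintro (h | h | h)
    · exact Cross_disj hQ hA q qA he h
    · exact Cross_disj hQ hB q qB he h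
    · exact Cross_disj hQ hP s qP he h
  have nQ2 : ∀ e ∈ pe q Q s, ¬ Odd ((symmDiff T T1).filter (e ∈ S.B ·)).card := by
    intro e he
    rw [Cross_odd_symmDiff]
    exact not_not.2 (iff_of_false (nQ e he) (nQ1 e he))
  -- the three edges at p
  obtain ⟨a, hpa, hea, ha⟩ := Cross_first hA
  obtain ⟨d, hpd, hed, hd⟩ := Cross_last hD
  obtain ⟨c, hpc, hec, hc⟩ := Cross_first hP
  have had : a ≠ d := by rintro rfl; exact AD a ha hd
  have hac : a ≠ c := by rintro rfl; exact AP a ha hc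
  have hdc : d ≠ c := by rintro rfl; exact DP d hd hc
  obtain ⟨fa, hfa⟩ := fA _ hea
  obtain ⟨fd, hfd⟩ := fD _ hed
  obtain ⟨fc, hfc⟩ := fP _ hec
  obtain ⟨k1, hk1a, hk1d⟩ := common_face S h3 hpa hpd hfa hfd
  obtain ⟨k2, hk2d, hk2c⟩ := common_face S h3 hpd hpc hfd hfc
  have hN : G.neighborFinset p = {a, d, c} := by
    symm
    apply eq_of_subset_of_card_le
    · intro w hw
      rw [mem_insert, mem_insert, mem_singleton] at hw
      rw [SimpleGraph.mem_neighborFinset]
      rcases hw with rfl | rfl | rfl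
      · exact hpa
      · exact hpd
      · exact hpc
    · have : ({a, d, c} : Finset V).card = 3 := by
        rw [card_insert_of_notMem, card_pair hdc]
        rw [mem_insert, mem_singleton]
        rintro (h | h)
        · exact had h
        · exact hac h
      rw [this]
      exact h3 p
  have hk12 : k1 ≠ k2 := by
    rintro rfl
    have h1 : (S.B k1).filter (p ∈ ·) = {s(p, a), s(p, d), s(p, c)} := by
      ext e
      rw [mem_filter, mem_insert, mem_insert, mem_singleton]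
      constructor
      · rintro ⟨h1, h2⟩
        obtain ⟨w, rfl⟩ := Sym2.mem_iff_exists.1 h2
        have h3 : G.Adj p w := by simpa using S.sub k1 h1
        have h4 : w ∈ G.neighborFinset p := (SimpleGraph.mem_neighborFinset _ _ _).2 h3
        rw [hN, mem_insert, mem_insert, mem_singleton] at h4
        rcases h4 with rfl | rfl | rfl
        · exact Or.inl rfl
        · exact Or.inr (Or.inl rfl)
        · exact Or.inr (Or.inr rfl)
      · rintro (rfl | rfl | rfl)
        · exact ⟨hk1a, Sym2.mem_mk_left _ _⟩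
        · exact ⟨hk1d, Sym2.mem_mk_left _ _⟩
        · exact ⟨hk2c, Sym2.mem_mk_left _ _⟩
    have h2 := S.even k1 p
    rw [h1, card_insert_of_notMem, card_pair] at h2
    · exact absurd h2 (by decide)
    · intro h
      exact hdc (Sym2.congr_right.1 h)
    · rw [mem_insert, mem_singleton]
      rintro (h | h)
      · exact had (Sym2.congr_right.1 h)
      · exact hac (Sym2.congr_right.1 h)
  -- d is not on Z1
  have nd1 : ¬ Odd (T1.filter (s(p, d) ∈ S.B ·)).card := by
    have h1 := oDT1 d hd p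
    rwa [Sym2.eq_swap] at h1
  have na2 : ¬ Odd ((symmDiff T T1).filter (s(p, a) ∈ S.B ·)).card := by
    have h1 := oAT2 a ha p
    rwa [Sym2.eq_swap] at h1
  have e1 : ¬ (k1 ∈ T ↔ k2 ∈ T) :=
    Cross_odd_iff S hk1d hk2d hk12 T ((hZ _).1 (Or.inr (Or.inr (Or.inr hed))))
  have e2 : S.In T s(p, c) ↔ k2 ∈ T := Cross_in_iff S hk2c T (nP _ hec)
  have e3 : S.In T1 s(p, d) ↔ k1 ∈ T1 := Cross_in_iff S hk1d T1 nd1
  have e4 : S.In (symmDiff T T1) s(p, a) ↔ k1 ∈ symmDiff T T1 := Cross_in_iff S hk1a _ na2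
  -- along D to Q with T1
  obtain ⟨d0, hsd, hed0, _⟩ := Cross_first hD
  obtain ⟨w0, hsw, hew0, _⟩ := Cross_last hQ
  obtain ⟨f1, hf1⟩ := fD _ hed0
  obtain ⟨f2, hf2⟩ := fQ _ hew0
  have e5 : S.In T1 s(p, d) ↔ S.In T1 s(s, d0) :=
    side_path S h3 hD fD T1 (fun v hv => oDT1 v (Or.inl hv)) _ hed _ hed0
  have e6 : S.In T1 s(s, d0) ↔ S.In T1 s(s, w0) :=
    side_vertex S h3 hsd hsw hf1 hf2 T1 (oDT1 s (Or.inr rfl))
  -- along A to Q with T2
  obtain ⟨a0, hqa, hea0, _⟩ := Cross_last hA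
  obtain ⟨w1, hqw, hew1, _⟩ := Cross_first hQ
  obtain ⟨f3, hf3⟩ := fA _ hea0
  obtain ⟨f4, hf4⟩ := fQ _ hew1
  have e7 : S.In (symmDiff T T1) s(p, a) ↔ S.In (symmDiff T T1) s(q, a0) :=
    side_path S h3 hA fA _ (fun v hv => oAT2 v (Or.inl hv)) _ hea _ hea0
  have e8 : S.In (symmDiff T T1) s(q, a0) ↔ S.In (symmDiff T T1) s(q, w1) :=
    side_vertex S h3 hqa hqw hf3 hf4 _ (oAT2 q (Or.inr rfl))
  intro e he e' he'
  obtain ⟨f, hf⟩ := fQ e' he'
  have e9 : S.In T e ↔ S.In T s(p, c) := side_path S h3 hP fP T oPT _ he _ hec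
  have e10 : S.In T1 e' ↔ S.In T1 s(s, w0) := side_path S h3 hQ fQ T1 oQT1 _ he' _ hew0
  have e11 : S.In (symmDiff T T1) e' ↔ S.In (symmDiff T T1) s(q, w1) :=
    side_path S h3 hQ fQ _ oQT2 _ he' _ hew1
  have e12 : S.In T e' ↔ f ∈ T := Cross_in_iff S hf T (nQ e' he')
  have e13 : S.In T1 e' ↔ f ∈ T1 := Cross_in_iff S hf T1 (nQ1 e' he')
  have e14 : S.In (symmDiff T T1) e' ↔ f ∈ symmDiff T T1 := Cross_in_iff S hf _ (nQ2 e' he')
  rw [mem_symmDiff] at e4 e14
  have g1 : f ∈ T1 ↔ k1 ∈ T1 := by rw [← e13, e10, ← e6, ← e5, e3]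
  have g2 : (k1 ∈ T ∧ k1 ∉ T1 ∨ k1 ∈ T1 ∧ k1 ∉ T) ↔ (f ∈ T ∧ f ∉ T1 ∨ f ∈ T1 ∧ f ∉ T) := by
    rw [← e4, ← e14, e11, ← e8, ← e7]
  rw [e9, e2, e12]
  exact Cross_prop e1 g1 g2

/-- The crossing lemma: `p, q, r, s` are in this order on a cycle with the arcs `A, B, C, D`, the
paths `P` from `p` to `r` and `Q` from `q` to `s` are disjoint chord paths. `T` is one side of the
cycle. Then `P` and `Q` are on different sides.

Proof. All edges of the six paths are on cycles, so they are in faces (`span`, `even_cyc`, `two`).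
Let `Z` be the cycle, `Z1` the cycle formed by `P, A, B` (through `p, q, r`), and `T1` a set of
faces with boundary `Z1` (`span`); `T2 := symmDiff T T1` has the boundary `Z2`, the cycle formed by
`P, C, D` (through `p, r, s`).
At `p` there are three edges: `eA` (first edge of `A`), `eD` (last edge of `D`), `eP` (first edge of
`P`), all in faces, so there are three faces: `F1 ∋ eA, eD`, `F2 ∋ eD, eP`, `F3 ∋ eA, eP`, and each
edge is in exactly the two faces. Membership in `T` (mod 2): `eA, eD ∈ Z`, `eP ∉ Z`: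
`T(F1) + T(F3) = 1`, `T(F1) + T(F2) = 1`, `T(F2) + T(F3) = 0`. Membership in `T1`: `eA, eP ∈ Z1`,
`eD ∉ Z1`: `T1(F1) + T1(F3) = 1`, `T1(F2) + T1(F3) = 1`, `T1(F1) = T1(F2) =: α`. So
`In T eP ↔ T(F2)`, `In T1 eD ↔ α`, `In T2 eA ↔ T2(F1) = T(F1) + T1(F1) = T(F2) + 1 + α`
(`eA ∉ Z2`).
No vertex of `D` and not `s` is on `Z1`: so `In T1 eD ↔ In T1 eQ'` where `eQ'` is the last edge of
`Q` (`side_path` for `D`, `side_vertex` at `s`). No vertex of `A` and not `q` is on `Z2`: so
`In T2 eA ↔ In T2 eQ` where `eQ` is the first edge of `Q`. No interior vertex of `Q` is on `Z`, `Z1`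
or `Z2`, so all edges of `Q` are on the same side for `T, T1, T2`; and `T2(f) = T(f) + T1(f)` for a
face `f` of `eQ`. So `T(F2) + 1 + α = T(eQ) + T1(eQ) = T(eQ) + α`, hence `T(eQ) = T(F2) + 1`, i.e.
`P` and `Q` are on different sides. -/
theorem crossing (S : FaceStruct G) (h3 : ∀ x, (G.neighborFinset x).card ≤ 3) {p q r s : V}
    {A B C D P Q : List V} (nd : (p :: q :: r :: s :: (A ++ B ++ C ++ D ++ P ++ Q)).Nodup)
    (hA : Ch G p A q) (hB : Ch G q B r) (hC : Ch G r C s) (hD : Ch G s D p)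
    (hP : Ch G p P r) (hQ : Ch G q Q s) (T : Finset S.F)
    (hT : ∀ e, e ∈ cyc (p :: A ++ q :: B ++ r :: C ++ s :: D) ↔
      Odd (T.filter (e ∈ S.B ·)).card) :
    ∀ e ∈ pe p P r, ∀ e' ∈ pe q Q s, ¬ (S.In T e ↔ S.In T e') := by
  simp only [List.nodup_cons, List.nodup_append, List.mem_cons, List.mem_append, not_or] at nd
  -- vertices
  have qA : ∀ v, Vx q Q s v → Vx p A q v → v = q := by
    intro v h1 h2; unfold Vx at h1 h2; grind
  have qB : ∀ v, Vx q Q s v → Vx q B r v → v = q := by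
    intro v h1 h2; unfold Vx at h1 h2; grind
  have qC : ∀ v, Vx q Q s v → Vx r C s v → v = s := by
    intro v h1 h2; unfold Vx at h1 h2; grind
  have qD : ∀ v, Vx q Q s v → Vx s D p v → v = s := by
    intro v h1 h2; unfold Vx at h1 h2; grind
  have qP : ∀ v, Vx q Q s v → Vx p P r v → v = s := by
    intro v h1 h2; unfold Vx at h1 h2; grind
  have pA : ∀ v, Vx p P r v → Vx p A q v → v = p := by
    intro v h1 h2; unfold Vx at h1 h2; grind
  have pB : ∀ v, Vx p P r v → Vx q B r v → v = r := by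
    intro v h1 h2; unfold Vx at h1 h2; grind
  have pC : ∀ v, Vx p P r v → Vx r C s v → v = r := by
    intro v h1 h2; unfold Vx at h1 h2; grind
  have pD : ∀ v, Vx p P r v → Vx s D p v → v = p := by
    intro v h1 h2; unfold Vx at h1 h2; grind
  have iA : ∀ v, (v ∈ A ∨ v = q) → ¬ Vx r C s v ∧ ¬ Vx s D p v ∧ ¬ Vx p P r v := by
    intro v h1; unfold Vx; grind
  have iD : ∀ v, (v ∈ D ∨ v = s) → ¬ Vx p A q v ∧ ¬ Vx q B r v ∧ ¬ Vx p P r v := by
    intro v h1; unfold Vx; grind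
  have iQ : ∀ v, v ∈ Q → ¬ Vx p A q v ∧ ¬ Vx q B r v ∧ ¬ Vx r C s v ∧ ¬ Vx s D p v ∧
      ¬ Vx p P r v := by
    intro v h1; unfold Vx; grind
  have iP : ∀ v, v ∈ P → ¬ Vx p A q v ∧ ¬ Vx q B r v ∧ ¬ Vx r C s v ∧ ¬ Vx s D p v := by
    intro v h1; unfold Vx; grind
  have AD : ∀ v, (v ∈ A ∨ v = q) → (v ∈ D ∨ v = s) → False := by
    intro v h1 h2; grind
  have AP : ∀ v, (v ∈ A ∨ v = q) → (v ∈ P ∨ v = r) → False := by
    intro v h1 h2; grind
  have DP : ∀ v, (v ∈ D ∨ v = s) → (v ∈ P ∨ v = r) → False := by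
    intro v h1 h2; grind
  have ndZ1 : (p :: (A ++ q :: (B ++ r :: P.reverse))).Nodup := by
    simp only [List.nodup_cons, List.nodup_append, List.mem_cons, List.mem_append, not_or,
      List.nodup_reverse, List.mem_reverse]
    grind
  have ndZ2 : (q :: (B ++ r :: (C ++ s :: Q.reverse))).Nodup := by
    clear ndZ1
    simp only [List.nodup_cons, List.nodup_append, List.mem_cons, List.mem_append, not_or,
      List.nodup_reverse, List.mem_reverse]
    grind
  exact Cross_main S h3 ndZ1 ndZ2 qA qB qC qD qP pA pB pC pD iA iD iQ iP AD AP DP hA hB hC hD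
    hP hQ T hT

end Pool.Agent.E8B
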