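import Mathlib

/-!
# Packing choosability of subcubic planar graphs (MP_e8b334_co, Q1): definitions of the proof

`G` is always a finite graph with all degrees at most three.
-/

set_option autoImplicit false

namespace Pool.Agent.E8B

open Finset

universe u

section

variable {V : Type u}

/-- Two distinct vertices at distance at most two. -/
def Near (G : SimpleGraph V) (u v : V) : Prop :=
  u ≠ v ∧ (G.Adj u v ∨ ∃ w, G.Adj u w ∧ G.Adj w v)

/-- `x`, the vertices of the list `l`, and `y` are the vertices of a walk in this order. -/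
def Ch (G : SimpleGraph V) (x : V) (l : List V) (y : V) : Prop :=
  List.IsChain G.Adj (x :: (l ++ [y]))

/-- There is no cycle with three pairwise crossing disjoint chord paths, i.e. no subdivision
of `K_{3,3}`: `b1, …, b6` in this order on a cycle with the arcs `A1, …, A6` between them, and the
paths `P1, P2, P3` from `b1` to `b4`, from `b2` to `b5` and from `b3` to `b6`. -/
def NoK33 (G : SimpleGraph V) : Prop :=
  ∀ (b1 b2 b3 b4 b5 b6 : V) (A1 A2 A3 A4 A5 A6 P1 P2 P3 : List V),
    (b1 :: b2 :: b3 :: b4 :: b5 :: b6 ::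
      (A1 ++ A2 ++ A3 ++ A4 ++ A5 ++ A6 ++ P1 ++ P2 ++ P3)).Nodup →
    Ch G b1 A1 b2 → Ch G b2 A2 b3 → Ch G b3 A3 b4 → Ch G b4 A4 b5 → Ch G b5 A5 b6 →
    Ch G b6 A6 b1 → Ch G b1 P1 b4 → Ch G b2 P2 b5 → Ch G b3 P3 b6 → False

/-- Outside the cycle `c` there are no two crossing disjoint chord paths of `c`. -/
def NoCross (G : SimpleGraph V) (c : List V) : Prop :=
  ∀ (p q r s : V) (A B C D P Q : List V),
    c.IsRotated (p :: A ++ q :: B ++ r :: C ++ s :: D) → (c ++ P ++ Q).Nodup →
    Ch G p P r → Ch G q Q s → False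

/-- There are no cycles of length three and four. -/
def G5 (G : SimpleGraph V) : Prop :=
  (∀ a b c, G.Adj a b → G.Adj b c → ¬ G.Adj c a) ∧
  ∀ a b c d, a ≠ c → G.Adj a b → G.Adj b c → G.Adj a d → G.Adj d c → b = d

/-- `v, x, p, q, y` is a cycle of length five through the neighbours `x ≠ y` of `v`
(if `G5 G` holds). -/
structure Ang (G : SimpleGraph V) (x v y p q : V) : Prop where
  vx : G.Adj v x
  vy : G.Adj v y
  xy : x ≠ y
  xp : G.Adj x p
  pq : G.Adj p q
  qy : G.Adj q y
  pv : p ≠ v
  qv : q ≠ v

/-- Every pair of neighbours of a vertex is in at most one cycle of length five through the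
vertex. -/
def Uniq (G : SimpleGraph V) : Prop :=
  ∀ x v y p q p' q', Ang G x v y p q → Ang G x v y p' q' → p = p' ∧ q = q'

variable {β : Type*} [DecidableEq V]

/-- `I` is a set of vertices of `D` such that `I ∪ W` is independent, and every vertex of `D`
outside `I` has a neighbour in `I ∪ W`. -/
structure Pair (G : SimpleGraph V) (D W I : Finset V) : Prop where
  sub : I ⊆ D
  ind : ∀ x ∈ I ∪ W, ∀ y ∈ I ∪ W, ¬ G.Adj x y
  dom : ∀ v ∈ D, v ∉ I → ∃ x ∈ I ∪ W, G.Adj v x

/-- There is such a set `I` for which the vertices of `D` outside `I` can be coloured from the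
lists `L` such that vertices at distance at most two in `G` get different colours. -/
def Good (G : SimpleGraph V) (L : V → Finset β) (D W : Finset V) : Prop :=
  ∃ I, Pair G D W I ∧ ∃ g : V → β, (∀ v ∈ D, v ∉ I → g v ∈ L v) ∧
    ∀ u ∈ D, ∀ v ∈ D, u ∉ I → v ∉ I → Near G u v → g u ≠ g v

/-- The finite set `S` contains all vertices of `D'` outside `I`, different from `v`, which are
equal or adjacent to the neighbour `x` of `v`. -/
def Cov (G : SimpleGraph V) (D' I : Finset V) (v x : V) (S : Finset V) : Prop :=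
  ∀ w ∈ D', w ∉ I → w ≠ v → w = x ∨ G.Adj x w → w ∈ S

/-- The finite set `S` contains all vertices of `D'` outside `I` at distance at most two from
`v`. -/
def Nr (G : SimpleGraph V) (D' I : Finset V) (v : V) (S : Finset V) : Prop :=
  ∀ w ∈ D', w ∉ I → Near G v w → w ∈ S

variable [Fintype V]

/-- Every vertex outside `D` has at most two neighbours in `D`. -/
def Inv (G : SimpleGraph V) [DecidableRel G.Adj] (D : Finset V) : Prop :=
  ∀ w, w ∉ D → (G.neighborFinset w ∩ D).card ≤ 2

/-- The states of the flood: `W` are the vertices which already have the 1-colour, `D` are the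
vertices which are not yet treated, the other vertices will be coloured at the end. -/
structure St (G : SimpleGraph V) [DecidableRel G.Adj] (D W : Finset V) : Prop where
  disj : Disjoint D W
  ind : ∀ x ∈ W, ∀ y ∈ W, ¬ G.Adj x y
  inv : Inv G D

/-- One step of the flood. -/
structure Step (G : SimpleGraph V) [DecidableRel G.Adj] (L : V → Finset β)
    (D W D1 W1 : Finset V) : Prop where
  sub : D1 ⊂ D
  st : St G D1 W1
  good : Good G L D1 W1 → Good G L D W

/-- No step is possible. -/
def Stuck (G : SimpleGraph V) [DecidableRel G.Adj] (L : V → Finset β) (D W : Finset V) : Prop :=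
  St G D W ∧ ∀ D1 W1, ¬ Step G L D W D1 W1

/-- An inner vertex of `D`: all its neighbours are in `D`. -/
def Inn (G : SimpleGraph V) [DecidableRel G.Adj] (D : Finset V) (v : V) : Prop :=
  v ∈ D ∧ ∀ x, G.Adj v x → x ∈ D

/-- A boundary vertex `v` of `D`: its neighbours are `z ∈ W` and `p, q ∈ D`, and `s` is the other
neighbour of `z` in `D`. -/
structure Bd (G : SimpleGraph V) [DecidableRel G.Adj] (D W : Finset V) (v z p q s : V) :
    Prop where
  vD : v ∈ D
  nb : G.neighborFinset v = {z, p, q}
  zp : z ≠ p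
  zq : z ≠ q
  pq : p ≠ q
  zW : z ∈ W
  pD : p ∈ D
  qD : q ∈ D
  nz : G.neighborFinset z ∩ D = {v, s}
  vs : v ≠ s

/-- The names of the vertices of the dodecahedron around the vertex `o`. -/
structure Dode (G : SimpleGraph V) [DecidableRel G.Adj]
    (o a b c a1 a2 b1 b2 c1 c2 A1 A2 B1 B2 C1 C2 zab zbc zca t : V) : Prop where
  nd : [o, a, b, c, a1, a2, b1, b2, c1, c2, A1, A2, B1, B2, C1, C2, zab, zbc, zca, t].Nodup
  no : G.neighborFinset o = {a, b, c}
  na : G.neighborFinset a = {o, a1, a2}
  nb : G.neighborFinset b = {o, b1, b2}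
  nc : G.neighborFinset c = {o, c1, c2}
  na1 : G.neighborFinset a1 = {a, b2, A1}
  nb2 : G.neighborFinset b2 = {b, a1, B2}
  nb1 : G.neighborFinset b1 = {b, c2, B1}
  nc2 : G.neighborFinset c2 = {c, b1, C2}
  nc1 : G.neighborFinset c1 = {c, a2, C1}
  na2 : G.neighborFinset a2 = {a, c1, A2}
  nA2 : G.neighborFinset A2 = {a2, A1, zca}
  nB2 : G.neighborFinset B2 = {b2, B1, zab}
  nC2 : G.neighborFinset C2 = {c2, C1, zbc}

/-- The faces of a connected plane graph: `B f` is the set of the edges which are on the boundary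
of the face `f` and of exactly one other face (so no bridges). -/
structure FaceStruct (G : SimpleGraph V) [DecidableRel G.Adj] where
  F : Type u
  [fin : Fintype F]
  [dec : DecidableEq F]
  B : F → Finset (Sym2 V)
  sub : ∀ f, B f ⊆ G.edgeFinset
  even : ∀ f v, Even ((B f).filter (v ∈ ·)).card
  two : ∀ e, (univ.filter (e ∈ B ·)).card = 0 ∨ (univ.filter (e ∈ B ·)).card = 2
  span : ∀ Z ⊆ G.edgeFinset, (∀ v, Even (Z.filter (v ∈ ·)).card) →
    ∃ T : Finset F, ∀ e, e ∈ Z ↔ Odd (T.filter (e ∈ B ·)).card
  kernel : ∀ T : Finset F, (∀ e, Even (T.filter (e ∈ B ·)).card) → T = ∅ ∨ T = univ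
  euler : Fintype.card V + Fintype.card F = G.edgeFinset.card + 2

attribute [instance] FaceStruct.fin FaceStruct.dec

/-- `e` is on the boundary of a face of the set `T`. -/
def FaceStruct.In {G : SimpleGraph V} [DecidableRel G.Adj] (S : FaceStruct G) (T : Finset S.F)
    (e : Sym2 V) : Prop := ∃ f ∈ T, e ∈ S.B f

/-- The edges of the walk `x`, `l`, `y`. -/
def pe (x : V) (l : List V) (y : V) : List (Sym2 V) :=
  List.zipWith (fun a b => s(a, b)) (x :: l) (l ++ [y])

/-- The edges of the closed walk with the vertices of the list `c`. -/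
def cyc (c : List V) : Finset (Sym2 V) :=
  (List.zipWith (fun x y => s(x, y)) c (c.rotate 1)).toFinset

end

end Pool.Agent.E8B
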