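import Pool.Agent.E8B.Defs

set_option autoImplicit false
set_option linter.unusedSimpArgs false

namespace Pool.Agent.E8B

open Finset

universe u

variable {V : Type u} [Fintype V] [DecidableEq V] {G : SimpleGraph V} [DecidableRel G.Adj]

omit [Fintype V] [DecidableRel G.Adj] in
private theorem e5_next {Z : Finset (Sym2 V)}
    (he : ∀ v, Even (Z.filter (v ∈ ·)).card) {a b : V} (h : s(a, b) ∈ Z) :
    ∃ c, c ≠ a ∧ s(b, c) ∈ Z := by
  have h1 : s(a, b) ∈ Z.filter (b ∈ ·) := by simp [h]
  have h2 : 1 < (Z.filter (b ∈ ·)).card := by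
    have := he b
    have hp : 0 < (Z.filter (b ∈ ·)).card := Finset.card_pos.2 ⟨_, h1⟩
    obtain ⟨k, hk⟩ := this
    omega
  obtain ⟨e, hee, hne⟩ := Finset.exists_mem_ne h2 s(a, b)
  rw [Finset.mem_filter] at hee
  obtain ⟨c, rfl⟩ := Sym2.mem_iff_exists.1 hee.2
  refine ⟨c, ?_, hee.1⟩
  rintro rfl
  exact hne (Sym2.eq_swap)

private theorem e5_two (hcub : ∀ x, (G.neighborFinset x).card = 3) {Z : Finset (Sym2 V)}
    (hZ : Z ⊆ G.edgeFinset) (he : ∀ v, Even (Z.filter (v ∈ ·)).card) {b c d e : V}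
    (h1 : s(b, c) ∈ Z) (h2 : s(b, d) ∈ Z) (h3 : s(b, e) ∈ Z) :
    c = d ∨ c = e ∨ d = e := by
  by_contra hn
  push Not at hn
  obtain ⟨n1, n2, n3⟩ := hn
  have hle : (Z.filter (b ∈ ·)).card ≤ 3 := by
    rw [← hcub b]
    have hs : Z.filter (b ∈ ·) ⊆ (G.neighborFinset b).image (fun x => s(b, x)) := by
      intro e hee
      rw [Finset.mem_filter] at hee
      obtain ⟨c, rfl⟩ := Sym2.mem_iff_exists.1 hee.2
      have := hZ hee.1
      rw [SimpleGraph.mem_edgeFinset, SimpleGraph.mem_edgeSet] at this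
      exact Finset.mem_image.2 ⟨c, by simpa using this, rfl⟩
    exact (Finset.card_le_card hs).trans Finset.card_image_le
  have hge : 3 ≤ (Z.filter (b ∈ ·)).card := by
    have hs : ({s(b, c), s(b, d), s(b, e)} : Finset (Sym2 V)) ⊆ Z.filter (b ∈ ·) := by
      intro x hx
      simp only [Finset.mem_insert, Finset.mem_singleton] at hx
      rcases hx with rfl | rfl | rfl <;> simp [h1, h2, h3]
    have hc : ({s(b, c), s(b, d), s(b, e)} : Finset (Sym2 V)).card = 3 := by
      rw [Finset.card_eq_three]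
      refine ⟨_, _, _, ?_, ?_, ?_, rfl⟩
      · intro h; exact n1 (Sym2.congr_right.1 h)
      · intro h; exact n2 (Sym2.congr_right.1 h)
      · intro h; exact n3 (Sym2.congr_right.1 h)
    rw [← hc]
    exact Finset.card_le_card hs
  obtain ⟨k, hk⟩ := he b
  omega

/-- An even set of edges which contains the edge `v0 v1`, in a cubic graph of girth at least five:
follow it: `v1` is on exactly two edges of `Z` (even, at most three, at least one): the next one is
`v1 v2`, then `v2 v3`, `v3 v4`, `v4 v5`. The vertices `v0, …, v4` are different and `v5` is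
different from `v1, …, v4` by girth, so these are five different edges. If `Z` has exactly five
edges then `v5 = v0` (`v5` is on a second edge of `Z`). If `Z` has exactly six edges, then
`v5 ≠ v0` (otherwise one edge remains, which is impossible in an even set), the sixth edge is
`v5 v6`, and `v6 = v0` by evenness and girth. -/
theorem even_five (hcub : ∀ x, (G.neighborFinset x).card = 3) (h5 : G5 G) {Z : Finset (Sym2 V)}
    (hZ : Z ⊆ G.edgeFinset) (he : ∀ v, Even (Z.filter (v ∈ ·)).card) {v0 v1 : V}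
    (h : s(v0, v1) ∈ Z) : 5 ≤ Z.card ∧
      (Z.card = 5 → ∃ v2 v3 v4, [v0, v1, v2, v3, v4].Nodup ∧ Z = cyc [v0, v1, v2, v3, v4]) ∧
      (Z.card = 6 → ∃ v2 v3 v4 v5, [v0, v1, v2, v3, v4, v5].Nodup ∧
        Z = cyc [v0, v1, v2, v3, v4, v5]) := by
  have adj : ∀ {a b : V}, s(a, b) ∈ Z → G.Adj a b := by
    intro a b hab
    have := hZ hab
    rwa [SimpleGraph.mem_edgeFinset, SimpleGraph.mem_edgeSet] at this
  obtain ⟨tri, quad⟩ := h5
  obtain ⟨v2, n20, h12⟩ := e5_next he h
  obtain ⟨v3, n31, h23⟩ := e5_next he h12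
  obtain ⟨v4, n42, h34⟩ := e5_next he h23
  obtain ⟨v5, n53, h45⟩ := e5_next he h34
  obtain ⟨v6, n64, h56⟩ := e5_next he h45
  have n01 : v0 ≠ v1 := (adj h).ne
  have n12 : v1 ≠ v2 := (adj h12).ne
  have n23 : v2 ≠ v3 := (adj h23).ne
  have n34 : v3 ≠ v4 := (adj h34).ne
  have n45 : v4 ≠ v5 := (adj h45).ne
  have n56 : v5 ≠ v6 := (adj h56).ne
  have n30 : v3 ≠ v0 := by
    rintro rfl
    exact tri _ _ _ (adj h) (adj h12) (adj h23)
  have n41 : v4 ≠ v1 := by
    rintro rfl
    exact tri _ _ _ (adj h12) (adj h23) (adj h34)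
  have n52 : v5 ≠ v2 := by
    rintro rfl
    exact tri _ _ _ (adj h23) (adj h34) (adj h45)
  have n63 : v6 ≠ v3 := by
    rintro rfl
    exact tri _ _ _ (adj h34) (adj h45) (adj h56)
  have n40 : v4 ≠ v0 := by
    rintro rfl
    exact n31 (quad _ v1 v2 v3 n20.symm (adj h) (adj h12) (adj h34).symm (adj h23).symm).symm
  have n51 : v5 ≠ v1 := by
    rintro rfl
    exact n42 (quad _ v2 v3 v4 n31.symm (adj h12) (adj h23) (adj h45).symm (adj h34).symm).symm
  have n62 : v6 ≠ v2 := by
    rintro rfl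
    exact n53 (quad _ v3 v4 v5 n42.symm (adj h23) (adj h34) (adj h56).symm (adj h45).symm).symm
  have hn5 : [s(v0, v1), s(v1, v2), s(v2, v3), s(v3, v4), s(v4, v5)].Nodup := by
    simp [n01, n12, n23, n34, n45, n56, n20, n31, n42, n53, n64, n30, n41, n52, n63, n40, n51,
      n62, n01.symm, n12.symm, n23.symm, n34.symm, n45.symm, n56.symm, n20.symm, n31.symm,
      n42.symm, n53.symm, n64.symm, n30.symm, n41.symm, n52.symm, n63.symm, n40.symm, n51.symm,
      n62.symm]
  have hc5 : ([s(v0, v1), s(v1, v2), s(v2, v3), s(v3, v4), s(v4, v5)].toFinset).card = 5 := by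
    rw [List.toFinset_card_of_nodup hn5]; rfl
  have hs5 : [s(v0, v1), s(v1, v2), s(v2, v3), s(v3, v4), s(v4, v5)].toFinset ⊆ Z := by
    intro x hx
    simp only [List.mem_toFinset, List.mem_cons, List.not_mem_nil, or_false] at hx
    rcases hx with rfl | rfl | rfl | rfl | rfl <;> assumption
  refine ⟨?_, ?_, ?_⟩
  · rw [← hc5]
    exact Finset.card_le_card hs5
  · intro hZ5
    have hZe : [s(v0, v1), s(v1, v2), s(v2, v3), s(v3, v4), s(v4, v5)].toFinset = Z :=
      Finset.eq_of_subset_of_card_le hs5 (by rw [hc5, hZ5])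
    have h50 : v5 = v0 := by
      by_contra n50
      have hm := h56
      rw [← hZe] at hm
      revert hm
      simp [n01, n12, n23, n34, n45, n56, n20, n31, n42, n53, n64, n30, n41, n52, n63, n40, n51, n62, n01.symm, n12.symm, n23.symm, n34.symm, n45.symm, n56.symm, n20.symm, n31.symm, n42.symm, n53.symm, n64.symm, n30.symm, n41.symm, n52.symm, n63.symm, n40.symm, n51.symm, n62.symm, n50]
    subst h50
    refine ⟨v2, v3, v4, ?_, ?_⟩
    · simp [n01, n12, n23, n34, n45, n56, n20, n31, n42, n53, n64, n30, n41, n52, n63, n40, n51, n62, n01.symm, n12.symm, n23.symm, n34.symm, n45.symm, n56.symm, n20.symm, n31.symm, n42.symm, n53.symm, n64.symm, n30.symm, n41.symm, n52.symm, n63.symm, n40.symm, n51.symm, n62.symm]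
    · rw [← hZe]
      rfl
  · intro hZ6
    have n50 : v5 ≠ v0 := by
      intro h50
      subst h50
      have hlt : ([s(v5, v1), s(v1, v2), s(v2, v3), s(v3, v4), s(v4, v5)].toFinset).card
        < Z.card := by rw [hc5, hZ6]; norm_num
      obtain ⟨e6, he6, hne6⟩ := Finset.exists_mem_notMem_of_card_lt_card hlt
      induction e6 using Sym2.ind with
      | _ a b =>
      obtain ⟨c, hca, hbc⟩ := e5_next he he6
      have hab : s(b, a) ∈ Z := by rw [Sym2.eq_swap]; exact he6
      have key : ∀ x y, s(b, x) ∈ Z → s(b, y) ∈ Z → x ≠ y → a = x ∨ a = y := by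
        intro x y hx hy hxy
        rcases e5_two hcub hZ he hab hx hy with k | k | k
        · exact Or.inl k
        · exact Or.inr k
        · exact absurd k hxy
      have hZe : insert s(a, b) [s(v5, v1), s(v1, v2), s(v2, v3), s(v3, v4), s(v4, v5)].toFinset
          = Z := by
        refine Finset.eq_of_subset_of_card_le (Finset.insert_subset he6 hs5) ?_
        rw [Finset.card_insert_of_notMem hne6, hc5, hZ6]
      have hb : b = v5 ∨ b = v1 ∨ b = v2 ∨ b = v3 ∨ b = v4 := by
        have hm := hbc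
        rw [← hZe, Finset.mem_insert] at hm
        rcases hm with hm | hm
        · rcases Sym2.eq_iff.1 hm with ⟨k1, k2⟩ | ⟨k1, k2⟩
          · exact absurd (k2.trans k1) hca
          · exact absurd k2 hca
        · simp only [List.mem_toFinset, List.mem_cons, List.not_mem_nil, or_false,
            Sym2.eq_iff] at hm
          clear hZe key tri quad
          rcases hm with (⟨k, -⟩ | ⟨k, -⟩) | (⟨k, -⟩ | ⟨k, -⟩) | (⟨k, -⟩ | ⟨k, -⟩) |
            (⟨k, -⟩ | ⟨k, -⟩) | (⟨k, -⟩ | ⟨k, -⟩) <;> simp [k]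
      have sw : ∀ {x y : V}, s(x, y) ∈ Z → s(y, x) ∈ Z := by
        intro x y hxy
        rw [Sym2.eq_swap]; exact hxy
      apply hne6
      rw [List.mem_toFinset]
      rcases hb with rfl | rfl | rfl | rfl | rfl
      · rcases key v1 v4 h (sw h45) n41.symm with rfl | rfl <;> simp [Sym2.eq_swap]
      · rcases key v5 v2 (sw h) h12 n52 with rfl | rfl <;> simp [Sym2.eq_swap]
      · rcases key v1 v3 (sw h12) h23 n31.symm with rfl | rfl <;> simp [Sym2.eq_swap]
      · rcases key v2 v4 (sw h23) h34 n42.symm with rfl | rfl <;> simp [Sym2.eq_swap]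
      · rcases key v3 v5 (sw h34) h45 n53.symm with rfl | rfl <;> simp [Sym2.eq_swap]
    have n61 : v6 ≠ v1 := by
      rintro rfl
      have sw : ∀ {x y : V}, s(x, y) ∈ Z → s(y, x) ∈ Z := by
        intro x y hxy
        rw [Sym2.eq_swap]; exact hxy
      rcases e5_two hcub hZ he (sw h) h12 (sw h56) with k | k | k
      · exact n20 k.symm
      · exact n50 k.symm
      · exact n52 k.symm
    have hn6 : [s(v0, v1), s(v1, v2), s(v2, v3), s(v3, v4), s(v4, v5), s(v5, v6)].Nodup := by
      simp [n01, n12, n23, n34, n45, n56, n20, n31, n42, n53, n64, n30, n41, n52, n63, n40, n51, n62, n01.symm, n12.symm, n23.symm, n34.symm, n45.symm, n56.symm, n20.symm, n31.symm, n42.symm, n53.symm, n64.symm, n30.symm, n41.symm, n52.symm, n63.symm, n40.symm, n51.symm, n62.symm, n50, n50.symm, n61, n61.symm]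
    have hc6 : ([s(v0, v1), s(v1, v2), s(v2, v3), s(v3, v4), s(v4, v5),
        s(v5, v6)].toFinset).card = 6 := by
      rw [List.toFinset_card_of_nodup hn6]; rfl
    have hs6 : [s(v0, v1), s(v1, v2), s(v2, v3), s(v3, v4), s(v4, v5), s(v5, v6)].toFinset
        ⊆ Z := by
      intro x hx
      simp only [List.mem_toFinset, List.mem_cons, List.not_mem_nil, or_false] at hx
      rcases hx with rfl | rfl | rfl | rfl | rfl | rfl <;> assumption
    have hZe : [s(v0, v1), s(v1, v2), s(v2, v3), s(v3, v4), s(v4, v5), s(v5, v6)].toFinset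
        = Z := Finset.eq_of_subset_of_card_le hs6 (by rw [hc6, hZ6])
    obtain ⟨v7, n75, h67⟩ := e5_next he h56
    have h60 : v6 = v0 := by
      by_contra n60
      have hm := h67
      rw [← hZe] at hm
      revert hm
      simp [n01, n12, n23, n34, n45, n56, n20, n31, n42, n53, n64, n30, n41, n52, n63, n40, n51, n62, n01.symm, n12.symm, n23.symm, n34.symm, n45.symm, n56.symm, n20.symm, n31.symm, n42.symm, n53.symm, n64.symm, n30.symm, n41.symm, n52.symm, n63.symm, n40.symm, n51.symm, n62.symm, n50, n50.symm, n61, n61.symm, n60, n75, n75.symm]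
    subst h60
    refine ⟨v2, v3, v4, v5, ?_, ?_⟩
    · simp [n01, n12, n23, n34, n45, n56, n20, n31, n42, n53, n64, n30, n41, n52, n63, n40, n51, n62, n01.symm, n12.symm, n23.symm, n34.symm, n45.symm, n56.symm, n20.symm, n31.symm, n42.symm, n53.symm, n64.symm, n30.symm, n41.symm, n52.symm, n63.symm, n40.symm, n51.symm, n62.symm, n50, n50.symm, n61, n61.symm]
    · rw [← hZe]
      rfl

end Pool.Agent.E8B
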