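import Pool.Agent.E8B.Even5

set_option autoImplicit false

namespace Pool.Agent.E8B

open Finset

universe u

variable {V : Type u} [Fintype V] [DecidableEq V] {G : SimpleGraph V} [DecidableRel G.Adj]

omit [DecidableEq V] in
private theorem Exist_edges (hcub : ∀ x, (G.neighborFinset x).card = 3) :
    3 * Fintype.card V = 2 * G.edgeFinset.card := by
  classical
  have h := G.sum_degrees_eq_twice_card_edges
  have h2 : ∑ v : V, G.degree v = ∑ _v : V, 3 := by
    refine Finset.sum_congr rfl fun v _ => ?_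
    rw [← G.card_neighborFinset_eq_degree]
    exact hcub v
  rw [← h, h2, Finset.sum_const, Finset.card_univ, smul_eq_mul, mul_comm]

private theorem Exist_sum (S : FaceStruct G) : ∑ f, (S.B f).card ≤ 2 * G.edgeFinset.card := by
  have h : ∑ f, (S.B f).card = ∑ e ∈ G.edgeFinset, (univ.filter (e ∈ S.B ·)).card := by
    have h1 : ∀ f, (S.B f).card = ∑ e ∈ G.edgeFinset, if e ∈ S.B f then 1 else 0 := by
      intro f
      rw [← Finset.card_filter, Finset.filter_mem_eq_inter, Finset.inter_eq_right.2 (S.sub f)]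
    have h2 : ∀ e, (univ.filter (e ∈ S.B ·)).card = ∑ f, if e ∈ S.B f then 1 else 0 := by
      intro e
      rw [Finset.card_filter]
    rw [Finset.sum_congr rfl fun f _ => h1 f, Finset.sum_congr rfl fun e _ => h2 e,
      Finset.sum_comm]
  rw [h]
  calc ∑ e ∈ G.edgeFinset, (univ.filter (e ∈ S.B ·)).card ≤ ∑ _e ∈ G.edgeFinset, 2 := by
        refine Finset.sum_le_sum fun e _ => ?_
        rcases S.two e with h | h <;> omega
    _ = 2 * G.edgeFinset.card := by rw [Finset.sum_const, smul_eq_mul, mul_comm]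

private theorem Exist_ne (S : FaceStruct G) (hF : 2 ≤ Fintype.card S.F) (f : S.F) :
    (S.B f).Nonempty := by
  by_contra h
  rw [Finset.not_nonempty_iff_eq_empty] at h
  have hk : ∀ e, Even (({f} : Finset S.F).filter (e ∈ S.B ·)).card := by
    intro e
    have : (({f} : Finset S.F).filter (e ∈ S.B ·)) = ∅ := by
      rw [Finset.filter_eq_empty_iff]
      intro g hg
      rw [Finset.mem_singleton] at hg
      rw [hg, h]
      exact Finset.notMem_empty e
    rw [this]
    simp
  rcases S.kernel {f} hk with h1 | h1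
  · exact Finset.singleton_ne_empty f h1
  · have h2 := congrArg Finset.card h1
    rw [Finset.card_singleton, Finset.card_univ] at h2
    omega

private theorem Exist_inj (S : FaceStruct G) (hF : 3 ≤ Fintype.card S.F) {f g : S.F} (hfg : f ≠ g) :
    S.B f ≠ S.B g := by
  intro h
  have hk : ∀ e, Even (({f, g} : Finset S.F).filter (e ∈ S.B ·)).card := by
    intro e
    by_cases he : e ∈ S.B f
    · have : (({f, g} : Finset S.F).filter (e ∈ S.B ·)) = {f, g} := by
        rw [Finset.filter_eq_self]
        intro k hk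
        rw [Finset.mem_insert, Finset.mem_singleton] at hk
        rcases hk with hk | hk
        · rw [hk]
          exact he
        · rw [hk, ← h]
          exact he
      rw [this, Finset.card_pair hfg]
      exact even_two
    · have : (({f, g} : Finset S.F).filter (e ∈ S.B ·)) = ∅ := by
        rw [Finset.filter_eq_empty_iff]
        intro k hk
        rw [Finset.mem_insert, Finset.mem_singleton] at hk
        rcases hk with hk | hk
        · rw [hk]
          exact he
        · rw [hk, ← h]
          exact he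
      rw [this]
      simp
  rcases S.kernel {f, g} hk with h1 | h1
  · exact (Finset.insert_ne_empty f {g}) h1
  · have h2 := congrArg Finset.card h1
    rw [Finset.card_pair hfg, Finset.card_univ] at h2
    omega

/-- basic counts -/
private theorem Exist_count (S : FaceStruct G) (hcub : ∀ x, (G.neighborFinset x).card = 3)
    (hc : G.Connected) (h5 : G5 G) : 3 ≤ Fintype.card S.F ∧
      2 * Fintype.card S.F = Fintype.card V + 4 ∧ ∑ f, (S.B f).card ≤ 3 * Fintype.card V ∧
      ∀ f, 5 ≤ (S.B f).card := by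
  have hE := Exist_edges hcub
  have hS := Exist_sum S
  have hEu := S.euler
  have hV : 1 ≤ Fintype.card V := by
    have := hc.nonempty
    exact Fintype.card_pos
  have hV3 : 3 ≤ Fintype.card V := by
    have := hc.nonempty
    obtain ⟨v⟩ := hc.nonempty
    calc 3 = (G.neighborFinset v).card := (hcub v).symm
      _ ≤ Fintype.card V := Finset.card_le_univ _
  have hF : 3 ≤ Fintype.card S.F := by omega
  refine ⟨hF, by omega, by omega, ?_⟩
  intro f
  obtain ⟨e, he⟩ := Exist_ne S (by omega) f
  induction e using Sym2.ind with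
  | _ a b => exact (even_five hcub h5 (S.sub f) (S.even f) he).1

/-- `|E| = 3 |V| / 2`, so `2 |F| = |V| + 4` by `euler`; every `B f` is not empty (otherwise
`T = {f}` contradicts `kernel`, as `|F| ≥ 3`), so `5 |F| ≤ Σ |B f| ≤ 2 |E| = 3 |V|` (`two`). -/
theorem card_ge (S : FaceStruct G) (hcub : ∀ x, (G.neighborFinset x).card = 3)
    (hc : G.Connected) (h5 : G5 G) : 20 ≤ Fintype.card V := by
  obtain ⟨_, h2, hs, hf⟩ := Exist_count S hcub hc h5
  have h1 : 5 * Fintype.card S.F ≤ ∑ f, (S.B f).card := by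
    calc 5 * Fintype.card S.F = ∑ _f : S.F, 5 := by
          rw [Finset.sum_const, Finset.card_univ, smul_eq_mul, mul_comm]
      _ ≤ _ := Finset.sum_le_sum fun f _ => hf f
  omega

/-- a face of length five at one of its vertices -/
private theorem Exist_face (S : FaceStruct G) (hcub : ∀ x, (G.neighborFinset x).card = 3)
    (h5 : G5 G) {f : S.F} (hf : (S.B f).card = 5) {v : V} (hv : ∃ e ∈ S.B f, v ∈ e) :
    ∃ x y p q, Ang G x v y p q ∧ (∀ z ∈ [v, x, p, q, y], ∃ e ∈ S.B f, z ∈ e) ∧
      [v, x, p, q, y].Nodup ∧ S.B f = {s(v, x), s(x, p), s(p, q), s(q, y), s(v, y)} := by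
  obtain ⟨e, he, hve⟩ := hv
  obtain ⟨w, rfl⟩ := hve
  obtain ⟨-, h1, -⟩ := even_five hcub h5 (S.sub f) (S.even f) he
  obtain ⟨v2, v3, v4, hnd, hB⟩ := h1 hf
  have hB2 : S.B f = {s(v, w), s(w, v2), s(v2, v3), s(v3, v4), s(v, v4)} := by
    rw [hB]
    unfold cyc
    rw [Sym2.eq_swap (a := v) (b := v4)]
    simp
  have hadj : ∀ a b, s(a, b) ∈ S.B f → G.Adj a b := by
    intro a b hab
    have := S.sub f hab
    rwa [SimpleGraph.mem_edgeFinset, SimpleGraph.mem_edgeSet] at this
  have m1 : s(v, w) ∈ S.B f := he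
  have m2 : s(w, v2) ∈ S.B f := by rw [hB2]; simp
  have m3 : s(v2, v3) ∈ S.B f := by rw [hB2]; simp
  have m4 : s(v3, v4) ∈ S.B f := by rw [hB2]; simp
  have m5 : s(v, v4) ∈ S.B f := by rw [hB2]; simp
  refine ⟨w, v4, v2, v3, ?_, ?_, hnd, hB2⟩
  · simp only [List.nodup_cons, List.mem_cons, List.not_mem_nil, or_false, not_or] at hnd
    obtain ⟨⟨n1, n2, n3, n4⟩, ⟨n5, n6, n7⟩, ⟨n8, n9⟩, n10, _⟩ := hnd
    exact ⟨hadj _ _ m1, hadj _ _ m5, n7, hadj _ _ m2, hadj _ _ m3, hadj _ _ m4, fun h => n2 h.symm,
      fun h => n3 h.symm⟩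
  · intro z hz
    simp only [List.mem_cons, List.not_mem_nil, or_false] at hz
    rcases hz with rfl | rfl | rfl | rfl | rfl
    · exact ⟨_, m1, Sym2.mem_mk_left _ _⟩
    · exact ⟨_, m1, Sym2.mem_mk_right _ _⟩
    · exact ⟨_, m2, Sym2.mem_mk_right _ _⟩
    · exact ⟨_, m3, Sym2.mem_mk_right _ _⟩
    · exact ⟨_, m4, Sym2.mem_mk_right _ _⟩

omit [Fintype V] [DecidableEq V] [DecidableRel G.Adj] in
private theorem Exist_swap {x v y p q : V} (h : Ang G x v y p q) : Ang G y v x q p :=
  ⟨h.vy, h.vx, h.xy.symm, h.qy.symm, h.pq.symm, h.xp.symm, h.qv, h.pv⟩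

/-- two angles at a cubic vertex -/
private theorem Exist_two (hcub : ∀ x, (G.neighborFinset x).card = 3) {v x y p q x' y' p' q' : V}
    (h : Ang G x v y p q) (h' : Ang G x' v y' p' q') :
    (x = x' ∧ y = y') ∨ (x = y' ∧ y = x') ∨
      ∃ v x y w p q p' q', y ≠ w ∧ Ang G x v y p q ∧ Ang G x v w p' q' := by
  have hm : ∀ z, G.Adj v z → z ∈ G.neighborFinset v := fun z hz => by
    rwa [SimpleGraph.mem_neighborFinset]
  by_cases h1 : x = x'
  · subst h1
    by_cases h2 : y = y'
    · exact Or.inl ⟨rfl, h2⟩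
    · exact Or.inr (Or.inr ⟨v, x, y, y', p, q, p', q', h2, h, h'⟩)
  by_cases h2 : x = y'
  · subst h2
    by_cases h3 : y = x'
    · exact Or.inr (Or.inl ⟨rfl, h3⟩)
    · exact Or.inr (Or.inr ⟨v, x, y, x', p, q, q', p', h3, h, Exist_swap h'⟩)
  by_cases h3 : y = x'
  · subst h3
    exact Or.inr (Or.inr ⟨v, y, x, y', q, p, p', q', h2, Exist_swap h, h'⟩)
  by_cases h4 : y = y'
  · subst h4
    exact Or.inr (Or.inr ⟨v, y, x, x', q, p, q', p', h1, Exist_swap h, Exist_swap h'⟩)
  exfalso
  have hsub : ({x, y, x', y'} : Finset V) ⊆ G.neighborFinset v := by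
    intro z hz
    simp only [Finset.mem_insert, Finset.mem_singleton] at hz
    rcases hz with rfl | rfl | rfl | rfl
    · exact hm _ h.vx
    · exact hm _ h.vy
    · exact hm _ h'.vx
    · exact hm _ h'.vy
  have hcard : ({x, y, x', y'} : Finset V).card = 4 := by
    rw [Finset.card_insert_of_notMem, Finset.card_insert_of_notMem, Finset.card_pair h'.xy]
    · simp only [Finset.mem_insert, Finset.mem_singleton, not_or]
      exact ⟨h3, h4⟩
    · simp only [Finset.mem_insert, Finset.mem_singleton, not_or]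
      exact ⟨h.xy, h1, h2⟩
  have := Finset.card_le_card hsub
  rw [hcard, hcub v] at this
  omega

/-- There is a face of length six, or there are two cycles of length five with a common edge.
Proof. As in `card_ge`: `2 |F| = |V| + 4`, `Σ |B f| ≤ 3 |V|`, all `|B f| ≥ 5`. Suppose that no face
has length six and that two different faces of length five have no common vertex. Every face of
length five has five vertices (`even_five`), so `5 n ≤ |V|` for the number `n` of the faces of
length five, and the other faces have length at least seven: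
`7 |F| - 2 n ≤ Σ |B f| ≤ 3 |V|`, so `35 |F| ≤ 15 |V| + 10 n ≤ 17 |V|`, but
`35 |F| = 35 (|V| + 4) / 2`, a contradiction. So there is a face `f` of length six (first case, by
`even_five`), or two different faces `f, g` of length five with a common vertex `v`. `B f ≠ B g`
(otherwise `T = {f, g}` contradicts `kernel`, as `|F| ≥ 3`). `B f`, `B g` are cycles of length five
through `v`; if they use the same two neighbours of `v` then `Uniq` is false, otherwise they have
one neighbour `x` of `v` in common: `Ang x v y p q` and `Ang x v w p' q'` with `y ≠ w`. -/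
theorem exist_short (S : FaceStruct G) (hcub : ∀ x, (G.neighborFinset x).card = 3)
    (hc : G.Connected) (h5 : G5 G) :
    (∃ h1 h2 h3 h4 h5 h6 : V, [h1, h2, h3, h4, h5, h6].Nodup ∧
      ∃ f, S.B f = cyc [h1, h2, h3, h4, h5, h6]) ∨
    ¬ Uniq G ∨ ∃ v x y w p q p' q', y ≠ w ∧ Ang G x v y p q ∧ Ang G x v w p' q' := by
  by_contra hcon
  rw [not_or, not_or] at hcon
  obtain ⟨hno6, hU, hno⟩ := hcon
  rw [not_not] at hU
  obtain ⟨hF3, hF2, hs, hf5⟩ := Exist_count S hcub hc h5
  have h6 : ∀ f, (S.B f).card ≠ 6 := by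
    intro f h
    apply hno6
    obtain ⟨e, he⟩ := Exist_ne S (by omega) f
    induction e using Sym2.ind with
    | _ a b =>
      obtain ⟨v2, v3, v4, v5, hnd, hB⟩ := (even_five hcub h5 (S.sub f) (S.even f) he).2.2 h
      exact ⟨a, b, v2, v3, v4, v5, hnd, f, hB⟩
  -- faces of length five are disjoint
  set vs : S.F → Finset V := fun f => univ.filter fun v => ∃ e ∈ S.B f, v ∈ e with hvs
  have hmem : ∀ f v, v ∈ vs f ↔ ∃ e ∈ S.B f, v ∈ e := by
    intro f v
    rw [hvs]
    simp
  set five : Finset S.F := univ.filter fun f => (S.B f).card = 5 with hfive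
  have hdisj : ∀ f ∈ five, ∀ g ∈ five, f ≠ g → Disjoint (vs f) (vs g) := by
    intro f hf g hg hfg
    rw [hfive, Finset.mem_filter] at hf hg
    rw [Finset.disjoint_left]
    intro v hv hv'
    rw [hmem] at hv hv'
    obtain ⟨x, y, p, q, ha, -, -, hB⟩ := Exist_face S hcub h5 hf.2 hv
    obtain ⟨x', y', p', q', ha', -, -, hB'⟩ := Exist_face S hcub h5 hg.2 hv'
    apply Exist_inj S hF3 hfg
    rcases Exist_two hcub ha ha' with ⟨h1, h2⟩ | ⟨h1, h2⟩ | h
    · subst h1
      subst h2
      obtain ⟨h3, h4⟩ := hU _ _ _ _ _ _ _ ha ha'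
      rw [hB, hB', h3, h4]
    · subst h1
      subst h2
      obtain ⟨h3, h4⟩ := hU _ _ _ _ _ _ _ ha (Exist_swap ha')
      rw [hB, hB', h3, h4, Sym2.eq_swap (a := x) (b := q'), Sym2.eq_swap (a := q') (b := p'),
        Sym2.eq_swap (a := p') (b := y)]
      ext e
      simp only [Finset.mem_insert, Finset.mem_singleton]
      tauto
    · exact absurd h hno
  have hcard5 : ∀ f ∈ five, 5 ≤ (vs f).card := by
    intro f hf
    rw [hfive, Finset.mem_filter] at hf
    obtain ⟨e, he⟩ := Exist_ne S (by omega) f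
    have hv : ∃ v, ∃ e ∈ S.B f, v ∈ e := by
      induction e using Sym2.ind with
      | _ a b => exact ⟨a, _, he, Sym2.mem_mk_left _ _⟩
    obtain ⟨v, hv⟩ := hv
    obtain ⟨x, y, p, q, ha, hall, hnd, hB⟩ := Exist_face S hcub h5 hf.2 hv
    have h1 : ([v, x, p, q, y] : List V).toFinset ⊆ vs f := by
      intro z hz
      rw [List.mem_toFinset] at hz
      rw [hmem]
      exact hall z hz
    have h2 : ([v, x, p, q, y] : List V).toFinset.card = 5 := by
      rw [List.toFinset_card_of_nodup hnd]
      rfl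
    rw [← h2]
    exact Finset.card_le_card h1
  have hn : 5 * five.card ≤ Fintype.card V := by
    calc 5 * five.card = ∑ _f ∈ five, 5 := by rw [Finset.sum_const, smul_eq_mul, mul_comm]
      _ ≤ ∑ f ∈ five, (vs f).card := Finset.sum_le_sum hcard5
      _ = (five.biUnion vs).card := (Finset.card_biUnion hdisj).symm
      _ ≤ Fintype.card V := Finset.card_le_univ _
  have h7 : 7 * Fintype.card S.F ≤ ∑ f, (S.B f).card + 2 * five.card := by
    have h1 : ∑ f : S.F, (if (S.B f).card = 5 then 2 else 0) = 2 * five.card := by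
      rw [← Finset.sum_filter, Finset.sum_const, smul_eq_mul, mul_comm]
    calc 7 * Fintype.card S.F = ∑ _f : S.F, 7 := by
          rw [Finset.sum_const, Finset.card_univ, smul_eq_mul, mul_comm]
      _ ≤ ∑ f : S.F, ((S.B f).card + if (S.B f).card = 5 then 2 else 0) := by
          refine Finset.sum_le_sum fun f _ => ?_
          have h2 := hf5 f
          have h3 := h6 f
          split_ifs <;> omega
      _ = _ := by rw [Finset.sum_add_distrib, h1]
  omega

end Pool.Agent.E8B
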