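import Pool.Agent.E8B.Defs

set_option autoImplicit false

namespace Pool.Agent.E8B

open Finset

universe u

variable {V : Type u} {β : Type*} [Fintype V] [DecidableEq V] {G : SimpleGraph V}
  [DecidableRel G.Adj] {L : V → Finset β}

/-- The boundary vertices near to a boundary vertex `v` (for `¬ Inn`, i.e. outside the set `I` of
inner vertices). Direct from the data. -/
theorem near_bd {D W : Finset V} (st : St G D W) {v z p q s w : V} (hb : Bd G D W v z p q s)
    (hw : w ∈ D) (hwi : ¬ Inn G D w) (h : Near G v w) :
    w = s ∨ w = p ∨ w = q ∨ G.Adj p w ∨ G.Adj q w := by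
  have hzD : z ∉ D := fun hz => (Finset.disjoint_left.mp st.disj hz) hb.zW
  have key : ∀ x, G.Adj v x → x = z ∨ x = p ∨ x = q := by
    intro x hx
    have : x ∈ G.neighborFinset v := by simpa using hx
    rw [hb.nb] at this
    simpa using this
  obtain ⟨hvw, h | ⟨x, hvx, hxw⟩⟩ := h
  · rcases key w h with rfl | rfl | rfl
    · exact absurd hw hzD
    · exact Or.inr (Or.inl rfl)
    · exact Or.inr (Or.inr (Or.inl rfl))
  · rcases key x hvx with rfl | rfl | rfl
    · have : w ∈ G.neighborFinset x ∩ D := by
        rw [Finset.mem_inter]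
        exact ⟨by simpa using hxw, hw⟩
      rw [hb.nz] at this
      simp only [Finset.mem_insert, Finset.mem_singleton] at this
      rcases this with h | h
      · exact absurd h.symm hvw
      · exact Or.inl h
    · exact Or.inr (Or.inr (Or.inr (Or.inl hxw)))
    · exact Or.inr (Or.inr (Or.inr (Or.inr hxw)))

/-- Two boundary vertices with the same outer neighbour `z`: the data determine each other. -/
theorem bd_z {D W : Finset V} (st : St G D W) {v z p q s v' z' p' q' s' : V}
    (hb : Bd G D W v z p q s) (hb' : Bd G D W v' z' p' q' s') (h : s = v') : z = z' ∧ s' = v := by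
  have hzD : z ∉ D := fun hz => (Finset.disjoint_left.mp st.disj hz) hb.zW
  have h1 : v' ∈ G.neighborFinset z ∩ D := by
    rw [hb.nz, h]
    simp
  have h2 : G.Adj z v' := by simpa using (Finset.mem_inter.mp h1).1
  have h3 : z ∈ G.neighborFinset v' := by simpa using h2.symm
  rw [hb'.nb] at h3
  simp only [Finset.mem_insert, Finset.mem_singleton] at h3
  have hz : z = z' := by
    rcases h3 with h3 | h3 | h3
    · exact h3
    · exact absurd (h3 ▸ hb'.pD) hzD
    · exact absurd (h3 ▸ hb'.qD) hzD
  refine ⟨hz, ?_⟩
  have h4 : v ∈ G.neighborFinset z ∩ D := by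
    rw [hb.nz]
    simp
  rw [hz, hb'.nz] at h4
  simp only [Finset.mem_insert, Finset.mem_singleton] at h4
  rcases h4 with h4 | h4
  · exact absurd (h4.trans h.symm) hb.vs
  · exact h4.symm

end Pool.Agent.E8B
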