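import Pool.Agent.E8B.Fin1

set_option autoImplicit false

namespace Pool.Agent.E8B

open Finset

universe u

variable {V : Type u} {β : Type*} [Fintype V] [DecidableEq V] {G : SimpleGraph V}
  [DecidableRel G.Adj] {L : V → Finset β}

private theorem six_nodup {X : Finset V} {a b c d e f : V} (hX : X.card = 6)
    (h : ∀ x ∈ X, x ∈ [a, b, c, d, e, f]) :
    [a, b, c, d, e, f].Nodup ∧ ∀ x ∈ [a, b, c, d, e, f], x ∈ X := by
  have h1 : X ⊆ [a, b, c, d, e, f].toFinset := fun x hx => by simpa using h x hx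
  have h2 : ([a, b, c, d, e, f].toFinset).card ≤ 6 := List.toFinset_card_le _
  have h3 : X = [a, b, c, d, e, f].toFinset :=
    Finset.eq_of_subset_of_card_le h1 (by omega)
  refine ⟨?_, fun x hx => by rw [h3]; simpa using hx⟩
  have h4 : ([a, b, c, d, e, f].toFinset).card = 6 := by rw [← h3, hX]
  have h5 := (Multiset.toFinset_card_eq_card_iff_nodup (m := ([a, b, c, d, e, f] : Multiset V))).mp
    (by simpa using! h4)
  simpa using! h5

private theorem Bd.sw {D W : Finset V} {v z p q s : V} (h : Bd G D W v z p q s) :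
    Bd G D W v z q p s :=
  ⟨h.vD, by rw [h.nb, Finset.pair_comm p q], h.zq, h.zp, h.pq.symm, h.zW, h.qD, h.pD, h.nz, h.vs⟩

private theorem Bd.adj {D W : Finset V} {v z p q s : V} (h : Bd G D W v z p q s) :
    G.Adj v z ∧ G.Adj v p ∧ G.Adj v q := by
  refine ⟨?_, ?_, ?_⟩
  · have : z ∈ G.neighborFinset v := by rw [h.nb]; simp
    simpa using this
  · have : p ∈ G.neighborFinset v := by rw [h.nb]; simp
    simpa using this
  · have : q ∈ G.neighborFinset v := by rw [h.nb]; simp
    simpa using this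

private theorem Bd.of_adj {D W : Finset V} {v z p q s x : V} (h : Bd G D W v z p q s)
    (hx : G.Adj v x) : x = z ∨ x = p ∨ x = q := by
  have : x ∈ G.neighborFinset v := by simpa using hx
  rw [h.nb] at this
  simpa using this

private theorem Bd.zD {D W : Finset V} (st : St G D W) {v z p q s : V}
    (h : Bd G D W v z p q s) : z ∉ D :=
  fun hz => (Finset.disjoint_left.mp st.disj hz) h.zW

private theorem Bd.of_adj_z {D W : Finset V} {v z p q s x : V} (h : Bd G D W v z p q s)
    (hx : G.Adj z x) (hxD : x ∈ D) : x = v ∨ x = s := by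
  have : x ∈ G.neighborFinset z ∩ D := by
    rw [Finset.mem_inter]
    exact ⟨by simpa using hx, hxD⟩
  rw [h.nz] at this
  simpa using this

private theorem Bd.adj_zs {D W : Finset V} {v z p q s : V} (h : Bd G D W v z p q s) :
    G.Adj z s ∧ s ∈ D := by
  have : s ∈ G.neighborFinset z ∩ D := by
    rw [h.nz]
    simp
  rw [Finset.mem_inter] at this
  exact ⟨by simpa using this.1, this.2⟩

private theorem Bd.not_inn {D W : Finset V} (st : St G D W) {v z p q s : V}
    (h : Bd G D W v z p q s) : ¬ Inn G D v :=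
  fun hi => h.zD st (hi.2 z h.adj.1)

private theorem bd_nbr {D W : Finset V}
    (hloc : ∀ v ∈ D, (Inn G D v ∧ (G.neighborFinset v).card = 3) ∨
      ∃ z p q s, Bd G D W v z p q s) (st : St G D W) {x y : V} (hx : x ∈ D)
    (hxi : ¬ Inn G D x) (hy : y ∈ D) (hxy : G.Adj x y) : ∃ z r s, Bd G D W x z y r s := by
  rcases hloc x hx with h | ⟨z, p, q, s, h⟩
  · exact absurd h.1 hxi
  · rcases h.of_adj hxy with rfl | rfl | rfl
    · exact absurd hy (h.zD st)
    · exact ⟨z, q, s, h⟩
    · exact ⟨z, p, s, h.sw⟩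

private theorem inn_nbr {D W : Finset V}
    (hloc : ∀ v ∈ D, (Inn G D v ∧ (G.neighborFinset v).card = 3) ∨
      ∃ z p q s, Bd G D W v z p q s) (st : St G D W) {p v : V} (hp : Inn G D p)
    (hv : G.Adj p v) : ∃ a b, G.neighborFinset p = {v, a, b} := by
  rcases hloc p hp.1 with h | ⟨z, p', q, s, h⟩
  · have hv' : v ∈ G.neighborFinset p := by simpa using hv
    have h2 : ((G.neighborFinset p).erase v).card = 2 := by
      rw [Finset.card_erase_of_mem hv', h.2]
    obtain ⟨a, b, _, hab⟩ := Finset.card_eq_two.mp h2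
    refine ⟨a, b, ?_⟩
    rw [← hab, Finset.insert_erase hv']
  · exact absurd hp (h.not_inn st)

/-- A sibling of a vertex of the clique is not the sibling of another one. -/
private theorem sib_ne {D W : Finset V} (st : St G D W) {v z p q s v' z' p' q' s' zs a b t : V}
    (hb : Bd G D W v z p q s) (hb' : Bd G D W v' z' p' q' s') (hs : Bd G D W s zs a b t)
    (hvv : v ≠ v') : s ≠ s' := by
  intro h
  have h1 := bd_z st hb hs rfl
  have h2 := bd_z st hb' hs h.symm
  exact hvv (h1.2.symm.trans h2.2)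

private theorem r_ne {D W : Finset V} (h3 : ∀ x, (G.neighborFinset x).card ≤ 3)
    (st : St G D W) {v p r1 r2 u1 u2 u3 u4 s z1 z2 s1 s2 : V}
    (b1 : Bd G D W u1 z1 p r1 s1) (b2 : Bd G D W u2 z2 p r2 s2)
    (hp : G.neighborFinset p = {v, u1, u2}) (hpi : Inn G D p) (hri : Inn G D r1)
    (nd : [v, s, u1, u2, u3, u4].Nodup)
    (a1 : G.Adj r1 s) (h13 : Near G u1 u3) (h14 : Near G u1 u4)
    (d3 : u3 ∈ D ∧ ¬ Inn G D u3) (d4 : u4 ∈ D ∧ ¬ Inn G D u4) : r1 ≠ r2 := by
  rintro rfl
  simp only [List.nodup_cons, List.mem_cons, List.not_mem_nil, or_false, not_or, not_false_eq_true,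
    List.nodup_nil, and_true] at nd
  obtain ⟨⟨nvs, nv1, nv2, nv3, nv4⟩, ⟨ns1, ns2, ns3, ns4⟩, ⟨n12, n13, n14⟩, ⟨n23, n24⟩, n34⟩ := nd
  have hsub : ({u1, u2, s} : Finset V) ⊆ G.neighborFinset r1 := by
    intro x hx
    simp only [Finset.mem_insert, Finset.mem_singleton] at hx
    rcases hx with rfl | rfl | rfl
    · simpa using b1.adj.2.2.symm
    · simpa using b2.adj.2.2.symm
    · simpa using a1
  have hcard : ({u1, u2, s} : Finset V).card = 3 := by
    rw [Finset.card_insert_of_notMem, Finset.card_insert_of_notMem, Finset.card_singleton]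
    · simpa using Ne.symm ns2
    · simp only [Finset.mem_insert, Finset.mem_singleton, not_or]
      exact ⟨n12, Ne.symm ns1⟩
  have heq : ({u1, u2, s} : Finset V) = G.neighborFinset r1 :=
    Finset.eq_of_subset_of_card_le hsub (by rw [hcard]; exact h3 r1)
  have key : ∀ w, w ∈ D → ¬ Inn G D w → Near G u1 w → w ≠ v → w ≠ s → w ≠ u1 → w ≠ u2 →
      w = s1 := by
    intro w hw hwi hn e1 e2 e3 e4
    rcases near_bd st b1 hw hwi hn with h | h | h | h | h
    · exact h
    · exact absurd (h ▸ hpi) hwi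
    · exact absurd (h ▸ hri) hwi
    · have : w ∈ G.neighborFinset p := by simpa using h
      rw [hp] at this
      simp only [Finset.mem_insert, Finset.mem_singleton] at this
      tauto
    · have : w ∈ G.neighborFinset r1 := by simpa using h
      rw [← heq] at this
      simp only [Finset.mem_insert, Finset.mem_singleton] at this
      tauto
  have e3 := key u3 d3.1 d3.2 h13 (Ne.symm nv3) (Ne.symm ns3) (Ne.symm n13) (Ne.symm n23)
  have e4 := key u4 d4.1 d4.2 h14 (Ne.symm nv4) (Ne.symm ns4) (Ne.symm n14) (Ne.symm n24)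
  exact n34 (e3.trans e4.symm)

private theorem k33_b (hK : NoK33 G) {D W : Finset V} (st : St G D W)
    {v z p q s u1 u2 u3 u4 r1 r2 z1 z2 z3 z4 s1 s2 s3 s4 : V}
    (hb : Bd G D W v z p q s) (b1 : Bd G D W u1 z1 p r1 s1) (b2 : Bd G D W u2 z2 p r2 s2)
    (b3 : Bd G D W u3 z3 q r1 s3) (b4 : Bd G D W u4 z4 q r2 s4)
    (hpi : Inn G D p) (hqi : Inn G D q) (hr1 : Inn G D r1) (hr2 : Inn G D r2) (hr : r1 ≠ r2)
    (nd : [v, s, u1, u2, u3, u4].Nodup) (hs : s ∈ D ∧ ¬ Inn G D s)
    (a1 : G.Adj r1 s) (a2 : G.Adj r2 s) : False := by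
  have zD := hb.zD st
  have iv := hb.not_inn st
  have i1 := b1.not_inn st
  have i2 := b2.not_inn st
  have i3 := b3.not_inn st
  have i4 := b4.not_inn st
  simp only [List.nodup_cons, List.mem_cons, List.not_mem_nil, or_false, not_or, not_false_eq_true,
    List.nodup_nil, and_true] at nd
  obtain ⟨⟨nvs, nv1, nv2, nv3, nv4⟩, ⟨ns1, ns2, ns3, ns4⟩, ⟨n12, n13, n14⟩, ⟨n23, n24⟩, n34⟩ := nd
  have hi : ∀ a b : V, Inn G D a → ¬ Inn G D b → a ≠ b := fun a b h1 h2 h => h2 (h ▸ h1)
  have hz : ∀ a : V, a ∈ D → a ≠ z := fun a h1 h => zD (h ▸ h1)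
  refine hK p v q r1 s r2 [] [] [u3] [] [] [u2] [u1] [z] [u4] ?_ ?_ ?_ ?_ ?_ ?_ ?_ ?_ ?_ ?_
  · simp only [List.nil_append, List.append_nil, List.cons_append, List.nodup_cons, List.mem_cons,
      List.not_mem_nil, or_false, not_or, not_false_eq_true, List.nodup_nil, and_true]
    refine ⟨⟨?_, ?_, ?_, ?_, ?_, ?_, ?_, ?_, ?_, ?_⟩, ⟨?_, ?_, ?_, ?_, ?_, ?_, ?_, ?_, ?_⟩,
      ⟨?_, ?_, ?_, ?_, ?_, ?_, ?_, ?_⟩, ⟨?_, ?_, ?_, ?_, ?_, ?_, ?_⟩, ⟨?_, ?_, ?_, ?_, ?_, ?_⟩,
      ⟨?_, ?_, ?_, ?_, ?_⟩, ⟨?_, ?_, ?_, ?_⟩, ⟨?_, ?_, ?_⟩, ⟨?_, ?_⟩, ?_⟩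
    · exact hi p v hpi iv
    · exact hb.pq
    · exact b1.pq
    · exact hi p s hpi hs.2
    · exact b2.pq
    · exact hi _ _ hpi i3
    · exact hi _ _ hpi i2
    · exact hi _ _ hpi i1
    · exact hz _ hb.pD
    · exact hi _ _ hpi i4
    · exact (hi _ _ hqi iv).symm
    · exact (hi _ _ hr1 iv).symm
    · exact nvs
    · exact (hi _ _ hr2 iv).symm
    · exact nv3
    · exact nv2
    · exact nv1
    · exact hz _ hb.vD
    · exact nv4
    · exact b3.pq
    · exact hi _ _ hqi hs.2
    · exact b4.pq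
    · exact hi _ _ hqi i3
    · exact hi _ _ hqi i2
    · exact hi _ _ hqi i1
    · exact hz _ hb.qD
    · exact hi _ _ hqi i4
    · exact hi _ _ hr1 hs.2
    · exact hr
    · exact hi _ _ hr1 i3
    · exact hi _ _ hr1 i2
    · exact hi _ _ hr1 i1
    · exact hz _ hr1.1
    · exact hi _ _ hr1 i4
    · exact (hi _ _ hr2 hs.2).symm
    · exact ns3
    · exact ns2
    · exact ns1
    · exact hz _ hs.1
    · exact ns4
    · exact hi _ _ hr2 i3
    · exact hi _ _ hr2 i2
    · exact hi _ _ hr2 i1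
    · exact hz _ hr2.1
    · exact hi _ _ hr2 i4
    · exact Ne.symm n23
    · exact Ne.symm n13
    · exact hz _ b3.vD
    · exact n34
    · exact Ne.symm n12
    · exact hz _ b2.vD
    · exact n24
    · exact hz _ b1.vD
    · exact n14
    · exact (hz _ b4.vD).symm
  · simpa [Ch] using hb.adj.2.1.symm
  · simpa [Ch] using hb.adj.2.2
  · simpa [Ch] using ⟨b3.adj.2.1.symm, b3.adj.2.2⟩
  · simpa [Ch] using a1
  · simpa [Ch] using a2.symm
  · simpa [Ch] using ⟨b2.adj.2.2.symm, b2.adj.2.1⟩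
  · simpa [Ch] using ⟨b1.adj.2.1.symm, b1.adj.2.2⟩
  · simpa [Ch] using ⟨hb.adj.1, hb.adj_zs.1⟩
  · simpa [Ch] using ⟨b4.adj.2.1.symm, b4.adj.2.2⟩

/-- There are no six boundary vertices which are pairwise near.
Proof. Let `X` be such a set and `v ∈ X` with the data `z, p, q, s`.
Case 1: `p, q` are not inner, so they are boundary vertices with data `zp, v, p', sp` and
`zq, v, q', sq`. By `near_bd` all elements of `X` except `v` are among `s, p, p', q, q'` (the other
neighbours `z, zp, zq` are not in `D`), so `X = {v, s, p, p', q, q'}`, all different. `p'` is a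
boundary vertex (`h2` for the data of `p`: `v` is not inner), with the data `z', p, p'', t`.
`s` is near to `p`, so by `near_bd` for `p`: `s ∈ {sp, v, p', q, p''}`; `s = sp` is impossible
(`bd_z`: then `z = zp` and `p ∈ N(z) ∩ D = {v, s}`); so `s = p''`, i.e. `s ~ p'`. In the same way
`s ~ q'`. `q'` is near to `p`: `q' ∈ {sp, v, p', q, s}`, so `q' = sp`, i.e. `zp ~ p, q'`. In the same
way `p' = sq`, i.e. `zq ~ q, p'`. Now `NoK33` is contradicted by the cycle `v, p, p', s, q', q` with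
the chord paths `v z s`, `p zp q'`, `p' zq q`.
Case 2: `p, q` are inner (`h2`). By `h1` all their neighbours are boundary vertices. Let
`N(p) = {v, u1, u2}`, `N(q) = {v, u3, u4}`. By `near_bd`, `X = {v, s, u1, u2, u3, u4}`, all
different. `ui` has the data `zi, p, ri, si` (`i = 1, 2`) resp. `zi, q, ri, si` (`i = 3, 4`), all
`ri` are inner (`h2`). `s` is near to `ui` and is not the sibling of `ui` (`bd_z`), not a neighbour
of `p` or `q`; so `s ~ ri` for all `i` (`near_bd`; `s` is not inner, so `s ≠ ri`). `s` has only two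
neighbours `α, β` in `D`, both are inner or both not; so `ri ∈ {α, β}`. `r1 = r2` is impossible:
then `N(r1) = {u1, u2, s}`, so `r3, r4 ≠ r1`, and `u1` is near to both `u3` and `u4`, which is only
possible by `u3 = s1` and `u4 = s1`, a contradiction. In the same way `r3 ≠ r4`. So (after
exchanging `u3` and `u4`) `r1 = r3 = α`, `r2 = r4 = β`. `NoK33` is contradicted by the cycle
`p, v, q, u3, α, s, β, u2` with the chord paths `p u1 α`, `v z s`, `q u4 β`. -/
theorem no_six {D W : Finset V} (h3 : ∀ x, (G.neighborFinset x).card ≤ 3)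
    (hK : NoK33 G) (st : St G D W)
    (hloc : ∀ v ∈ D, (Inn G D v ∧ (G.neighborFinset v).card = 3) ∨
      ∃ z p q s, Bd G D W v z p q s)
    (h1 : ∀ v x, Inn G D v → G.Adj v x → ¬ Inn G D x)
    (h2 : ∀ v z p q s, Bd G D W v z p q s → Inn G D p → Inn G D q)
    (X : Finset V) (hX : X.card = 6) (hXD : ∀ x ∈ X, x ∈ D ∧ ¬ Inn G D x) :
    ∃ x ∈ X, ∃ y ∈ X, x ≠ y ∧ ¬ Near G x y := by
  by_contra hcon
  have hnear : ∀ x ∈ X, ∀ y ∈ X, x ≠ y → Near G x y := by
    intro x hx y hy hxy
    by_contra h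
    exact hcon ⟨x, hx, y, hy, hxy, h⟩
  obtain ⟨v, hv⟩ : X.Nonempty := Finset.card_pos.mp (by omega)
  obtain ⟨z, p, q, s, hb⟩ := (hloc v (hXD v hv).1).resolve_left (fun h => (hXD v hv).2 h.1)
  by_cases hpi : Inn G D p
  · have hqi := h2 _ _ _ _ _ hb hpi
    obtain ⟨u1, u2, hp⟩ := inn_nbr hloc st hpi hb.adj.2.1.symm
    obtain ⟨u3, u4, hq⟩ := inn_nbr hloc st hqi hb.adj.2.2.symm
    have hsub : ∀ x ∈ X, x ∈ [v, s, u1, u2, u3, u4] := by
      intro x hx
      by_cases hxv : x = v
      · simp [hxv]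
      rcases near_bd st hb (hXD x hx).1 (hXD x hx).2 (hnear v hv x hx (Ne.symm hxv)) with
        h | h | h | h | h
      · simp [h]
      · exact absurd (h ▸ hpi) (hXD x hx).2
      · exact absurd (h ▸ hqi) (hXD x hx).2
      · have : x ∈ G.neighborFinset p := by simpa using h
        rw [hp] at this
        simp only [Finset.mem_insert, Finset.mem_singleton] at this
        simp only [List.mem_cons, List.not_mem_nil, or_false]
        tauto
      · have : x ∈ G.neighborFinset q := by simpa using h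
        rw [hq] at this
        simp only [Finset.mem_insert, Finset.mem_singleton] at this
        simp only [List.mem_cons, List.not_mem_nil, or_false]
        tauto
    obtain ⟨nd, hmem⟩ := six_nodup hX hsub
    have nd' := nd
    simp only [List.nodup_cons, List.mem_cons, List.not_mem_nil, or_false, not_or,
      not_false_eq_true, List.nodup_nil, and_true] at nd'
    obtain ⟨⟨nvs, nv1, nv2, nv3, nv4⟩, ⟨ns1, ns2, ns3, ns4⟩, ⟨n12, n13, n14⟩, ⟨n23, n24⟩, n34⟩ :=
      nd'
    have xs : s ∈ X := hmem s (by simp)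
    have x1 : u1 ∈ X := hmem u1 (by simp)
    have x2 : u2 ∈ X := hmem u2 (by simp)
    have x3 : u3 ∈ X := hmem u3 (by simp)
    have x4 : u4 ∈ X := hmem u4 (by simp)
    have ap1 : G.Adj p u1 := by
      have : u1 ∈ G.neighborFinset p := by rw [hp]; simp
      simpa using this
    have ap2 : G.Adj p u2 := by
      have : u2 ∈ G.neighborFinset p := by rw [hp]; simp
      simpa using this
    have aq3 : G.Adj q u3 := by
      have : u3 ∈ G.neighborFinset q := by rw [hq]; simp
      simpa using this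
    have aq4 : G.Adj q u4 := by
      have : u4 ∈ G.neighborFinset q := by rw [hq]; simp
      simpa using this
    obtain ⟨z1, r1, s1, b1⟩ := bd_nbr hloc st (hXD u1 x1).1 (hXD u1 x1).2 hpi.1 ap1.symm
    obtain ⟨z2, r2, s2, b2⟩ := bd_nbr hloc st (hXD u2 x2).1 (hXD u2 x2).2 hpi.1 ap2.symm
    obtain ⟨z3, r3, s3, b3⟩ := bd_nbr hloc st (hXD u3 x3).1 (hXD u3 x3).2 hqi.1 aq3.symm
    obtain ⟨z4, r4, s4, b4⟩ := bd_nbr hloc st (hXD u4 x4).1 (hXD u4 x4).2 hqi.1 aq4.symm
    obtain ⟨zs, al, be, t, bs⟩ :=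
      (hloc s (hXD s xs).1).resolve_left (fun h => (hXD s xs).2 h.1)
    have i1 := h2 _ _ _ _ _ b1 hpi
    have i2 := h2 _ _ _ _ _ b2 hpi
    have i3 := h2 _ _ _ _ _ b3 hqi
    have i4 := h2 _ _ _ _ _ b4 hqi
    have notp : ¬ G.Adj p s := by
      intro h
      have : s ∈ G.neighborFinset p := by simpa using h
      rw [hp] at this
      simp only [Finset.mem_insert, Finset.mem_singleton] at this
      tauto
    have notq : ¬ G.Adj q s := by
      intro h
      have : s ∈ G.neighborFinset q := by simpa using h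
      rw [hq] at this
      simp only [Finset.mem_insert, Finset.mem_singleton] at this
      tauto
    have key : ∀ u zu pu ru su, Bd G D W u zu pu ru su → u ∈ X → v ≠ u → s ≠ u → Inn G D pu →
        Inn G D ru → ¬ G.Adj pu s → G.Adj ru s := by
      intro u zu pu ru su bu xu hvu hsu ip ir np
      rcases near_bd st bu (hXD s xs).1 (hXD s xs).2 (hnear u xu s xs (Ne.symm hsu)) with
        h | h | h | h | h
      · exact absurd h (sib_ne st hb bu bs hvu)
      · exact absurd (h ▸ ip) (hXD s xs).2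
      · exact absurd (h ▸ ir) (hXD s xs).2
      · exact absurd h np
      · exact h
    have a1 := key _ _ _ _ _ b1 x1 nv1 ns1 hpi i1 notp
    have a2 := key _ _ _ _ _ b2 x2 nv2 ns2 hpi i2 notp
    have a3 := key _ _ _ _ _ b3 x3 nv3 ns3 hqi i3 notq
    have a4 := key _ _ _ _ _ b4 x4 nv4 ns4 hqi i4 notq
    have hr12 : r1 ≠ r2 := r_ne h3 st b1 b2 hp hpi i1 nd a1 (hnear _ x1 _ x3 n13)
      (hnear _ x1 _ x4 n14) (hXD u3 x3) (hXD u4 x4)
    have hr34 : r3 ≠ r4 := by
      refine r_ne (v := v) (s := s) (u3 := u1) (u4 := u2) h3 st b3 b4 hq hqi i3 ?_ a3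
        (hnear _ x3 _ x1 (Ne.symm n13)) (hnear _ x3 _ x2 (Ne.symm n23)) (hXD u1 x1) (hXD u2 x2)
      simp only [List.nodup_cons, List.mem_cons, List.not_mem_nil, or_false, not_or,
        not_false_eq_true, List.nodup_nil, and_true]
      exact ⟨⟨nvs, nv3, nv4, nv1, nv2⟩, ⟨ns3, ns4, ns1, ns2⟩, ⟨n34, Ne.symm n13, Ne.symm n23⟩,
        ⟨Ne.symm n14, Ne.symm n24⟩, n12⟩
    have hal : ∀ r, Inn G D r → G.Adj r s → r = al ∨ r = be := by
      intro r hr ha
      rcases bs.of_adj ha.symm with h | h | h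
      · exact absurd (h ▸ hr.1) (bs.zD st)
      · exact Or.inl h
      · exact Or.inr h
    have c1 := hal r1 i1 a1
    have c2 := hal r2 i2 a2
    have c3 := hal r3 i3 a3
    have c4 := hal r4 i4 a4
    have hcase : (r1 = r3 ∧ r2 = r4) ∨ (r1 = r4 ∧ r2 = r3) := by
      rcases c1 with e1 | e1 <;> rcases c2 with e2 | e2 <;> rcases c3 with e3 | e3 <;>
        rcases c4 with e4 | e4 <;>
        first
        | exact absurd (e1.trans e2.symm) hr12
        | exact absurd (e3.trans e4.symm) hr34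
        | exact Or.inl ⟨e1.trans e3.symm, e2.trans e4.symm⟩
        | exact Or.inr ⟨e1.trans e4.symm, e2.trans e3.symm⟩
    rcases hcase with ⟨rfl, rfl⟩ | ⟨rfl, rfl⟩
    · exact k33_b hK st hb b1 b2 b3 b4 hpi hqi i1 i2 hr12 nd (hXD s xs) a1 a2
    · refine k33_b hK st hb b1 b2 b4 b3 hpi hqi i1 i2 hr12 ?_ (hXD s xs) a1 a2
      simp only [List.nodup_cons, List.mem_cons, List.not_mem_nil, or_false, not_or,
        not_false_eq_true, List.nodup_nil, and_true]
      exact ⟨⟨nvs, nv1, nv2, nv4, nv3⟩, ⟨ns1, ns2, ns4, ns3⟩, ⟨n12, n14, n13⟩, ⟨n24, n23⟩,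
        Ne.symm n34⟩
  · have hqi : ¬ Inn G D q := fun h => hpi (h2 _ _ _ _ _ hb.sw h)
    have hvi := (hXD v hv).2
    obtain ⟨zp, p', sp, bp⟩ := bd_nbr hloc st hb.pD hpi hb.vD hb.adj.2.1.symm
    obtain ⟨zq, q', sq, bq⟩ := bd_nbr hloc st hb.qD hqi hb.vD hb.adj.2.2.symm
    have hsub : ∀ x ∈ X, x ∈ [v, s, p, p', q, q'] := by
      intro x hx
      by_cases hxv : x = v
      · simp [hxv]
      rcases near_bd st hb (hXD x hx).1 (hXD x hx).2 (hnear v hv x hx (Ne.symm hxv)) with
        h | h | h | h | h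
      · simp [h]
      · simp [h]
      · simp [h]
      · rcases bp.of_adj h with h' | h' | h'
        · exact absurd (h' ▸ (hXD x hx).1) (bp.zD st)
        · exact absurd h' hxv
        · simp [h']
      · rcases bq.of_adj h with h' | h' | h'
        · exact absurd (h' ▸ (hXD x hx).1) (bq.zD st)
        · exact absurd h' hxv
        · simp [h']
    obtain ⟨nd, hmem⟩ := six_nodup hX hsub
    simp only [List.nodup_cons, List.mem_cons, List.not_mem_nil, or_false, not_or,
      not_false_eq_true, List.nodup_nil, and_true] at nd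
    obtain ⟨⟨nvs, nvp, nvp', nvq, nvq'⟩, ⟨nsp, nsp', nsq, nsq'⟩, ⟨npp', npq, npq'⟩,
      ⟨np'q, np'q'⟩, nqq'⟩ := nd
    have xs : s ∈ X := hmem s (by simp)
    have xp : p ∈ X := hmem p (by simp)
    have xp' : p' ∈ X := hmem p' (by simp)
    have xq : q ∈ X := hmem q (by simp)
    have xq' : q' ∈ X := hmem q' (by simp)
    obtain ⟨z', p'', t, bp'⟩ := bd_nbr hloc st (hXD p' xp').1 (hXD p' xp').2 hb.pD
      bp.adj.2.2.symm
    obtain ⟨z'', q'', t', bq'⟩ := bd_nbr hloc st (hXD q' xq').1 (hXD q' xq').2 hb.qD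
      bq.adj.2.2.symm
    obtain ⟨zs, al, be, ts, bs⟩ :=
      (hloc s (hXD s xs).1).resolve_left (fun h => (hXD s xs).2 h.1)
    have hnv : ∀ x, x ∈ D → x ≠ p → x ≠ q → ¬ G.Adj v x := by
      intro x hx h1' h2' h
      rcases hb.of_adj h with h' | h' | h'
      · exact hb.zD st (h' ▸ hx)
      · exact h1' h'
      · exact h2' h'
    have ap's : G.Adj p' s := by
      rcases near_bd st bp (hXD s xs).1 (hXD s xs).2 (hnear p xp s xs (Ne.symm nsp)) with
        h | h | h | h | h
      · exact absurd h (sib_ne st hb bp bs nvp)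
      · exact absurd h.symm nvs
      · exact absurd h nsp'
      · exact absurd h (hnv s (hXD s xs).1 nsp nsq)
      · exact h
    have aq's : G.Adj q' s := by
      rcases near_bd st bq (hXD s xs).1 (hXD s xs).2 (hnear q xq s xs (Ne.symm nsq)) with
        h | h | h | h | h
      · exact absurd h (sib_ne st hb bq bs nvq)
      · exact absurd h.symm nvs
      · exact absurd h nsq'
      · exact absurd h (hnv s (hXD s xs).1 nsp nsq)
      · exact h
    have hp'' : s = p'' := by
      rcases bp'.of_adj ap's with h | h | h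
      · exact absurd (h ▸ (hXD s xs).1) (bp'.zD st)
      · exact absurd h nsp
      · exact h
    have hna : ¬ G.Adj p' q' := by
      intro h
      rcases bp'.of_adj h with h | h | h
      · exact absurd (h ▸ (hXD q' xq').1) (bp'.zD st)
      · exact npq' h.symm
      · exact nsq' (hp''.trans h.symm)
    have hq'sp : q' = sp := by
      rcases near_bd st bp (hXD q' xq').1 (hXD q' xq').2 (hnear p xp q' xq' npq') with
        h | h | h | h | h
      · exact h
      · exact absurd h.symm nvq'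
      · exact absurd h.symm np'q'
      · exact absurd h (hnv q' (hXD q' xq').1 (Ne.symm npq') (Ne.symm nqq'))
      · exact absurd h hna
    have hp'sq : p' = sq := by
      rcases near_bd st bq (hXD p' xp').1 (hXD p' xp').2 (hnear q xq p' xp' (Ne.symm np'q)) with
        h | h | h | h | h
      · exact h
      · exact absurd h.symm nvp'
      · exact absurd h np'q'
      · exact absurd h (hnv p' (hXD p' xp').1 (Ne.symm npp') np'q)
      · exact absurd h.symm hna
    have zD := hb.zD st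
    have zpD := bp.zD st
    have zqD := bq.zD st
    have nzzp : z ≠ zp := by
      intro h
      rcases hb.of_adj_z (h ▸ bp.adj.1.symm) hb.pD with h' | h'
      · exact nvp h'.symm
      · exact nsp h'.symm
    have nzzq : z ≠ zq := by
      intro h
      rcases hb.of_adj_z (h ▸ bq.adj.1.symm) hb.qD with h' | h'
      · exact nvq h'.symm
      · exact nsq h'.symm
    have nzpzq : zp ≠ zq := by
      intro h
      rcases bp.of_adj_z (h ▸ bq.adj.1.symm) hb.qD with h' | h'
      · exact npq h'.symm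
      · exact nqq' (h'.trans hq'sp.symm)
    have hz : ∀ a c : V, a ∈ D → c ∉ D → a ≠ c := fun a c h1 h2 h => h2 (h ▸ h1)
    have dv := (hXD v hv).1
    have ds := (hXD s xs).1
    have dp := hb.pD
    have dq := hb.qD
    have dp' := (hXD p' xp').1
    have dq' := (hXD q' xq').1
    refine hK v p p' s q' q [] [] [] [] [] [] [z] [zp] [zq] ?_ ?_ ?_ ?_ ?_ ?_ ?_ ?_ ?_ ?_
    · simp only [List.nil_append, List.append_nil, List.cons_append, List.nodup_cons,
        List.mem_cons, List.not_mem_nil, or_false, not_or, not_false_eq_true, List.nodup_nil,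
        and_true]
      exact ⟨⟨nvp, nvp', nvs, nvq', nvq, hz _ _ dv zD, hz _ _ dv zpD, hz _ _ dv zqD⟩,
        ⟨npp', Ne.symm nsp, npq', npq, hz _ _ dp zD, hz _ _ dp zpD, hz _ _ dp zqD⟩,
        ⟨Ne.symm nsp', np'q', np'q, hz _ _ dp' zD, hz _ _ dp' zpD, hz _ _ dp' zqD⟩,
        ⟨nsq', nsq, hz _ _ ds zD, hz _ _ ds zpD, hz _ _ ds zqD⟩,
        ⟨Ne.symm nqq', hz _ _ dq' zD, hz _ _ dq' zpD, hz _ _ dq' zqD⟩,
        ⟨hz _ _ dq zD, hz _ _ dq zpD, hz _ _ dq zqD⟩, ⟨nzzp, nzzq⟩, nzpzq⟩
    · simpa [Ch] using hb.adj.2.1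
    · simpa [Ch] using bp.adj.2.2
    · simpa [Ch] using ap's
    · simpa [Ch] using aq's.symm
    · simpa [Ch] using bq.adj.2.2.symm
    · simpa [Ch] using hb.adj.2.2.symm
    · simpa [Ch] using ⟨hb.adj.1, hb.adj_zs.1⟩
    · have := bp.adj_zs.1
      rw [← hq'sp] at this
      simpa [Ch] using ⟨bp.adj.1, this⟩
    · have := bq.adj_zs.1
      rw [← hp'sq] at this
      simpa [Ch] using ⟨this.symm, bq.adj.1.symm⟩

end Pool.Agent.E8B
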