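import Mathlib

set_option autoImplicit false

namespace Pool.Agent.E8B

open Finset

universe u

section LB

variable {V : Type u} {β : Type*} [Fintype V] [DecidableEq V] [DecidableEq β]

/-- Greedy colouring: if all lists have at least as many colours as the degree inside `U`, and
each nonempty subset which is closed under adjacency in `U` has a vertex with one more colour,
then `U` has a list colouring. -/
private theorem lb_greedy [Nonempty β] (H : SimpleGraph V) [DecidableRel H.Adj] (L : V → Finset β) :
    ∀ (n : ℕ) (U : Finset V), U.card = n →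
    (∀ v ∈ U, (U.filter (fun w => H.Adj v w)).card ≤ (L v).card) →
    (∀ A ⊆ U, A.Nonempty → (∀ a ∈ A, ∀ b ∈ U, H.Adj a b → b ∈ A) →
      ∃ a ∈ A, (U.filter (fun w => H.Adj a w)).card < (L a).card) →
    ∃ g : V → β, (∀ v ∈ U, g v ∈ L v) ∧ ∀ u ∈ U, ∀ v ∈ U, H.Adj u v → g u ≠ g v := by
  intro n
  induction n with
  | zero =>
    intro U hU _ _
    have : U = ∅ := by simpa using hU
    subst this
    exact ⟨fun _ => Classical.arbitrary β, by simp, by simp⟩
  | succ n ih =>
    intro U hU h1 h2
    have hne : U.Nonempty := by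
      rw [← Finset.card_pos]; omega
    obtain ⟨v, hvU, hv⟩ := h2 U (Finset.Subset.refl U) hne (fun a _ b hb _ => hb)
    have hsub : ∀ u, ((U.erase v).filter (fun w => H.Adj u w)) ⊆ U.filter (fun w => H.Adj u w) := by
      intro u x hx
      simp only [Finset.mem_filter, Finset.mem_erase] at hx ⊢
      exact ⟨hx.1.2, hx.2⟩
    obtain ⟨g, hg1, hg2⟩ := ih (U.erase v) (by rw [Finset.card_erase_of_mem hvU, hU]; rfl)
      (fun u hu => le_trans (Finset.card_le_card (hsub u)) (h1 u (Finset.mem_of_mem_erase hu)))
      (by
        intro A hA hAne hcl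
        by_cases hadj : ∃ a ∈ A, H.Adj a v
        · obtain ⟨a, ha, hav⟩ := hadj
          have haU : a ∈ U := Finset.mem_of_mem_erase (hA ha)
          refine ⟨a, ha, lt_of_lt_of_le (Finset.card_lt_card ?_) (h1 a haU)⟩
          refine ⟨hsub a, fun hcon => ?_⟩
          have := hcon (Finset.mem_filter.2 ⟨hvU, hav⟩)
          simp at this
        · push Not at hadj
          obtain ⟨a, ha, hlt⟩ := h2 A (fun x hx => Finset.mem_of_mem_erase (hA hx)) hAne (by
            intro a ha b hb hab
            refine hcl a ha b (Finset.mem_erase.2 ⟨?_, hb⟩) hab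
            rintro rfl
            exact hadj a ha hab)
          exact ⟨a, ha, lt_of_le_of_lt (Finset.card_le_card (hsub a)) hlt⟩)
    have hex : ∃ c ∈ L v, c ∉ (U.filter (fun w => H.Adj v w)).image g := by
      apply Finset.exists_mem_notMem_of_card_lt_card
      exact lt_of_le_of_lt Finset.card_image_le hv
    obtain ⟨c, hcL, hc⟩ := hex
    have hc' : ∀ u ∈ U, H.Adj v u → g u ≠ c := by
      intro u hu huv hgu
      apply hc
      rw [Finset.mem_image]
      exact ⟨u, Finset.mem_filter.2 ⟨hu, huv⟩, hgu⟩
    refine ⟨Function.update g v c, ?_, ?_⟩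
    · intro u hu
      by_cases huv : u = v
      · subst huv; simpa using hcL
      · rw [Function.update_of_ne huv]
        exact hg1 u (Finset.mem_erase.2 ⟨huv, hu⟩)
    · intro u hu w hw huw
      by_cases huv : u = v
      · subst huv
        have hwu : w ≠ u := fun h => by subst h; exact H.irrefl huw
        rw [Function.update_self, Function.update_of_ne hwu]
        exact (hc' w hw huw).symm
      · by_cases hwv : w = v
        · subst hwv
          rw [Function.update_self, Function.update_of_ne huv]
          exact hc' u hu huw.symm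
        · rw [Function.update_of_ne huv, Function.update_of_ne hwv]
          exact hg2 u (Finset.mem_erase.2 ⟨huv, hu⟩) w (Finset.mem_erase.2 ⟨hwv, hw⟩) huw

/-- Glue a colouring of `W` and a colouring of `U` from the reduced lists. -/
private theorem lb_glue (H : SimpleGraph V) [DecidableRel H.Adj] (L : V → Finset β)
    (W U S : Finset V) (hS : ∀ x ∈ S, x ∈ W ∨ x ∈ U) (hWU : ∀ x ∈ W, x ∉ U) (g g' : V → β)
    (h1 : ∀ v ∈ W, g v ∈ L v) (h2 : ∀ u ∈ W, ∀ v ∈ W, H.Adj u v → g u ≠ g v)
    (h3 : ∀ v ∈ U, g' v ∈ L v \ (W.filter (fun w => H.Adj v w)).image g)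
    (h4 : ∀ u ∈ U, ∀ v ∈ U, H.Adj u v → g' u ≠ g' v) :
    ∃ f : V → β, (∀ v ∈ S, f v ∈ L v) ∧ ∀ u ∈ S, ∀ v ∈ S, H.Adj u v → f u ≠ f v := by
  have h5 : ∀ v ∈ U, ∀ w ∈ W, H.Adj v w → g' v ≠ g w := by
    intro v hv w hw hvw he
    have := (Finset.mem_sdiff.1 (h3 v hv)).2
    apply this
    rw [Finset.mem_image]
    exact ⟨w, Finset.mem_filter.2 ⟨hw, hvw⟩, he.symm⟩
  refine ⟨fun x => if x ∈ W then g x else g' x, ?_, ?_⟩
  · intro v hv
    by_cases hvW : v ∈ W
    · simp only [hvW, if_true]; exact h1 v hvW
    · simp only [hvW, if_false]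
      exact (Finset.mem_sdiff.1 (h3 v ((hS v hv).resolve_left hvW))).1
  · intro u hu v hv huv
    by_cases huW : u ∈ W <;> by_cases hvW : v ∈ W <;> simp only [huW, hvW, if_true, if_false]
    · exact h2 u huW v hvW huv
    · exact (h5 v ((hS v hv).resolve_left hvW) u huW huv.symm).symm
    · exact h5 u ((hS u hu).resolve_left huW) v hvW huv
    · exact h4 u ((hS u hu).resolve_left huW) v ((hS v hv).resolve_left hvW) huv

/-- The reduced lists: `W` is coloured, `U` is coloured by the greedy lemma. -/
private theorem lb_step [Nonempty β] (H : SimpleGraph V) [DecidableRel H.Adj] (L : V → Finset β)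
    (hL : ∀ v, 5 ≤ (L v).card) (hd : ∀ v, (H.neighborFinset v).card ≤ 5)
    (W U S : Finset V) (hS : ∀ x ∈ S, x ∈ W ∨ x ∈ U) (hWU : ∀ x ∈ W, x ∉ U) (g : V → β)
    (h1 : ∀ v ∈ W, g v ∈ L v) (h2 : ∀ u ∈ W, ∀ v ∈ W, H.Adj u v → g u ≠ g v)
    (h3 : ∀ A ⊆ U, A.Nonempty → (∀ a ∈ A, ∀ b ∈ U, H.Adj a b → b ∈ A) →
      ∃ a ∈ A, (U.filter (fun w => H.Adj a w)).card <
        (L a \ (W.filter (fun w => H.Adj a w)).image g).card) :
    ∃ f : V → β, (∀ v ∈ S, f v ∈ L v) ∧ ∀ u ∈ S, ∀ v ∈ S, H.Adj u v → f u ≠ f v := by
  obtain ⟨g', h4, h5⟩ := lb_greedy H (fun v => L v \ (W.filter (fun w => H.Adj v w)).image g)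
    U.card U rfl (by
      intro v hv
      have a1 := Finset.le_card_sdiff ((W.filter (fun w => H.Adj v w)).image g) (L v)
      have a2 : ((W.filter (fun w => H.Adj v w)).image g).card ≤
        (W.filter (fun w => H.Adj v w)).card := Finset.card_image_le
      have a3 : (W.filter (fun w => H.Adj v w)).card + (U.filter (fun w => H.Adj v w)).card ≤ 5 := by
        rw [← Finset.card_union_of_disjoint]
        · refine le_trans (Finset.card_le_card ?_) (hd v)
          intro x hx
          simp only [Finset.mem_union, Finset.mem_filter] at hx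
          rw [SimpleGraph.mem_neighborFinset]
          rcases hx with hx | hx <;> exact hx.2
        · rw [Finset.disjoint_left]
          intro x hx hx'
          exact hWU x (Finset.mem_filter.1 hx).1 (Finset.mem_filter.1 hx').1
      have := hL v
      omega) h3
  exact lb_glue H L W U S hS hWU g g' h1 h2 h4 h5

private theorem lb_chain (H : SimpleGraph V) (U A : Finset V)
    (hA : ∀ a ∈ A, ∀ b ∈ U, H.Adj a b → b ∈ A) :
    ∀ l : List V, l.IsChain H.Adj → (∀ x ∈ l, x ∈ U) → (∃ x ∈ l, x ∈ A) → ∀ x ∈ l, x ∈ A := by
  intro l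
  induction l with
  | nil => intro _ _ _ x hx; cases hx
  | cons a t ih =>
    intro hch hU hex
    cases t with
    | nil =>
      obtain ⟨x, hx, hxA⟩ := hex
      intro y hy
      simp only [List.mem_singleton] at hx hy
      subst hx; subst hy; exact hxA
    | cons b t =>
      rw [List.isChain_cons_cons] at hch
      have hUt : ∀ x ∈ b :: t, x ∈ U := fun x hx => hU x (List.mem_cons_of_mem _ hx)
      have key : ∀ x ∈ b :: t, x ∈ A := by
        apply ih hch.2 hUt
        obtain ⟨x, hx, hxA⟩ := hex
        rcases List.mem_cons.1 hx with rfl | hx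
        · exact ⟨b, by simp, hA x hxA b (hUt b (by simp)) hch.1⟩
        · exact ⟨x, hx, hxA⟩
      intro y hy
      rcases List.mem_cons.1 hy with rfl | hy
      · exact hA b (key b (by simp)) y (hU y (by simp)) hch.1.symm
      · exact key y hy

/-- Two colours which cost a third list at most one colour. -/
private theorem lb_pick (A B C : Finset β) (hA : 5 ≤ A.card) (hB : 5 ≤ B.card) (hC : 5 ≤ C.card) :
    ∃ a ∈ A, ∃ b ∈ B, 4 ≤ (C \ {a, b}).card := by
  have hAne : A.Nonempty := by rw [← Finset.card_pos]; omega
  have hBne : B.Nonempty := by rw [← Finset.card_pos]; omega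
  obtain ⟨a0, ha0⟩ := hAne
  obtain ⟨b0, hb0⟩ := hBne
  by_cases h6 : 6 ≤ C.card
  · refine ⟨a0, ha0, b0, hb0, ?_⟩
    have h1 := Finset.le_card_sdiff ({a0, b0} : Finset β) C
    have h2 : ({a0, b0} : Finset β).card ≤ 2 := Finset.card_le_two
    omega
  · have hC5 : C.card = 5 := by omega
    have one : ∀ c : β, ∀ D : Finset β, (∀ x ∈ D, x ∈ C → x = c) → 4 ≤ (C \ D).card := by
      intro c D hD
      have h1 : C.erase c ⊆ C \ D := by
        intro x hx
        rw [Finset.mem_erase] at hx
        rw [Finset.mem_sdiff]
        exact ⟨hx.2, fun hxD => hx.1 (hD x hxD hx.2)⟩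
      have h2 := Finset.card_le_card h1
      have h3 := Finset.pred_card_le_card_erase (s := C) (a := c)
      omega
    by_cases hAB : ∃ c, c ∈ A ∧ c ∈ B
    · obtain ⟨c, hcA, hcB⟩ := hAB
      exact ⟨c, hcA, c, hcB, one c _ (by intro x hx _; simpa using hx)⟩
    · by_cases hAC : ∃ a ∈ A, a ∉ C
      · obtain ⟨a, haA, haC⟩ := hAC
        refine ⟨a, haA, b0, hb0, one b0 _ ?_⟩
        intro x hx hxC
        rw [Finset.mem_insert, Finset.mem_singleton] at hx
        rcases hx with rfl | rfl
        · exact absurd hxC haC
        · rfl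
      · push Not at hAC
        have hsub : A ⊆ C := fun x hx => hAC x hx
        have hEq : A = C := Finset.eq_of_subset_of_card_le hsub (by omega)
        refine ⟨a0, ha0, b0, hb0, one a0 _ ?_⟩
        intro x hx hxC
        rw [Finset.mem_insert, Finset.mem_singleton] at hx
        rcases hx with rfl | rfl
        · rfl
        · exact absurd ⟨x, hEq ▸ hxC, hb0⟩ hAB

/-- Last occurrence. -/
private theorem lb_last (p : V → Prop) : ∀ l : List V, (∃ x ∈ l, p x) →
    ∃ (C : List V) (c : V) (D : List V), l = C ++ c :: D ∧ p c ∧ ∀ x ∈ D, ¬ p x := by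
  intro l
  induction l with
  | nil => rintro ⟨x, hx, _⟩; cases hx
  | cons a t ih =>
    intro hex
    by_cases h : ∃ x ∈ t, p x
    · obtain ⟨C, c, D, rfl, hc, hD⟩ := ih h
      exact ⟨a :: C, c, D, rfl, hc, hD⟩
    · push Not at h
      obtain ⟨x, hx, hpx⟩ := hex
      rcases List.mem_cons.1 hx with rfl | hx
      · exact ⟨[], x, t, rfl, hpx, h⟩
      · exact absurd hpx (h x hx)

/-- First occurrence. -/
private theorem lb_first (p : V → Prop) : ∀ l : List V, (∃ x ∈ l, p x) →
    ∃ (C : List V) (c : V) (D : List V), l = C ++ c :: D ∧ p c ∧ ∀ x ∈ C, ¬ p x := by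
  intro l
  induction l with
  | nil => rintro ⟨x, hx, _⟩; cases hx
  | cons a t ih =>
    intro hex
    by_cases ha : p a
    · exact ⟨[], a, t, rfl, ha, by simp⟩
    · obtain ⟨x, hx, hpx⟩ := hex
      rcases List.mem_cons.1 hx with rfl | hx
      · exact absurd hpx ha
      · obtain ⟨C, c, D, rfl, hc, hD⟩ := ih ⟨x, hx, hpx⟩
        refine ⟨a :: C, c, D, rfl, hc, ?_⟩
        intro y hy
        rcases List.mem_cons.1 hy with rfl | hy
        · exact ha
        · exact hD y hy

/-- Case A: all vertices of `S` are on the path. -/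
private theorem lb_caseA [Nonempty β] (H : SimpleGraph V) [DecidableRel H.Adj] (L : V → Finset β)
    (hL : ∀ v, 5 ≤ (L v).card) (hd : ∀ v, (H.neighborFinset v).card ≤ 5) (S : Finset V)
    (hcl : ∀ a ∈ S, ∀ b, H.Adj a b → b ∈ S) (h5 : ∀ a ∈ S, (H.neighborFinset a).card = 5)
    (v1 v2 v3 : V) (h13 : v1 ≠ v3) (h21 : H.Adj v2 v1) (h23 : H.Adj v2 v3)
    (hn : ¬ H.Adj v1 v3) (m : List V)
    (hnd : (m ++ [v3, v2, v1]).Nodup) (hch : (m ++ [v3, v2, v1]).IsChain H.Adj)
    (hmem : ∀ x ∈ m ++ [v3, v2, v1], x ∈ S) (hall : ∀ x ∈ S, x ∈ m ++ [v3, v2, v1]) :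
    ∃ f : V → β, (∀ v ∈ S, f v ∈ L v) ∧ ∀ u ∈ S, ∀ v ∈ S, H.Adj u v → f u ≠ f v := by
  have h1S : v1 ∈ S := hmem v1 (by simp)
  have h2S : v2 ∈ S := hmem v2 (by simp)
  have h3S : v3 ∈ S := hmem v3 (by simp)
  have h12 : v1 ≠ v2 := h21.symm.ne
  have h32 : v3 ≠ v2 := h23.symm.ne
  obtain ⟨c1, hc1, c3, hc3, h4⟩ := lb_pick (L v1) (L v3) (L v2) (hL v1) (hL v3) (hL v2)
  have hm : ∀ x ∈ m, x ≠ v1 ∧ x ≠ v2 ∧ x ≠ v3 := by
    intro x hx
    rw [List.nodup_append] at hnd
    refine ⟨hnd.2.2 x hx v1 (by simp), hnd.2.2 x hx v2 (by simp), hnd.2.2 x hx v3 (by simp)⟩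
  set U : Finset V := (S.erase v1).erase v3 with hUdef
  have hUmem : ∀ x, x ∈ U ↔ x ≠ v3 ∧ x ≠ v1 ∧ x ∈ S := by
    intro x; simp [hUdef]
  set g : V → β := fun x => if x = v1 then c1 else c3 with hg
  have g1 : g v1 = c1 := by simp [hg]
  have g3 : g v3 = c3 := by simp [hg, h13.symm]
  have hch' : m.IsChain H.Adj := hch.left_of_append
  refine lb_step H L hL hd {v1, v3} U S ?_ ?_ g ?_ ?_ ?_
  · intro x hx
    by_cases hx1 : x = v1
    · left; simp [hx1]
    · by_cases hx3 : x = v3
      · left; simp [hx3]
      · right; exact (hUmem x).2 ⟨hx3, hx1, hx⟩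
  · intro x hx hxU
    rw [hUmem] at hxU
    rw [Finset.mem_insert, Finset.mem_singleton] at hx
    rcases hx with hx | hx
    · exact hxU.2.1 hx
    · exact hxU.1 hx
  · intro x hx
    rw [Finset.mem_insert, Finset.mem_singleton] at hx
    rcases hx with rfl | rfl
    · rw [g1]; exact hc1
    · rw [g3]; exact hc3
  · intro x hx y hy hxy
    rw [Finset.mem_insert, Finset.mem_singleton] at hx hy
    rcases hx with rfl | rfl <;> rcases hy with rfl | rfl
    · exact absurd hxy H.irrefl
    · exact absurd hxy hn
    · exact absurd hxy.symm hn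
    · exact absurd hxy H.irrefl
  · intro A hA hAne hAcl
    have h2A : v2 ∈ A := by
      obtain ⟨z, hz⟩ := hAne
      have hzU := (hUmem z).1 (hA hz)
      by_cases hz2 : z = v2
      · rw [← hz2]; exact hz
      · have hzm : z ∈ m := by
          have := hall z hzU.2.2
          rw [List.mem_append] at this
          rcases this with h | h
          · exact h
          · simp only [List.mem_cons, List.not_mem_nil, or_false] at h
            rcases h with h | h | h
            · exact absurd h hzU.1
            · exact absurd h hz2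
            · exact absurd h hzU.2.1
        have hmA : ∀ x ∈ m, x ∈ A := lb_chain H U A hAcl m hch'
          (fun x hx => (hUmem x).2 ⟨(hm x hx).2.2, (hm x hx).1, hmem x (by simp [hx])⟩)
          ⟨z, hzm, hz⟩
        have hex : ∃ w ∈ H.neighborFinset v2, w ∉ ({v1, v3} : Finset V) := by
          apply Finset.exists_mem_notMem_of_card_lt_card
          rw [h5 v2 h2S]
          exact lt_of_le_of_lt Finset.card_le_two (by norm_num)
        obtain ⟨w, hw, hw13⟩ := hex
        rw [SimpleGraph.mem_neighborFinset] at hw
        rw [Finset.mem_insert, Finset.mem_singleton, not_or] at hw13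
        have hwS : w ∈ S := hcl v2 h2S w hw
        have hwm : w ∈ m := by
          have := hall w hwS
          rw [List.mem_append] at this
          rcases this with h | h
          · exact h
          · simp only [List.mem_cons, List.not_mem_nil, or_false] at h
            rcases h with h | h | h
            · exact absurd h hw13.2
            · exact absurd h hw.symm.ne
            · exact absurd h hw13.1
        exact hAcl w (hmA w hwm) v2 ((hUmem v2).2 ⟨h32.symm, h12.symm, h2S⟩) hw.symm
    refine ⟨v2, h2A, ?_⟩
    have e1 : (U.filter (fun w => H.Adj v2 w)).card ≤ 3 := by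
      have : U.filter (fun w => H.Adj v2 w) ⊆ ((H.neighborFinset v2).erase v1).erase v3 := by
        intro x hx
        rw [Finset.mem_filter, hUmem] at hx
        rw [Finset.mem_erase, Finset.mem_erase, SimpleGraph.mem_neighborFinset]
        exact ⟨hx.1.1, hx.1.2.1, hx.2⟩
      have h := Finset.card_le_card this
      rw [Finset.card_erase_of_mem, Finset.card_erase_of_mem, h5 v2 h2S] at h
      · exact h
      · rw [SimpleGraph.mem_neighborFinset]; exact h21
      · rw [Finset.mem_erase, SimpleGraph.mem_neighborFinset]; exact ⟨h13.symm, h23⟩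
    have e2 : 4 ≤ (L v2 \ (({v1, v3} : Finset V).filter (fun w => H.Adj v2 w)).image g).card := by
      refine le_trans h4 (Finset.card_le_card ?_)
      intro x hx
      rw [Finset.mem_sdiff] at hx ⊢
      refine ⟨hx.1, fun hcon => hx.2 ?_⟩
      rw [Finset.mem_image] at hcon
      obtain ⟨w, hw, rfl⟩ := hcon
      rw [Finset.mem_filter, Finset.mem_insert, Finset.mem_singleton] at hw
      rcases hw.1 with rfl | rfl
      · rw [g1]; simp
      · rw [g3]; simp
    omega

/-- Case B: the cycle. `K` is the list of its vertices, `l1' ++ [y] ++ x :: l2`. -/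
private theorem lb_caseB [Nonempty β] (H : SimpleGraph V) [DecidableRel H.Adj] (L : V → Finset β)
    (hL : ∀ v, 5 ≤ (L v).card) (hd : ∀ v, (H.neighborFinset v).card ≤ 5) (S : Finset V)
    (hcl : ∀ a ∈ S, ∀ b, H.Adj a b → b ∈ S)
    (l1 : List V) (x y : V) (l2 : List V) (hnd : (l1 ++ y :: x :: l2).Nodup)
    (hch : (l1 ++ y :: x :: l2).IsChain H.Adj)
    (hcyc : (x :: l2 ++ l1).IsChain H.Adj)
    (hmem : ∀ z ∈ l1 ++ y :: x :: l2, z ∈ S)
    (hx : ∃ b ∈ S, H.Adj x b ∧ b ∉ l1 ++ y :: x :: l2)
    (hy : ∀ b, H.Adj y b → b ∈ l1 ++ y :: x :: l2)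
    (ih : ∀ W : Finset V, W ⊂ S → ∃ f : V → β, (∀ v ∈ W, f v ∈ L v) ∧
      ∀ u ∈ W, ∀ v ∈ W, H.Adj u v → f u ≠ f v) :
    ∃ f : V → β, (∀ v ∈ S, f v ∈ L v) ∧ ∀ u ∈ S, ∀ v ∈ S, H.Adj u v → f u ≠ f v := by
  set K : Finset V := (l1 ++ y :: x :: l2).toFinset with hK
  have hKmem : ∀ z, z ∈ K ↔ z ∈ l1 ++ y :: x :: l2 := by intro z; rw [hK, List.mem_toFinset]
  have hKS : K ⊆ S := fun z hz => hmem z ((hKmem z).1 hz)
  have hxK : x ∈ K := (hKmem x).2 (by simp)
  have hyK : y ∈ K := (hKmem y).2 (by simp)
  have hyx : H.Adj y x := by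
    have := (List.isChain_append_cons_cons.1 hch).2.1
    exact this
  set W : Finset V := S \ K with hW
  have hWmem : ∀ z, z ∈ W ↔ z ∈ S ∧ z ∉ K := by intro z; rw [hW, Finset.mem_sdiff]
  have hWS : W ⊂ S := by
    refine ⟨Finset.sdiff_subset, fun hcon => ?_⟩
    have := hcon (hKS hxK)
    rw [hWmem] at this
    exact this.2 hxK
  obtain ⟨g, hg1, hg2⟩ := ih W hWS
  have hyW : ∀ z ∈ W, ¬ H.Adj y z := by
    intro z hz hyz
    rw [hWmem] at hz
    exact hz.2 ((hKmem z).2 (hy z hyz))
  have hyLe : (W.filter (fun w => H.Adj y w)) = ∅ := by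
    rw [Finset.filter_eq_empty_iff]
    intro z hz; exact hyW z hz
  obtain ⟨b, hbS, hxb, hbK⟩ := hx
  have hbW : b ∈ W := (hWmem b).2 ⟨hbS, fun h => hbK ((hKmem b).1 h)⟩
  have hsum : (W.filter (fun w => H.Adj x w)).card + (K.filter (fun w => H.Adj x w)).card ≤ 5 := by
    rw [← Finset.card_union_of_disjoint]
    · refine le_trans (Finset.card_le_card ?_) (hd x)
      intro z hz
      simp only [Finset.mem_union, Finset.mem_filter] at hz
      rw [SimpleGraph.mem_neighborFinset]
      rcases hz with hz | hz <;> exact hz.2
    · rw [Finset.disjoint_left]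
      intro z hz hz'
      exact ((hWmem z).1 (Finset.mem_filter.1 hz).1).2 (Finset.mem_filter.1 hz').1
  have hWx : 1 ≤ (W.filter (fun w => H.Adj x w)).card := by
    rw [Nat.succ_le_iff, Finset.card_pos]
    exact ⟨b, Finset.mem_filter.2 ⟨hbW, hxb⟩⟩
  by_cases hbig : 5 ≤ (L x \ (W.filter (fun w => H.Adj x w)).image g).card
  · -- colour the whole cycle with `x` last
    refine lb_step H L hL hd W K S ?_ ?_ g hg1 hg2 ?_
    · intro z hz
      by_cases hzK : z ∈ K
      · exact Or.inr hzK
      · exact Or.inl ((hWmem z).2 ⟨hz, hzK⟩)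
    · intro z hz; exact ((hWmem z).1 hz).2
    · intro A hA hAne hAcl
      obtain ⟨z, hz⟩ := hAne
      have hall := lb_chain H K A hAcl (l1 ++ y :: x :: l2) hch (fun w hw => (hKmem w).2 hw)
        ⟨z, (hKmem z).1 (hA hz), hz⟩
      refine ⟨x, hall x (by simp), ?_⟩
      omega
  · -- colour `y` by a colour which `x` does not have
    have hLy : ∃ c ∈ L y, c ∉ L x \ (W.filter (fun w => H.Adj x w)).image g := by
      apply Finset.exists_mem_notMem_of_card_lt_card
      have := hL y
      omega
    obtain ⟨c, hcy, hcx⟩ := hLy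
    have hyW' : y ∉ W := fun h => ((hWmem y).1 h).2 hyK
    set g2 : V → β := Function.update g y c with hg2def
    have g2y : g2 y = c := by simp [hg2def]
    have g2W : ∀ z ∈ W, g2 z = g z := by
      intro z hz
      rw [hg2def, Function.update_of_ne]
      rintro rfl; exact hyW' hz
    refine lb_step H L hL hd (insert y W) (K.erase y) S ?_ ?_ g2 ?_ ?_ ?_
    · intro z hz
      by_cases hzy : z = y
      · left; rw [hzy]; exact Finset.mem_insert_self _ _
      · by_cases hzK : z ∈ K
        · exact Or.inr (Finset.mem_erase.2 ⟨hzy, hzK⟩)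
        · exact Or.inl (Finset.mem_insert_of_mem ((hWmem z).2 ⟨hz, hzK⟩))
    · intro z hz hz'
      rw [Finset.mem_erase] at hz'
      rcases Finset.mem_insert.1 hz with h | h
      · exact hz'.1 h
      · exact ((hWmem z).1 h).2 hz'.2
    · intro z hz
      rcases Finset.mem_insert.1 hz with rfl | h
      · rw [g2y]; exact hcy
      · rw [g2W z h]; exact hg1 z h
    · intro u hu v hv huv
      rcases Finset.mem_insert.1 hu with rfl | hu' <;> rcases Finset.mem_insert.1 hv with rfl | hv'
      · exact absurd huv H.irrefl
      · exact absurd huv (hyW v hv')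
      · exact absurd huv.symm (hyW u hu')
      · rw [g2W u hu', g2W v hv']; exact hg2 u hu' v hv' huv
    · intro A hA hAne hAcl
      obtain ⟨z, hz⟩ := hAne
      have hnd' := hnd
      rw [List.nodup_append, List.nodup_cons, List.nodup_cons] at hnd'
      have hy1 : y ∉ l1 := fun h => hnd'.2.2 y h y (by simp) rfl
      have hy2 : y ∉ x :: l2 := hnd'.2.1.1
      have hl : ∀ w, w ∈ x :: l2 ++ l1 ↔ w ∈ K.erase y := by
        intro w
        rw [Finset.mem_erase, hKmem, List.mem_append, List.mem_append]
        constructor
        · rintro (h | h)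
          · exact ⟨fun he => hy2 (he ▸ h), Or.inr (List.mem_cons_of_mem _ h)⟩
          · exact ⟨fun he => hy1 (he ▸ h), Or.inl h⟩
        · rintro ⟨hne, h | h⟩
          · exact Or.inr h
          · rcases List.mem_cons.1 h with h | h
            · exact absurd h hne
            · exact Or.inl h
      have hall := lb_chain H (K.erase y) A hAcl (x :: l2 ++ l1) hcyc (fun w hw => (hl w).1 hw)
        ⟨z, (hl z).2 (hA hz), hz⟩
      refine ⟨x, hall x (by simp), ?_⟩
      have e1 : ((K.erase y).filter (fun w => H.Adj x w)).card + 1 ≤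
          (K.filter (fun w => H.Adj x w)).card := by
        rw [Nat.succ_le_iff]
        apply Finset.card_lt_card
        refine ⟨?_, fun hcon => ?_⟩
        · intro w hw
          rw [Finset.mem_filter, Finset.mem_erase] at hw
          exact Finset.mem_filter.2 ⟨hw.1.2, hw.2⟩
        · have := hcon (Finset.mem_filter.2 ⟨hyK, hyx.symm⟩)
          simp at this
      have e2 : (L x \ (W.filter (fun w => H.Adj x w)).image g).card ≤
          (L x \ ((insert y W).filter (fun w => H.Adj x w)).image g2).card := by
        apply Finset.card_le_card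
        intro w hw
        have hw' := hw
        rw [Finset.mem_sdiff] at hw ⊢
        refine ⟨hw.1, fun hcon => ?_⟩
        rw [Finset.mem_image] at hcon
        obtain ⟨u, hu, rfl⟩ := hcon
        rw [Finset.mem_filter, Finset.mem_insert] at hu
        rcases hu with ⟨rfl | huW, hxu⟩
        · rw [g2y] at hw'; exact hcx hw'
        · rw [g2W u huW] at hw
          exact hw.2 (Finset.mem_image.2 ⟨u, Finset.mem_filter.2 ⟨huW, hxu⟩, rfl⟩)
      have e3 : 5 ≤ (L x \ (W.filter (fun w => H.Adj x w)).image g).card +
          (W.filter (fun w => H.Adj x w)).card := by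
        have a1 := Finset.le_card_sdiff ((W.filter (fun w => H.Adj x w)).image g) (L x)
        have a2 : ((W.filter (fun w => H.Adj x w)).image g).card ≤
          (W.filter (fun w => H.Adj x w)).card := Finset.card_image_le
        have := hL x
        omega
      omega

/-- The induction. -/
private theorem lb_main [Nonempty β] (H : SimpleGraph V) [DecidableRel H.Adj] (L : V → Finset β)
    (hL : ∀ v, 5 ≤ (L v).card) (hd : ∀ v, (H.neighborFinset v).card ≤ 5)
    (hK : ∀ S : Finset V, S.card = 6 → ∃ x ∈ S, ∃ y ∈ S, x ≠ y ∧ ¬ H.Adj x y) :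
    ∀ (n : ℕ) (S : Finset V), S.card = n →
    ∃ f : V → β, (∀ v ∈ S, f v ∈ L v) ∧ ∀ u ∈ S, ∀ v ∈ S, H.Adj u v → f u ≠ f v := by
  intro n
  induction n using Nat.strong_induction_on with
  | _ n ih' =>
  intro S hSn
  have ih : ∀ W : Finset V, W ⊂ S → ∃ f : V → β, (∀ v ∈ W, f v ∈ L v) ∧
      ∀ u ∈ W, ∀ v ∈ W, H.Adj u v → f u ≠ f v := by
    intro W hW
    exact ih' W.card (by rw [← hSn]; exact Finset.card_lt_card hW) W rfl
  by_cases hlow : ∃ v ∈ S, (S.filter (fun w => H.Adj v w)).card < 5
  · -- a vertex of small degree
    obtain ⟨v, hvS, hv⟩ := hlow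
    obtain ⟨g, hg1, hg2⟩ := ih (S.erase v) (Finset.erase_ssubset hvS)
    refine lb_step H L hL hd (S.erase v) {v} S ?_ ?_ g hg1 hg2 ?_
    · intro x hx
      by_cases hxv : x = v
      · right; simp [hxv]
      · left; exact Finset.mem_erase.2 ⟨hxv, hx⟩
    · intro x hx hxv
      rw [Finset.mem_singleton] at hxv
      exact (Finset.mem_erase.1 hx).1 hxv
    · intro A hA hAne _
      obtain ⟨z, hz⟩ := hAne
      have hzv : z = v := by simpa using hA hz
      subst hzv
      refine ⟨z, hz, ?_⟩
      have e1 : (({z} : Finset V).filter (fun w => H.Adj z w)).card = 0 := by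
        rw [Finset.card_eq_zero, Finset.filter_eq_empty_iff]
        intro x hx
        rw [Finset.mem_singleton] at hx
        subst hx
        exact H.irrefl
      have a1 := Finset.le_card_sdiff (((S.erase z).filter (fun w => H.Adj z w)).image g) (L z)
      have a2 : (((S.erase z).filter (fun w => H.Adj z w)).image g).card ≤
        ((S.erase z).filter (fun w => H.Adj z w)).card := Finset.card_image_le
      have a3 : ((S.erase z).filter (fun w => H.Adj z w)).card ≤
          (S.filter (fun w => H.Adj z w)).card := by
        apply Finset.card_le_card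
        intro x hx
        rw [Finset.mem_filter, Finset.mem_erase] at hx
        exact Finset.mem_filter.2 ⟨hx.1.2, hx.2⟩
      have := hL z
      omega
  · push Not at hlow
    have hnb : ∀ a ∈ S, S.filter (fun w => H.Adj a w) = H.neighborFinset a := by
      intro a ha
      apply Finset.eq_of_subset_of_card_le
      · intro x hx
        rw [SimpleGraph.mem_neighborFinset]
        exact (Finset.mem_filter.1 hx).2
      · exact le_trans (hd a) (hlow a ha)
    have hcl : ∀ a ∈ S, ∀ b, H.Adj a b → b ∈ S := by
      intro a ha b hab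
      have : b ∈ S.filter (fun w => H.Adj a w) := by
        rw [hnb a ha, SimpleGraph.mem_neighborFinset]; exact hab
      exact (Finset.mem_filter.1 this).1
    have h5 : ∀ a ∈ S, (H.neighborFinset a).card = 5 := by
      intro a ha
      apply le_antisymm (hd a)
      rw [← hnb a ha]; exact hlow a ha
    by_cases hdis : ∃ A : Finset V, A ⊂ S ∧ A.Nonempty ∧ ∀ a ∈ A, ∀ b, H.Adj a b → b ∈ A
    · -- not connected
      obtain ⟨A, hAS, hAne, hAcl⟩ := hdis
      obtain ⟨g, hg1, hg2⟩ := ih A hAS
      have hB : S \ A ⊂ S := by
        refine ⟨Finset.sdiff_subset, fun hcon => ?_⟩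
        obtain ⟨z, hz⟩ := hAne
        have := hcon (hAS.1 hz)
        exact (Finset.mem_sdiff.1 this).2 hz
      obtain ⟨g', hg3, hg4⟩ := ih (S \ A) hB
      refine lb_glue H L A (S \ A) S ?_ ?_ g g' hg1 hg2 ?_ hg4
      · intro x hx
        by_cases hxA : x ∈ A
        · exact Or.inl hxA
        · exact Or.inr (Finset.mem_sdiff.2 ⟨hx, hxA⟩)
      · intro x hx hx'
        exact (Finset.mem_sdiff.1 hx').2 hx
      · intro v hv
        have : A.filter (fun w => H.Adj v w) = ∅ := by
          rw [Finset.filter_eq_empty_iff]
          intro w hw hvw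
          exact (Finset.mem_sdiff.1 hv).2 (hAcl w hw v hvw.symm)
        rw [this, Finset.image_empty, Finset.sdiff_empty]
        exact hg3 v hv
    · push Not at hdis
      rcases S.eq_empty_or_nonempty with rfl | ⟨v2, h2S⟩
      · exact ⟨fun _ => Classical.arbitrary β, by simp, by simp⟩
      -- two nonadjacent neighbours of `v2`
      have hex : ∃ v1 v3, v1 ≠ v3 ∧ H.Adj v2 v1 ∧ H.Adj v2 v3 ∧ ¬ H.Adj v1 v3 := by
        obtain ⟨x, hx, y, hy, hxy, hn⟩ := hK (insert v2 (H.neighborFinset v2)) (by
          rw [Finset.card_insert_of_notMem, h5 v2 h2S]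
          rw [SimpleGraph.mem_neighborFinset]; exact H.irrefl)
        rw [Finset.mem_insert, SimpleGraph.mem_neighborFinset] at hx hy
        rcases hx with rfl | hx
        · rcases hy with rfl | hy
          · exact absurd rfl hxy
          · exact absurd hy hn
        · rcases hy with rfl | hy
          · exact absurd hx.symm hn
          · exact ⟨x, y, hxy, hx, hy, hn⟩
      obtain ⟨v1, v3, h13, h21, h23, hn⟩ := hex
      -- a longest path
      have hlong : ∃ n, (∃ m : List V, m.length = n ∧ (m ++ [v3, v2, v1]).Nodup ∧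
          (m ++ [v3, v2, v1]).IsChain H.Adj) ∧ ¬ ∃ m : List V, m.length = n + 1 ∧
          (m ++ [v3, v2, v1]).Nodup ∧ (m ++ [v3, v2, v1]).IsChain H.Adj := by
        by_contra hcon
        push Not at hcon
        have hall : ∀ n : ℕ, ∃ m : List V, m.length = n ∧ (m ++ [v3, v2, v1]).Nodup ∧
            (m ++ [v3, v2, v1]).IsChain H.Adj := by
          intro n
          induction n with
          | zero =>
            refine ⟨[], rfl, ?_, ?_⟩
            · simp [h23.symm.ne, h13.symm, h21.ne]
            · simp [h23.symm, h21]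
          | succ n ihn => exact hcon n ihn
        obtain ⟨m, hm1, hm2, _⟩ := hall (Fintype.card V)
        have := hm2.length_le_card
        simp only [List.length_append, List.length_cons, List.length_nil] at this
        omega
      obtain ⟨n, ⟨m, hmn, hnd, hch⟩, hmax⟩ := hlong
      have hmem : ∀ x ∈ m ++ [v3, v2, v1], x ∈ S := by
        apply lb_chain H Finset.univ S (fun a ha b _ hab => hcl a ha b hab) _ hch
          (fun x _ => Finset.mem_univ x)
        exact ⟨v2, by simp, h2S⟩
      by_cases hall : ∀ x ∈ S, x ∈ m ++ [v3, v2, v1]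
      · exact lb_caseA H L hL hd S hcl h5 v1 v2 v3 h13 h21 h23 hn m hnd hch hmem hall
      · push Not at hall
        obtain ⟨w0, hw0S, hw0⟩ := hall
        -- the head of the path
        obtain ⟨z0, t0, hz0⟩ : ∃ z0 t0, m ++ [v3, v2, v1] = z0 :: t0 := by
          cases m with
          | nil => exact ⟨v3, [v2, v1], rfl⟩
          | cons a t => exact ⟨a, t ++ [v3, v2, v1], rfl⟩
        have hz0S : z0 ∈ S := hmem z0 (by rw [hz0]; simp)
        have hz0nb : ∀ b, H.Adj z0 b → b ∈ m ++ [v3, v2, v1] := by
          intro b hb
          by_contra hbn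
          apply hmax
          refine ⟨b :: m, by simp [hmn], ?_, ?_⟩
          · rw [List.cons_append, List.nodup_cons]
            exact ⟨hbn, hnd⟩
          · rw [List.cons_append, hz0, List.isChain_cons_cons, ← hz0]
            exact ⟨hb.symm, hch⟩
        -- the last neighbour of `z0` on the path
        have hexz : ∃ x ∈ m ++ [v3, v2, v1], H.Adj z0 x := by
          have : (H.neighborFinset z0).Nonempty := by
            rw [← Finset.card_pos, h5 z0 hz0S]; norm_num
          obtain ⟨b, hb⟩ := this
          rw [SimpleGraph.mem_neighborFinset] at hb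
          exact ⟨b, hz0nb b hb, hb⟩
        obtain ⟨C, c, D, hCD, hc, hD⟩ := lb_last (fun x => H.Adj z0 x) _ hexz
        have hCne : ∃ C', C = z0 :: C' := by
          cases C with
          | nil =>
            rw [hz0, List.nil_append] at hCD
            injection hCD with e1 e2
            rw [← e1] at hc
            exact absurd hc H.irrefl
          | cons a C' =>
            rw [hz0, List.cons_append] at hCD
            injection hCD with e1 e2
            exact ⟨C', by rw [e1]⟩
        obtain ⟨C', rfl⟩ := hCne
        -- the cycle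
        have hKnd : (z0 :: C' ++ [c]).Nodup := by
          rw [hCD] at hnd
          have : ((z0 :: C' ++ [c]) ++ D).Nodup := by simpa using hnd
          exact (List.nodup_append.1 this).1
        have hKch : (z0 :: C' ++ [c]).IsChain H.Adj := by
          rw [hCD] at hch
          have : ((z0 :: C' ++ [c]) ++ D).IsChain H.Adj := by simpa using hch
          exact this.left_of_append
        have hKsub : ∀ x ∈ z0 :: C' ++ [c], x ∈ m ++ [v3, v2, v1] := by
          intro x hx
          rw [hCD]
          simp only [List.mem_append, List.mem_cons, List.not_mem_nil, or_false] at hx ⊢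
          tauto
        have hz0K : ∀ b, H.Adj z0 b → b ∈ z0 :: C' ++ [c] := by
          intro b hb
          have hbm := hz0nb b hb
          rw [hCD] at hbm
          have hbD : b ∉ D := fun h => hD b h hb
          simp only [List.mem_append, List.mem_cons, List.not_mem_nil, or_false] at hbm ⊢
          tauto
        -- some vertex of the cycle has a neighbour outside
        have hout : ∃ x ∈ z0 :: C' ++ [c], ∃ b, H.Adj x b ∧ b ∉ z0 :: C' ++ [c] := by
          by_contra hcon
          push Not at hcon
          refine absurd (hdis (z0 :: C' ++ [c]).toFinset ?_ ⟨z0, by simp⟩) ?_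
          · refine ⟨fun x hx => hmem x (hKsub x (List.mem_toFinset.1 hx)), fun h => ?_⟩
            exact hw0 (hKsub w0 (List.mem_toFinset.1 (h hw0S)))
          · push Not
            intro a ha b hab
            rw [List.mem_toFinset] at ha ⊢
            exact hcon a ha b hab
        obtain ⟨l1, x, l2, hl, hx, hl1⟩ := lb_first _ _ hout
        obtain ⟨b, hxb, hbK⟩ := hx
        -- the vertex before
        rcases List.eq_nil_or_concat l1 with h0 | ⟨l1', y, h0⟩
        · rw [h0, List.nil_append, List.cons_append] at hl
          injection hl with e1 e2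
          rw [← e1] at hxb
          exact absurd (hz0K b hxb) hbK
        · rw [List.concat_eq_append] at h0
          subst h0
          have hl' : z0 :: C' ++ [c] = l1' ++ y :: x :: l2 := by rw [hl]; simp
          rw [hl'] at hKnd hKch hbK
          have hxS : x ∈ S := hmem x (hKsub x (by rw [hl']; simp))
          refine lb_caseB H L hL hd S hcl l1' x y l2 hKnd hKch ?_ ?_ ⟨b, hcl x hxS b hxb, hxb, hbK⟩
            ?_ ih
          · -- the chain around the cycle
            rw [List.isChain_append]
            have hK2 := List.isChain_append_cons_cons.1 hKch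
            refine ⟨hK2.2.2, hK2.1.left_of_append, ?_⟩
            intro p hp q hq
            have hpc : p = c := by
              have e1 : (z0 :: C' ++ [c]).getLast? = some c := List.getLast?_concat
              rw [hl'] at e1
              have e2 : (l1' ++ y :: x :: l2).getLast? = (x :: l2).getLast? := by
                rw [List.getLast?_append, List.getLast?_cons_cons, List.getLast?_cons]
                rfl
              rw [e2] at e1
              rw [e1] at hp
              simpa using hp.symm
            have hqz : q = z0 := by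
              cases l1' with
              | nil => simp at hq
              | cons a l =>
                rw [List.cons_append, List.cons_append] at hl'
                injection hl' with e1 e2
                simp at hq
                rw [e1, hq]
            rw [hpc, hqz]; exact hc.symm
          · intro z hz
            rw [← hl'] at hz
            exact hmem z (hKsub z hz)
          · intro z hyz
            by_contra hzn
            rw [← hl'] at hzn
            exact hl1 y (by simp) ⟨z, hyz, hzn⟩

end LB

/-- The list version of the theorem of Brooks for maximum degree five.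

Proof (Zając), by strong induction on the number of vertices (formulate it for all finite graphs,
or for subsets `S` of `V` and the induced graph). Make all lists have exactly five colours.
If a vertex `v` has degree at most four: colour the rest by induction, `v` has a free colour.
So the graph is 5-regular. If it is not connected: colour the components by induction. (With
subsets: if `S` is not connected, `S = A ∪ B` without edges between, colour both.)
If it is connected: there are `v1, v2, v3` with `v1 ~ v2 ~ v3`, `v1 ≠ v3` and `v1 ≁ v3` (otherwise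
the graph is complete, it is a `K_6`). Take a longest path `v1, v2, v3, v4, …, vr` which starts with
`v1, v2, v3`. So all neighbours of `vr` are on the path.
Case A: all vertices are on the path. `v2` has a neighbour `vj` with `j ≥ 4` (its degree is five).
Colour `v1` and `v3` such that `v2` loses at most one colour: with the same colour if the lists
meet; otherwise one of the two lists is not contained in the list of `v2` (all have five elements),
take a colour outside that list. Then colour in the order `v4, …, v(j-1)`, then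
`vr, v(r-1), …, vj`, at last `v2`. Each vertex except `v2` has, when it is coloured, an uncoloured
neighbour (the next one of the order, or `vj`, resp. `v2` for `vj`), so at most four colours are
forbidden; for `v2` also at most four.
Case B: some vertex is not on the path. Let `vj` be the neighbour of `vr` with the smallest index
and `C = {vj, …, vr}`, which is a cycle. As the graph is connected and `C` is not everything, some
vertex of `C` has a neighbour outside `C`; `vr` has none (by the choice of `j`). So going around the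
cycle there are consecutive vertices `x, y` of `C` such that `x` has a neighbour outside and `y` has
none. Colour the graph without `C` by induction. For `w ∈ C` let `L' w` be the list without the
colours of the outside neighbours; `|L' w| ≥ deg_C w`, and `|L' y| ≥ 5`. If `|L' x| ≤ 4`, colour `y`
by a colour outside `L' x`; then go around the cycle, starting after `y`, and colour `x` at last:
each vertex has an uncoloured neighbour when it is coloured, except `x`, for which the colour of `y`
does no harm. If `|L' x| = 5`, then `x` has at least one outside neighbour, so `deg_C x ≤ 4`, and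
the same order works with any colour of `y`. -/
theorem list_brooks {V : Type u} {β : Type*} [Fintype V] [DecidableEq V] [DecidableEq β]
    (H : SimpleGraph V) [DecidableRel H.Adj] (L : V → Finset β)
    (hd : ∀ v, (H.neighborFinset v).card ≤ 5)
    (hK : ∀ S : Finset V, S.card = 6 → ∃ x ∈ S, ∃ y ∈ S, x ≠ y ∧ ¬ H.Adj x y)
    (hL : ∀ v, 5 ≤ (L v).card) :
    ∃ g : V → β, (∀ v, g v ∈ L v) ∧ ∀ u v, H.Adj u v → g u ≠ g v := by
  rcases isEmpty_or_nonempty V with hV | ⟨⟨v0⟩⟩
  · exact ⟨fun v => (hV.false v).elim, fun v => (hV.false v).elim, fun u => (hV.false u).elim⟩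
  · have : Nonempty β := by
      have : (L v0).Nonempty := by rw [← Finset.card_pos]; have := hL v0; omega
      exact ⟨this.choose⟩
    obtain ⟨f, h1, h2⟩ := lb_main H L hL hd hK _ Finset.univ rfl
    exact ⟨f, fun v => h1 v (Finset.mem_univ v), fun u v huv =>
      h2 u (Finset.mem_univ u) v (Finset.mem_univ v) huv⟩

end Pool.Agent.E8B
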