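import Pool.Agent.E8B.Fin2
import Pool.Agent.E8B.Calc1
import Pool.Agent.E8B.LB5

set_option autoImplicit false

namespace Pool.Agent.E8B

open Finset

universe u

variable {V : Type u} {β : Type*} [Fintype V] [DecidableEq V] {G : SimpleGraph V}
  [DecidableRel G.Adj] {L : V → Finset β}

private theorem cover_nbr {D W : Finset V} (h3 : ∀ x, (G.neighborFinset x).card ≤ 3)
    (st : St G D W)
    (hloc : ∀ v ∈ D, (Inn G D v ∧ (G.neighborFinset v).card = 3) ∨
      ∃ z p q s, Bd G D W v z p q s) {v p : V} (hvD : v ∈ D) (hp : p ∈ D) (hvp : G.Adj v p) :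
    ∃ S : Finset V, S.card ≤ 2 ∧
      ∀ w ∈ D, ¬ Inn G D w → w ≠ v → (w = p ∨ G.Adj p w) → w ∈ S := by
  have hv : v ∈ G.neighborFinset p := by simpa using hvp.symm
  rcases hloc p hp with h | ⟨z, a, b, s, h⟩
  · refine ⟨(G.neighborFinset p).erase v, ?_, ?_⟩
    · rw [Finset.card_erase_of_mem hv, h.2]
    · intro w hw hwi hwv hc
      rw [Finset.mem_erase]
      refine ⟨hwv, ?_⟩
      rcases hc with hc | hc
      · exact absurd (hc ▸ h.1) hwi
      · simpa using hc
  · have hz : z ∉ D := fun hz => (Finset.disjoint_left.mp st.disj hz) h.zW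
    have hzn : z ∈ G.neighborFinset p := by rw [h.nb]; simp
    refine ⟨insert p (((G.neighborFinset p).erase v).erase z), ?_, ?_⟩
    · have hzv : z ≠ v := fun h' => hz (h' ▸ hvD)
      refine (Finset.card_insert_le _ _).trans ?_
      rw [Finset.card_erase_of_mem (Finset.mem_erase.mpr ⟨hzv, hzn⟩),
        Finset.card_erase_of_mem hv]
      have := h3 p
      omega
    · intro w hw hwi hwv hc
      rw [Finset.mem_insert, Finset.mem_erase, Finset.mem_erase]
      rcases hc with hc | hc
      · exact Or.inl hc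
      · refine Or.inr ⟨fun h' => hz (h' ▸ hw), hwv, by simpa using hc⟩

/-- In a final state: take `I` = the inner vertices. `H` = the graph on `V` in which two boundary
vertices are adjacent if they are near. A boundary vertex has at most five neighbours in `H`: at
most `s`, and at most two by `p` (`cov_in`-like: `p` is inner, so it is in `I`, and its two other
neighbours; or `p` is a boundary vertex, `p` and its other neighbour in `D`), and at most two by
`q`. `no_six` and `list_brooks` give the colouring. -/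
theorem final_good {D W : Finset V} (h3 : ∀ x, (G.neighborFinset x).card ≤ 3)
    (hL : ∀ x, 5 ≤ (L x).card) (hK : NoK33 G) (st : St G D W)
    (hloc : ∀ v ∈ D, (Inn G D v ∧ (G.neighborFinset v).card = 3) ∨
      ∃ z p q s, Bd G D W v z p q s)
    (h1 : ∀ v x, Inn G D v → G.Adj v x → ¬ Inn G D x)
    (h2 : ∀ v z p q s, Bd G D W v z p q s → Inn G D p → Inn G D q) : Good G L D W := by
  classical
  let H : SimpleGraph V :=
    { Adj := fun x y => (x ∈ D ∧ ¬ Inn G D x) ∧ (y ∈ D ∧ ¬ Inn G D y) ∧ Near G x y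
      symm := ⟨fun x y h => ⟨h.2.1, h.1, h.2.2.symm'⟩⟩
      loopless := ⟨fun x h => h.2.2.1 rfl⟩ }
  have hd : ∀ v, (H.neighborFinset v).card ≤ 5 := by
    intro v
    by_cases hv : v ∈ D ∧ ¬ Inn G D v
    · obtain ⟨z, p, q, s, hb⟩ := (hloc v hv.1).resolve_left (fun h => hv.2 h.1)
      have hvp : G.Adj v p := by
        have : p ∈ G.neighborFinset v := by rw [hb.nb]; simp
        simpa using this
      have hvq : G.Adj v q := by
        have : q ∈ G.neighborFinset v := by rw [hb.nb]; simp
        simpa using this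
      obtain ⟨Sp, hSp, hp⟩ := cover_nbr h3 st hloc hv.1 hb.pD hvp
      obtain ⟨Sq, hSq, hq⟩ := cover_nbr h3 st hloc hv.1 hb.qD hvq
      have hsub : H.neighborFinset v ⊆ insert s (Sp ∪ Sq) := by
        intro w hw
        have hw' : H.Adj v w := by simpa using! hw
        obtain ⟨_, ⟨hwD, hwi⟩, hn⟩ := hw'
        have hwv : w ≠ v := fun h => hn.1 h.symm
        rw [Finset.mem_insert, Finset.mem_union]
        rcases near_bd st hb hwD hwi hn with h | h | h | h | h
        · exact Or.inl h
        · exact Or.inr (Or.inl (hp w hwD hwi hwv (Or.inl h)))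
        · exact Or.inr (Or.inr (hq w hwD hwi hwv (Or.inl h)))
        · exact Or.inr (Or.inl (hp w hwD hwi hwv (Or.inr h)))
        · exact Or.inr (Or.inr (hq w hwD hwi hwv (Or.inr h)))
      refine (Finset.card_le_card hsub).trans ((Finset.card_insert_le _ _).trans ?_)
      have := Finset.card_union_le Sp Sq
      omega
    · have : H.neighborFinset v = ∅ := by
        ext w
        simp only [SimpleGraph.mem_neighborFinset, Finset.notMem_empty, iff_false]
        exact fun h => hv h.1
      rw [this]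
      simp
  have hK6 : ∀ S : Finset V, S.card = 6 → ∃ x ∈ S, ∃ y ∈ S, x ≠ y ∧ ¬ H.Adj x y := by
    intro S hS
    by_cases hall : ∀ x ∈ S, x ∈ D ∧ ¬ Inn G D x
    · obtain ⟨x, hx, y, hy, hxy, hn⟩ := no_six h3 hK st hloc h1 h2 S hS hall
      exact ⟨x, hx, y, hy, hxy, fun h => hn h.2.2⟩
    · obtain ⟨x, hx⟩ := not_forall.mp hall
      obtain ⟨hxS, hxn⟩ := Classical.not_imp.mp hx
      have : 0 < (S.erase x).card := by
        rw [Finset.card_erase_of_mem hxS]
        omega
      obtain ⟨y, hy⟩ := Finset.card_pos.mp this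
      rw [Finset.mem_erase] at hy
      exact ⟨x, hxS, y, hy.2, fun h => hy.1 h.symm, fun h => hxn h.1⟩
  obtain ⟨g, hg, hgn⟩ := list_brooks H L hd hK6 hL
  refine ⟨D.filter (Inn G D), ⟨Finset.filter_subset _ _, ?_, ?_⟩, g, fun v _ _ => hg v, ?_⟩
  · intro x hx y hy hadj
    rw [Finset.mem_union, Finset.mem_filter] at hx hy
    rcases hx with hx | hx
    · rcases hy with hy | hy
      · exact h1 x y hx.2 hadj hy.2
      · exact (Finset.disjoint_left.mp st.disj (hx.2.2 y hadj)) hy
    · rcases hy with hy | hy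
      · exact (Finset.disjoint_left.mp st.disj (hy.2.2 x hadj.symm)) hx
      · exact st.ind x hx y hy hadj
  · intro v hv hvI
    rcases hloc v hv with h | ⟨z, p, q, s, hb⟩
    · exact absurd (Finset.mem_filter.mpr ⟨hv, h.1⟩) hvI
    · refine ⟨z, Finset.mem_union_right _ hb.zW, ?_⟩
      have : z ∈ G.neighborFinset v := by rw [hb.nb]; simp
      simpa using this
  · intro x hx y hy hxI hyI hn
    refine hgn x y ⟨⟨hx, fun h => hxI (Finset.mem_filter.mpr ⟨hx, h⟩)⟩,
      ⟨hy, fun h => hyI (Finset.mem_filter.mpr ⟨hy, h⟩)⟩, hn⟩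

end Pool.Agent.E8B
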