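import Pool.Agent.E8B.StartM

set_option autoImplicit false

namespace Pool.Agent.E8B

open Finset

universe u

variable {V : Type u} {β : Type*} [Fintype V] [DecidableEq V] {G : SimpleGraph V}
  [DecidableRel G.Adj] {L : V → Finset β}

/-- If there is a cycle of length five through two of the three pairs of neighbours of `v`, but not
through the third one.
Proof. `N(v) = {x, y, w}`, `Ang x v y p q`, `Ang x v w p' q'` (cycles `v, x, p, q, y` and
`v, x, p', q', w`), not through `y, v, w`. Use `start_pair` with `h2 = v`, `h1 = x`, `a1 = y`,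
`a2 = q`, `a3 = p`, `b1 = w`, `b2 = q'`, `b3 = p'`. `p ≠ p'` by `Uniq` (for the pair `v, p` at `x`:
`Ang v x p y q` and `Ang v x p w q'`). `¬ Near y p'`: `y ≁ p'` by girth, and a common neighbour `r`
of `y` and `p'` would give the second cycle `v, x, p', r, y` of length five through `x, v, y`. -/
theorem pair_good (hcub : ∀ x, (G.neighborFinset x).card = 3) (hL : ∀ x, 5 ≤ (L x).card)
    (hK : NoK33 G) (hc : G.Connected) (h5 : G5 G) (hu : Uniq G) {v x y w p q p' q' : V}
    (hv : G.neighborFinset v = {x, y, w}) (hyw : y ≠ w) (h1 : Ang G x v y p q)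
    (h2 : Ang G x v w p' q') (hno : ∀ r r', ¬ Ang G y v w r r') : Good G L univ ∅ := by
  -- `p ≠ p'`
  have hqx : q ≠ x := by
    rintro rfl
    exact h5.1 v y q h1.vy h1.qy.symm h1.vx.symm
  have hqx' : q' ≠ x := by
    rintro rfl
    exact h5.1 v w q' h2.vy h2.qy.symm h2.vx.symm
  have hyx : y ≠ x := Ne.symm h1.xy
  have hwx : w ≠ x := Ne.symm h2.xy
  have hpp : p ≠ p' := by
    rintro rfl
    have e1 : Ang G v x p y q :=
      ⟨h1.vx.symm, h1.xp, Ne.symm h1.pv, h1.vy, h1.qy.symm, h1.pq.symm, hyx, hqx⟩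
    have e2 : Ang G v x p w q' :=
      ⟨h2.vx.symm, h2.xp, Ne.symm h2.pv, h2.vy, h2.qy.symm, h2.pq.symm, hwx, hqx'⟩
    exact hyw (hu _ _ _ _ _ _ _ e1 e2).1
  -- a neighbourhood with three known members
  have key : ∀ z a b c : V, G.Adj z a → G.Adj z b → G.Adj z c → a ≠ b → a ≠ c → b ≠ c →
      G.neighborFinset z = {a, b, c} := by
    intro z a b c ha hb hc hab hac hbc
    symm
    refine eq_of_subset_of_card_le ?_ ?_
    · intro t ht
      rw [mem_insert, mem_insert, mem_singleton] at ht
      rw [SimpleGraph.mem_neighborFinset]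
      rcases ht with rfl | rfl | rfl
      · exact ha
      · exact hb
      · exact hc
    · rw [hcub z]
      rw [card_eq_three.2 ⟨a, b, c, hab, hac, hbc, rfl⟩]
  -- the third neighbour
  have third : ∀ z a b : V, G.Adj z a → G.Adj z b → a ≠ b →
      ∃ c, G.neighborFinset z = {a, b, c} := by
    intro z a b ha hb hab
    have hsub : ({a, b} : Finset V) ⊆ G.neighborFinset z := by
      intro t ht
      rw [mem_insert, mem_singleton] at ht
      rw [SimpleGraph.mem_neighborFinset]
      rcases ht with rfl | rfl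
      · exact ha
      · exact hb
    have hcard : (G.neighborFinset z \ {a, b}).card = 1 := by
      rw [card_sdiff_of_subset hsub, hcub z, card_pair hab]
    obtain ⟨c, hc⟩ := card_eq_one.1 hcard
    refine ⟨c, ?_⟩
    have : G.neighborFinset z = {a, b} ∪ (G.neighborFinset z \ {a, b}) :=
      (union_sdiff_of_subset hsub).symm
    rw [this, hc]
    ext t
    simp only [mem_union, mem_insert, mem_singleton]
    tauto
  have nx : G.neighborFinset x = {v, p, p'} :=
    key x v p p' h1.vx.symm h1.xp h2.xp (Ne.symm h1.pv) (Ne.symm h2.pv) hpp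
  obtain ⟨y', ny⟩ := third y v q h1.vy.symm h1.qy.symm (Ne.symm h1.qv)
  obtain ⟨w', nw⟩ := third w v q' h2.vy.symm h2.qy.symm (Ne.symm h2.qv)
  refine start_pair (h1 := x) (h2 := v) (a1 := y) (a2 := q) (a3 := p) (b1 := w) (b2 := q')
    (b3 := p') (y := y') (w := w') hcub hL hK hc h5 hv nx ny nw h1.pq.symm h2.pq.symm hyw hpp
    hno ?_
  rintro ⟨hne, hadj | ⟨r, hr1, hr2⟩⟩
  · -- `y ~ p'`: a cycle of length four
    have := h5.2 v y p' x (Ne.symm h2.pv) h1.vy hadj h1.vx h2.xp
    exact h1.xy this.symm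
  · have hrv : r ≠ v := by
      rintro rfl
      exact h5.1 r x p' h1.vx h2.xp hr2.symm
    have e : Ang G x v y p' r :=
      ⟨h1.vx, h1.vy, h1.xy, h2.xp, hr2.symm, hr1.symm, h2.pv, hrv⟩
    exact hpp (hu _ _ _ _ _ _ _ h1 e).1

end Pool.Agent.E8B
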