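import Pool.Agent.E8B.Flood
import Pool.Agent.E8B.Calc2

set_option autoImplicit false

namespace Pool.Agent.E8B

open Finset

universe u

variable {V : Type u} {β : Type*} [Fintype V] [DecidableEq V] {G : SimpleGraph V}
  [DecidableRel G.Adj] {L : V → Finset β}

private theorem StartF_mem {v x y z w : V} (h : G.neighborFinset v = {x, y, z})
    (hw : G.Adj v w) : w = x ∨ w = y ∨ w = z := by
  rw [← SimpleGraph.mem_neighborFinset, h] at hw
  simpa using hw

private theorem StartF_adj1 {v x y z : V} (h : G.neighborFinset v = {x, y, z}) :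
    G.Adj v x := by
  rw [← SimpleGraph.mem_neighborFinset, h]
  simp

private theorem StartF_adj2 {v x y z : V} (h : G.neighborFinset v = {x, y, z}) :
    G.Adj v y := by
  rw [← SimpleGraph.mem_neighborFinset, h]
  simp

private theorem StartF_inv {D : Finset V} {v x y z : V} (h : G.neighborFinset v = {x, y, z})
    (hx : x ∉ D) : (G.neighborFinset v ∩ D).card ≤ 2 := by
  have hsub : G.neighborFinset v ∩ D ⊆ {y, z} := by
    intro w hw
    rw [Finset.mem_inter, h] at hw
    simp only [Finset.mem_insert, Finset.mem_singleton] at hw ⊢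
    rcases hw with ⟨rfl | rfl | rfl, h2⟩
    · exact absurd h2 hx
    · exact Or.inl rfl
    · exact Or.inr rfl
  exact (Finset.card_le_card hsub).trans Finset.card_le_two

/-- The vertices near to `v`, all lists of neighbours are known. -/
private theorem StartF_nr {D' I S : Finset V} {v x y z x1 x2 x3 y1 y2 y3 z1 z2 z3 : V}
    (h : G.neighborFinset v = {x, y, z}) (hx : G.neighborFinset x = {x1, x2, x3})
    (hy : G.neighborFinset y = {y1, y2, y3}) (hz : G.neighborFinset z = {z1, z2, z3})
    (hS : ∀ w ∈ D', w ≠ v → w ∈ [x, y, z, x1, x2, x3, y1, y2, y3, z1, z2, z3] → w ∈ S) :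
    Nr G D' I v S := by
  intro w hw _ hn
  obtain ⟨hne, hn⟩ := hn
  refine hS w hw (Ne.symm hne) ?_
  simp only [List.mem_cons, List.not_mem_nil, or_false]
  rcases hn with hn | ⟨u, hu, hn⟩
  · rcases StartF_mem h hn with h | h | h <;> tauto
  · rcases StartF_mem h hu with rfl | rfl | rfl
    · rcases StartF_mem hx hn with h | h | h <;> tauto
    · rcases StartF_mem hy hn with h | h | h <;> tauto
    · rcases StartF_mem hz hn with h | h | h <;> tauto

/-- The dodecahedron: `W = {o, a1, b1, c1, A2, B2, C2}`, `K = {c, a, b2, b}`,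
`D = univ \ (W ∪ K ∪ {a2, c2})`: `flood`, then `peel a2` (or any order of `a2, c2`), `peel c2`, then
`peel4` with `k1 = c, k2 = a, k3 = b2, k4 = b`, then `commit`. (Everything follows from the lists of
neighbours and the fact that the 20 vertices are different; only neighbours of
`o, a, b, c, a1, b2, b1, c2, c1, a2, A2, B2, C2` are needed.)
`W` is independent. `Inv D`: `o, a, b, c, a2, c2, b2` have no neighbours in `D`; `a1` has `A1`, `b1`
has `B1`, `c1` has `C1`; `A2, B2, C2` have two.
`peel a2` with `D' = D`: near: by `a` nothing, by `c1`: `C1`, by `A2`: `A1, zca`: three.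
`peel c2` with `D' = D ∪ {a2}`: by `c` nothing (`o, c1 ∉ D'`), by `b1`: `B1`, by `C2`: `C1, zbc`.
`peel4` with `D' = D ∪ {a2, c2}`: near to `c`: by `o` nothing, by `c1`: `a2, C1`, by `c2`: `c2`
(`b1, C2 ∈ W`): three. Near to `b2`: by `b` nothing, by `a1`: `A1`, by `B2`: `B1, zab`: three.
Near to `a`: by `o` nothing, by `a1`: `A1`, by `a2`: `a2` (`c1, A2 ∈ W`): two. Near to `b`: by
`b1`: `c2, B1`, by `b2` nothing (`a1, B2 ∈ W`): two. `¬ Near c b2`: `N(c) = {o, c1, c2}`,
`N(b2) = {b, a1, B2}`. -/
theorem start_dode (hcub : ∀ x, (G.neighborFinset x).card = 3) (hL : ∀ x, 5 ≤ (L x).card)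
    (hK : NoK33 G) (hc : G.Connected)
    {o a b c a1 a2 b1 b2 c1 c2 A1 A2 B1 B2 C1 C2 zab zbc zca t : V}
    (h : Dode G o a b c a1 a2 b1 b2 c1 c2 A1 A2 B1 B2 C1 C2 zab zbc zca t) :
    Good G L univ ∅ := by
  have nd := h.nd
  have nd' := List.nodup_reverse.2 h.nd
  simp only [List.reverse_cons, List.reverse_nil, List.nil_append, List.cons_append,
    List.nodup_cons, List.mem_cons, List.not_mem_nil, or_false, not_or, List.nodup_nil,
    and_true, not_false_eq_true] at nd nd'
  set W : Finset V := {o, a1, b1, c1, A2, B2, C2} with hWdef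
  have mW : ∀ x, x ∈ W ↔ x = o ∨ x = a1 ∨ x = b1 ∨ x = c1 ∨ x = A2 ∨ x = B2 ∨ x = C2 := by
    intro x
    simp [hWdef]
  have hind : ∀ x ∈ W, ∀ y ∈ W, ¬ G.Adj x y := by
    intro x hx y hy hxy
    rw [mW] at hx hy
    rcases hx with rfl | rfl | rfl | rfl | rfl | rfl | rfl
    · rcases StartF_mem h.no hxy with rfl | rfl | rfl <;> simp [nd, nd'] at hy
    · rcases StartF_mem h.na1 hxy with rfl | rfl | rfl <;> simp [nd, nd'] at hy
    · rcases StartF_mem h.nb1 hxy with rfl | rfl | rfl <;> simp [nd, nd'] at hy
    · rcases StartF_mem h.nc1 hxy with rfl | rfl | rfl <;> simp [nd, nd'] at hy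
    · rcases StartF_mem h.nA2 hxy with rfl | rfl | rfl <;> simp [nd, nd'] at hy
    · rcases StartF_mem h.nB2 hxy with rfl | rfl | rfl <;> simp [nd, nd'] at hy
    · rcases StartF_mem h.nC2 hxy with rfl | rfl | rfl <;> simp [nd, nd'] at hy
  set D4 : Finset V := (univ \ W) \ {c, a, b2, b} with hD4
  have m4 : ∀ x, x ∈ D4 ↔ ¬ (x = o ∨ x = a1 ∨ x = b1 ∨ x = c1 ∨ x = A2 ∨ x = B2 ∨ x = C2) ∧
      ¬ (x = c ∨ x = a ∨ x = b2 ∨ x = b) := by
    intro x
    simp [hD4, hWdef]
  have m3 : ∀ x, x ∈ D4.erase c2 ↔ x ≠ c2 ∧
      ¬ (x = o ∨ x = a1 ∨ x = b1 ∨ x = c1 ∨ x = A2 ∨ x = B2 ∨ x = C2) ∧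
      ¬ (x = c ∨ x = a ∨ x = b2 ∨ x = b) := by
    intro x
    rw [Finset.mem_erase, m4]
  have m2 : ∀ x, x ∈ (D4.erase c2).erase a2 ↔ x ≠ a2 ∧ x ≠ c2 ∧
      ¬ (x = o ∨ x = a1 ∨ x = b1 ∨ x = c1 ∨ x = A2 ∨ x = B2 ∨ x = C2) ∧
      ¬ (x = c ∨ x = a ∨ x = b2 ∨ x = b) := by
    intro x
    rw [Finset.mem_erase, m3]
  -- the flood
  have g1 : Good G L ((D4.erase c2).erase a2) W := by
    refine flood (fun x => (hcub x).le) hL hK hc _ _ ⟨?_, hind, ?_⟩ ?_
    · rw [Finset.disjoint_left]
      intro x hx hx'
      rw [m2] at hx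
      rw [mW] at hx'
      exact hx.2.2.1 hx'
    · intro w hw
      rw [m2] at hw
      simp only [ne_eq, not_and_or, not_not] at hw
      rcases hw with rfl | rfl | (rfl | rfl | rfl | rfl | rfl | rfl | rfl) |
        (rfl | rfl | rfl | rfl)
      · exact StartF_inv h.na2 (by simp [m2])
      · exact StartF_inv h.nc2 (by simp [m2])
      · exact StartF_inv h.no (by simp [m2])
      · exact StartF_inv h.na1 (by simp [m2])
      · exact StartF_inv h.nb1 (by simp [m2])
      · exact StartF_inv h.nc1 (by simp [m2])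
      · exact StartF_inv h.nA2 (by simp [m2])
      · exact StartF_inv h.nB2 (by simp [m2])
      · exact StartF_inv h.nC2 (by simp [m2])
      · exact StartF_inv h.nc (by simp [m2])
      · exact StartF_inv h.na (by simp [m2])
      · exact StartF_inv h.nb2 (by simp [m2])
      · exact StartF_inv h.nb (by simp [m2])
    · intro hu
      have := (m2 o).1 (by rw [hu]; exact Finset.mem_univ o)
      exact this.2.2.1 (Or.inl rfl)
  -- peel `a2`
  have g2 : Good G L (D4.erase c2) W := by
    refine peel (v := a2) ?_ (hL a2) g1 ?_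
    · rw [m3]
      simp [nd, nd']
    · intro I _ _
      refine ⟨{C1, A1, zca}, Finset.card_le_three.trans (by norm_num), ?_⟩
      refine StartF_nr h.na2 h.na h.nc1 h.nA2 ?_
      intro w hw hne hl
      rw [m2] at hw
      simp only [List.mem_cons, List.not_mem_nil, or_false] at hl
      rcases hl with h | h | h | h | h | h | h | h | h | h | h | h <;>
        first
          | exact absurd h hne
          | (simp [h]; done)
          | (exfalso; simp [h] at hw)
  -- peel `c2`
  have g3 : Good G L D4 W := by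
    refine peel (v := c2) ?_ (hL c2) g2 ?_
    · rw [m4]
      simp [nd, nd']
    · intro I _ _
      refine ⟨{B1, C1, zbc}, Finset.card_le_three.trans (by norm_num), ?_⟩
      refine StartF_nr h.nc2 h.nc h.nb1 h.nC2 ?_
      intro w hw hne hl
      rw [m3] at hw
      simp only [List.mem_cons, List.not_mem_nil, or_false] at hl
      rcases hl with h | h | h | h | h | h | h | h | h | h | h | h <;>
        first
          | exact absurd h hne
          | (simp [h]; done)
          | (exfalso; simp [h] at hw)
  -- peel four vertices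
  have g4 : Good G L (univ \ W) W := by
    refine peel4 (k1 := c) (k2 := a) (k3 := b2) (k4 := b) hL ?_ ?_ ?_ ?_ g3 ?_
    · simp [nd, nd']
    · intro k hk
      rw [Finset.mem_sdiff, mW]
      refine ⟨Finset.mem_univ k, ?_⟩
      simp only [List.mem_cons, List.not_mem_nil, or_false] at hk
      rcases hk with rfl | rfl | rfl | rfl <;> simp [nd, nd']
    · intro k hk
      simp only [List.mem_cons, List.not_mem_nil, or_false] at hk
      rcases hk with rfl | rfl | rfl | rfl
      · exact ⟨o, (mW o).2 (Or.inl rfl), StartF_adj1 h.nc⟩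
      · exact ⟨o, (mW o).2 (Or.inl rfl), StartF_adj1 h.na⟩
      · exact ⟨a1, (mW a1).2 (Or.inr (Or.inl rfl)), StartF_adj2 h.nb2⟩
      · exact ⟨o, (mW o).2 (Or.inl rfl), StartF_adj1 h.nb⟩
    · rintro ⟨_, hn | ⟨w, hw, hn⟩⟩
      · rcases StartF_mem h.nc hn with h | h | h <;> simp [nd, nd'] at h
      · have h1 := StartF_mem h.nb2 hn.symm
        rcases StartF_mem h.nc hw with rfl | rfl | rfl <;> simp [nd, nd'] at h1
    · intro I _
      refine ⟨⟨{a2, C1, c2}, Finset.card_le_three, ?_⟩, ⟨{A1, B1, zab}, Finset.card_le_three, ?_⟩,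
        ⟨{A1, a2}, Finset.card_le_two.trans (by norm_num), fun _ => Finset.card_le_two, ?_⟩,
        ⟨{c2, B1}, Finset.card_le_two.trans (by norm_num), fun _ => Finset.card_le_two, ?_⟩⟩
      · refine StartF_nr h.nc h.no h.nc1 h.nc2 ?_
        intro w hw hne hl
        rw [m4] at hw
        simp only [List.mem_cons, List.not_mem_nil, or_false] at hl
        rcases hl with h | h | h | h | h | h | h | h | h | h | h | h <;>
          first
            | exact absurd h hne
            | (simp [h]; done)
            | (exfalso; simp [h] at hw)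
      · refine StartF_nr h.nb2 h.nb h.na1 h.nB2 ?_
        intro w hw hne hl
        rw [m4] at hw
        simp only [List.mem_cons, List.not_mem_nil, or_false] at hl
        rcases hl with h | h | h | h | h | h | h | h | h | h | h | h <;>
          first
            | exact absurd h hne
            | (simp [h]; done)
            | (exfalso; simp [h] at hw)
      · refine StartF_nr h.na h.no h.na1 h.na2 ?_
        intro w hw hne hl
        rw [m4] at hw
        simp only [List.mem_cons, List.not_mem_nil, or_false] at hl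
        rcases hl with h | h | h | h | h | h | h | h | h | h | h | h <;>
          first
            | exact absurd h hne
            | (simp [h]; done)
            | (exfalso; simp [h] at hw)
      · refine StartF_nr h.nb h.no h.nb1 h.nb2 ?_
        intro w hw hne hl
        rw [m4] at hw
        simp only [List.mem_cons, List.not_mem_nil, or_false] at hl
        rcases hl with h | h | h | h | h | h | h | h | h | h | h | h <;>
          first
            | exact absurd h hne
            | (simp [h]; done)
            | (exfalso; simp [h] at hw)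
  exact commit (J := W) (Finset.subset_univ W) (by rw [Finset.empty_union]; exact g4)

end Pool.Agent.E8B
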