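import Pool.Agent.E8B.Theta
import Pool.Agent.E8B.PairG
import Pool.Agent.E8B.StartF
import Pool.Agent.E8B.AllFull

set_option autoImplicit false

namespace Pool.Agent.E8B

open Finset

universe u

variable {V : Type u} {β : Type*} [Fintype V] [DecidableEq V] {G : SimpleGraph V}
  [DecidableRel G.Adj] {L : V → Finset β}

omit [Fintype V] [DecidableEq V] [DecidableRel G.Adj] in
private theorem FiveCyc_symm {x v y p q : V} (h : Ang G x v y p q) : Ang G y v x q p :=
  ⟨h.vy, h.vx, h.xy.symm, h.qy.symm, h.pq.symm, h.xp.symm, h.qv, h.pv⟩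

/-- all pairs of neighbours of `v` are in cycles of length five -/
private def FiveCyc_full (G : SimpleGraph V) (v : V) : Prop :=
  ∀ x y, G.Adj v x → G.Adj v y → x ≠ y → ∃ p q, Ang G x v y p q

private theorem FiveCyc_two (hcub : ∀ x, (G.neighborFinset x).card = 3)
    (hL : ∀ x, 5 ≤ (L x).card) (hK : NoK33 G) (hc : G.Connected) (h5 : G5 G) (hu : Uniq G)
    (hng : ¬ Good G L univ ∅) {v x y w p q p' q' : V} (hyw : y ≠ w) (h1 : Ang G x v y p q)
    (h2 : Ang G x v w p' q') : FiveCyc_full G v := by
  have hv : G.neighborFinset v = {x, y, w} := by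
    symm
    apply Finset.eq_of_subset_of_card_le
    · intro z hz
      simp only [Finset.mem_insert, Finset.mem_singleton] at hz
      rw [SimpleGraph.mem_neighborFinset]
      rcases hz with rfl | rfl | rfl
      · exact h1.vx
      · exact h1.vy
      · exact h2.vy
    · rw [hcub v, Finset.card_insert_of_notMem, Finset.card_pair hyw]
      simp only [Finset.mem_insert, Finset.mem_singleton, not_or]
      exact ⟨h1.xy, h2.xy⟩
  obtain ⟨r, r', h3⟩ : ∃ r r', Ang G y v w r r' := by
    by_contra hcon
    push Not at hcon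
    exact hng (pair_good hcub hL hK hc h5 hu hv hyw h1 h2 hcon)
  intro a b ha hb hab
  have ha' : a ∈ G.neighborFinset v := by rwa [SimpleGraph.mem_neighborFinset]
  have hb' : b ∈ G.neighborFinset v := by rwa [SimpleGraph.mem_neighborFinset]
  rw [hv] at ha' hb'
  simp only [Finset.mem_insert, Finset.mem_singleton] at ha' hb'
  rcases ha' with rfl | rfl | rfl <;> rcases hb' with rfl | rfl | rfl
  · exact absurd rfl hab
  · exact ⟨_, _, h1⟩
  · exact ⟨_, _, h2⟩
  · exact ⟨_, _, FiveCyc_symm h1⟩
  · exact absurd rfl hab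
  · exact ⟨_, _, h3⟩
  · exact ⟨_, _, FiveCyc_symm h2⟩
  · exact ⟨_, _, FiveCyc_symm h3⟩
  · exact absurd rfl hab

private theorem FiveCyc_step (hcub : ∀ x, (G.neighborFinset x).card = 3)
    (hL : ∀ x, 5 ≤ (L x).card) (hK : NoK33 G) (hc : G.Connected) (h5 : G5 G) (hu : Uniq G)
    (hng : ¬ Good G L univ ∅) {v u : V} (hvu : G.Adj v u) (hf : FiveCyc_full G v) :
    FiveCyc_full G u := by
  -- the other neighbours of `v`
  have hcard : ((G.neighborFinset v).erase u).card = 2 := by
    rw [Finset.card_erase_of_mem (by rwa [SimpleGraph.mem_neighborFinset]), hcub v]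
  obtain ⟨x, y, hxy, hset⟩ := Finset.card_eq_two.mp hcard
  have hx : x ∈ (G.neighborFinset v).erase u := by rw [hset]; simp
  have hy : y ∈ (G.neighborFinset v).erase u := by rw [hset]; simp
  rw [Finset.mem_erase, SimpleGraph.mem_neighborFinset] at hx hy
  have key : ∀ x, x ≠ u → G.Adj v x → ∃ q p, Ang G v u q x p := by
    intro x hxu hvx
    obtain ⟨q, p, h⟩ := hf u x hvu hvx hxu.symm
    refine ⟨q, p, ?_⟩
    refine ⟨hvu.symm, h.xp, h.pv.symm, hvx, h.qy.symm, h.pq.symm, hxu, ?_⟩
    rintro rfl
    exact h5.1 _ _ _ hvu h.qy hvx.symm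
  obtain ⟨q, p, h1⟩ := key x hx.1 hx.2
  obtain ⟨q', p', h2⟩ := key y hy.1 hy.2
  have hq : q ≠ q' := by
    rintro rfl
    exact hxy (hu v u q x p y p' h1 h2).1
  exact FiveCyc_two hcub hL hK hc h5 hu hng hq h1 h2

omit [Fintype V] [DecidableEq V] [DecidableRel G.Adj] in
private theorem FiveCyc_walk
    (hstep : ∀ v u, G.Adj v u → FiveCyc_full G v → FiveCyc_full G u) {v u : V} (W : G.Walk v u) :
    FiveCyc_full G v → FiveCyc_full G u := by
  induction W with
  | nil => exact id
  | cons hadj W ih => exact fun hf => ih (hstep _ _ hadj hf)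

/-- A cubic planar graph of girth at least five which has two cycles of length five with a common
edge. The hypothesis `h`: two pairs of neighbours of `v` are in cycles of length five, or a pair is
in two of them.
Proof. If `Uniq G` is false: `theta_good`. Otherwise `v` has neighbours `x, y, w` with
`Ang x v y`, `Ang x v w`. Call a vertex full if all three pairs of its neighbours are in cycles of
length five. If some vertex has exactly two such pairs: `pair_good`. Otherwise `v` is full. If `v`
is full and `u ~ v` then `u` is full: let `x, y` be the two other neighbours of `v`, and `p, q` with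
`Ang u v x q p` (the cycle `v, u, q, p, x`) and `Ang u v y q' p'`; then at `u` the pairs `v, q` and
`v, q'` are in cycles of length five, and `q ≠ q'` by `Uniq` (`Ang v u q x p`, `Ang v u q' y p'`,
`x ≠ y`); so `u` has at least two pairs, so it is full. By connectedness all vertices are full, and
`all_full` and `start_dode` finish the proof. -/
theorem five_good (hcub : ∀ x, (G.neighborFinset x).card = 3) (hL : ∀ x, 5 ≤ (L x).card)
    (hK : NoK33 G) (hc : G.Connected) (h5 : G5 G) (h20 : 20 ≤ Fintype.card V)
    (h : ¬ Uniq G ∨ ∃ v x y w p q p' q', y ≠ w ∧ Ang G x v y p q ∧ Ang G x v w p' q') :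
    Good G L univ ∅ := by
  by_cases hu : Uniq G
  · rcases h with h | ⟨v, x, y, w, p, q, p', q', hyw, h1, h2⟩
    · exact absurd hu h
    · by_contra hng
      have hv : FiveCyc_full G v := FiveCyc_two hcub hL hK hc h5 hu hng hyw h1 h2
      have hall : ∀ u, FiveCyc_full G u := by
        intro u
        obtain ⟨W⟩ := hc.preconnected v u
        exact FiveCyc_walk (fun _ _ hadj hf => FiveCyc_step hcub hL hK hc h5 hu hng hadj hf) W hv
      obtain ⟨o, a, b, c, a1, a2, b1, b2, c1, c2, A1, A2, B1, B2, C1, C2, zab, zbc, zca, t, hD⟩ :=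
        all_full hcub hc h5 hu (fun x v y hx hy hxy => hall v x y hx hy hxy) h20
      exact hng (start_dode hcub hL hK hc hD)
  · exact theta_good hcub hL hK hc h5 hu

end Pool.Agent.E8B
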