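import Pool.Agent.E8B.Stuck4
import Pool.Agent.E8B.Fin3

set_option autoImplicit false

namespace Pool.Agent.E8B

open Finset

universe u

variable {V : Type u} {β : Type*} [Fintype V] [DecidableEq V] {G : SimpleGraph V}
  [DecidableRel G.Adj] {L : V → Finset β}

/-- The flood: strong induction on `D.card`. If a step is possible, use it; otherwise the state is
stuck and `final_good` applies. -/
theorem flood (h3 : ∀ x, (G.neighborFinset x).card ≤ 3) (hL : ∀ x, 5 ≤ (L x).card)
    (hK : NoK33 G) (hc : G.Connected) (D W : Finset V) (st : St G D W) (hD : D ≠ univ) :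
    Good G L D W := by
  induction' h : D.card using Nat.strong_induction_on with n ih generalizing D W
  by_cases hs : ∃ D1 W1, Step G L D W D1 W1
  · obtain ⟨D1, W1, s⟩ := hs
    refine s.good (ih D1.card ?_ D1 W1 s.st ?_ rfl)
    · subst h
      exact Finset.card_lt_card s.sub
    · intro hu
      have h1 := s.sub
      rw [hu] at h1
      exact (Finset.ssubset_iff_subset_ne.mp h1).2
        (Finset.Subset.antisymm (Finset.ssubset_iff_subset_ne.mp h1).1 (Finset.subset_univ _))
  · have hst : Stuck G L D W := ⟨st, fun D1 W1 s => hs ⟨D1, W1, s⟩⟩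
    exact final_good h3 hL hK st (fun v hv => stuck_local h3 hL hst hv)
      (fun v x hv hx => stuck_inn h3 hL hK hc hD hst hv hx)
      (fun v z p q s hb hp => stuck_inner h3 hL hst hb hp)

end Pool.Agent.E8B
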