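import Pool.Agent.E8B.StartH

set_option autoImplicit false

namespace Pool.Agent.E8B

open Finset

universe u

variable {V : Type u} {β : Type*} [Fintype V] [DecidableEq V] {G : SimpleGraph V}
  [DecidableRel G.Adj] {L : V → Finset β}

/-- The third neighbour. -/
private theorem HexFac_third (hcub : ∀ x, (G.neighborFinset x).card = 3) {v x y : V}
    (hx : G.Adj v x) (hy : G.Adj v y) (xy : x ≠ y) :
    ∃ d, G.neighborFinset v = {x, y, d} ∧ d ≠ x ∧ d ≠ y ∧ G.Adj v d := by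
  have hsub : ({x, y} : Finset V) ⊆ G.neighborFinset v := by
    intro w hw
    simp only [Finset.mem_insert, Finset.mem_singleton] at hw
    rw [SimpleGraph.mem_neighborFinset]
    rcases hw with rfl | rfl <;> assumption
  have hcard : (G.neighborFinset v \ {x, y}).card = 1 := by
    rw [Finset.card_sdiff_of_subset hsub, hcub v, Finset.card_pair xy]
  obtain ⟨d, hd⟩ := Finset.card_eq_one.1 hcard
  have hdm : d ∈ G.neighborFinset v \ {x, y} := by rw [hd]; simp
  rw [Finset.mem_sdiff, SimpleGraph.mem_neighborFinset] at hdm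
  simp only [Finset.mem_insert, Finset.mem_singleton, not_or] at hdm
  refine ⟨d, ?_, hdm.2.1, hdm.2.2, hdm.1⟩
  ext w
  have h1 : w ∈ G.neighborFinset v \ {x, y} ↔ w = d := by rw [hd]; simp
  rw [Finset.mem_sdiff] at h1
  simp only [Finset.mem_insert, Finset.mem_singleton, not_or] at h1 ⊢
  constructor
  · intro hw
    by_cases h2 : w = x
    · exact Or.inl h2
    · by_cases h3 : w = y
      · exact Or.inr (Or.inl h3)
      · exact Or.inr (Or.inr (h1.1 ⟨hw, h2, h3⟩))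
  · rintro (rfl | rfl | rfl)
    · exact (SimpleGraph.mem_neighborFinset _ _ _).2 hx
    · exact (SimpleGraph.mem_neighborFinset _ _ _).2 hy
    · exact (SimpleGraph.mem_neighborFinset _ _ _).2 hdm.1

omit [Fintype V] [DecidableEq V] [DecidableRel G.Adj] in
/-- The third neighbour of a vertex of a hexagon is not on the hexagon. -/
private theorem HexFac_out (h5' : G5 G) {h1 h2 h3 h4 h5 h6 d : V} (n24 : h2 ≠ h4) (n13 : h1 ≠ h3)
    (a12 : G.Adj h1 h2) (a23 : G.Adj h2 h3) (a34 : G.Adj h3 h4)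
    (a56 : G.Adj h5 h6) (a61 : G.Adj h6 h1) (hd : G.Adj h1 d)
    (hd2 : d ≠ h2) (hd6 : d ≠ h6) :
    d ≠ h1 ∧ d ≠ h2 ∧ d ≠ h3 ∧ d ≠ h4 ∧ d ≠ h5 ∧ d ≠ h6 := by
  refine ⟨hd.ne', hd2, ?_, ?_, ?_, hd6⟩
  · rintro rfl
    exact h5'.1 _ _ _ a12 a23 hd.symm
  · rintro rfl
    exact n24 (h5'.2 _ _ _ _ n13 a12 a23 hd a34.symm)
  · rintro rfl
    exact h5'.1 _ _ _ a56 a61 hd

omit [Fintype V] [DecidableEq V] [DecidableRel G.Adj] in
private theorem HexFac_ne1 (h5' : G5 G) {h1 h2 d1 d2 : V} (a12 : G.Adj h1 h2)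
    (e1 : G.Adj h1 d1) (e2 : G.Adj h2 d2) : d1 ≠ d2 := by
  rintro rfl
  exact h5'.1 _ _ _ a12 e2 e1.symm

omit [Fintype V] [DecidableEq V] [DecidableRel G.Adj] in
private theorem HexFac_ne2 (h5' : G5 G) {h1 h2 h3 d1 d3 : V} (n13 : h1 ≠ h3) (a12 : G.Adj h1 h2)
    (a23 : G.Adj h2 h3) (e1 : G.Adj h1 d1) (e3 : G.Adj h3 d3) (hd : d1 ≠ h2) : d1 ≠ d3 := by
  rintro rfl
  exact hd (h5'.2 _ _ _ _ n13 a12 a23 e1 e3.symm).symm

omit [Fintype V] [DecidableEq V] [DecidableRel G.Adj] in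
private theorem HexFac_nadj (h5' : G5 G) {h1 h2 d1 d2 : V} (a12 : G.Adj h1 h2)
    (e1 : G.Adj h1 d1) (e2 : G.Adj h2 d2) (hd : d1 ≠ h2) (hd' : d2 ≠ h1) : ¬ G.Adj d1 d2 := by
  intro h
  exact hd (h5'.2 _ _ _ _ hd'.symm a12 e2 e1 h).symm

omit [Fintype V] [DecidableEq V] [DecidableRel G.Adj] in
/-- Two crossing pairs are not both linked. -/
private theorem HexFac_x {c : List V} (hX : NoCross G c) (hc : c.Nodup)
    {p q r s dp dq dr ds : V} {A B C D : List V}
    (hrot : c.IsRotated (p :: A ++ q :: B ++ r :: C ++ s :: D))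
    (ap : G.Adj p dp) (aq : G.Adj q dq) (ar : G.Adj r dr) (as : G.Adj s ds)
    (np : dp ∉ c) (nq : dq ∉ c) (nr : dr ∉ c) (ns : ds ∉ c)
    (k1 : dp ≠ dq) (k2 : dp ≠ ds) (k3 : dr ≠ dq) (k4 : dr ≠ ds)
    (l1 : dp = dr ∨ G.Adj dp dr) (l2 : dq = ds ∨ G.Adj dq ds) : False := by
  have key : ∀ P Q : List V, (c ++ P ++ Q).Nodup → Ch G p P r → Ch G q Q s → False :=
    fun P Q h1 h2 h3 => hX p q r s A B C D P Q hrot h1 h2 h3
  have mc : ∀ x ∈ c, x ≠ dp ∧ x ≠ dq ∧ x ≠ dr ∧ x ≠ ds := by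
    intro x hx
    refine ⟨?_, ?_, ?_, ?_⟩ <;> rintro rfl <;> contradiction
  rcases l1 with l1 | l1
  · subst l1
    rcases l2 with l2 | l2
    · subst l2
      refine key [dp] [dq] ?_ ?_ ?_
      · rw [List.append_assoc, List.nodup_append]
        refine ⟨hc, by simp [k1], ?_⟩
        intro x hx y hy
        have := mc x hx
        simp only [List.mem_append, List.mem_singleton] at hy
        rcases hy with rfl | rfl
        · exact this.1
        · exact this.2.1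
      · simp [Ch, ap, ar.symm]
      · simp [Ch, aq, as.symm]
    · refine key [dp] [dq, ds] ?_ ?_ ?_
      · rw [List.append_assoc, List.nodup_append]
        refine ⟨hc, by simp [k1, k2, l2.ne], ?_⟩
        intro x hx y hy
        have := mc x hx
        simp only [List.mem_append, List.mem_cons, List.not_mem_nil, or_false] at hy
        rcases hy with rfl | rfl | rfl
        · exact this.1
        · exact this.2.1
        · exact this.2.2.2
      · simp [Ch, ap, ar.symm]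
      · simp [Ch, aq, as.symm, l2]
  · rcases l2 with l2 | l2
    · subst l2
      refine key [dp, dr] [dq] ?_ ?_ ?_
      · rw [List.append_assoc, List.nodup_append]
        refine ⟨hc, by simp [k1, k3, l1.ne], ?_⟩
        intro x hx y hy
        have := mc x hx
        simp only [List.mem_append, List.mem_cons, List.not_mem_nil, or_false] at hy
        rcases hy with (rfl | rfl) | rfl
        · exact this.1
        · exact this.2.2.1
        · exact this.2.1
      · simp [Ch, ap, ar.symm, l1]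
      · simp [Ch, aq, as.symm]
    · refine key [dp, dr] [dq, ds] ?_ ?_ ?_
      · rw [List.append_assoc, List.nodup_append]
        refine ⟨hc, by simp [k1, k2, k3, k4, l1.ne, l2.ne], ?_⟩
        intro x hx y hy
        have := mc x hx
        simp only [List.mem_append, List.mem_cons, List.not_mem_nil, or_false] at hy
        rcases hy with (rfl | rfl) | rfl | rfl
        · exact this.1
        · exact this.2.2.1
        · exact this.2.1
        · exact this.2.2.2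
      · simp [Ch, ap, ar.symm, l1]
      · simp [Ch, aq, as.symm, l2]

/-- A vertex does not have four neighbours. -/
private theorem HexFac_four (hcub : ∀ x, (G.neighborFinset x).card = 3) {v x y z w : V}
    (hx : G.Adj v x) (hy : G.Adj v y) (hz : G.Adj v z) (hw : G.Adj v w)
    (xy : x ≠ y) (xz : x ≠ z) (xw : x ≠ w) (yz : y ≠ z) (yw : y ≠ w) (zw : z ≠ w) : False := by
  have hsub : ({x, y, z, w} : Finset V) ⊆ G.neighborFinset v := by
    intro u hu
    simp only [Finset.mem_insert, Finset.mem_singleton] at hu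
    rw [SimpleGraph.mem_neighborFinset]
    rcases hu with rfl | rfl | rfl | rfl <;> assumption
  have h := Finset.card_le_card hsub
  rw [hcub v] at h
  have h4 : ({x, y, z, w} : Finset V).card = 4 := by
    rw [Finset.card_insert_of_notMem (by simp [xy, xz, xw]),
      Finset.card_insert_of_notMem (by simp [yz, yw]), Finset.card_pair zw]
  omega

/-- A cycle of length six such that no two disjoint chord paths cross (a face).
Proof. Let `di` be the third neighbour of `hi`, and call `i, j` linked if `di = dj` or `di ~ dj`.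
By `NoCross` crossing pairs are not both linked: for `(1,3)` and `(2,4)`: the chord paths
`h1 d1 d3 h3` and `h2 d2 d4 h4` (`d1 ≠ d3`, `d2 ≠ d4` by girth, so the links are adjacencies) are
disjoint or a vertex `d1 = d4` (the only possible equality by girth) has the four neighbours
`h1, h4, d2, d3`; for `(1,4)` and `(2,5)`, `(1,4)` and `(2,6)`, `(1,4)` and `(3,5)` the paths are
disjoint by girth; and all rotations of these.
`start_hex` for the cycle itself (rotation 0) needs `d1, d3, d4, d6` pairwise not adjacent and not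
both `d1 = d4`, `d3 = d6`. (`d1 ≁ d6`, `d3 ≁ d4` by girth.) So if it cannot be applied one of
`(1,3), (4,6), (1,4), (3,6)` is linked. For the rotation by one (`h2, h3, h4, h5, h6, h1`) one of
`(2,4), (5,1), (2,5), (4,1)` is linked, for the rotation by two one of `(3,5), (6,2), (3,6), (5,2)`.
If `(1,4)` is linked, nothing which crosses it is linked, so rotation two can be used; if `(2,5)` is
linked, rotation zero; if `(3,6)` is linked, rotation one. If none of them is linked: `(1,3)` forces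
`(5,1)` and `(3,5)`, so `d1, d3, d5` is a triangle; `(4,6)` forces `(2,4)` and `(6,2)`, so
`d2, d4, d6` is a triangle. -/
theorem hex_good (hcub : ∀ x, (G.neighborFinset x).card = 3) (hL : ∀ x, 5 ≤ (L x).card)
    (hK : NoK33 G) (hc : G.Connected) (h5' : G5 G) {h1 h2 h3 h4 h5 h6 : V}
    (hnd : [h1, h2, h3, h4, h5, h6].Nodup)
    (a12 : G.Adj h1 h2) (a23 : G.Adj h2 h3) (a34 : G.Adj h3 h4) (a45 : G.Adj h4 h5)
    (a56 : G.Adj h5 h6) (a61 : G.Adj h6 h1) (hX : NoCross G [h1, h2, h3, h4, h5, h6]) :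
    Good G L univ ∅ := by
  obtain ⟨D1, N1, x1, y1, e1⟩ := HexFac_third hcub a61.symm a12
    (by rintro rfl; simp at hnd)
  obtain ⟨D2, N2, x2, y2, e2⟩ := HexFac_third hcub a12.symm a23
    (by rintro rfl; simp at hnd)
  obtain ⟨D3, N3, x3, y3, e3⟩ := HexFac_third hcub a23.symm a34
    (by rintro rfl; simp at hnd)
  obtain ⟨D4, N4, x4, y4, e4⟩ := HexFac_third hcub a34.symm a45
    (by rintro rfl; simp at hnd)
  obtain ⟨D5, N5, x5, y5, e5⟩ := HexFac_third hcub a45.symm a56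
    (by rintro rfl; simp at hnd)
  obtain ⟨D6, N6, x6, y6, e6⟩ := HexFac_third hcub a56.symm a61
    (by rintro rfl; simp at hnd)
  have hnd' := hnd
  simp only [List.nodup_cons, List.mem_cons, List.not_mem_nil, or_false, not_or,
    List.nodup_nil, and_true, not_false_eq_true] at hnd'
  obtain ⟨⟨n12, n13, n14, n15, n16⟩, ⟨n23, n24, n25, n26⟩, ⟨n34, n35, n36⟩, ⟨n45, n46⟩, n56⟩ :=
    hnd'
  have o1 := HexFac_out h5' n24 n13 a12 a23 a34 a56 a61 e1 y1 x1
  have o2 := HexFac_out h5' n35 n24 a23 a34 a45 a61 a12 e2 y2 x2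
  have o3 := HexFac_out h5' n46 n35 a34 a45 a56 a12 a23 e3 y3 x3
  have o4 := HexFac_out h5' (Ne.symm n15) n46 a45 a56 a61 a23 a34 e4 y4 x4
  have o5 := HexFac_out h5' (Ne.symm n26) (Ne.symm n15) a56 a61 a12 a34 a45 e5 y5 x5
  have o6 := HexFac_out h5' n13 (Ne.symm n26) a61 a12 a23 a45 a56 e6 y6 x6
  have c1 : D1 ∉ [h1, h2, h3, h4, h5, h6] := by simp [o1]
  have c2 : D2 ∉ [h1, h2, h3, h4, h5, h6] := by simp [o2]
  have c3 : D3 ∉ [h1, h2, h3, h4, h5, h6] := by simp [o3]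
  have c4 : D4 ∉ [h1, h2, h3, h4, h5, h6] := by simp [o4]
  have c5 : D5 ∉ [h1, h2, h3, h4, h5, h6] := by simp [o5]
  have c6 : D6 ∉ [h1, h2, h3, h4, h5, h6] := by simp [o6]
  have u : ∀ {x d : V}, d ∉ [h1, h2, h3, h4, h5, h6] → x ∈ [h1, h2, h3, h4, h5, h6] →
      x ≠ d := fun hd hx e => hd (e ▸ hx)
  have m1 : h1 ∈ [h1, h2, h3, h4, h5, h6] := by simp
  have m3 : h3 ∈ [h1, h2, h3, h4, h5, h6] := by simp
  have m4 : h4 ∈ [h1, h2, h3, h4, h5, h6] := by simp
  have m6 : h6 ∈ [h1, h2, h3, h4, h5, h6] := by simp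
  -- neighbours
  have p12 := HexFac_ne1 h5' a12 e1 e2
  have p23 := HexFac_ne1 h5' a23 e2 e3
  have p34 := HexFac_ne1 h5' a34 e3 e4
  have p45 := HexFac_ne1 h5' a45 e4 e5
  have p56 := HexFac_ne1 h5' a56 e5 e6
  have p61 := HexFac_ne1 h5' a61 e6 e1
  have p13 := HexFac_ne2 h5' n13 a12 a23 e1 e3 y1
  have p24 := HexFac_ne2 h5' n24 a23 a34 e2 e4 y2
  have p35 := HexFac_ne2 h5' n35 a34 a45 e3 e5 y3
  have p46 := HexFac_ne2 h5' n46 a45 a56 e4 e6 y4
  have p51 := HexFac_ne2 h5' (Ne.symm n15) a56 a61 e5 e1 y5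
  have p62 := HexFac_ne2 h5' (Ne.symm n26) a61 a12 e6 e2 y6
  have q12 := HexFac_nadj h5' a12 e1 e2 y1 x2
  have q23 := HexFac_nadj h5' a23 e2 e3 y2 x3
  have q34 := HexFac_nadj h5' a34 e3 e4 y3 x4
  have q45 := HexFac_nadj h5' a45 e4 e5 y4 x5
  have q56 := HexFac_nadj h5' a56 e5 e6 y5 x6
  have q61 := HexFac_nadj h5' a61 e6 e1 y6 x1
  -- long, long
  have X1425 : (D1 = D4 ∨ G.Adj D1 D4) → (D2 = D5 ∨ G.Adj D2 D5) → False :=
    HexFac_x hX hnd (A := []) (B := [h3]) (C := []) (D := [h6]) (List.IsRotated.refl _)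
      e1 e2 e4 e5 c1 c2 c4 c5 p12 p51.symm p24.symm p45
  have X1436 : (D1 = D4 ∨ G.Adj D1 D4) → (D3 = D6 ∨ G.Adj D3 D6) → False :=
    HexFac_x hX hnd (A := [h2]) (B := []) (C := [h5]) (D := []) (List.IsRotated.refl _)
      e1 e3 e4 e6 c1 c3 c4 c6 p13 p61.symm p34.symm p46
  have X2536 : (D2 = D5 ∨ G.Adj D2 D5) → (D3 = D6 ∨ G.Adj D3 D6) → False :=
    HexFac_x hX hnd (A := []) (B := [h4]) (C := []) (D := [h1]) ⟨1, rfl⟩
      e2 e3 e5 e6 c2 c3 c5 c6 p23 p62.symm p35.symm p56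
  -- long, short
  have X1426 : (D1 = D4 ∨ G.Adj D1 D4) → (D2 = D6 ∨ G.Adj D2 D6) → False :=
    HexFac_x hX hnd (A := []) (B := [h3]) (C := [h5]) (D := []) (List.IsRotated.refl _)
      e1 e2 e4 e6 c1 c2 c4 c6 p12 p61.symm p24.symm p46
  have X1435 : (D1 = D4 ∨ G.Adj D1 D4) → (D3 = D5 ∨ G.Adj D3 D5) → False :=
    HexFac_x hX hnd (A := [h2]) (B := []) (C := []) (D := [h6]) (List.IsRotated.refl _)
      e1 e3 e4 e5 c1 c3 c4 c5 p13 p51.symm p34.symm p45
  have X1325 : (D1 = D3 ∨ G.Adj D1 D3) → (D2 = D5 ∨ G.Adj D2 D5) → False :=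
    HexFac_x hX hnd (A := []) (B := []) (C := [h4]) (D := [h6]) (List.IsRotated.refl _)
      e1 e2 e3 e5 c1 c2 c3 c5 p12 p51.symm p23.symm p35
  have X2546 : (D2 = D5 ∨ G.Adj D2 D5) → (D4 = D6 ∨ G.Adj D4 D6) → False :=
    HexFac_x hX hnd (A := [h3]) (B := []) (C := []) (D := [h1]) ⟨1, rfl⟩
      e2 e4 e5 e6 c2 c4 c5 c6 p24 p62.symm p45.symm p56
  have X2436 : (D2 = D4 ∨ G.Adj D2 D4) → (D3 = D6 ∨ G.Adj D3 D6) → False :=
    HexFac_x hX hnd (A := []) (B := []) (C := [h5]) (D := [h1]) ⟨1, rfl⟩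
      e2 e3 e4 e6 c2 c3 c4 c6 p23 p62.symm p34.symm p46
  have X3651 : (D3 = D6 ∨ G.Adj D3 D6) → (D5 = D1 ∨ G.Adj D5 D1) → False :=
    HexFac_x hX hnd (A := [h4]) (B := []) (C := []) (D := [h2]) ⟨2, rfl⟩
      e3 e5 e6 e1 c3 c5 c6 c1 p35 p13.symm p56.symm p61
  -- short, short
  have X1324 : G.Adj D1 D3 → G.Adj D2 D4 → False := by
    intro l1 l2
    by_cases h : D1 = D4
    · subst h
      exact HexFac_four hcub e1.symm e4.symm l1 l2.symm n14 (u c3 m1) (u c2 m1)
        (u c3 m4) (u c2 m4) p23.symm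
    · exact HexFac_x hX hnd (A := []) (B := []) (C := []) (D := [h5, h6])
        (List.IsRotated.refl _) e1 e2 e3 e4 c1 c2 c3 c4 p12 h p23.symm p34 (Or.inr l1)
        (Or.inr l2)
  have X6213 : G.Adj D6 D2 → G.Adj D1 D3 → False := by
    intro l1 l2
    by_cases h : D6 = D3
    · subst h
      exact HexFac_four hcub e6.symm e3.symm l1 l2.symm (Ne.symm n36) (u c2 m6)
        (u c1 m6) (u c2 m3) (u c1 m3) p12.symm
    · exact HexFac_x hX hnd (A := []) (B := []) (C := []) (D := [h4, h5])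
        ⟨5, rfl⟩ e6 e1 e2 e3 c6 c1 c2 c3 p61 h p12.symm p23 (Or.inr l1)
        (Or.inr l2)
  have X4651 : G.Adj D4 D6 → G.Adj D5 D1 → False := by
    intro l1 l2
    by_cases h : D4 = D1
    · subst h
      exact HexFac_four hcub e4.symm e1.symm l1 l2.symm (Ne.symm n14) (u c6 m4)
        (u c5 m4) (u c6 m1) (u c5 m1) p56.symm
    · exact HexFac_x hX hnd (A := []) (B := []) (C := []) (D := [h2, h3])
        ⟨3, rfl⟩ e4 e5 e6 e1 c4 c5 c6 c1 p45 h p56.symm p61 (Or.inr l1)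
        (Or.inr l2)
  have X3546 : G.Adj D3 D5 → G.Adj D4 D6 → False := by
    intro l1 l2
    by_cases h : D3 = D6
    · subst h
      exact HexFac_four hcub e3.symm e6.symm l1 l2.symm n36 (u c5 m3)
        (u c4 m3) (u c5 m6) (u c4 m6) p45.symm
    · exact HexFac_x hX hnd (A := []) (B := []) (C := []) (D := [h1, h2])
        ⟨2, rfl⟩ e3 e4 e5 e6 c3 c4 c5 c6 p34 h p45.symm p56 (Or.inr l1)
        (Or.inr l2)
  -- the three rotations
  have R0 : ¬ G.Adj D1 D3 → ¬ G.Adj D4 D6 → ¬ (D1 = D4 ∨ G.Adj D1 D4) →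
      ¬ (D3 = D6 ∨ G.Adj D3 D6) → Good G L univ ∅ := by
    intro k1 k2 k3 k4
    exact start_hex hcub hL hK hc h5' hnd N1 N2 N3 N4 N5 N6 k1 (fun h => k3 (Or.inr h))
      (fun h => q61 h.symm) q34 (fun h => k4 (Or.inr h)) k2 (fun h => k3 (Or.inl h.1))
  have R1 : ¬ G.Adj D2 D4 → ¬ G.Adj D5 D1 → ¬ (D2 = D5 ∨ G.Adj D2 D5) →
      ¬ (D1 = D4 ∨ G.Adj D1 D4) → Good G L univ ∅ := by
    intro k1 k2 k3 k4
    exact start_hex hcub hL hK hc h5' (by
        have := (List.IsRotated.nodup_iff (⟨1, rfl⟩ :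
          [h1, h2, h3, h4, h5, h6] ~r [h2, h3, h4, h5, h6, h1])).1 hnd
        exact this) N2 N3 N4 N5 N6 N1 k1 (fun h => k3 (Or.inr h))
      (fun h => q12 h.symm) q45 (fun h => k4 (Or.inr h.symm)) k2 (fun h => k3 (Or.inl h.1))
  have R2 : ¬ G.Adj D3 D5 → ¬ G.Adj D6 D2 → ¬ (D3 = D6 ∨ G.Adj D3 D6) →
      ¬ (D2 = D5 ∨ G.Adj D2 D5) → Good G L univ ∅ := by
    intro k1 k2 k3 k4
    exact start_hex hcub hL hK hc h5' (by
        have := (List.IsRotated.nodup_iff (⟨2, rfl⟩ :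
          [h1, h2, h3, h4, h5, h6] ~r [h3, h4, h5, h6, h1, h2])).1 hnd
        exact this) N3 N4 N5 N6 N1 N2 k1 (fun h => k3 (Or.inr h))
      (fun h => q23 h.symm) q56 (fun h => k4 (Or.inr h.symm)) k2 (fun h => k3 (Or.inl h.1))
  by_cases L14 : D1 = D4 ∨ G.Adj D1 D4
  · exact R2 (fun h => X1435 L14 (Or.inr h)) (fun h => X1426 L14 (Or.inr h.symm))
      (fun h => X1436 L14 h) (fun h => X1425 L14 h)
  by_cases L25 : D2 = D5 ∨ G.Adj D2 D5
  · exact R0 (fun h => X1325 (Or.inr h) L25) (fun h => X2546 L25 (Or.inr h)) L14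
      (fun h => X2536 L25 h)
  by_cases L36 : D3 = D6 ∨ G.Adj D3 D6
  · exact R1 (fun h => X2436 (Or.inr h) L36) (fun h => X3651 L36 (Or.inr h)) L25 L14
  by_cases L13 : G.Adj D1 D3
  · have h24 : ¬ G.Adj D2 D4 := fun h => X1324 L13 h
    have h62 : ¬ G.Adj D6 D2 := fun h => X6213 h L13
    by_cases L51 : G.Adj D5 D1
    · by_cases L35 : G.Adj D3 D5
      · exact absurd L51 (h5'.1 _ _ _ L13 L35)
      · exact R2 L35 h62 L36 L25
    · exact R1 h24 L51 L25 L14
  · by_cases L46 : G.Adj D4 D6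
    · have h51 : ¬ G.Adj D5 D1 := fun h => X4651 L46 h
      have h35 : ¬ G.Adj D3 D5 := fun h => X3546 h L46
      by_cases L24 : G.Adj D2 D4
      · by_cases L62 : G.Adj D6 D2
        · exact absurd L62 (h5'.1 _ _ _ L24 L46)
        · exact R2 h35 L62 L36 L25
      · exact R1 L24 h51 L25 L14
    · exact R0 L13 L46 L14 L36

end Pool.Agent.E8B
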