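import Pool.Agent.E8B.Cross

set_option autoImplicit false

namespace Pool.Agent.E8B

open Finset

universe u

variable {V : Type u} [Fintype V] [DecidableEq V] {G : SimpleGraph V} [DecidableRel G.Adj]

omit [Fintype V] [DecidableRel G.Adj] [DecidableEq V] in
private theorem k33_ch_split {x y z : V} {l m : List V} :
    Ch G x (l ++ y :: m) z ↔ Ch G x l y ∧ Ch G y m z := by
  unfold Ch
  have h : x :: (l ++ y :: m ++ [z]) = (x :: l) ++ y :: (m ++ [z]) := by simp
  rw [h, List.isChain_split]
  simp

omit [Fintype V] [DecidableRel G.Adj] [DecidableEq V] in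
private theorem k33_pe_adj {x y : V} {l : List V} (h : Ch G x l y) :
    ∀ e ∈ pe x l y, e ∈ G.edgeSet := by
  induction l generalizing x with
  | nil =>
    intro e he
    simp only [pe, List.nil_append, List.zipWith_cons_cons, List.zipWith_nil_left,
      List.mem_singleton] at he
    subst he
    simpa [Ch] using h
  | cons a l ih =>
    intro e he
    have h' : G.Adj x a ∧ Ch G a l y := by
      simpa [Ch] using h
    simp only [pe, List.cons_append, List.zipWith_cons_cons, List.mem_cons] at he
    rcases he with he | he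
    · subst he
      simpa using h'.1
    · exact ih h'.2 e he

omit [Fintype V] [DecidableEq V] in
private theorem k33_mem_pe {x y v : V} {l : List V} {e : Sym2 V} (he : e ∈ pe x l y)
    (hv : v ∈ e) : v = x ∨ v ∈ l ∨ v = y := by
  induction l generalizing x with
  | nil =>
    simp only [pe, List.nil_append, List.zipWith_cons_cons, List.zipWith_nil_left,
      List.mem_singleton] at he
    subst he
    simp only [Sym2.mem_iff] at hv
    tauto
  | cons a l ih =>
    simp only [pe, List.cons_append, List.zipWith_cons_cons, List.mem_cons] at he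
    rcases he with he | he
    · subst he
      simp only [Sym2.mem_iff] at hv
      simp only [List.mem_cons]
      tauto
    · have := ih he
      simp only [List.mem_cons]
      tauto

omit [Fintype V] [DecidableEq V] in
private theorem k33_pe_split {x y z : V} {l m : List V} (e : Sym2 V) :
    e ∈ pe x (l ++ y :: m) z ↔ e ∈ pe x l y ∨ e ∈ pe y m z := by
  induction l generalizing x with
  | nil =>
    simp [pe]
  | cons a l ih =>
    have h1 : pe x (a :: l ++ y :: m) z = s(x, a) :: pe a (l ++ y :: m) z := by
      simp [pe]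
    have h2 : pe x (a :: l) y = s(x, a) :: pe a l y := by simp [pe]
    rw [h1, h2, List.mem_cons, ih, List.mem_cons, or_assoc]

omit [Fintype V] [DecidableEq V] in
private theorem k33_pe_head (x y : V) (l : List V) :
    ∃ w, s(x, w) ∈ pe x l y ∧ (w = y ∨ w ∈ l) := by
  cases l with
  | nil => exact ⟨y, by simp [pe], Or.inl rfl⟩
  | cons a l => exact ⟨a, by simp [pe], Or.inr (by simp)⟩

omit [Fintype V] in
private theorem k33_cyc_cons (x : V) (l : List V) : cyc (x :: l) = (pe x l x).toFinset := by
  simp [cyc, pe]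

omit [Fintype V] in
private theorem k33_cyc_rotate (c : List V) (n : ℕ) : cyc (c.rotate n) = cyc c := by
  unfold cyc
  have h : (c.rotate n).rotate 1 = (c.rotate 1).rotate n := by
    rw [List.rotate_rotate, List.rotate_rotate, Nat.add_comm]
  rw [h, ← List.zipWith_rotate_distrib _ _ _ _ (by simp)]
  ext e
  simp

omit [Fintype V] in
private theorem k33_cyc_isRotated {c d : List V} (h : c.IsRotated d) : cyc c = cyc d := by
  obtain ⟨n, rfl⟩ := h
  exact (k33_cyc_rotate c n).symm

private theorem k33_cyc_sub {x : V} {l : List V} (h : Ch G x l x) :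
    cyc (x :: l) ⊆ G.edgeFinset := by
  intro e he
  rw [k33_cyc_cons, List.mem_toFinset] at he
  rw [SimpleGraph.mem_edgeFinset]
  exact k33_pe_adj h e he

omit [Fintype V] [DecidableRel G.Adj] [DecidableEq V] in
private theorem k33_ch_of_zip {x y : V} {l : List V}
    (h : ∀ z ∈ (x :: l).zip (l ++ [y]), G.Adj z.1 z.2) : Ch G x l y := by
  induction l generalizing x with
  | nil => simpa [Ch] using h
  | cons a l ih =>
    have h1 : G.Adj x a := h (x, a) (by simp)
    have h2 : Ch G a l y := ih fun z hz => h z (by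
      simp only [List.cons_append, List.zip_cons_cons, List.mem_cons]
      exact Or.inr hz)
    unfold Ch at h2 ⊢
    simpa using ⟨h1, h2⟩

omit [Fintype V] [DecidableRel G.Adj] [DecidableEq V] in
private theorem k33_zip_rot {c d : List V} (h : c.IsRotated d)
    (hc : ∀ x ∈ c.zip (c.rotate 1), G.Adj x.1 x.2) :
    ∀ x ∈ d.zip (d.rotate 1), G.Adj x.1 x.2 := by
  obtain ⟨n, rfl⟩ := h
  have h : (c.rotate n).rotate 1 = (c.rotate 1).rotate n := by
    rw [List.rotate_rotate, List.rotate_rotate, Nat.add_comm]
  intro x hx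
  rw [h, List.zip, ← List.zipWith_rotate_distrib _ _ _ _ (by simp), List.mem_rotate] at hx
  exact hc x hx

omit [Fintype V] [DecidableRel G.Adj] in
private theorem k33_disj {l l1 l2 : List V} (nd : l.Nodup)
    (h : ∀ a, l1.count a + l2.count a ≤ l.count a) (y : V) (h1 : y ∈ l1) (h2 : y ∈ l2) :
    False := by
  have k := List.nodup_iff_count_le_one.1 nd y
  have k1 := List.count_pos_iff.2 h1
  have k2 := List.count_pos_iff.2 h2
  have := h y
  omega

/-- Take `T` with the boundary `cyc (b1 A1 b2 A2 … b6 A6)` (`span`, `even_cyc`); by `crossing` the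
three chord paths are pairwise on different sides, but there are only two sides. (`cyc` does not
change under rotation of the list.) -/
theorem noK33_of_face (S : FaceStruct G) (h3 : ∀ x, (G.neighborFinset x).card ≤ 3) :
    NoK33 G := by
  intro b1 b2 b3 b4 b5 b6 A1 A2 A3 A4 A5 A6 P1 P2 P3 nd h1 h2 h3' h4 h5 h6 k1 k2 k3
  obtain ⟨L0, hL0⟩ : ∃ L0, L0 = b1 :: (A1 ++ b2 :: (A2 ++ b3 :: (A3 ++ b4 :: (A4 ++ b5 ::
    (A5 ++ b6 :: A6))))) := ⟨_, rfl⟩
  have hch : Ch G b1 (A1 ++ b2 :: (A2 ++ b3 :: (A3 ++ b4 :: (A4 ++ b5 ::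
    (A5 ++ b6 :: A6))))) b1 := by
    simp only [k33_ch_split]
    exact ⟨h1, h2, h3', h4, h5, h6⟩
  have hsub : cyc L0 ⊆ G.edgeFinset := by
    rw [hL0]
    exact k33_cyc_sub hch
  have hnd : L0.Nodup := by
    have hs : List.Sublist (b1 :: b2 :: b3 :: b4 :: b5 :: b6 ::
      (A1 ++ A2 ++ A3 ++ A4 ++ A5 ++ A6)) (b1 :: b2 :: b3 :: b4 :: b5 :: b6 ::
      (A1 ++ A2 ++ A3 ++ A4 ++ A5 ++ A6 ++ P1 ++ P2 ++ P3)) := by
      simp only [List.append_assoc, List.cons_sublist_cons, List.append_sublist_append_left]
      exact List.sublist_append_left _ _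
    have hn := nd.sublist hs
    refine (List.Perm.nodup_iff ?_).1 hn
    rw [hL0]
    classical
    rw [List.perm_iff_count]
    intro a
    simp only [List.count_cons, List.count_append]
    omega
  have heven : ∀ v, Even ((cyc L0).filter (v ∈ ·)).card := by
    intro v
    refine even_cyc hnd ?_ v
    rw [hL0]
    simp only [List.length_cons, List.length_append]
    omega
  obtain ⟨T, hT⟩ := S.span (cyc L0) hsub heven
  have c12 := crossing S h3 (p := b1) (q := b2) (r := b4) (s := b5) (A := A1)
    (B := A2 ++ b3 :: A3) (C := A4) (D := A5 ++ b6 :: A6) (P := P1) (Q := P2) (by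
      have hp : List.Subperm (b1 :: b2 :: b4 :: b5 :: (A1 ++ (A2 ++ b3 :: A3) ++ A4 ++
        (A5 ++ b6 :: A6) ++ P1 ++ P2)) (b1 :: b2 :: b3 :: b4 :: b5 :: b6 ::
        (A1 ++ A2 ++ A3 ++ A4 ++ A5 ++ A6 ++ P1 ++ P2 ++ P3)) := by
        rw [List.subperm_iff_count]
        intro a
        simp only [List.count_cons, List.count_append]
        omega
      rw [List.nodup_iff_count_le_one] at nd ⊢
      intro a
      exact (hp.count_le a).trans (nd a))
    h1 (k33_ch_split.2 ⟨h2, h3'⟩) h4 (k33_ch_split.2 ⟨h5, h6⟩) k1 k2 T (by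
      intro e
      rw [← hT e, hL0]
      simp [List.append_assoc])
  have c23 := crossing S h3 (p := b2) (q := b3) (r := b5) (s := b6) (A := A2)
    (B := A3 ++ b4 :: A4) (C := A5) (D := A6 ++ b1 :: A1) (P := P2) (Q := P3) (by
      have hp : List.Subperm (b2 :: b3 :: b5 :: b6 :: (A2 ++ (A3 ++ b4 :: A4) ++ A5 ++
        (A6 ++ b1 :: A1) ++ P2 ++ P3)) (b1 :: b2 :: b3 :: b4 :: b5 :: b6 ::
        (A1 ++ A2 ++ A3 ++ A4 ++ A5 ++ A6 ++ P1 ++ P2 ++ P3)) := by
        rw [List.subperm_iff_count]
        intro a
        simp only [List.count_cons, List.count_append]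
        omega
      rw [List.nodup_iff_count_le_one] at nd ⊢
      intro a
      exact (hp.count_le a).trans (nd a))
    h2 (k33_ch_split.2 ⟨h3', h4⟩) h5 (k33_ch_split.2 ⟨h6, h1⟩) k2 k3 T (by
      intro e
      rw [← hT e]
      have hr : L0.IsRotated (b2 :: A2 ++ b3 :: (A3 ++ b4 :: A4) ++ b5 :: A5 ++
        b6 :: (A6 ++ b1 :: A1)) := by
        have := @List.isRotated_append V (b1 :: A1)
          (b2 :: (A2 ++ b3 :: (A3 ++ b4 :: (A4 ++ b5 :: (A5 ++ b6 :: A6)))))
        rw [hL0]
        simpa [List.append_assoc] using this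
      rw [k33_cyc_isRotated hr])
  have c13 := crossing S h3 (p := b1) (q := b3) (r := b4) (s := b6) (A := A1 ++ b2 :: A2)
    (B := A3) (C := A4 ++ b5 :: A5) (D := A6) (P := P1) (Q := P3) (by
      have hp : List.Subperm (b1 :: b3 :: b4 :: b6 :: ((A1 ++ b2 :: A2) ++ A3 ++
        (A4 ++ b5 :: A5) ++ A6 ++ P1 ++ P3)) (b1 :: b2 :: b3 :: b4 :: b5 :: b6 ::
        (A1 ++ A2 ++ A3 ++ A4 ++ A5 ++ A6 ++ P1 ++ P2 ++ P3)) := by
        rw [List.subperm_iff_count]
        intro a
        simp only [List.count_cons, List.count_append]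
        omega
      rw [List.nodup_iff_count_le_one] at nd ⊢
      intro a
      exact (hp.count_le a).trans (nd a))
    (k33_ch_split.2 ⟨h1, h2⟩) h3' (k33_ch_split.2 ⟨h4, h5⟩) h6 k1 k3 T (by
      intro e
      rw [← hT e, hL0]
      simp [List.append_assoc])
  obtain ⟨w1, he1, -⟩ := k33_pe_head b1 b4 P1
  obtain ⟨w2, he2, -⟩ := k33_pe_head b2 b5 P2
  obtain ⟨w3, he3, -⟩ := k33_pe_head b3 b6 P3
  have q12 := c12 _ he1 _ he2
  have q23 := c23 _ he2 _ he3
  have q13 := c13 _ he1 _ he3
  tauto

/-- `crossing` for `T = {f}`: the edges of the chord paths are not in `B f = cyc c`, so both are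
not in `T`. -/
theorem noCross_of_face (S : FaceStruct G) (h3 : ∀ x, (G.neighborFinset x).card ≤ 3) {c : List V}
    {f : S.F} (hf : S.B f = cyc c) (hc : ∀ x ∈ c.zip (c.rotate 1), G.Adj x.1 x.2) :
    NoCross G c := by
  intro p q r s A B C D P Q hrot nd hP hQ
  have hz := k33_zip_rot hrot hc
  have hcyc := k33_cyc_isRotated hrot
  have hch : Ch G p (A ++ q :: (B ++ r :: (C ++ s :: D))) p := by
    apply k33_ch_of_zip
    simpa [List.append_assoc] using hz
  simp only [k33_ch_split] at hch
  obtain ⟨hA, hB, hC, hD⟩ := hch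
  have nd' : (p :: q :: r :: s :: (A ++ B ++ C ++ D ++ P ++ Q)).Nodup := by
    have hp : (c ++ P ++ Q).Perm (p :: A ++ q :: B ++ r :: C ++ s :: D ++ P ++ Q) :=
      (hrot.perm.append_right P).append_right Q
    refine (List.Perm.nodup_iff ?_).1 nd
    refine hp.trans ?_
    rw [List.perm_iff_count]
    intro a
    simp only [List.count_cons, List.count_append]
    omega
  have hT : ∀ e, e ∈ cyc (p :: A ++ q :: B ++ r :: C ++ s :: D) ↔
      Odd ((({f} : Finset S.F)).filter (e ∈ S.B ·)).card := by
    intro e
    rw [← hcyc, ← hf, Finset.filter_singleton]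
    by_cases he : e ∈ S.B f
    · simp [he]
    · simp [he]
  have hcr := crossing S h3 nd' hA hB hC hD hP hQ {f} hT
  obtain ⟨y, hy, hy'⟩ := k33_pe_head p r P
  obtain ⟨z, hz1, hz'⟩ := k33_pe_head q s Q
  have hx := hcr _ hy _ hz1
  have key : ∀ e, e ∈ S.B f ↔ (e ∈ pe p A q ∨ e ∈ pe q B r ∨ e ∈ pe r C s ∨ e ∈ pe s D p) := by
    intro e
    rw [hf, hcyc]
    have h1 : p :: A ++ q :: B ++ r :: C ++ s :: D =
      p :: (A ++ q :: (B ++ r :: (C ++ s :: D))) := by simp [List.append_assoc]
    rw [h1, k33_cyc_cons, List.mem_toFinset, k33_pe_split, k33_pe_split, k33_pe_split]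
  have n1 : ¬ S.In {f} s(p, y) := by
    rintro ⟨g, hg, hgy⟩
    rw [Finset.mem_singleton] at hg
    subst hg
    rw [key] at hgy
    have m1 : p ∈ s(p, y) := Sym2.mem_mk_left _ _
    have m2 : y ∈ s(p, y) := Sym2.mem_mk_right _ _
    rcases hgy with h | h | h | h
    · have := k33_mem_pe h m2
      exact k33_disj nd' (l1 := p :: (A ++ [q])) (l2 := r :: P) (by
        intro a
        simp only [List.count_cons, List.count_append, List.count_nil]
        omega) y (by simpa using this) (by simpa using hy')
    · have := k33_mem_pe h m1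
      exact k33_disj nd' (l1 := q :: (B ++ [r])) (l2 := [p]) (by
        intro a
        simp only [List.count_cons, List.count_append, List.count_nil]
        omega) p (by simpa using this) (by simp)
    · have := k33_mem_pe h m1
      exact k33_disj nd' (l1 := r :: (C ++ [s])) (l2 := [p]) (by
        intro a
        simp only [List.count_cons, List.count_append, List.count_nil]
        omega) p (by simpa using this) (by simp)
    · have := k33_mem_pe h m2
      exact k33_disj nd' (l1 := s :: (D ++ [p])) (l2 := r :: P) (by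
        intro a
        simp only [List.count_cons, List.count_append, List.count_nil]
        omega) y (by simpa using this) (by simpa using hy')
  have n2 : ¬ S.In {f} s(q, z) := by
    rintro ⟨g, hg, hgy⟩
    rw [Finset.mem_singleton] at hg
    subst hg
    rw [key] at hgy
    have m1 : q ∈ s(q, z) := Sym2.mem_mk_left _ _
    have m2 : z ∈ s(q, z) := Sym2.mem_mk_right _ _
    rcases hgy with h | h | h | h
    · have := k33_mem_pe h m2
      exact k33_disj nd' (l1 := p :: (A ++ [q])) (l2 := s :: Q) (by
        intro a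
        simp only [List.count_cons, List.count_append, List.count_nil]
        omega) z (by simpa using this) (by simpa using hz')
    · have := k33_mem_pe h m2
      exact k33_disj nd' (l1 := q :: (B ++ [r])) (l2 := s :: Q) (by
        intro a
        simp only [List.count_cons, List.count_append, List.count_nil]
        omega) z (by simpa using this) (by simpa using hz')
    · have := k33_mem_pe h m1
      exact k33_disj nd' (l1 := r :: (C ++ [s])) (l2 := [q]) (by
        intro a
        simp only [List.count_cons, List.count_append, List.count_nil]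
        omega) q (by simpa using this) (by simp)
    · have := k33_mem_pe h m1
      exact k33_disj nd' (l1 := s :: (D ++ [p])) (l2 := [q]) (by
        intro a
        simp only [List.count_cons, List.count_append, List.count_nil]
        omega) q (by simpa using this) (by simp)
  exact hx (iff_of_false n1 n2)

end Pool.Agent.E8B
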