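import Pool.Agent.E8B.RotB

set_option autoImplicit false

namespace Pool.Agent.E8B

open Finset

universe u

/-- The faces of a rotation system with Euler's formula: `F := R.Face`, `B := R.bd`, and the lemmas
of `RotA.lean`, `RotB.lean`. (`R.Face` is finite as a quotient of the darts.) -/
theorem faceStruct_of_rotation {V : Type u} [Fintype V] [DecidableEq V] (G : SimpleGraph V)
    [DecidableRel G.Adj] (hc : G.Connected) (R : Rotation G)
    (he : Nat.card V + Nat.card R.Face = Nat.card G.edgeSet + 2) : Nonempty (FaceStruct G) := by
  classical
  have hfin : Finite R.Face := by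
    unfold Rotation.Face
    infer_instance
  let _ : Fintype R.Face := Fintype.ofFinite _
  have hsub : ∀ f, R.bd f ⊆ G.edgeFinset := fun f => by
    unfold Rotation.bd
    exact Finset.filter_subset _ _
  have heul : Fintype.card V + Fintype.card R.Face = G.edgeFinset.card + 2 := by
    rw [Nat.card_eq_fintype_card, Nat.card_eq_fintype_card, Nat.card_eq_fintype_card] at he
    rw [SimpleGraph.edgeFinset_card]
    convert he
  have hk : ∀ T : Finset R.Face, (∀ e, Even (T.filter (e ∈ R.bd ·)).card) → T = ∅ ∨ T = univ :=
    fun T h => Rotation.kernel_bd hc R T h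
  exact ⟨{
    F := R.Face
    B := R.bd
    sub := hsub
    even := R.even_bd
    two := R.two_bd
    span := fun Z hZ hev => span_of_kernel hc R.bd hsub R.even_bd hk heul hZ hev
    kernel := hk
    euler := heul }⟩

end Pool.Agent.E8B
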