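import Pool.Agent.E8B.Flood

set_option autoImplicit false

namespace Pool.Agent.E8B

open Finset

universe u

variable {V : Type u} {β : Type*} [Fintype V] [DecidableEq V] {G : SimpleGraph V}
  [DecidableRel G.Adj] {L : V → Finset β}

/-- the third neighbour -/
private lemma StartC_third {x a b : V} (hx : (G.neighborFinset x).card = 3) (ha : G.Adj x a)
    (hb : G.Adj x b) (hab : a ≠ b) :
    ∃ d, G.neighborFinset x = {a, b, d} ∧ d ≠ a ∧ d ≠ b := by
  have h1 : ({a, b} : Finset V) ⊆ G.neighborFinset x := by
    intro y hy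
    rw [Finset.mem_insert, Finset.mem_singleton] at hy
    rw [SimpleGraph.mem_neighborFinset]
    rcases hy with rfl | rfl
    · exact ha
    · exact hb
  have h2 : (G.neighborFinset x \ {a, b}).card = 1 := by
    rw [Finset.card_sdiff_of_subset h1, hx, Finset.card_pair hab]
  obtain ⟨d, hd⟩ := Finset.card_eq_one.1 h2
  have h3 : d ∈ G.neighborFinset x \ {a, b} := by
    rw [hd]
    exact Finset.mem_singleton_self d
  rw [Finset.mem_sdiff, Finset.mem_insert, Finset.mem_singleton, not_or] at h3
  refine ⟨d, ?_, h3.2.1, h3.2.2⟩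
  ext y
  constructor
  · intro hy
    by_cases hy' : y ∈ ({a, b} : Finset V)
    · rw [Finset.mem_insert, Finset.mem_singleton] at hy'
      rcases hy' with rfl | rfl <;> simp
    · have : y ∈ G.neighborFinset x \ {a, b} := Finset.mem_sdiff.2 ⟨hy, hy'⟩
      rw [hd, Finset.mem_singleton] at this
      simp [this]
  · intro hy
    rw [Finset.mem_insert, Finset.mem_insert, Finset.mem_singleton] at hy
    rcases hy with rfl | rfl | rfl
    · exact h1 (by simp)
    · exact h1 (by simp)
    · exact h3.1

private lemma StartC_adj {x a b c y : V} (h : G.neighborFinset x = {a, b, c}) :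
    G.Adj x y ↔ y = a ∨ y = b ∨ y = c := by
  rw [← SimpleGraph.mem_neighborFinset, h, Finset.mem_insert, Finset.mem_insert,
    Finset.mem_singleton]

private lemma StartC_le_two {D : Finset V} {x y : V} (hcub : (G.neighborFinset x).card = 3)
    (hxy : G.Adj x y) (hy : y ∉ D) : (G.neighborFinset x ∩ D).card ≤ 2 := by
  have h1 : G.neighborFinset x ∩ D ⊆ (G.neighborFinset x).erase y := by
    intro w hw
    rw [Finset.mem_inter] at hw
    rw [Finset.mem_erase]
    refine ⟨?_, hw.1⟩
    rintro rfl
    exact hy hw.2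
  have h2 : y ∈ G.neighborFinset x := (SimpleGraph.mem_neighborFinset _ _ _).2 hxy
  have h3 := Finset.card_le_card h1
  rw [Finset.card_erase_of_mem h2, hcub] at h3
  exact h3

private lemma StartC_sub_one {D : Finset V} {x a b c : V} (h : G.neighborFinset x = {a, b, c})
    (ha : a ∉ D) (hb : b ∉ D) (v : V) : G.neighborFinset x ∩ D ⊆ insert v {c} := by
  intro w hw
  rw [Finset.mem_inter, h, Finset.mem_insert, Finset.mem_insert, Finset.mem_singleton] at hw
  rw [Finset.mem_insert, Finset.mem_singleton]
  rcases hw.1 with rfl | rfl | rfl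
  · exact absurd hw.2 ha
  · exact absurd hw.2 hb
  · exact Or.inr rfl

private lemma StartC_sub_two {D : Finset V} {x a b c : V} (h : G.neighborFinset x = {a, b, c})
    (_ha : a ∉ D) : G.neighborFinset x ∩ D ⊆ insert a {b, c} := by
  intro w hw
  rw [Finset.mem_inter, h] at hw
  exact hw.1

private lemma StartC_same (hcub : ∀ x, (G.neighborFinset x).card = 3) (hL : ∀ x, 5 ≤ (L x).card)
    (hK : NoK33 G) (hc : G.Connected) (hT : ∀ a b c, G.Adj a b → G.Adj b c → ¬ G.Adj c a)
    {h1 h2 h3 h4 d2 d4 t t' : V} (n13 : h1 ≠ h3)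
    (N1 : G.neighborFinset h1 = {h2, h4, t}) (N2 : G.neighborFinset h2 = {h1, h3, d2})
    (N3 : G.neighborFinset h3 = {h2, h4, t}) (N4 : G.neighborFinset h4 = {h1, h3, d4})
    (Nt : G.neighborFinset t = {h1, h3, t'}) : Good G L univ ∅ := by
  have A1 := fun y => StartC_adj (y := y) N1
  have A2 := fun y => StartC_adj (y := y) N2
  have A3 := fun y => StartC_adj (y := y) N3
  have A4 := fun y => StartC_adj (y := y) N4
  have At := fun y => StartC_adj (y := y) Nt
  have a12 : G.Adj h1 h2 := (A1 _).2 (Or.inl rfl)
  have a14 : G.Adj h1 h4 := (A1 _).2 (Or.inr (Or.inl rfl))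
  have a1t : G.Adj h1 t := (A1 _).2 (Or.inr (Or.inr rfl))
  have a32 : G.Adj h3 h2 := (A3 _).2 (Or.inl rfl)
  have a34 : G.Adj h3 h4 := (A3 _).2 (Or.inr (Or.inl rfl))
  have a3t : G.Adj h3 t := (A3 _).2 (Or.inr (Or.inr rfl))
  have att : G.Adj t t' := (At _).2 (Or.inr (Or.inr rfl))
  have n24 : ¬ G.Adj h2 h4 := fun h => hT _ _ _ a12 h a14.symm
  have n2t : ¬ G.Adj h2 t := fun h => hT _ _ _ a12 h a1t.symm
  have n4t : ¬ G.Adj h4 t := fun h => hT _ _ _ a14 h a1t.symm
  have n1t' : h1 ≠ t' := by
    rintro rfl
    have := hcub t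
    rw [Nt] at this
    have h' : ({h1, h3, h1} : Finset V).card ≤ 2 := by
      have : ({h1, h3, h1} : Finset V) = {h1, h3} := by
        ext y
        simp only [Finset.mem_insert, Finset.mem_singleton]
        tauto
      rw [this]
      exact Finset.card_le_two
    omega
  have n3t' : h3 ≠ t' := by
    rintro rfl
    have := hcub t
    rw [Nt] at this
    have h' : ({h1, h3, h3} : Finset V).card ≤ 2 := by
      have : ({h1, h3, h3} : Finset V) = {h1, h3} := by
        ext y
        simp only [Finset.mem_insert, Finset.mem_singleton]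
        tauto
      rw [this]
      exact Finset.card_le_two
    omega
  have n2t' : h2 ≠ t' := by
    rintro rfl
    exact n2t att.symm
  have n4t' : h4 ≠ t' := by
    rintro rfl
    exact n4t att.symm
  have e12 := a12.ne
  have e14 := a14.ne
  have e1t := a1t.ne
  have e32 := a32.ne
  have e34 := a34.ne
  have e3t := a3t.ne
  have ett := att.ne
  have e2t : h2 ≠ t := by
    rintro rfl
    have := hcub h1
    rw [N1] at this
    have h' : ({h2, h4, h2} : Finset V).card ≤ 2 := by
      have : ({h2, h4, h2} : Finset V) = {h2, h4} := by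
        ext y
        simp only [Finset.mem_insert, Finset.mem_singleton]
        tauto
      rw [this]
      exact Finset.card_le_two
    omega
  have e4t : h4 ≠ t := by
    rintro rfl
    have := hcub h1
    rw [N1] at this
    have h' : ({h2, h4, h4} : Finset V).card ≤ 2 := by
      have : ({h2, h4, h4} : Finset V) = {h2, h4} := by
        ext y
        simp only [Finset.mem_insert, Finset.mem_singleton]
        tauto
      rw [this]
      exact Finset.card_le_two
    omega
  set D : Finset V := univ \ {h2, h4, t, h3, h1} with hD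
  have memD : ∀ w, w ∈ D ↔ w ≠ h2 ∧ w ≠ h4 ∧ w ≠ t ∧ w ≠ h3 ∧ w ≠ h1 := by
    intro w
    simp [hD]
  have D2 : h2 ∉ D := fun h => ((memD _).1 h).1 rfl
  have D4 : h4 ∉ D := fun h => ((memD _).1 h).2.1 rfl
  have Dt : t ∉ D := fun h => ((memD _).1 h).2.2.1 rfl
  have D3 : h3 ∉ D := fun h => ((memD _).1 h).2.2.2.1 rfl
  have D1 : h1 ∉ D := fun h => ((memD _).1 h).2.2.2.2 rfl
  have Dt' : t' ∈ D := (memD _).2 ⟨n2t'.symm, n4t'.symm, ett.symm, n3t'.symm, n1t'.symm⟩
  have st : St G D {h2, h4} := by
    refine ⟨?_, ?_, ?_⟩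
    · rw [Finset.disjoint_left]
      intro w hw hw'
      rw [Finset.mem_insert, Finset.mem_singleton] at hw'
      rcases hw' with rfl | rfl
      · exact D2 hw
      · exact D4 hw
    · intro x hx y hy
      rw [Finset.mem_insert, Finset.mem_singleton] at hx hy
      rcases hx with rfl | rfl <;> rcases hy with rfl | rfl
      · exact G.loopless.irrefl _
      · exact n24
      · exact fun h => n24 h.symm
      · exact G.loopless.irrefl _
    · intro w hw
      have hw' : w = h2 ∨ w = h4 ∨ w = t ∨ w = h3 ∨ w = h1 := by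
        by_contra hcon
        push Not at hcon
        exact hw ((memD _).2 hcon)
      rcases hw' with rfl | rfl | rfl | rfl | rfl
      · exact StartC_le_two (hcub _) a12.symm D1
      · exact StartC_le_two (hcub _) a14.symm D1
      · exact StartC_le_two (hcub _) a1t.symm D1
      · exact StartC_le_two (hcub _) a3t Dt
      · exact StartC_le_two (hcub _) a1t Dt
  have g0 : Good G L D {h2, h4} :=
    flood (fun x => (hcub x).le) hL hK hc D _ st (by
      intro h
      exact D1 (h ▸ Finset.mem_univ _))
  have g1 : Good G L (insert h1 D) {h2, h4} := by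
    apply peel (Finset.mem_insert_self _ _) (hL h1)
    · rw [Finset.erase_insert D1]
      exact g0
    · rw [Finset.erase_insert D1]
      intro I _ _
      refine ⟨{d2} ∪ {d4} ∪ {t'}, ?_, ?_⟩
      · refine (Finset.card_union_le _ _).trans ?_
        have := Finset.card_union_le ({d2} : Finset V) {d4}
        simp only [Finset.card_singleton] at this ⊢
        omega
      · apply nr_of_cov (a := h2) (b := h4) (c := t) N1.subset
        · exact cov_out D2 (StartC_sub_one N2 D1 D3 _)
        · exact cov_out D4 (StartC_sub_one N4 D1 D3 _)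
        · exact cov_out Dt (StartC_sub_one Nt D1 D3 _)
  have D31 : h3 ∉ insert h1 D := by
    rw [Finset.mem_insert, not_or]
    exact ⟨n13.symm, D3⟩
  have D21 : h2 ∉ insert h1 D := by
    rw [Finset.mem_insert, not_or]
    exact ⟨e12.symm, D2⟩
  have D41 : h4 ∉ insert h1 D := by
    rw [Finset.mem_insert, not_or]
    exact ⟨e14.symm, D4⟩
  have Dt1 : t ∉ insert h1 D := by
    rw [Finset.mem_insert, not_or]
    exact ⟨e1t.symm, Dt⟩
  have g2 : Good G L (insert h3 (insert h1 D)) {h2, h4} := by
    apply peel (Finset.mem_insert_self _ _) (hL h3)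
    · rw [Finset.erase_insert D31]
      exact g1
    · rw [Finset.erase_insert D31]
      intro I _ _
      refine ⟨{h1, d2} ∪ {h1, d4} ∪ {h1, t'}, ?_, ?_⟩
      · have : ({h1, d2} ∪ {h1, d4} ∪ {h1, t'} : Finset V) ⊆ {h1, d2, d4, t'} := by
          intro y hy
          simp only [Finset.mem_union, Finset.mem_insert, Finset.mem_singleton] at hy ⊢
          tauto
        exact (Finset.card_le_card this).trans Finset.card_le_four
      · apply nr_of_cov (a := h2) (b := h4) (c := t) N3.subset
        · apply cov_out D21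
          have := StartC_sub_two (D := insert h1 D) (x := h2) (a := h3) (b := h1) (c := d2)
            (by rw [N2]; ext y; simp only [Finset.mem_insert, Finset.mem_singleton]; tauto) D31
          exact this
        · apply cov_out D41
          have := StartC_sub_two (D := insert h1 D) (x := h4) (a := h3) (b := h1) (c := d4)
            (by rw [N4]; ext y; simp only [Finset.mem_insert, Finset.mem_singleton]; tauto) D31
          exact this
        · apply cov_out Dt1
          have := StartC_sub_two (D := insert h1 D) (x := t) (a := h3) (b := h1) (c := t')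
            (by rw [Nt]; ext y; simp only [Finset.mem_insert, Finset.mem_singleton]; tauto) D31
          exact this
  have D231 : h2 ∉ insert h3 (insert h1 D) := by
    rw [Finset.mem_insert, not_or]
    exact ⟨e32.symm, D21⟩
  have D431 : h4 ∉ insert h3 (insert h1 D) := by
    rw [Finset.mem_insert, not_or]
    exact ⟨e34.symm, D41⟩
  have Dt31 : t ∉ insert h3 (insert h1 D) := by
    rw [Finset.mem_insert, not_or]
    exact ⟨e3t.symm, Dt1⟩
  have hdis : Disjoint (insert h3 (insert h1 D)) ({h2, h4} : Finset V) := by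
    rw [Finset.disjoint_left]
    intro w hw hw'
    rw [Finset.mem_insert, Finset.mem_singleton] at hw'
    rcases hw' with rfl | rfl
    · exact D231 hw
    · exact D431 hw
  have g3 : Good G L (insert t (insert h3 (insert h1 D))) {h2, h4} := by
    apply peel (Finset.mem_insert_self _ _) (hL t)
    · rw [Finset.erase_insert Dt31]
      exact g2
    · rw [Finset.erase_insert Dt31]
      intro I hI _
      obtain ⟨S, hS, hS'⟩ := cov_two (x := t') (v := t) (hcub t').le hI hdis att Dt31
        (by
          rw [Finset.mem_insert, Finset.mem_singleton, not_or]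
          exact ⟨e2t.symm, e4t.symm⟩)
        (fun h => absurd (Finset.mem_insert_of_mem (Finset.mem_insert_of_mem Dt')) h)
      refine ⟨{h1} ∪ {h3} ∪ S, ?_, ?_⟩
      · refine (Finset.card_union_le _ _).trans ?_
        have := Finset.card_union_le ({h1} : Finset V) {h3}
        simp only [Finset.card_singleton] at this
        omega
      · apply nr_of_cov (a := h1) (b := h3) (c := t') Nt.subset
        · intro w hw _ hwt hw1
          rw [Finset.mem_singleton]
          rcases hw1 with h | h
          · exact h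
          · rcases (A1 _).1 h with rfl | rfl | rfl
            · exact absurd hw D231
            · exact absurd hw D431
            · exact absurd rfl hwt
        · intro w hw _ hwt hw1
          rw [Finset.mem_singleton]
          rcases hw1 with h | h
          · exact h
          · rcases (A3 _).1 h with rfl | rfl | rfl
            · exact absurd hw D231
            · exact absurd hw D431
            · exact absurd rfl hwt
        · exact hS'
  apply commit (J := {h2, h4}) (Finset.subset_univ _)
  rw [Finset.empty_union]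
  have : (univ \ {h2, h4} : Finset V) = insert t (insert h3 (insert h1 D)) := by
    ext w
    simp only [Finset.mem_sdiff, Finset.mem_univ, true_and, Finset.mem_insert,
      Finset.mem_singleton, memD]
    constructor
    · intro h
      tauto
    · rintro (rfl | rfl | rfl | h)
      · exact fun h => h.elim (fun h => e2t h.symm) (fun h => e4t h.symm)
      · exact fun h => h.elim e32 e34
      · exact fun h => h.elim e12 e14
      · exact fun h' => h'.elim h.1 h.2.1
  rw [this]
  exact g3

private lemma StartC_diff (hcub : ∀ x, (G.neighborFinset x).card = 3) (hL : ∀ x, 5 ≤ (L x).card)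
    (hK : NoK33 G) (hc : G.Connected) (hT : ∀ a b c, G.Adj a b → G.Adj b c → ¬ G.Adj c a)
    {h1 h2 h3 h4 d1 d2 d3 d4 : V} (n13 : h1 ≠ h3) (n24' : h2 ≠ h4)
    (N1 : G.neighborFinset h1 = {h2, h4, d1}) (N2 : G.neighborFinset h2 = {h1, h3, d2})
    (N3 : G.neighborFinset h3 = {h2, h4, d3}) (N4 : G.neighborFinset h4 = {h1, h3, d4})
    (n12 : d1 ≠ h2) (n14 : d1 ≠ h4) (hne : d1 ≠ d3) : Good G L univ ∅ := by
  have A1 := fun y => StartC_adj (y := y) N1
  have A2 := fun y => StartC_adj (y := y) N2
  have A3 := fun y => StartC_adj (y := y) N3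
  have A4 := fun y => StartC_adj (y := y) N4
  have a12 : G.Adj h1 h2 := (A1 _).2 (Or.inl rfl)
  have a14 : G.Adj h1 h4 := (A1 _).2 (Or.inr (Or.inl rfl))
  have a1d : G.Adj h1 d1 := (A1 _).2 (Or.inr (Or.inr rfl))
  have a32 : G.Adj h3 h2 := (A3 _).2 (Or.inl rfl)
  have a34 : G.Adj h3 h4 := (A3 _).2 (Or.inr (Or.inl rfl))
  have a3d : G.Adj h3 d3 := (A3 _).2 (Or.inr (Or.inr rfl))
  have n24 : ¬ G.Adj h2 h4 := fun h => hT _ _ _ a12 h a14.symm
  have nd13 : ¬ G.Adj d1 h3 := by
    intro h
    rcases (A3 _).1 h.symm with h' | h' | h'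
    · exact n12 h'
    · exact n14 h'
    · exact hne h'
  have e12 := a12.ne
  have e14 := a14.ne
  have e1d := a1d.ne
  have e32 := a32.ne
  have e34 := a34.ne
  have edh3 : d1 ≠ h3 := by
    rintro rfl
    exact hT _ _ _ a12 a32.symm a1d.symm
  set P : Finset V := G.neighborFinset d1 \ {h1, d2, d4} with hP
  have memP : ∀ w, w ∈ P ↔ G.Adj d1 w ∧ w ≠ h1 ∧ w ≠ d2 ∧ w ≠ d4 := by
    intro w
    simp [hP]
  set W : Finset V := {h2, h4} ∪ P with hW
  have memW : ∀ w, w ∈ W ↔ (w = h2 ∨ w = h4) ∨ w ∈ P := by
    intro w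
    rw [hW, Finset.mem_union, Finset.mem_insert, Finset.mem_singleton]
  set D : Finset V := univ \ (W ∪ {h1, d1, h3}) with hD
  have memD : ∀ w, w ∈ D ↔ w ∉ W ∧ w ≠ h1 ∧ w ≠ d1 ∧ w ≠ h3 := by
    intro w
    rw [hD, Finset.mem_sdiff, Finset.mem_union, Finset.mem_insert, Finset.mem_insert,
      Finset.mem_singleton]
    have := Finset.mem_univ w
    tauto
  have W2 : h2 ∈ W := (memW _).2 (Or.inl (Or.inl rfl))
  have W4 : h4 ∈ W := (memW _).2 (Or.inl (Or.inr rfl))
  have W1 : h1 ∉ W := by
    intro h
    rcases (memW _).1 h with (h' | h') | h'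
    · exact e12 h'
    · exact e14 h'
    · exact ((memP _).1 h').2.1 rfl
  have W3 : h3 ∉ W := by
    intro h
    rcases (memW _).1 h with (h' | h') | h'
    · exact e32 h'
    · exact e34 h'
    · exact nd13 ((memP _).1 h').1
  have Wd : d1 ∉ W := by
    intro h
    rcases (memW _).1 h with (h' | h') | h'
    · exact n12 h'
    · exact n14 h'
    · exact ((memP _).1 h').1.ne rfl
  have DW : ∀ w ∈ W, w ∉ D := fun w hw h => ((memD _).1 h).1 hw
  have D1 : h1 ∉ D := fun h => ((memD _).1 h).2.1 rfl
  have Dd : d1 ∉ D := fun h => ((memD _).1 h).2.2.1 rfl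
  have D3 : h3 ∉ D := fun h => ((memD _).1 h).2.2.2 rfl
  have D2 := DW _ W2
  have D4 := DW _ W4
  have indP : ∀ x ∈ P, ∀ y ∈ P, ¬ G.Adj x y := fun x hx y hy h =>
    hT _ _ _ ((memP _).1 hx).1 h ((memP _).1 hy).1.symm
  have indP2 : ∀ x ∈ P, ¬ G.Adj h2 x := by
    intro x hx h
    obtain ⟨q1, q2, q3, q4⟩ := (memP _).1 hx
    rcases (A2 _).1 h with h' | h' | h'
    · exact q2 h'
    · exact nd13 (h' ▸ q1)
    · exact q3 h'
  have indP4 : ∀ x ∈ P, ¬ G.Adj h4 x := by
    intro x hx h
    obtain ⟨q1, q2, q3, q4⟩ := (memP _).1 hx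
    rcases (A4 _).1 h with h' | h' | h'
    · exact q2 h'
    · exact nd13 (h' ▸ q1)
    · exact q4 h'
  have inv0 : ∀ w, w ∉ D → (G.neighborFinset w ∩ D).card ≤ 2 := by
    intro w hw
    have hw' : (w = h2 ∨ w = h4) ∨ w ∈ P ∨ w = h1 ∨ w = d1 ∨ w = h3 := by
      by_contra hcon
      push Not at hcon
      apply hw
      refine (memD _).2 ⟨?_, hcon.2.2.1, hcon.2.2.2.1, hcon.2.2.2.2⟩
      intro h
      rcases (memW _).1 h with (h' | h') | h'
      · exact hcon.1.1 h'
      · exact hcon.1.2 h'
      · exact hcon.2.1 h'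
    rcases hw' with (rfl | rfl) | hw' | rfl | rfl | rfl
    · exact StartC_le_two (hcub _) a12.symm D1
    · exact StartC_le_two (hcub _) a14.symm D1
    · exact StartC_le_two (hcub _) ((memP _).1 hw').1.symm Dd
    · exact StartC_le_two (hcub _) a12 D2
    · exact StartC_le_two (hcub _) a1d.symm D1
    · exact StartC_le_two (hcub _) a32 D2
  have st : St G D W := by
    refine ⟨?_, ?_, inv0⟩
    · rw [Finset.disjoint_left]
      intro w hw hw'
      exact DW w hw' hw
    · intro x hx y hy
      rcases (memW _).1 hx with (rfl | rfl) | hx' <;> rcases (memW _).1 hy with (rfl | rfl) | hy'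
      · exact G.loopless.irrefl _
      · exact n24
      · exact indP2 _ hy'
      · exact fun h => n24 h.symm
      · exact G.loopless.irrefl _
      · exact indP4 _ hy'
      · exact fun h => indP2 _ hx' h.symm
      · exact fun h => indP4 _ hx' h.symm
      · exact indP _ hx' _ hy'
  have g0 : Good G L D W :=
    flood (fun x => (hcub x).le) hL hK hc D _ st (by
      intro h
      exact D1 (h ▸ Finset.mem_univ _))
  -- peel h3
  have g1 : Good G L (insert h3 D) W := by
    apply peel (Finset.mem_insert_self _ _) (hL h3)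
    · rw [Finset.erase_insert D3]
      exact g0
    · rw [Finset.erase_insert D3]
      intro I hI _
      obtain ⟨S, hS, hS'⟩ := cov_two (x := d3) (v := h3) (hcub d3).le hI st.disj a3d D3 W3
        (fun h => inv0 _ h)
      refine ⟨{d2} ∪ {d4} ∪ S, ?_, ?_⟩
      · refine (Finset.card_union_le _ _).trans ?_
        have := Finset.card_union_le ({d2} : Finset V) {d4}
        simp only [Finset.card_singleton] at this
        omega
      · apply nr_of_cov (a := h2) (b := h4) (c := d3) N3.subset
        · exact cov_out D2 (StartC_sub_one N2 D1 D3 _)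
        · exact cov_out D4 (StartC_sub_one N4 D1 D3 _)
        · exact hS'
  have Dd3 : d1 ∉ insert h3 D := by
    rw [Finset.mem_insert, not_or]
    exact ⟨edh3, Dd⟩
  have D13 : h1 ∉ insert h3 D := by
    rw [Finset.mem_insert, not_or]
    exact ⟨n13, D1⟩
  have DW3 : ∀ w ∈ W, w ∉ insert h3 D := by
    intro w hw
    rw [Finset.mem_insert, not_or]
    refine ⟨?_, DW w hw⟩
    rintro rfl
    exact W3 hw
  have hdis3 : Disjoint (insert h3 D) W := by
    rw [Finset.disjoint_left]
    intro w hw hw'
    exact DW3 w hw' hw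
  -- peel d1
  have g2 : Good G L (insert d1 (insert h3 D)) W := by
    apply peel (Finset.mem_insert_self _ _) (hL d1)
    · rw [Finset.erase_insert Dd3]
      exact g1
    · rw [Finset.erase_insert Dd3]
      intro I hI _
      have hmem : h1 ∈ G.neighborFinset d1 := (SimpleGraph.mem_neighborFinset _ _ _).2 a1d.symm
      have hcard : ((G.neighborFinset d1).erase h1).card = 2 := by
        rw [Finset.card_erase_of_mem hmem, hcub]
      obtain ⟨e, f, _, hef⟩ := Finset.card_eq_two.1 hcard
      have ade : G.Adj d1 e := by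
        have : e ∈ (G.neighborFinset d1).erase h1 := by
          rw [hef]
          exact Finset.mem_insert_self _ _
        exact (SimpleGraph.mem_neighborFinset _ _ _).1 (Finset.mem_erase.1 this).2
      have adf : G.Adj d1 f := by
        have : f ∈ (G.neighborFinset d1).erase h1 := by
          rw [hef]
          exact Finset.mem_insert_of_mem (Finset.mem_singleton_self _)
        exact (SimpleGraph.mem_neighborFinset _ _ _).1 (Finset.mem_erase.1 this).2
      have hN : G.neighborFinset d1 ⊆ {h1, e, f} := by
        intro w hw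
        rw [Finset.mem_insert]
        by_cases h : w = h1
        · exact Or.inl h
        · right
          rw [← hef, Finset.mem_erase]
          exact ⟨h, hw⟩
      obtain ⟨S, hS, hS'⟩ := cov_two (x := e) (v := d1) (hcub e).le hI hdis3 ade Dd3 Wd
        (fun _ => StartC_le_two (hcub _) ade.symm Dd3)
      obtain ⟨S2, hS2, hS2'⟩ := cov_two (x := f) (v := d1) (hcub f).le hI hdis3 adf Dd3 Wd
        (fun _ => StartC_le_two (hcub _) adf.symm Dd3)
      refine ⟨∅ ∪ S ∪ S2, ?_, ?_⟩
      · refine (Finset.card_union_le _ _).trans ?_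
        rw [Finset.empty_union]
        omega
      · apply nr_of_cov (a := h1) (b := e) (c := f) hN
        · apply cov_out D13
          intro w hw
          rw [Finset.mem_inter, N1, Finset.mem_insert, Finset.mem_insert,
            Finset.mem_singleton] at hw
          rcases hw with ⟨rfl | rfl | rfl, hw2⟩
          · exact absurd hw2 (DW3 _ W2)
          · exact absurd hw2 (DW3 _ W4)
          · exact absurd hw2 Dd3
        · exact hS'
        · exact hS2'
  have D1d3 : h1 ∉ insert d1 (insert h3 D) := by
    rw [Finset.mem_insert, not_or]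
    exact ⟨e1d, D13⟩
  have DWd3 : ∀ w ∈ W, w ∉ insert d1 (insert h3 D) := by
    intro w hw
    rw [Finset.mem_insert, not_or]
    refine ⟨?_, DW3 w hw⟩
    rintro rfl
    exact Wd hw
  -- peel h1
  have g3 : Good G L (insert h1 (insert d1 (insert h3 D))) W := by
    apply peel (Finset.mem_insert_self _ _) (hL h1)
    · rw [Finset.erase_insert D1d3]
      exact g2
    · rw [Finset.erase_insert D1d3]
      intro I hI _
      refine ⟨{h3, d2} ∪ {h3, d4} ∪ {d1, d2, d4}, ?_, ?_⟩
      · have : ({h3, d2} ∪ {h3, d4} ∪ {d1, d2, d4} : Finset V) ⊆ {h3, d1, d2, d4} := by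
          intro y hy
          simp only [Finset.mem_union, Finset.mem_insert, Finset.mem_singleton] at hy ⊢
          tauto
        exact (Finset.card_le_card this).trans Finset.card_le_four
      · apply nr_of_cov (a := h2) (b := h4) (c := d1) N1.subset
        · apply cov_out (DWd3 _ W2)
          exact StartC_sub_two N2 D1d3
        · apply cov_out (DWd3 _ W4)
          exact StartC_sub_two N4 D1d3
        · intro w hw _ hw1 hw2
          rw [Finset.mem_insert, Finset.mem_insert, Finset.mem_singleton]
          rcases hw2 with h | h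
          · exact Or.inl h
          · by_cases q2 : w = d2
            · exact Or.inr (Or.inl q2)
            by_cases q4 : w = d4
            · exact Or.inr (Or.inr q4)
            exfalso
            have : w ∈ P := (memP _).2 ⟨h, hw1, q2, q4⟩
            exact DWd3 w ((memW _).2 (Or.inr this)) hw
  apply commit (J := W) (Finset.subset_univ _)
  rw [Finset.empty_union]
  have : (univ \ W : Finset V) = insert h1 (insert d1 (insert h3 D)) := by
    ext w
    rw [Finset.mem_sdiff, Finset.mem_insert, Finset.mem_insert, Finset.mem_insert, memD]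
    constructor
    · intro h
      by_cases q1 : w = h1
      · exact Or.inl q1
      by_cases q2 : w = d1
      · exact Or.inr (Or.inl q2)
      by_cases q3 : w = h3
      · exact Or.inr (Or.inr (Or.inl q3))
      exact Or.inr (Or.inr (Or.inr ⟨h.2, q1, q2, q3⟩))
    · rintro (rfl | rfl | rfl | h)
      · exact ⟨Finset.mem_univ _, W1⟩
      · exact ⟨Finset.mem_univ _, Wd⟩
      · exact ⟨Finset.mem_univ _, W3⟩
      · exact ⟨Finset.mem_univ _, h.1⟩
  rw [this]
  exact g3

/-- A cycle `h1, h2, h3, h4` in a cubic graph without triangles; `di` is the third neighbour of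
`hi`.
Case `d1 = d3 = t`: `W = {h2, h4}`, `D = univ \ {h2, h4, t, h3, h1}`; `flood`, then
`peel h1` (`D' = D`: `h2` contributes at most `d2`, `h4` at most `d4`, `t` at most `t'`), then
`peel h3` (`D' = D ∪ {h1}`: `{h1, d2}`, `{h1, d4}`, `{h1, t'}`: four), then
`peel t` (`D' = D ∪ {h1, h3}`: `h1` contributes `h1` only, `h3` only `h3`, `t'` at most two), then
`commit`.
Case `d1 ≠ d3`: `P` = the neighbours of `d1` different from `h1, d2, d4` (at most two, they are not
adjacent to each other and not adjacent to `h2, h4`, as `N(h2) = {h1, h3, d2}`):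
`W = {h2, h4} ∪ P`, `D = univ \ (W ∪ {h1, d1, h3})`; `flood`, then
`peel h3` (`D' = D`: `h2` contributes at most `d2`, `h4` at most `d4`, `d3` at most two by
`cov_two`), then
`peel d1` (`D' = D ∪ {h3}`: `h1` contributes nothing, the two other neighbours at most two each),
then `peel h1` (`D' = D ∪ {h3, d1}`: `h2` contributes `{h3, d2}`, `h4` contributes `{h3, d4}`, `d1`
contributes `d1` and its neighbours outside `P ∪ {h1}`, which are among `d2, d4`: together
`{h3, d2, d4, d1}`), then `commit`. -/
theorem start_c4 (hcub : ∀ x, (G.neighborFinset x).card = 3) (hL : ∀ x, 5 ≤ (L x).card)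
    (hK : NoK33 G) (hc : G.Connected) (hT : ∀ a b c, G.Adj a b → G.Adj b c → ¬ G.Adj c a)
    {h1 h2 h3 h4 : V} (a12 : G.Adj h1 h2) (a23 : G.Adj h2 h3) (a34 : G.Adj h3 h4)
    (a41 : G.Adj h4 h1) (n13 : h1 ≠ h3) (n24 : h2 ≠ h4) : Good G L univ ∅ := by
  obtain ⟨d1, N1, n12, n14⟩ := StartC_third (hcub h1) a12 a41.symm n24
  obtain ⟨d2, N2, _, _⟩ := StartC_third (hcub h2) a12.symm a23 n13
  obtain ⟨d3, N3, _, _⟩ := StartC_third (hcub h3) a23.symm a34 n24
  obtain ⟨d4, N4, _, _⟩ := StartC_third (hcub h4) a41 a34.symm n13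
  by_cases h : d1 = d3
  · subst h
    have b1 : G.Adj d1 h1 := ((StartC_adj N1).2 (Or.inr (Or.inr rfl)) : G.Adj h1 d1).symm
    have b3 : G.Adj d1 h3 := ((StartC_adj N3).2 (Or.inr (Or.inr rfl)) : G.Adj h3 d1).symm
    obtain ⟨t', Nt, _, _⟩ := StartC_third (hcub d1) b1 b3 n13
    exact StartC_same hcub hL hK hc hT n13 N1 N2 N3 N4 Nt
  · exact StartC_diff hcub hL hK hc hT n13 n24 N1 N2 N3 N4 n12 n14 h

end Pool.Agent.E8B
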