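import Pool.Agent.E8B.Flood

set_option autoImplicit false

namespace Pool.Agent.E8B

open Finset

universe u

variable {V : Type u} {β : Type*} [Fintype V] [DecidableEq V] {G : SimpleGraph V}
  [DecidableRel G.Adj] {L : V → Finset β}

/-- At most five vertices. -/
private theorem StartT_small (hL : ∀ x, 5 ≤ (L x).card) {W : Finset V}
    (hW : ∀ x ∈ W, ∀ y ∈ W, ¬ G.Adj x y) :
    ∀ (n : ℕ) (D : Finset V), D.card = n → n ≤ 5 → Good G L D W := by
  intro n
  induction n with
  | zero =>
    intro D hD _
    rw [Finset.card_eq_zero] at hD
    subst hD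
    exact good_empty hW hL
  | succ n ih =>
    intro D hD hn
    obtain ⟨v, hv⟩ : D.Nonempty := by
      rw [← Finset.card_pos]
      omega
    have hc : (D.erase v).card = n := by
      rw [Finset.card_erase_of_mem hv, hD]
      rfl
    refine peel hv (hL v) (ih _ hc (by omega)) ?_
    intro I _ _
    refine ⟨D.erase v, by omega, ?_⟩
    intro w hw _ _
    exact hw

/-- The third neighbour. -/
private theorem StartT_third {a b c : V} (h : (G.neighborFinset a).card = 3) (hb : G.Adj a b)
    (hc : G.Adj a c) (hbc : b ≠ c) :
    ∃ d, G.neighborFinset a = {b, c, d} ∧ d ≠ b ∧ d ≠ c := by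
  have h1 : ({b, c} : Finset V) ⊆ G.neighborFinset a := by
    intro w hw
    rw [Finset.mem_insert, Finset.mem_singleton] at hw
    rw [SimpleGraph.mem_neighborFinset]
    rcases hw with rfl | rfl
    · exact hb
    · exact hc
  have h2 : (G.neighborFinset a \ {b, c}).card = 1 := by
    rw [Finset.card_sdiff_of_subset h1, h, Finset.card_pair hbc]
  obtain ⟨d, hd⟩ := Finset.card_eq_one.1 h2
  have hd' : d ∈ G.neighborFinset a \ {b, c} := by
    rw [hd]
    exact Finset.mem_singleton_self d
  rw [Finset.mem_sdiff, Finset.mem_insert, Finset.mem_singleton, not_or] at hd'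
  refine ⟨d, ?_, hd'.2.1, hd'.2.2⟩
  ext w
  constructor
  · intro hw
    by_cases h3 : w ∈ ({b, c} : Finset V)
    · rw [Finset.mem_insert, Finset.mem_singleton] at h3
      rcases h3 with rfl | rfl
      · simp
      · simp
    · have h4 : w ∈ G.neighborFinset a \ {b, c} := Finset.mem_sdiff.2 ⟨hw, h3⟩
      rw [hd, Finset.mem_singleton] at h4
      subst h4
      simp
  · intro hw
    simp only [Finset.mem_insert, Finset.mem_singleton] at hw
    rcases hw with rfl | rfl | rfl
    · exact h1 (by simp)
    · exact h1 (by simp)
    · exact hd'.1

private theorem StartT_adj {a b c d w : V} (h : G.neighborFinset a = {b, c, d}) :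
    G.Adj a w ↔ w = b ∨ w = c ∨ w = d := by
  rw [← SimpleGraph.mem_neighborFinset, h]
  simp

/-- The main case. -/
private theorem StartT_aux (hcub : ∀ x, (G.neighborFinset x).card = 3)
    (hL : ∀ x, 5 ≤ (L x).card)
    (hK : NoK33 G) (hc : G.Connected) {v x y v' x' y' : V}
    (hv : G.neighborFinset v = {x, y, v'}) (hx : G.neighborFinset x = {v, y, x'})
    (hy : G.neighborFinset y = {v, x, y'}) (hvx : v ≠ x) (hvy : v ≠ y) (hxy : x ≠ y)
    (h1 : v' ≠ x) (h2 : v' ≠ y) (h3 : x' ≠ v) (h4 : x' ≠ y) (h5 : y' ≠ v) (h6 : y' ≠ x)
    (hne : y' ≠ v') : Good G L univ ∅ := by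
  have av : ∀ w, G.Adj v w ↔ w = x ∨ w = y ∨ w = v' := fun w => StartT_adj hv
  have ax : ∀ w, G.Adj x w ↔ w = v ∨ w = y ∨ w = x' := fun w => StartT_adj hx
  have ay : ∀ w, G.Adj y w ↔ w = v ∨ w = x ∨ w = y' := fun w => StartT_adj hy
  have hyy' : y' ≠ y := by
    intro h
    have : G.Adj y y := (ay y).2 (Or.inr (Or.inr h.symm))
    exact G.loopless.irrefl _ this
  have hxx' : x' ≠ x := by
    intro h
    have : G.Adj x x := (ax x).2 (Or.inr (Or.inr h.symm))
    exact G.loopless.irrefl _ this
  have ayy' : G.Adj y y' := (ay y').2 (Or.inr (Or.inr rfl))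
  have axx' : G.Adj x x' := (ax x').2 (Or.inr (Or.inr rfl))
  have hvy' : ¬ G.Adj v y' := by
    rw [av]
    rintro (h | h | h)
    · exact h6 h
    · exact hyy' h
    · exact hne h
  have hind : ∀ a ∈ ({v, y'} : Finset V), ∀ b ∈ ({v, y'} : Finset V), ¬ G.Adj a b := by
    intro a ha b hb
    rw [Finset.mem_insert, Finset.mem_singleton] at ha hb
    rcases ha with rfl | rfl <;> rcases hb with rfl | rfl
    · exact G.loopless.irrefl _
    · exact hvy'
    · exact fun h => hvy' h.symm
    · exact G.loopless.irrefl _
  have n1 : ∀ w, (G.neighborFinset w).card ≤ 3 := fun w => (hcub w).le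
  -- neighbours outside a set containing one neighbour
  have two : ∀ (a b : V) (D : Finset V), G.Adj a b → b ∉ D →
      (G.neighborFinset a ∩ D).card ≤ 2 := by
    intro a b D hab hb
    have hs : G.neighborFinset a ∩ D ⊆ (G.neighborFinset a).erase b := by
      intro w hw
      rw [Finset.mem_inter] at hw
      rw [Finset.mem_erase]
      refine ⟨?_, hw.1⟩
      rintro rfl
      exact hb hw.2
    have h7 := Finset.card_le_card hs
    rw [Finset.card_erase_of_mem (by rw [SimpleGraph.mem_neighborFinset]; exact hab),
      hcub a] at h7
    exact h7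
  -- the state of the flood
  have st : St G (univ \ {v, y', x, y}) {v, y'} := by
    refine ⟨?_, hind, ?_⟩
    · rw [Finset.disjoint_left]
      intro a ha hb
      simp only [Finset.mem_sdiff, Finset.mem_univ, true_and, Finset.mem_insert,
        Finset.mem_singleton, not_or] at ha hb
      rcases hb with rfl | rfl
      · exact ha.1 rfl
      · exact ha.2.1 rfl
    · intro w hw
      simp only [Finset.mem_sdiff, Finset.mem_univ, true_and, Finset.mem_insert,
        Finset.mem_singleton, not_not] at hw
      rcases hw with rfl | rfl | rfl | rfl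
      · exact two _ x _ ((av x).2 (Or.inl rfl)) (by simp)
      · exact two _ y _ ayy'.symm (by simp)
      · exact two _ y _ ((ax y).2 (Or.inr (Or.inl rfl))) (by simp)
      · exact two _ x _ ((ay x).2 (Or.inr (Or.inl rfl))) (by simp)
  have g0 : Good G L (univ \ {v, y', x, y}) {v, y'} := by
    refine flood n1 hL hK hc _ _ st ?_
    intro h
    have : v ∈ (univ \ {v, y', x, y} : Finset V) := by
      rw [h]
      exact Finset.mem_univ v
    simp at this
  -- peel y
  have e1 : (univ \ {v, y', x} : Finset V).erase y = univ \ {v, y', x, y} := by
    ext w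
    simp only [Finset.mem_erase, Finset.mem_sdiff, Finset.mem_univ, true_and, Finset.mem_insert,
      Finset.mem_singleton, not_or]
    tauto
  have e2 : (univ \ {v, y'} : Finset V).erase x = univ \ {v, y', x} := by
    ext w
    simp only [Finset.mem_erase, Finset.mem_sdiff, Finset.mem_univ, true_and, Finset.mem_insert,
      Finset.mem_singleton, not_or]
    tauto
  have g1 : Good G L (univ \ {v, y', x}) {v, y'} := by
    refine peel (v := y) ?_ (hL y) (by rw [e1]; exact g0) ?_
    · simp only [Finset.mem_sdiff, Finset.mem_univ, true_and, Finset.mem_insert,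
        Finset.mem_singleton, not_or]
      exact ⟨hvy.symm, hyy'.symm, hxy.symm⟩
    · intro I _ _
      rw [e1]
      refine ⟨{v'} ∪ {x'} ∪ (G.neighborFinset y').erase y, ?_, ?_⟩
      · have c1 := Finset.card_union_le ({v'} ∪ {x'} : Finset V) ((G.neighborFinset y').erase y)
        have c2 := Finset.card_union_le ({v'} : Finset V) {x'}
        have c3 : ((G.neighborFinset y').erase y).card = 2 := by
          rw [Finset.card_erase_of_mem (by rw [SimpleGraph.mem_neighborFinset]; exact ayy'.symm),
            hcub y']
        rw [Finset.card_singleton, Finset.card_singleton] at c2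
        omega
      · refine nr_of_cov hy.le (cov_out ?_ ?_) (cov_out ?_ ?_) (cov_out ?_ ?_)
        · simp
        · intro w hw
          rw [Finset.mem_inter, hv] at hw
          simp only [Finset.mem_sdiff, Finset.mem_univ, true_and, Finset.mem_insert,
            Finset.mem_singleton, not_or] at hw ⊢
          tauto
        · simp
        · intro w hw
          rw [Finset.mem_inter, hx] at hw
          simp only [Finset.mem_sdiff, Finset.mem_univ, true_and, Finset.mem_insert,
            Finset.mem_singleton, not_or] at hw ⊢
          tauto
        · simp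
        · intro w hw
          rw [Finset.mem_inter] at hw
          rw [Finset.mem_insert, Finset.mem_erase]
          by_cases hwy : w = y
          · exact Or.inl hwy
          · exact Or.inr ⟨hwy, hw.1⟩
  -- peel x
  have g2 : Good G L (univ \ {v, y'}) {v, y'} := by
    refine peel (v := x) ?_ (hL x) (by rw [e2]; exact g1) ?_
    · simp only [Finset.mem_sdiff, Finset.mem_univ, true_and, Finset.mem_insert,
        Finset.mem_singleton, not_or]
      exact ⟨hvx.symm, h6.symm⟩
    · intro I hI _
      rw [e2] at hI ⊢
      have hdis : Disjoint (univ \ {v, y', x} : Finset V) {v, y'} := by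
        rw [Finset.disjoint_left]
        intro a ha hb
        simp only [Finset.mem_sdiff, Finset.mem_univ, true_and, Finset.mem_insert,
          Finset.mem_singleton, not_or] at ha hb
        rcases hb with rfl | rfl
        · exact ha.1 rfl
        · exact ha.2.1 rfl
      obtain ⟨S, hS, hcov⟩ := cov_two (n1 x') hI hdis axx' (by simp)
        (by
          simp only [Finset.mem_insert, Finset.mem_singleton, not_or]
          exact ⟨hvx.symm, h6.symm⟩)
        (fun _ => two _ x _ axx'.symm (by simp))
      refine ⟨{y, v'} ∪ {y} ∪ S, ?_, ?_⟩
      · have e3 : ({y, v'} ∪ {y} : Finset V) = {y, v'} := by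
          ext w
          simp only [Finset.mem_union, Finset.mem_insert, Finset.mem_singleton]
          tauto
        rw [e3]
        have c1 := Finset.card_union_le ({y, v'} : Finset V) S
        have c2 := Finset.card_le_two (a := y) (b := v')
        omega
      · refine nr_of_cov hx.le (cov_out ?_ ?_) ?_ hcov
        · simp
        · intro w hw
          rw [Finset.mem_inter, hv] at hw
          simp only [Finset.mem_insert, Finset.mem_singleton] at hw ⊢
          tauto
        · intro w hw _ hwx h
          simp only [Finset.mem_sdiff, Finset.mem_univ, true_and, Finset.mem_insert,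
            Finset.mem_singleton, not_or] at hw
          rcases h with h | h
          · simp [h]
          · rw [ay] at h
            rcases h with h | h | h
            · exact absurd h hw.1
            · exact absurd h hwx
            · exact absurd h hw.2.1
  refine commit (J := {v, y'}) (Finset.subset_univ _) ?_
  rw [Finset.empty_union]
  exact g2

/-- A triangle `v, x, y` in a cubic graph. Let `v', x', y'` be the third neighbours. If they are all
equal, then `{v, x, y, v'}` is closed under adjacency, so it is everything: commit `v` and peel the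
three other vertices (a set of at most three vertices remains each time). Otherwise two of them are
different, by symmetry `y' ≠ v'`: `W = {v, y'}`, `D = univ \ {v, y', x, y}`; `flood`, then `peel y`
(`v` contributes at most `v'`, `x` at most `x'`, `y'` at most its two other neighbours), then
`peel x` with `D' = D ∪ {y}` (`v` contributes at most `y, v'`, `y` only `y`, `x'` at most two:
together at most four), then `commit`. If the `D` of the flood is needed to be not `univ`: `v ∉ D`. -/
theorem start_tri (hcub : ∀ x, (G.neighborFinset x).card = 3) (hL : ∀ x, 5 ≤ (L x).card)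
    (hK : NoK33 G) (hc : G.Connected) {v x y : V} (h1 : G.Adj v x) (h2 : G.Adj x y)
    (h3 : G.Adj y v) : Good G L univ ∅ := by
  have hvx : v ≠ x := h1.ne
  have hxy : x ≠ y := h2.ne
  have hyv : y ≠ v := h3.ne
  obtain ⟨v', hv, v1, v2⟩ := StartT_third (hcub v) h1 h3.symm hxy
  obtain ⟨x', hx, x1, x2⟩ := StartT_third (hcub x) h1.symm h2 hyv.symm
  obtain ⟨y', hy, y1, y2⟩ := StartT_third (hcub y) h3 h2.symm hvx
  by_cases c1 : y' = v'
  · by_cases c2 : x' = v'
    · subst c1
      subst c2
      -- everything is {v, x, y, x'}
      have ax : G.Adj x x' := (StartT_adj hx).2 (Or.inr (Or.inr rfl))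
      have av : G.Adj v x' := (StartT_adj hv).2 (Or.inr (Or.inr rfl))
      have ay : G.Adj y x' := (StartT_adj hy).2 (Or.inr (Or.inr rfl))
      have hN : G.neighborFinset x' = {v, x, y} := by
        symm
        apply Finset.eq_of_subset_of_card_le
        · intro w hw
          simp only [Finset.mem_insert, Finset.mem_singleton] at hw
          rw [SimpleGraph.mem_neighborFinset]
          rcases hw with rfl | rfl | rfl
          · exact av.symm
          · exact ax.symm
          · exact ay.symm
        · rw [hcub x', Finset.card_eq_three.2 ⟨v, x, y, hvx, hyv.symm, hxy, rfl⟩]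
      have hcl : ∀ a ∈ ({v, x, y, x'} : Finset V), ∀ b, G.Adj a b →
          b ∈ ({v, x, y, x'} : Finset V) := by
        intro a ha b hab
        simp only [Finset.mem_insert, Finset.mem_singleton] at ha ⊢
        rcases ha with rfl | rfl | rfl | rfl
        · have := (StartT_adj hv).1 hab
          tauto
        · have := (StartT_adj hx).1 hab
          tauto
        · have := (StartT_adj hy).1 hab
          tauto
        · have := (StartT_adj hN).1 hab
          tauto
      have hall : ∀ w, w ∈ ({v, x, y, x'} : Finset V) := by
        intro w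
        obtain ⟨p⟩ := hc.preconnected v w
        have : ∀ (a b : V) (_ : G.Walk a b), a ∈ ({v, x, y, x'} : Finset V) →
            b ∈ ({v, x, y, x'} : Finset V) := by
          intro a b p
          induction p with
          | nil => exact id
          | cons h _ ih => exact fun ha => ih (hcl _ ha _ h)
        exact this v w p (by simp)
      have hcard : (univ : Finset V).card ≤ 5 := by
        have h5 : (univ : Finset V) ⊆ {v, x, y, x'} := fun w _ => hall w
        have h6 := Finset.card_le_card h5
        have h7 : ({v, x, y, x'} : Finset V).card ≤ 4 := Finset.card_le_four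
        omega
      exact StartT_small hL (by simp) _ univ rfl hcard
    · have hv' : G.neighborFinset v = {y, x, v'} := by
        rw [hv]
        exact Finset.insert_comm _ _ _
      exact StartT_aux hcub hL hK hc hv' hy hx hyv.symm hvx hxy.symm v2 v1 y1 y2 x1 x2 c2
  · exact StartT_aux hcub hL hK hc hv hx hy hvx hyv.symm hxy v1 v2 x1 x2 y1 y2 c1

end Pool.Agent.E8B
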