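import Pool.Agent.E8B.Start0
import Pool.Agent.E8B.StartT
import Pool.Agent.E8B.StartC
import Pool.Agent.E8B.FiveCyc
import Pool.Agent.E8B.HexFac
import Pool.Agent.E8B.Rot
import Pool.Agent.E8B.K33
import Pool.Agent.E8B.Exist

set_option autoImplicit false

namespace Pool.Agent.E8B

open Finset

universe u v w

/-- Assembly for a connected graph with faces. -/
theorem face_good {V : Type u} {β : Type*} [Fintype V] [DecidableEq V] {G : SimpleGraph V}
    [DecidableRel G.Adj] {L : V → Finset β} (S : FaceStruct G)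
    (h3 : ∀ x, (G.neighborFinset x).card ≤ 3) (hL : ∀ x, 5 ≤ (L x).card) (hc : G.Connected) :
    Good G L univ ∅ := by
  have hK : NoK33 G := noK33_of_face S h3
  by_cases hlow : ∃ v, (G.neighborFinset v).card ≤ 2
  · obtain ⟨v, hv⟩ := hlow
    exact start_low h3 hL hK hc hv
  have hcub : ∀ x, (G.neighborFinset x).card = 3 := by
    intro x
    have h1 := h3 x
    by_contra h2
    exact hlow ⟨x, by omega⟩
  by_cases htri : ∃ v x y, G.Adj v x ∧ G.Adj x y ∧ G.Adj y v
  · obtain ⟨v, x, y, h1, h2, h3'⟩ := htri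
    exact start_tri hcub hL hK hc h1 h2 h3'
  have hT : ∀ a b c, G.Adj a b → G.Adj b c → ¬ G.Adj c a :=
    fun a b c h1 h2 h3' => htri ⟨a, b, c, h1, h2, h3'⟩
  by_cases hc4 : ∃ h1 h2 h3 h4, h1 ≠ h3 ∧ h2 ≠ h4 ∧ G.Adj h1 h2 ∧ G.Adj h2 h3 ∧ G.Adj h3 h4 ∧
      G.Adj h4 h1
  · obtain ⟨h1, h2, h3', h4, n13, n24, a12, a23, a34, a41⟩ := hc4
    exact start_c4 hcub hL hK hc hT a12 a23 a34 a41 n13 n24
  have h5 : G5 G := by
    refine ⟨hT, fun a b c d hac hab hbc had hdc => ?_⟩
    by_contra hbd
    exact hc4 ⟨a, b, c, d, hac, hbd, hab, hbc, hdc.symm, had.symm⟩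
  have h20 := card_ge S hcub hc h5
  rcases exist_short S hcub hc h5 with ⟨h1, h2, h3', h4, h5', h6, nd, f, hf⟩ | h
  · have hadj : ∀ x y, s(x, y) ∈ cyc [h1, h2, h3', h4, h5', h6] → G.Adj x y := by
      intro x y hxy
      rw [← hf] at hxy
      have := S.sub f hxy
      rwa [SimpleGraph.mem_edgeFinset, SimpleGraph.mem_edgeSet] at this
    have a12 : G.Adj h1 h2 := hadj _ _ (by simp [cyc])
    have a23 : G.Adj h2 h3' := hadj _ _ (by simp [cyc])
    have a34 : G.Adj h3' h4 := hadj _ _ (by simp [cyc])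
    have a45 : G.Adj h4 h5' := hadj _ _ (by simp [cyc])
    have a56 : G.Adj h5' h6 := hadj _ _ (by simp [cyc])
    have a61 : G.Adj h6 h1 := hadj _ _ (by simp [cyc])
    refine hex_good hcub hL hK hc h5 nd a12 a23 a34 a45 a56 a61
      (noCross_of_face S h3 hf ?_)
    intro x hx
    simp only [List.rotate_cons_succ, List.cons_append, List.nil_append, List.rotate_zero,
      List.zip_cons_cons, List.zip_nil_right, List.mem_cons, List.not_mem_nil, or_false] at hx
    rcases hx with h | h | h | h | h | h <;> subst h <;> assumption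
  · exact five_good hcub hL hK hc h5 h20 h

/-- Connected spherical graphs. (One vertex: `NoK33` is trivial, `start_low`.) -/
theorem spherical_good {V : Type u} {β : Type*} [Fintype V] [DecidableEq V] {G : SimpleGraph V}
    [DecidableRel G.Adj] {L : V → Finset β} (hs : IsSpherical G)
    (h3 : ∀ x, (G.neighborFinset x).card ≤ 3) (hL : ∀ x, 5 ≤ (L x).card) (hc : G.Connected) :
    Good G L univ ∅ := by
  rcases hs with h1 | ⟨R, hR⟩
  · have hsub : ∀ x y : V, x = y := by
      have := (Nat.card_eq_one_iff_unique.mp h1).1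
      intro x y
      exact Subsingleton.elim x y
    have hK : NoK33 G := by
      intro b1 b2 b3 b4 b5 b6 A1 A2 A3 A4 A5 A6 P1 P2 P3 hnd
      have := hsub b1 b2
      subst this
      simp at hnd
    obtain ⟨v⟩ := hc.nonempty
    refine start_low h3 hL hK hc (v := v) ?_
    have : G.neighborFinset v = ∅ := by
      ext y
      simp only [SimpleGraph.mem_neighborFinset, Finset.notMem_empty, iff_false]
      intro h
      exact h.ne (hsub v y)
    rw [this]
    simp
  · obtain ⟨S⟩ := faceStruct_of_rotation G hc R hR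
    exact face_good S h3 hL hc

private theorem near_of_not_three {V : Type u} {G : SimpleGraph V} {x y : V} (hxy : x ≠ y)
    (h : ¬ ((2 + 1 : ℕ) : ℕ∞) ≤ G.edist x y) : Near G x y := by
  refine ⟨hxy, ?_⟩
  have h2 : ¬ (2 : ℕ∞) < G.edist x y := by
    intro h3
    apply h
    have := Order.add_one_le_of_lt h3
    simpa using! this
  rw [SimpleGraph.two_lt_edist_iff] at h2
  by_contra hcon
  rw [not_or, not_exists] at hcon
  apply h2
  refine ⟨hxy, hcon.1, ?_⟩
  rw [Set.eq_empty_iff_forall_notMem]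
  intro w hw
  rw [SimpleGraph.mem_commonNeighbors] at hw
  exact hcon.2 w ⟨hw.1, hw.2.symm⟩

private theorem adj_of_not_two {V : Type u} {G : SimpleGraph V} {x y : V} (hxy : x ≠ y)
    (h : ¬ ((1 + 1 : ℕ) : ℕ∞) ≤ G.edist x y) : G.Adj x y := by
  have h2 : ¬ (1 : ℕ∞) < G.edist x y := by
    intro h3
    apply h
    have := Order.add_one_le_of_lt h3
    simpa using! this
  rw [not_lt, SimpleGraph.edist_le_one_iff_adj_or_eq] at h2
  exact h2.resolve_right hxy

/-- A colouring of one component. -/
private theorem comp_good {V : Type u} {β : Type*} [Finite V] (G : SimpleGraph V)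
    (h3 : IsSubcubic G) (c : G.ConnectedComponent) (hs : IsSpherical c.toSimpleGraph)
    (L : V → Finset β) (hL : ∀ x, 5 ≤ (L x).card) :
    ∃ (I : Set V) (g : V → β), (∀ x ∈ I, ∀ y ∈ I, x ∈ c → y ∈ c → ¬ G.Adj x y) ∧
      (∀ x ∈ c, x ∉ I → g x ∈ L x) ∧
      ∀ x ∈ c, ∀ y ∈ c, x ∉ I → y ∉ I → Near G x y → g x ≠ g y := by
  classical
  have := Fintype.ofFinite V
  have hc := c.connected_toSimpleGraph
  have h3' : ∀ x, (c.toSimpleGraph.neighborFinset x).card ≤ 3 := by
    intro x
    have h := h3 x.1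
    rw [← SimpleGraph.coe_neighborFinset, Set.encard_coe_eq_coe_finsetCard] at h
    have h' : (G.neighborFinset x.1).card ≤ 3 := by exact_mod_cast h
    refine le_trans ?_ h'
    refine Finset.card_le_card_of_injOn (fun y => y.1) ?_ ?_
    · intro y hy
      have hy' : c.toSimpleGraph.Adj x y := by simpa using! hy
      have : G.Adj x.1 y.1 := hy'
      simpa using! this
    · intro y _ z _ hyz
      exact Subtype.ext hyz
  obtain ⟨I, hP, g, hg, hn⟩ := spherical_good (L := fun x : c => L x.1) hs h3'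
    (fun x => hL x.1) hc
  have hne : Nonempty β := by
    obtain ⟨v⟩ := hc.nonempty
    have h5 := hL v.1
    obtain ⟨b, _⟩ : (L v.1).Nonempty := Finset.card_pos.mp (by omega)
    exact ⟨b⟩
  refine ⟨{x | ∃ h : x ∈ c, (⟨x, h⟩ : c) ∈ I},
    fun x => if h : x ∈ c then g ⟨x, h⟩ else hne.some, ?_, ?_, ?_⟩
  · rintro x ⟨hx, hxI⟩ y ⟨hy, hyI⟩ _ _ hadj
    refine hP.ind ⟨x, hx⟩ (by simpa using! hxI) ⟨y, hy⟩ (by simpa using! hyI) ?_
    exact hadj
  · intro x hx hxI
    simp only [hx, dite_true]
    exact hg ⟨x, hx⟩ (Finset.mem_univ _) (fun h => hxI ⟨hx, h⟩)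
  · intro x hx y hy hxI hyI hnear
    simp only [hx, hy, dite_true]
    refine hn ⟨x, hx⟩ (Finset.mem_univ _) ⟨y, hy⟩ (Finset.mem_univ _)
      (fun h => hxI ⟨hx, h⟩) (fun h => hyI ⟨hy, h⟩) ?_
    refine ⟨fun h => hnear.1 (congrArg Subtype.val h), ?_⟩
    rcases hnear.2 with h | ⟨w, h1, h2⟩
    · exact Or.inl h
    · exact Or.inr ⟨⟨w, c.mem_supp_of_adj_mem_supp hx h1⟩, h1, h2⟩

/-- Every subcubic planar graph is packing `(1, 2^5)`-choosable: apply `spherical_good` to all
components, give the vertices of `I` an arbitrary 1-colour of their list and the other vertices the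
2-colour `g`. -/
theorem choosable {V : Type u} [Finite V] (G : SimpleGraph V) (h3 : IsSubcubic G)
    (hp : IsPlanar G) : PackingChoosable.{u, v, w} G 1 5 := by
  classical
  intro C₁ C₂ L h1 h2
  have hc1 : ∀ x, ∃ c, Sum.inl c ∈ L x := by
    intro x
    have h := h1 x
    have hne : {c : C₁ | Sum.inl c ∈ L x}.Nonempty := by
      rw [← Set.one_le_encard_iff_nonempty]
      simpa using! h
    exact hne
  choose c1 hc1 using hc1
  have hc2 : ∀ x, ∃ S : Finset C₂, S.card = 5 ∧ ∀ c ∈ S, Sum.inr c ∈ L x := by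
    intro x
    obtain ⟨t, ht, h5⟩ := Set.exists_subset_encard_eq (h2 x)
    have hfin : t.Finite := Set.finite_of_encard_eq_coe h5
    refine ⟨hfin.toFinset, ?_, ?_⟩
    · rw [hfin.encard_eq_coe_toFinset_card] at h5
      exact_mod_cast h5
    · intro c hc
      exact ht (by simpa using! hc)
  choose S hS hSL using hc2
  have hcomp := fun c => comp_good G h3 c (hp c) S (fun x => (hS x).ge)
  choose I g hI hg hn using hcomp
  set k : V → G.ConnectedComponent := G.connectedComponentMk with hk
  have hmem : ∀ x, x ∈ k x := fun x => SimpleGraph.ConnectedComponent.connectedComponentMk_mem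
  refine ⟨fun x => if x ∈ I (k x) then Sum.inl (c1 x) else Sum.inr (g (k x) x), ?_, ?_, ?_⟩
  · intro x
    by_cases hx : x ∈ I (k x)
    · simp only [hx, if_true]
      exact hc1 x
    · simp only [hx, if_false]
      exact hSL x _ (hg (k x) x (hmem x) hx)
  · intro c x hx y hy hxy
    by_contra hcon
    have hadj := adj_of_not_two hxy hcon
    have hk' : k x = k y := SimpleGraph.ConnectedComponent.connectedComponentMk_eq_of_adj hadj
    have hxI : x ∈ I (k x) := by
      by_contra h
      simp [h] at hx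
    have hyI : y ∈ I (k y) := by
      by_contra h
      simp [h] at hy
    exact hI (k x) x hxI y (hk' ▸ hyI) (hmem x) (hk' ▸ hmem y) hadj
  · intro c x hx y hy hxy
    by_contra hcon
    have hnear := near_of_not_three hxy hcon
    have hk' : k x = k y := by
      rcases hnear.2 with h | ⟨w, h1, h2⟩
      · exact SimpleGraph.ConnectedComponent.connectedComponentMk_eq_of_adj h
      · exact (SimpleGraph.ConnectedComponent.connectedComponentMk_eq_of_adj h1).trans
          (SimpleGraph.ConnectedComponent.connectedComponentMk_eq_of_adj h2)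
    have hxI : x ∉ I (k x) := by
      intro h
      simp [h] at hx
    have hyI : y ∉ I (k y) := by
      intro h
      simp [h] at hy
    have hx' : g (k x) x = c := by simpa [hxI] using! hx
    have hy' : g (k y) y = c := by simpa [hyI] using! hy
    refine hn (k x) x (hmem x) y (hk' ▸ hmem y) hxI (hk' ▸ hyI) hnear ?_
    rw [hx', hk', hy']

end Pool.Agent.E8B
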