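import Mathlib

/-!
# Packing choosability of planar graphs (MP_e8b334_co): the definitions of the final statement
-/

set_option autoImplicit false

namespace Pool.Agent.E8B

universe u v w

variable {V : Type u}

/-- A rotation system of `G`: for every vertex a cyclic order of the darts (directed edges) which
leave it. -/
structure Rotation (G : SimpleGraph V) where
  /-- the next dart at the same vertex -/
  rot : Equiv.Perm G.Dart
  fst_rot : ∀ d, (rot d).fst = d.fst
  cyclic : ∀ d d' : G.Dart, d.fst = d'.fst → rot.SameCycle d d'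

/-- Reversal of darts. -/
def flip (G : SimpleGraph V) : Equiv.Perm G.Dart where
  toFun d := d.symm
  invFun d := d.symm
  left_inv d := d.symm_symm
  right_inv d := d.symm_symm

/-- The permutation which takes a dart to the next dart on the boundary of its face: the dart is
reversed and then rotated. -/
def Rotation.facePerm {G : SimpleGraph V} (R : Rotation G) : Equiv.Perm G.Dart :=
  (flip G).trans R.rot

/-- The faces are the cycles of the face permutation. -/
def Rotation.Face {G : SimpleGraph V} (R : Rotation G) : Type u :=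
  Quotient (Equiv.Perm.SameCycle.setoid R.facePerm)

/-- A connected graph can be embedded into the sphere: it has one vertex only, or a rotation
system for which Euler's formula `|V| - |E| + |F| = 2` holds. -/
def IsSpherical (G : SimpleGraph V) : Prop :=
  Nat.card V = 1 ∨ ∃ R : Rotation G, Nat.card V + Nat.card R.Face = Nat.card G.edgeSet + 2

/-- A graph is planar if all its connected components can be embedded into the sphere. -/
def IsPlanar (G : SimpleGraph V) : Prop :=
  ∀ c : G.ConnectedComponent, IsSpherical c.toSimpleGraph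

/-- All degrees are at most three. -/
def IsSubcubic (G : SimpleGraph V) : Prop := ∀ x, (G.neighborSet x).encard ≤ 3

/-- Any two different vertices of `S` are at distance at least `i + 1`. -/
def IsIndep (G : SimpleGraph V) (i : ℕ) (S : Set V) : Prop :=
  ∀ x ∈ S, ∀ y ∈ S, x ≠ y → ((i + 1 : ℕ) : ℕ∞) ≤ G.edist x y

/-- `φ` is a packing `L`-colouring: `C₁` are the 1-colours, `C₂` are the 2-colours. -/
structure IsPackingColoring {C₁ : Type v} {C₂ : Type w} (G : SimpleGraph V)
    (L : V → Set (C₁ ⊕ C₂)) (φ : V → C₁ ⊕ C₂) : Prop where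
  mem : ∀ x, φ x ∈ L x
  one : ∀ c : C₁, IsIndep G 1 {x | φ x = Sum.inl c}
  two : ∀ c : C₂, IsIndep G 2 {x | φ x = Sum.inr c}

/-- `G` is packing `(1^{t₁}, 2^{t₂})`-choosable. -/
def PackingChoosable (G : SimpleGraph V) (t₁ t₂ : ℕ) : Prop :=
  ∀ (C₁ : Type v) (C₂ : Type w) (L : V → Set (C₁ ⊕ C₂)),
    (∀ x, (t₁ : ℕ∞) ≤ {c : C₁ | Sum.inl c ∈ L x}.encard) →
    (∀ x, (t₂ : ℕ∞) ≤ {c : C₂ | Sum.inr c ∈ L x}.encard) →
    ∃ φ : V → C₁ ⊕ C₂, IsPackingColoring G L φ

end Pool.Agent.E8B
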