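import Pool.Agent.E8B.Defs
import Pool.Agent.E8B.Pub

set_option autoImplicit false

namespace Pool.Agent.E8B

open Finset

universe u

variable {V : Type u} [Fintype V] [DecidableEq V] {G : SimpleGraph V} [DecidableRel G.Adj]

/-- The face of a dart. -/
def Rotation.fc (R : Rotation G) (d : G.Dart) : R.Face :=
  Quotient.mk (Equiv.Perm.SameCycle.setoid R.facePerm) d

open Classical in
/-- The edges of which exactly one of the two darts is in the face `f`. -/
noncomputable def Rotation.bd (R : Rotation G) (f : R.Face) : Finset (Sym2 V) :=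
  G.edgeFinset.filter fun e => ∃ d : G.Dart, d.edge = e ∧ R.fc d = f ∧ R.fc d.symm ≠ f

omit [Fintype V] [DecidableEq V] [DecidableRel G.Adj] in
/-- `R.facePerm d.symm = R.rot d`. -/
theorem Rotation.fc_rot (R : Rotation G) (d : G.Dart) : R.fc (R.rot d) = R.fc d.symm := by
  have h : R.facePerm d.symm = R.rot d := by
    simp [Rotation.facePerm, flip]
  refine Quotient.sound (s := Equiv.Perm.SameCycle.setoid R.facePerm) ?_
  change R.facePerm.SameCycle (R.rot d) d.symm
  rw [← h, Equiv.Perm.sameCycle_apply_left]

private theorem RotA_bd_sub (R : Rotation G) (f : R.Face) : R.bd f ⊆ G.edgeFinset := by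
  classical
  intro e he
  unfold Rotation.bd at he
  exact (mem_filter.1 he).1

/-- For an edge with the darts `d`, `d.symm`. -/
theorem Rotation.mem_bd (R : Rotation G) (f : R.Face) (d : G.Dart) :
    d.edge ∈ R.bd f ↔ (R.fc d = f ∧ R.fc d.symm ≠ f) ∨ (R.fc d.symm = f ∧ R.fc d ≠ f) := by
  classical
  unfold Rotation.bd
  rw [mem_filter]
  constructor
  · rintro ⟨_, d', hd', h1, h2⟩
    rcases (SimpleGraph.dart_edge_eq_iff d' d).1 hd' with rfl | rfl
    · exact Or.inl ⟨h1, h2⟩
    · rw [SimpleGraph.Dart.symm_symm] at h2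
      exact Or.inr ⟨h1, h2⟩
  · rintro (⟨h1, h2⟩ | ⟨h1, h2⟩)
    · exact ⟨by simp, d, rfl, h1, h2⟩
    · refine ⟨by simp, d.symm, ?_, h1, ?_⟩
      · rw [SimpleGraph.Dart.edge_symm]
      · rwa [SimpleGraph.Dart.symm_symm]

/-- An edge `d.edge` is in the two sets `bd (fc d)`, `bd (fc d.symm)` if these faces are different,
and in none if they are equal (or if it is not an edge). -/
theorem Rotation.two_bd (R : Rotation G) [Fintype R.Face] [DecidableEq R.Face] (e : Sym2 V) :
    (univ.filter (e ∈ R.bd ·)).card = 0 ∨ (univ.filter (e ∈ R.bd ·)).card = 2 := by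
  by_cases he : e ∈ G.edgeFinset
  · have hd : ∃ d : G.Dart, d.edge = e := by
      induction e using Sym2.ind with
      | _ a b =>
        have hab : G.Adj a b := by simpa using he
        exact ⟨⟨(a, b), hab⟩, rfl⟩
    obtain ⟨d, rfl⟩ := hd
    by_cases hf : R.fc d = R.fc d.symm
    · left
      rw [card_eq_zero, filter_eq_empty_iff]
      intro f _ h1
      rw [R.mem_bd, hf] at h1
      rcases h1 with h1 | h1
      · exact h1.2 h1.1
      · exact h1.2 h1.1
    · right
      have h1 : univ.filter (d.edge ∈ R.bd ·) = {R.fc d, R.fc d.symm} := by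
        ext f
        rw [mem_filter, R.mem_bd, mem_insert, mem_singleton]
        constructor
        · rintro ⟨_, h1 | h1⟩
          · exact Or.inl h1.1.symm
          · exact Or.inr h1.1.symm
        · rintro (rfl | rfl)
          · exact ⟨mem_univ _, Or.inl ⟨rfl, fun h => hf h.symm⟩⟩
          · exact ⟨mem_univ _, Or.inr ⟨rfl, hf⟩⟩
      rw [h1, card_pair hf]
  · left
    rw [card_eq_zero, filter_eq_empty_iff]
    intro f _ h1
    exact he (RotA_bd_sub R f h1)

/-- The number of edges of `bd f` at `v` is modulo two the number of darts `d` from `v` with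
`fc d = f` plus the number of darts `d` from `v` with `fc d.symm = f`, i.e. with
`fc (R.rot d) = f`; as `R.rot` permutes the darts from `v`, both numbers are equal. -/
theorem Rotation.even_bd (R : Rotation G) (f : R.Face) (v : V) :
    Even ((R.bd f).filter (v ∈ ·)).card := by
  classical
  let X : Finset G.Dart := univ.filter fun d => d.fst = v ∧ R.fc d = f
  let Y : Finset G.Dart := univ.filter fun d => d.fst = v ∧ R.fc d.symm = f
  have hXY : Y.card = X.card := by
    refine Finset.card_bij (fun d _ => R.rot d) ?_ ?_ ?_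
    · intro d hd
      simp only [Y, mem_filter, mem_univ, true_and] at hd
      simp only [X, mem_filter, mem_univ, true_and]
      exact ⟨(R.fst_rot d).trans hd.1, (R.fc_rot d).trans hd.2⟩
    · intro d _ d' _ h
      exact R.rot.injective h
    · intro x hx
      simp only [X, mem_filter, mem_univ, true_and] at hx
      refine ⟨R.rot.symm x, ?_, by simp⟩
      simp only [Y, mem_filter, mem_univ, true_and]
      constructor
      · rw [← R.fst_rot, Equiv.apply_symm_apply]; exact hx.1
      · rw [← R.fc_rot, Equiv.apply_symm_apply]; exact hx.2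
  have himg : (R.bd f).filter (v ∈ ·) = ((X \ Y) ∪ (Y \ X)).image SimpleGraph.Dart.edge := by
    ext e
    rw [mem_filter, mem_image]
    constructor
    · rintro ⟨h1, h2⟩
      have h3 : ∃ d : G.Dart, d.edge = e ∧ d.fst = v := by
        have he : e ∈ G.edgeFinset := RotA_bd_sub R f h1
        obtain ⟨w, rfl⟩ := Sym2.mem_iff_exists.1 h2
        have hab : G.Adj v w := by simpa using he
        exact ⟨⟨(v, w), hab⟩, rfl, rfl⟩
      obtain ⟨d, rfl, h4⟩ := h3
      refine ⟨d, ?_, rfl⟩
      rw [R.mem_bd] at h1
      simp only [X, Y, mem_union, mem_sdiff, mem_filter, mem_univ, true_and, h4]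
      exact h1
    · rintro ⟨d, h1, rfl⟩
      simp only [X, Y, mem_union, mem_sdiff, mem_filter, mem_univ, true_and] at h1
      have h4 : d.fst = v := by
        rcases h1 with h1 | h1
        · exact h1.1.1
        · exact h1.1.1
      simp only [h4, true_and] at h1
      refine ⟨(R.mem_bd f d).2 h1, ?_⟩
      rw [← h4]
      exact Sym2.mem_mk_left _ _
  rw [himg, Finset.card_image_of_injOn]
  · rw [card_union_of_disjoint]
    · have h1 := Finset.card_sdiff_add_card_inter X Y
      have h2 := Finset.card_sdiff_add_card_inter Y X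
      rw [inter_comm Y X] at h2
      have h3 : (X \ Y).card = (Y \ X).card := by omega
      rw [h3]
      exact ⟨_, rfl⟩
    · rw [disjoint_left]
      intro d h1 h2
      exact (mem_sdiff.1 h1).2 (mem_sdiff.1 h2).1
  · intro d h1 d' h2 h
    have hv : ∀ d : G.Dart, d ∈ ((X \ Y) ∪ (Y \ X) : Finset G.Dart) → d.fst = v := by
      intro d h
      simp only [X, Y, mem_union, mem_sdiff, mem_filter, mem_univ, true_and] at h
      rcases h with h | h
      · exact h.1.1
      · exact h.1.1
    rcases (SimpleGraph.dart_edge_eq_iff d d').1 h with h3 | h3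
    · exact h3
    · exfalso
      have h4 := hv d h1
      have h5 := hv d' h2
      rw [h3] at h4
      have h6 : d'.snd = v := h4
      have h7 := d'.adj
      rw [h5, h6] at h7
      exact G.loopless.irrefl _ h7

end Pool.Agent.E8B
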