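import Pool.Agent.E8B.RotA

set_option autoImplicit false

namespace Pool.Agent.E8B

open Finset

universe u

variable {V : Type u} [Fintype V] [DecidableEq V] {G : SimpleGraph V} [DecidableRel G.Adj]

omit [Fintype V] [DecidableEq V] [DecidableRel G.Adj] in
private theorem RotB_sameCycle {α : Type*} (r : Equiv.Perm α) (P : α → Prop)
    (hP : ∀ d, P (r d) ↔ P d) {d d' : α} (h : r.SameCycle d d') : P d ↔ P d' := by
  obtain ⟨i, rfl⟩ := h
  induction i using Int.induction_on with
  | zero => simp
  | succ i ih =>
    rw [ih, add_comm, zpow_add, zpow_one, Equiv.Perm.mul_apply]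
    exact (hP _).symm
  | pred i ih =>
    rw [ih]
    have := hP ((r ^ (-(i : ℤ) - 1)) d)
    rw [← this, ← Equiv.Perm.mul_apply, ← zpow_one_add]
    have h1 : (1 : ℤ) + (-(i : ℤ) - 1) = -(i : ℤ) := by ring
    rw [h1]

/-- If every edge is in an even number of the sets `bd f`, `f ∈ T`, then
`fc d ∈ T ↔ fc d.symm ∈ T` for all `d` (`mem_bd`), so also `fc (R.rot d) ∈ T ↔ fc d ∈ T` (`fc_rot`);
so whether `fc d ∈ T` depends only on `d.fst` (`R.cyclic`) and is the same for adjacent vertices; by
connectedness it is constant. -/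
theorem Rotation.kernel_bd (hc : G.Connected) (R : Rotation G) [Fintype R.Face]
    [DecidableEq R.Face] (T : Finset R.Face)
    (h : ∀ e, Even (T.filter (e ∈ R.bd ·)).card) : T = ∅ ∨ T = univ := by
  have hsymm : ∀ d : G.Dart, R.fc d ∈ T ↔ R.fc d.symm ∈ T := by
    intro d
    by_cases hd : R.fc d = R.fc d.symm
    · rw [hd]
    have he : T.filter (d.edge ∈ R.bd ·) = T ∩ {R.fc d, R.fc d.symm} := by
      ext f
      simp only [mem_filter, mem_inter, mem_insert, mem_singleton, R.mem_bd]
      constructor
      · rintro ⟨hf, ⟨h1, _⟩ | ⟨h1, _⟩⟩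
        · exact ⟨hf, Or.inl h1.symm⟩
        · exact ⟨hf, Or.inr h1.symm⟩
      · rintro ⟨hf, rfl | rfl⟩
        · exact ⟨hf, Or.inl ⟨rfl, fun h => hd h.symm⟩⟩
        · exact ⟨hf, Or.inr ⟨rfl, hd⟩⟩
    have h2 := h d.edge
    rw [he] at h2
    constructor
    · intro h1
      by_contra h3
      have : T ∩ {R.fc d, R.fc d.symm} = {R.fc d} := by
        ext f
        simp only [mem_inter, mem_insert, mem_singleton]
        constructor
        · rintro ⟨hf, rfl | rfl⟩
          · rfl
          · exact absurd hf h3
        · rintro rfl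
          exact ⟨h1, Or.inl rfl⟩
      rw [this, card_singleton] at h2
      exact absurd h2 (by decide)
    · intro h1
      by_contra h3
      have : T ∩ {R.fc d, R.fc d.symm} = {R.fc d.symm} := by
        ext f
        simp only [mem_inter, mem_insert, mem_singleton]
        constructor
        · rintro ⟨hf, rfl | rfl⟩
          · exact absurd hf h3
          · rfl
        · rintro rfl
          exact ⟨h1, Or.inr rfl⟩
      rw [this, card_singleton] at h2
      exact absurd h2 (by decide)
  have hfst : ∀ d d' : G.Dart, d.fst = d'.fst → (R.fc d ∈ T ↔ R.fc d' ∈ T) := by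
    intro d d' hd
    refine RotB_sameCycle R.rot (fun d => R.fc d ∈ T) (fun d => ?_) (R.cyclic d d' hd)
    simp only [R.fc_rot]
    exact (hsymm d).symm
  have hwalk : ∀ (u v : V) (p : G.Walk u v) (d d' : G.Dart), d.fst = u → d'.fst = v →
      (R.fc d ∈ T ↔ R.fc d' ∈ T) := by
    intro u v p
    induction p with
    | nil => intro d d' h1 h2; exact hfst d d' (h1.trans h2.symm)
    | @cons u w v hadj p ih =>
      intro d d' h1 h2
      let e : G.Dart := ⟨(u, w), hadj⟩
      rw [hfst d e h1, hsymm e]
      exact ih e.symm d' rfl h2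
  have hall : ∀ d d' : G.Dart, R.fc d ∈ T ↔ R.fc d' ∈ T := by
    intro d d'
    obtain ⟨p⟩ := hc.preconnected d.fst d'.fst
    exact hwalk _ _ p d d' rfl rfl
  have hrep : ∀ f : R.Face, ∃ d, R.fc d = f := fun f => Quotient.exists_rep f
  rcases T.eq_empty_or_nonempty with h0 | ⟨f, hf⟩
  · exact Or.inl h0
  · right
    obtain ⟨d, rfl⟩ := hrep f
    rw [eq_univ_iff_forall]
    intro g
    obtain ⟨d', rfl⟩ := hrep g
    exact (hall d d').1 hf

/-- Linear algebra over `ZMod 2` for any finite family `B : F → Finset (Sym2 V)` of even sets of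
edges of a connected graph with small kernel and Euler's formula. Let
`δ : (edges → ZMod 2) → (V → ZMod 2)` be the boundary map and
`∂ : (F → ZMod 2) → (edges → ZMod 2)` the map given by the sets `B f`. By `even`
`range ∂ ≤ ker δ`. By `kernel` `ker ∂` has at most two elements, so its dimension is at most one and
`dim (range ∂) ≥ |F| - 1 = |E| - |V| + 1`. `range δ` together with one `Pi.single v0 1` spans
everything (walks), so `dim (range δ) ≥ |V| - 1` and `dim (ker δ) ≤ |E| - |V| + 1`. So
`range ∂ = ker δ` (`Submodule.eq_of_le_of_finrank_le`). -/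
theorem span_of_kernel (hc : G.Connected) {F : Type u} [Fintype F] [DecidableEq F]
    (B : F → Finset (Sym2 V)) (sub : ∀ f, B f ⊆ G.edgeFinset)
    (even : ∀ f v, Even ((B f).filter (v ∈ ·)).card)
    (kernel : ∀ T : Finset F, (∀ e, Even (T.filter (e ∈ B ·)).card) → T = ∅ ∨ T = univ)
    (euler : Fintype.card V + Fintype.card F = G.edgeFinset.card + 2)
    {Z : Finset (Sym2 V)} (hZ : Z ⊆ G.edgeFinset) (hev : ∀ v, Even (Z.filter (v ∈ ·)).card) :
    ∃ T : Finset F, ∀ e, e ∈ Z ↔ Odd (T.filter (e ∈ B ·)).card := by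
  classical
  let K := ZMod 2
  have two : ∀ x : ZMod 2, x = 0 ∨ x = 1 := by decide
  -- the maps
  let δ : (G.edgeFinset → ZMod 2) →ₗ[ZMod 2] (V → ZMod 2) :=
    { toFun := fun x v => ∑ e : G.edgeFinset, if v ∈ (e : Sym2 V) then x e else 0
      map_add' := by
        intro x y; ext v; simp only [Pi.add_apply, ← sum_add_distrib]
        refine sum_congr rfl fun e _ => ?_
        split_ifs <;> simp
      map_smul' := by
        intro c x; ext v; simp only [Pi.smul_apply, smul_eq_mul, RingHom.id_apply, mul_sum]
        refine sum_congr rfl fun e _ => ?_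
        split_ifs <;> simp }
  let bd : (F → ZMod 2) →ₗ[ZMod 2] (G.edgeFinset → ZMod 2) :=
    { toFun := fun y e => ∑ f, if (e : Sym2 V) ∈ B f then y f else 0
      map_add' := by
        intro x y; ext v; simp only [Pi.add_apply, ← sum_add_distrib]
        refine sum_congr rfl fun e _ => ?_
        split_ifs <;> simp
      map_smul' := by
        intro c x; ext v; simp only [Pi.smul_apply, smul_eq_mul, RingHom.id_apply, mul_sum]
        refine sum_congr rfl fun e _ => ?_
        split_ifs <;> simp }
  have δ_apply : ∀ x v, δ x v = ∑ e : G.edgeFinset, if v ∈ (e : Sym2 V) then x e else 0 :=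
    fun _ _ => rfl
  have bd_apply : ∀ y e, bd y e = ∑ f, if (e : Sym2 V) ∈ B f then y f else 0 :=
    fun _ _ => rfl
  -- the sum over a set of faces
  have bd_card : ∀ (y : F → ZMod 2) (e : G.edgeFinset),
      bd y e = (((univ.filter (fun f => y f = 1)).filter (fun f => (e : Sym2 V) ∈ B f)).card :
        ZMod 2) := by
    intro y e
    rw [bd_apply, card_eq_sum_ones, Nat.cast_sum, filter_filter, sum_filter]
    refine sum_congr rfl fun f _ => ?_
    rcases two (y f) with h | h <;> simp [h]
  -- range bd ≤ ker δ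
  have hle : LinearMap.range bd ≤ LinearMap.ker δ := by
    rintro _ ⟨y, rfl⟩
    rw [LinearMap.mem_ker]
    ext v
    rw [δ_apply, Pi.zero_apply]
    have h1 : ∀ e : G.edgeFinset, (if v ∈ (e : Sym2 V) then bd y e else 0) =
        ∑ f, (if v ∈ (e : Sym2 V) then (if (e : Sym2 V) ∈ B f then y f else 0) else 0) := by
      intro e
      split_ifs with h
      · rw [bd_apply]
      · simp
    rw [sum_congr rfl (fun e _ => h1 e), sum_comm]
    refine sum_eq_zero fun f _ => ?_
    have h2 : (∑ e : G.edgeFinset,
        (if v ∈ (e : Sym2 V) then (if (e : Sym2 V) ∈ B f then y f else 0) else 0)) =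
        ∑ e ∈ G.edgeFinset, (if v ∈ e ∧ e ∈ B f then y f else 0) := by
      rw [← sum_coe_sort G.edgeFinset (fun e => if v ∈ e ∧ e ∈ B f then y f else 0)]
      refine sum_congr rfl fun e _ => ?_
      by_cases h3 : v ∈ (e : Sym2 V) <;> by_cases h4 : (e : Sym2 V) ∈ B f <;> simp [h3, h4]
    rw [h2, ← sum_filter, sum_const, nsmul_eq_mul]
    have h5 : G.edgeFinset.filter (fun e => v ∈ e ∧ e ∈ B f) = (B f).filter (v ∈ ·) := by
      ext e
      simp only [mem_filter]
      constructor
      · rintro ⟨_, h6, h7⟩; exact ⟨h7, h6⟩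
      · rintro ⟨h6, h7⟩; exact ⟨sub f h6, h7, h6⟩
    rw [h5, (ZMod.natCast_eq_zero_iff_even).2 (even f v), zero_mul]
  -- the kernel of bd
  have hker : Module.finrank (ZMod 2) (LinearMap.ker bd) ≤ 1 := by
    have hk : LinearMap.ker bd ≤ Submodule.span (ZMod 2) {(fun _ => 1 : F → ZMod 2)} := by
      intro y hy
      rw [LinearMap.mem_ker] at hy
      have h1 := kernel (univ.filter (fun f => y f = 1)) (by
        intro e
        by_cases he : e ∈ G.edgeFinset
        · have h2 := bd_card y ⟨e, he⟩
          rw [hy, Pi.zero_apply] at h2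
          exact (ZMod.natCast_eq_zero_iff_even).1 h2.symm
        · rw [filter_eq_empty_iff.2, card_empty]
          · exact ⟨0, rfl⟩
          · intro f _ hf
            exact he (sub f hf))
      rw [Submodule.mem_span_singleton]
      rcases h1 with h1 | h1
      · refine ⟨0, ?_⟩
        ext f
        have h2 : f ∉ univ.filter (fun f => y f = 1) := by rw [h1]; simp
        rcases two (y f) with h | h
        · simp [h]
        · exact absurd (by simp [h]) h2
      · refine ⟨1, ?_⟩
        ext f
        have h2 : f ∈ univ.filter (fun f => y f = 1) := by rw [h1]; simp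
        rw [mem_filter] at h2
        simp [h2.2]
    refine (Submodule.finrank_mono hk).trans ?_
    exact (finrank_span_le_card _).trans (by simp)
  have hF : Fintype.card F ≤ Module.finrank (ZMod 2) (LinearMap.range bd) + 1 := by
    have h1 := LinearMap.finrank_range_add_finrank_ker bd
    rw [Module.finrank_fintype_fun_eq_card] at h1
    omega
  -- the range of δ
  obtain ⟨v0⟩ := hc.nonempty
  have hsingle : ∀ (u w : V) (h : G.Adj u w),
      (Pi.single u 1 + Pi.single w 1 : V → ZMod 2) ∈ LinearMap.range δ := by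
    intro u w h
    refine ⟨Pi.single ⟨s(u, w), by simpa using h⟩ 1, ?_⟩
    ext v
    rw [δ_apply, Finset.sum_eq_single (⟨s(u, w), by simpa using h⟩ : G.edgeFinset)]
    · have hne : u ≠ w := h.ne
      simp only [Pi.single_eq_same, Pi.add_apply, Sym2.mem_iff]
      by_cases h1 : v = u
      · subst h1
        simp [hne]
      · by_cases h2 : v = w
        · subst h2
          simp [hne.symm]
        · simp [h1, h2]
    · intro e _ he
      simp [Pi.single_eq_of_ne he]
    · intro h; exact absurd (mem_univ _) h
  have hspan : ∀ v : V, (Pi.single v 1 : V → ZMod 2) ∈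
      LinearMap.range δ ⊔ Submodule.span (ZMod 2) {(Pi.single v0 1 : V → ZMod 2)} := by
    intro v
    obtain ⟨p⟩ := hc.preconnected v v0
    induction p with
    | nil =>
      exact (le_sup_right : _ ≤ LinearMap.range δ ⊔ _) (Submodule.mem_span_singleton_self _)
    | @cons u w v' hadj p ih =>
      have h1 : (Pi.single u 1 : V → ZMod 2) =
          (Pi.single u 1 + Pi.single w 1) + Pi.single w 1 := by
        rw [add_assoc]
        have h2 : (Pi.single w 1 + Pi.single w 1 : V → ZMod 2) = 0 := by
          ext x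
          simp only [Pi.add_apply, Pi.zero_apply]
          exact CharTwo.add_self_eq_zero _
        rw [h2, add_zero]
      rw [h1]
      exact Submodule.add_mem _ ((le_sup_left : LinearMap.range δ ≤ _) (hsingle u w hadj)) ih
  have htop : LinearMap.range δ ⊔ Submodule.span (ZMod 2) {(Pi.single v0 1 : V → ZMod 2)} = ⊤ := by
    rw [eq_top_iff]
    intro x _
    have h1 : x = ∑ v, x v • (Pi.single v 1 : V → ZMod 2) := by
      ext w
      simp [Finset.sum_apply, Pi.single_apply]
    rw [h1]
    exact Submodule.sum_mem _ fun v _ => Submodule.smul_mem _ _ (hspan v)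
  have hV : Fintype.card V ≤ Module.finrank (ZMod 2) (LinearMap.range δ) + 1 := by
    have h1 : Module.finrank (ZMod 2) (⊤ : Submodule (ZMod 2) (V → ZMod 2)) = Fintype.card V := by
      rw [finrank_top, Module.finrank_fintype_fun_eq_card]
    rw [← h1, ← htop]
    refine (Submodule.finrank_add_le_finrank_add_finrank _ _).trans ?_
    exact Nat.add_le_add_left ((finrank_span_le_card _).trans (by simp)) _
  have hfin : Module.finrank (ZMod 2) (LinearMap.ker δ) ≤
      Module.finrank (ZMod 2) (LinearMap.range bd) := by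
    have h1 := LinearMap.finrank_range_add_finrank_ker δ
    rw [Module.finrank_fintype_fun_eq_card, Fintype.card_coe] at h1
    omega
  have heq := Submodule.eq_of_le_of_finrank_le hle hfin
  -- the set Z
  let z : G.edgeFinset → ZMod 2 := fun e => if (e : Sym2 V) ∈ Z then 1 else 0
  have hz : z ∈ LinearMap.range bd := by
    rw [heq, LinearMap.mem_ker]
    ext v
    rw [δ_apply, Pi.zero_apply]
    have h2 : (∑ e : G.edgeFinset, (if v ∈ (e : Sym2 V) then z e else 0)) =
        ∑ e ∈ G.edgeFinset, (if v ∈ e ∧ e ∈ Z then (1 : ZMod 2) else 0) := by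
      rw [← sum_coe_sort G.edgeFinset (fun e => if v ∈ e ∧ e ∈ Z then (1 : ZMod 2) else 0)]
      refine sum_congr rfl fun e _ => ?_
      by_cases h3 : v ∈ (e : Sym2 V) <;> by_cases h4 : (e : Sym2 V) ∈ Z <;> simp [z, h3, h4]
    rw [h2, ← sum_filter, sum_const, nsmul_eq_mul, mul_one]
    have h5 : G.edgeFinset.filter (fun e => v ∈ e ∧ e ∈ Z) = Z.filter (v ∈ ·) := by
      ext e
      simp only [mem_filter]
      constructor
      · rintro ⟨_, h6, h7⟩; exact ⟨h7, h6⟩
      · rintro ⟨h6, h7⟩; exact ⟨hZ h6, h7, h6⟩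
    rw [h5]
    exact (ZMod.natCast_eq_zero_iff_even).2 (hev v)
  obtain ⟨y, hy⟩ := hz
  refine ⟨univ.filter (fun f => y f = 1), fun e => ?_⟩
  by_cases he : e ∈ G.edgeFinset
  · have h1 := bd_card y ⟨e, he⟩
    rw [hy] at h1
    rw [← ZMod.natCast_eq_one_iff_odd]
    rw [← h1]
    by_cases h2 : e ∈ Z <;> simp [z, h2]
  · have h1 : e ∉ Z := fun h => he (hZ h)
    have h2 : (univ.filter (fun f => y f = 1)).filter (fun f => e ∈ B f) = ∅ := by
      rw [filter_eq_empty_iff]
      intro f _ hf
      exact he (sub f hf)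
    constructor
    · intro h; exact absurd h h1
    · intro h
      have h3 : ((univ.filter (fun f => y f = 1)).filter (fun f => e ∈ B f)).card = 0 := by
        rw [h2, card_empty]
      rw [h3] at h
      exact absurd h (by decide)

end Pool.Agent.E8B
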