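import Pool.Agent.E8B.Calc1

set_option autoImplicit false

namespace Pool.Agent.E8B

open Finset

universe u

variable {V : Type u} {β : Type*} [Fintype V] [DecidableEq V] {G : SimpleGraph V}
  [DecidableRel G.Adj] {L : V → Finset β}

/-- Rule A. `N(p) = {v, x, y}`; `x, y, q` are inner, different and pairwise not adjacent:
`D1 = D \ {x, y, q, v, p}`, `W1 = W ∪ {x, y, q}`: commit `x, y, q`, peel `v` (last colour),
peel `p`:
`peel p` with `D' = D \ {x, y, q, v, p}`: `v ∉ D'` contributes nothing (`z, p, q ∉ D'`), `x ∉ D'`
and `y ∉ D'` contribute at most their two other neighbours each.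
`peel v` with `D' = D \ {x, y, q, v}`: `z` contributes at most `s`, `p` contributes only `p`
(`x, y ∉ D'`), `q ∉ D'` contributes at most its two other neighbours. -/
theorem rule_aaa {D W : Finset V} {v z p q s x y : V}
    (h3 : ∀ x, (G.neighborFinset x).card ≤ 3)
    (hL : ∀ x, 5 ≤ (L x).card) (st : St G D W) (hb : Bd G D W v z p q s)
    (hp : G.neighborFinset p = {v, x, y}) (hx : Inn G D x) (hy : Inn G D y) (hq : Inn G D q)
    (hvx : v ≠ x) (hvy : v ≠ y) (hxy : x ≠ y) (hqx : q ≠ x) (hqy : q ≠ y)
    (axy : ¬ G.Adj x y) (aqx : ¬ G.Adj q x) (aqy : ¬ G.Adj q y) :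
    ∃ D1 W1, Step G L D W D1 W1 := by
  have mem : ∀ a b, G.Adj a b ↔ b ∈ G.neighborFinset a := fun a b =>
    (G.mem_neighborFinset a b).symm
  have avz : G.Adj v z := by rw [mem, hb.nb]; simp
  have avp : G.Adj v p := by rw [mem, hb.nb]; simp
  have avq : G.Adj v q := by rw [mem, hb.nb]; simp
  have apx : G.Adj p x := by rw [mem, hp]; simp
  have apy : G.Adj p y := by rw [mem, hp]; simp
  have hzD : z ∉ D := fun h => (Finset.disjoint_left.mp st.disj) h hb.zW
  have er : ∀ a b, G.Adj a b → ((G.neighborFinset a).erase b).card ≤ 2 := by
    intro a b hab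
    rw [Finset.card_erase_of_mem ((mem a b).mp hab)]
    have := h3 a
    omega
  have hpv : p ≠ v := avp.ne'
  have hpx : p ≠ x := apx.ne
  have hpy : p ≠ y := apy.ne
  have hpq : p ≠ q := hb.pq
  have hqv : q ≠ v := avq.ne'
  have hJ : ({x, y, q} : Finset V) ⊆ D := by
    intro a ha
    simp only [mem_insert, mem_singleton] at ha
    rcases ha with rfl | rfl | rfl
    · exact hx.1
    · exact hy.1
    · exact hq.1
  have inW : ∀ a ∈ ({x, y, q} : Finset V), ∀ b, G.Adj a b → b ∈ D := by
    intro a ha
    simp only [mem_insert, mem_singleton] at ha
    rcases ha with rfl | rfl | rfl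
    · exact hx.2
    · exact hy.2
    · exact hq.2
  have hinv : Inv G (D \ {x, y, q, v, p}) := by
    apply Inv.sdiff st.inv
    intro u hu _
    have key : ∀ b, G.Adj u b → b ∉ D \ {x, y, q, v, p} →
        (G.neighborFinset u ∩ (D \ {x, y, q, v, p})).card ≤ 2 := by
      intro b hub hb'
      refine le_trans (card_le_card ?_) (er u b hub)
      intro c hc
      rw [mem_inter] at hc
      rw [mem_erase]
      refine ⟨?_, hc.1⟩
      rintro rfl
      exact hb' hc.2
    simp only [mem_insert, mem_singleton] at hu
    rcases hu with rfl | rfl | rfl | rfl | rfl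
    · exact key p apx.symm (by simp)
    · exact key p apy.symm (by simp)
    · exact key v avq.symm (by simp)
    · exact key p avp (by simp)
    · exact key v avp.symm (by simp)
  refine ⟨D \ {x, y, q, v, p}, W ∪ {x, y, q}, ?_, ⟨?_, ?_, hinv⟩, ?_⟩
  · rw [Finset.ssubset_iff_of_subset sdiff_subset]
    exact ⟨v, hb.vD, by simp⟩
  · rw [Finset.disjoint_left]
    intro a ha haW
    rw [mem_sdiff] at ha
    rw [mem_union] at haW
    rcases haW with h | h
    · exact (Finset.disjoint_left.mp st.disj) ha.1 h
    · apply ha.2
      simp only [mem_insert, mem_singleton] at h ⊢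
      tauto
  · intro a ha b hb' hab
    rw [mem_union] at ha hb'
    rcases ha with ha | ha
    · rcases hb' with hb' | hb'
      · exact st.ind a ha b hb' hab
      · exact (Finset.disjoint_left.mp st.disj) (inW b hb' a hab.symm) ha
    · rcases hb' with hb' | hb'
      · exact (Finset.disjoint_left.mp st.disj) (inW a ha b hab) hb'
      · simp only [mem_insert, mem_singleton] at ha hb'
        rcases ha with rfl | rfl | rfl <;> rcases hb' with rfl | rfl | rfl
        · exact G.loopless.irrefl _ hab
        · exact axy hab
        · exact aqx hab.symm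
        · exact axy hab.symm
        · exact G.loopless.irrefl _ hab
        · exact aqy hab.symm
        · exact aqx hab
        · exact aqy hab
        · exact G.loopless.irrefl _ hab
  · intro hg
    apply commit hJ
    have e1 : ((D \ {x, y, q}).erase v).erase p = D \ {x, y, q, v, p} := by
      ext a
      simp only [mem_erase, mem_sdiff, mem_insert, mem_singleton]
      tauto
    refine peel (v := v) (by simp [hb.vD, hvx, hvy, hqv.symm]) (hL v) ?_ ?_
    · refine peel (v := p) (by simp [hb.pD, hpx, hpy, hpq, hpv]) (hL p) (by rw [e1]; exact hg) ?_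
      intro I _ _
      rw [e1]
      refine ⟨∅ ∪ (G.neighborFinset x).erase p ∪ (G.neighborFinset y).erase p, ?_, ?_⟩
      · refine le_trans (card_union_le _ _) ?_
        have h1 := er x p apx.symm
        have h2 := er y p apy.symm
        rw [Finset.empty_union]
        omega
      · refine nr_of_cov (a := v) (b := x) (c := y) hp.le ?_ ?_ ?_
        · apply cov_out (by simp)
          rw [hb.nb]
          intro c hc
          simp only [mem_inter, mem_sdiff, mem_insert, mem_singleton] at hc ⊢
          rcases hc with ⟨rfl | rfl | rfl, h1, h2⟩
          · exact absurd h1 hzD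
          · tauto
          · tauto
        · apply cov_out (by simp)
          intro c hc
          rw [mem_inter] at hc
          rw [mem_insert, mem_erase]
          by_cases hcp : c = p
          · exact Or.inl hcp
          · exact Or.inr ⟨hcp, hc.1⟩
        · apply cov_out (by simp)
          intro c hc
          rw [mem_inter] at hc
          rw [mem_insert, mem_erase]
          by_cases hcp : c = p
          · exact Or.inl hcp
          · exact Or.inr ⟨hcp, hc.1⟩
    · intro I _ _
      refine ⟨{s} ∪ {p} ∪ (G.neighborFinset q).erase v, ?_, ?_⟩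
      · refine le_trans (card_union_le _ _) ?_
        have h1 := er q v avq.symm
        have h2 : (({s} : Finset V) ∪ {p}).card ≤ 2 :=
          le_trans (card_union_le _ _) (by simp)
        omega
      · refine nr_of_cov (a := z) (b := p) (c := q) hb.nb.le ?_ ?_ ?_
        · apply cov_out
          · intro h
            simp only [mem_erase, mem_sdiff] at h
            exact hzD h.2.1
          · intro c hc
            rw [mem_inter] at hc
            have hcD : c ∈ D := by
              have := hc.2
              simp only [mem_erase, mem_sdiff] at this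
              exact this.2.1
            have : c ∈ G.neighborFinset z ∩ D := mem_inter.mpr ⟨hc.1, hcD⟩
            rw [hb.nz] at this
            simpa using this
        · intro w hw _ hwv h
          rcases h with rfl | h
          · simp
          · rw [mem, hp] at h
            simp only [mem_erase, mem_sdiff, mem_insert, mem_singleton] at hw h
            tauto
        · apply cov_out (by simp)
          intro c hc
          rw [mem_inter] at hc
          rw [mem_insert, mem_erase]
          by_cases hcp : c = v
          · exact Or.inl hcp
          · exact Or.inr ⟨hcp, hc.1⟩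

end Pool.Agent.E8B
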