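import Pool.Agent.E8B.Calc1

set_option autoImplicit false

namespace Pool.Agent.E8B

open Finset

universe u

variable {V : Type u} {β : Type*} [Fintype V] [DecidableEq V] {G : SimpleGraph V}
  [DecidableRel G.Adj] {L : V → Finset β}

private theorem RuleB_two {D' : Finset V} {x w : V} (h3 : (G.neighborFinset x).card ≤ 3)
    (hw : G.Adj x w) (hwD : w ∉ D') : (G.neighborFinset x ∩ D').card ≤ 2 := by
  have hsub : G.neighborFinset x ∩ D' ⊆ (G.neighborFinset x).erase w := by
    intro y hy
    rw [Finset.mem_inter] at hy
    rw [Finset.mem_erase]
    refine ⟨?_, hy.1⟩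
    rintro rfl
    exact hwD hy.2
  have hmem : w ∈ G.neighborFinset x := by rwa [SimpleGraph.mem_neighborFinset]
  have := Finset.card_le_card hsub
  rw [Finset.card_erase_of_mem hmem] at this
  omega

private theorem RuleB_peel {D' W : Finset V} {v : V} (hv : v ∉ D') (hL : 5 ≤ (L v).card)
    (h : Good G L D' W)
    (cnt : ∀ I, ∃ S : Finset V, S.card ≤ 4 ∧ Nr G D' I v S) : Good G L (insert v D') W := by
  refine peel (Finset.mem_insert_self _ _) hL ?_ ?_
  · rwa [Finset.erase_insert hv]
  · intro I _ _
    rw [Finset.erase_insert hv]
    exact cnt I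

omit [Fintype V] in
private theorem RuleB_card {A B C : Finset V} {n : ℕ} (h : A.card + B.card + C.card ≤ n) :
    (A ∪ B ∪ C).card ≤ n := by
  have h1 := Finset.card_union_le (A ∪ B) C
  have h2 := Finset.card_union_le A B
  omega

/-- Rule Bq. `v, v1` are different boundary vertices, both adjacent to `p`, `N(p) = {v, v1, f}`;
`f, q, q1` are inner, different and pairwise not adjacent:
`D1 = D \ {q, q1, f, p, v, v1}`, `W1 = W ∪ {q, q1, f}`: commit `q, q1, f`, peel `p` (last colour),
peel `v`, peel `v1`:
`peel v1` with `D' = D1`: `z1` contributes at most `s1`, `p ∉ D'` contributes nothing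
(`v, v1, f ∉ D'`), `q1 ∉ D'` contributes at most its two other neighbours.
`peel v` with `D' = insert v1 D1`: `z` contributes at most `s`, `p ∉ D'` contributes only `v1`,
`q ∉ D'` contributes at most its two other neighbours.
`peel p` with `D' = D1 ∪ {v, v1}`: `v` contributes only `v` (`z, q ∉ D'`), `v1` contributes only
`v1`, `f ∉ D'` contributes at most its two other neighbours. -/
theorem rule_bq {D W : Finset V} {v z p q s v1 z1 q1 s1 f : V}
    (h3 : ∀ x, (G.neighborFinset x).card ≤ 3)
    (hL : ∀ x, 5 ≤ (L x).card) (st : St G D W) (hb : Bd G D W v z p q s)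
    (hb1 : Bd G D W v1 z1 p q1 s1) (hp : G.neighborFinset p = {v, v1, f})
    (hf : Inn G D f) (hq : Inn G D q) (hq1 : Inn G D q1)
    (hv : v ≠ v1) (hqq : q ≠ q1) (hqf : q ≠ f) (hqf1 : q1 ≠ f)
    (aqq : ¬ G.Adj q q1) (aqf : ¬ G.Adj q f) (aqf1 : ¬ G.Adj q1 f) :
    ∃ D1 W1, Step G L D W D1 W1 := by
  have hDW : ∀ x, x ∈ D → x ∉ W := fun x hx hx' => Finset.disjoint_left.1 st.disj hx hx'
  -- adjacencies
  have avz : G.Adj v z := by
    rw [← SimpleGraph.mem_neighborFinset, hb.nb]
    simp
  have avp : G.Adj v p := by
    rw [← SimpleGraph.mem_neighborFinset, hb.nb]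
    simp
  have avq : G.Adj v q := by
    rw [← SimpleGraph.mem_neighborFinset, hb.nb]
    simp
  have avz1 : G.Adj v1 z1 := by
    rw [← SimpleGraph.mem_neighborFinset, hb1.nb]
    simp
  have avp1 : G.Adj v1 p := by
    rw [← SimpleGraph.mem_neighborFinset, hb1.nb]
    simp
  have avq1 : G.Adj v1 q1 := by
    rw [← SimpleGraph.mem_neighborFinset, hb1.nb]
    simp
  have apf : G.Adj p f := by
    rw [← SimpleGraph.mem_neighborFinset, hp]
    simp
  have hni : ∀ x, Inn G D x → x ≠ v ∧ x ≠ v1 := by
    intro x hx
    constructor
    · rintro rfl
      exact hDW z (hx.2 z avz) hb.zW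
    · rintro rfl
      exact hDW z1 (hx.2 z1 avz1) hb1.zW
  have nqv := hni q hq
  have nq1v := hni q1 hq1
  have nfv := hni f hf
  have npf : p ≠ f := apf.ne
  have nvp : v ≠ p := avp.ne
  have nv1p : v1 ≠ p := avp1.ne
  have npq := hb.pq
  have npq1 := hb1.pq
  have zD : z ∉ D := fun h => hDW z h hb.zW
  have z1D : z1 ∉ D := fun h => hDW z1 h hb1.zW
  set T : Finset V := {q, q1, f, p, v, v1} with hT
  set J : Finset V := {q, q1, f} with hJ
  have hmT : ∀ x, x ∈ T ↔ x = q ∨ x = q1 ∨ x = f ∨ x = p ∨ x = v ∨ x = v1 := by
    intro x
    rw [hT]
    simp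
  have hmJ : ∀ x, x ∈ J ↔ x = q ∨ x = q1 ∨ x = f := by
    intro x
    rw [hJ]
    simp
  refine ⟨D \ T, W ∪ J, ⟨?_, ⟨?_, ?_, ?_⟩, ?_⟩⟩
  · refine Finset.ssubset_iff_subset_ne.2 ⟨Finset.sdiff_subset, ?_⟩
    intro h
    have : q ∈ D \ T := by
      rw [h]
      exact hq.1
    rw [Finset.mem_sdiff, hmT] at this
    tauto
  · rw [Finset.disjoint_left]
    intro x hx hx'
    rw [Finset.mem_sdiff, hmT] at hx
    rw [Finset.mem_union, hmJ] at hx'
    rcases hx' with hx' | hx'
    · exact hDW x hx.1 hx'
    · tauto
  · have hinn : ∀ x, x ∈ J → Inn G D x := by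
      intro x hx
      rw [hmJ] at hx
      rcases hx with rfl | rfl | rfl
      · exact hq
      · exact hq1
      · exact hf
    have hWJ : ∀ x ∈ W, ∀ y ∈ J, ¬ G.Adj y x := fun x hx y hy h =>
      hDW x ((hinn y hy).2 x h) hx
    intro x hx y hy h
    rw [Finset.mem_union] at hx hy
    rcases hx with hx | hx
    · rcases hy with hy | hy
      · exact st.ind x hx y hy h
      · exact hWJ x hx y hy h.symm
    · rcases hy with hy | hy
      · exact hWJ y hy x hx h
      · rw [hmJ] at hx hy
        rcases hx with rfl | rfl | rfl <;> rcases hy with rfl | rfl | rfl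
        · exact G.loopless.irrefl _ h
        · exact aqq h
        · exact aqf h
        · exact aqq h.symm
        · exact G.loopless.irrefl _ h
        · exact aqf1 h
        · exact aqf h.symm
        · exact aqf1 h.symm
        · exact G.loopless.irrefl _ h
  · refine st.inv.sdiff fun x hx _ => ?_
    have hout : ∀ w, w ∈ T → w ∉ D \ T := fun w hw h => (Finset.mem_sdiff.1 h).2 hw
    rw [hmT] at hx
    rcases hx with rfl | rfl | rfl | rfl | rfl | rfl
    · exact RuleB_two (h3 _) avq.symm (hout _ (by rw [hmT]; tauto))
    · exact RuleB_two (h3 _) avq1.symm (hout _ (by rw [hmT]; tauto))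
    · exact RuleB_two (h3 _) apf.symm (hout _ (by rw [hmT]; tauto))
    · exact RuleB_two (h3 _) avp.symm (hout _ (by rw [hmT]; tauto))
    · exact RuleB_two (h3 _) avp (hout _ (by rw [hmT]; tauto))
    · exact RuleB_two (h3 _) avp1 (hout _ (by rw [hmT]; tauto))
  · intro hgood
    set D1 := D \ T with hD1
    have hm1 : ∀ x, x ∈ D1 ↔ x ∈ D ∧ ¬ (x = q ∨ x = q1 ∨ x = f ∨ x = p ∨ x = v ∨ x = v1) := by
      intro x
      rw [hD1, Finset.mem_sdiff, hmT]
    -- peel v1
    have g1 : Good G L (insert v1 D1) (W ∪ J) := by
      refine RuleB_peel (fun h => ?_) (hL _) hgood ?_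
      · rw [hm1] at h
        tauto
      · intro I
        refine ⟨{s1} ∪ ∅ ∪ (G.neighborFinset q1 ∩ D1), RuleB_card ?_, ?_⟩
        · have : (G.neighborFinset q1 ∩ D1).card ≤ 2 :=
            RuleB_two (h3 _) avq1.symm (fun h => by rw [hm1] at h; tauto)
          rw [Finset.card_singleton, Finset.card_empty]
          omega
        · refine nr_of_cov (a := z1) (b := p) (c := q1) (by rw [hb1.nb]) ?_ ?_ ?_
          · refine cov_out (fun h => z1D ((hm1 _).1 h).1) ?_
            intro x hx
            rw [Finset.mem_inter] at hx
            have : x ∈ G.neighborFinset z1 ∩ D := Finset.mem_inter.2 ⟨hx.1, ((hm1 _).1 hx.2).1⟩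
            rwa [hb1.nz] at this
          · refine cov_out (fun h => by rw [hm1] at h; tauto) ?_
            intro x hx
            rw [Finset.mem_inter, hp, hm1] at hx
            simp only [Finset.mem_insert, Finset.mem_singleton] at hx
            tauto
          · exact cov_out (fun h => by rw [hm1] at h; tauto) (Finset.subset_insert _ _)
    have hm2 : ∀ x, x ∈ insert v1 D1 ↔ x = v1 ∨ x ∈ D ∧ ¬ (x = q ∨ x = q1 ∨ x = f ∨ x = p ∨
        x = v ∨ x = v1) := by
      intro x
      rw [Finset.mem_insert, hm1]
    -- peel v
    have g2 : Good G L (insert v (insert v1 D1)) (W ∪ J) := by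
      refine RuleB_peel (fun h => ?_) (hL _) g1 ?_
      · rw [hm2] at h
        tauto
      · intro I
        refine ⟨{s} ∪ {v1} ∪ (G.neighborFinset q ∩ insert v1 D1), RuleB_card ?_, ?_⟩
        · have : (G.neighborFinset q ∩ insert v1 D1).card ≤ 2 :=
            RuleB_two (h3 _) avq.symm (fun h => by rw [hm2] at h; tauto)
          rw [Finset.card_singleton, Finset.card_singleton]
          omega
        · refine nr_of_cov (a := z) (b := p) (c := q) (by rw [hb.nb]) ?_ ?_ ?_
          · refine cov_out (fun h => ?_) ?_
            · rw [hm2] at h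
              rcases h with h | h
              · exact zD (h ▸ hb1.vD)
              · exact zD h.1
            · intro x hx
              rw [Finset.mem_inter, hm2] at hx
              have : x ∈ G.neighborFinset z ∩ D := by
                refine Finset.mem_inter.2 ⟨hx.1, ?_⟩
                rcases hx.2 with h | h
                · exact h ▸ hb1.vD
                · exact h.1
              rwa [hb.nz] at this
          · refine cov_out (fun h => ?_) ?_
            · rw [hm2] at h
              rcases h with h | h
              · exact nv1p h.symm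
              · tauto
            · intro x hx
              rw [Finset.mem_inter, hp, hm2] at hx
              simp only [Finset.mem_insert, Finset.mem_singleton] at hx ⊢
              tauto
          · refine cov_out (fun h => ?_) (Finset.subset_insert _ _)
            rw [hm2] at h
            tauto
    have hm3 : ∀ x, x ∈ insert v (insert v1 D1) ↔ x = v ∨ x = v1 ∨ x ∈ D ∧ ¬ (x = q ∨ x = q1 ∨
        x = f ∨ x = p ∨ x = v ∨ x = v1) := by
      intro x
      rw [Finset.mem_insert, hm2]
    -- peel p
    have g3 : Good G L (insert p (insert v (insert v1 D1))) (W ∪ J) := by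
      refine RuleB_peel (fun h => ?_) (hL _) g2 ?_
      · rw [hm3] at h
        rcases h with h | h | h
        · exact nvp h.symm
        · exact nv1p h.symm
        · tauto
      · intro I
        refine ⟨{v} ∪ {v1} ∪ (G.neighborFinset f ∩ insert v (insert v1 D1)), RuleB_card ?_, ?_⟩
        · have : (G.neighborFinset f ∩ insert v (insert v1 D1)).card ≤ 2 :=
            RuleB_two (h3 _) apf.symm (fun h => by
              rw [hm3] at h
              rcases h with h | h | h
              · exact nvp h.symm
              · exact nv1p h.symm
              · tauto)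
          rw [Finset.card_singleton, Finset.card_singleton]
          omega
        · refine nr_of_cov (a := v) (b := v1) (c := f) (by rw [hp]) ?_ ?_ ?_
          · intro w hw _ hwp hwv
            rcases hwv with rfl | hwv
            · exact Finset.mem_singleton_self _
            · exfalso
              rw [← SimpleGraph.mem_neighborFinset, hb.nb] at hwv
              simp only [Finset.mem_insert, Finset.mem_singleton] at hwv
              rw [hm3] at hw
              rcases hwv with rfl | rfl | rfl
              · rcases hw with h | h | h
                · exact zD (h ▸ hb.vD)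
                · exact zD (h ▸ hb1.vD)
                · exact zD h.1
              · exact hwp rfl
              · rcases hw with h | h | h
                · exact nqv.1 h
                · exact nqv.2 h
                · tauto
          · intro w hw _ hwp hwv
            rcases hwv with rfl | hwv
            · exact Finset.mem_singleton_self _
            · exfalso
              rw [← SimpleGraph.mem_neighborFinset, hb1.nb] at hwv
              simp only [Finset.mem_insert, Finset.mem_singleton] at hwv
              rw [hm3] at hw
              rcases hwv with rfl | rfl | rfl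
              · rcases hw with h | h | h
                · exact z1D (h ▸ hb.vD)
                · exact z1D (h ▸ hb1.vD)
                · exact z1D h.1
              · exact hwp rfl
              · rcases hw with h | h | h
                · exact nq1v.1 h
                · exact nq1v.2 h
                · tauto
          · refine cov_out (fun h => ?_) (Finset.subset_insert _ _)
            rw [hm3] at h
            rcases h with h | h | h
            · exact nfv.1 h
            · exact nfv.2 h
            · tauto
    -- commit
    have hJD : J ⊆ D := by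
      intro x hx
      rw [hmJ] at hx
      rcases hx with rfl | rfl | rfl
      · exact hq.1
      · exact hq1.1
      · exact hf.1
    refine commit hJD ?_
    have heq : D \ J = insert p (insert v (insert v1 D1)) := by
      ext x
      rw [Finset.mem_sdiff, hmJ, Finset.mem_insert, hm3]
      constructor
      · rintro ⟨h1, h2⟩
        tauto
      · rintro (h | h | h | h)
        · subst h
          refine ⟨hb.pD, ?_⟩
          rintro (h | h | h)
          · exact npq h
          · exact npq1 h
          · exact npf h
        · subst h
          refine ⟨hb.vD, ?_⟩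
          rintro (h | h | h)
          · exact nqv.1 h.symm
          · exact nq1v.1 h.symm
          · exact nfv.1 h.symm
        · subst h
          refine ⟨hb1.vD, ?_⟩
          rintro (h | h | h)
          · exact nqv.2 h.symm
          · exact nq1v.2 h.symm
          · exact nfv.2 h.symm
        · tauto
    rw [heq]
    exact g3

end Pool.Agent.E8B
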