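import Pool.Agent.E8B.Calc2

set_option autoImplicit false

namespace Pool.Agent.E8B

open Finset

universe u

variable {V : Type u} {β : Type*} [Fintype V] [DecidableEq V] {G : SimpleGraph V}
  [DecidableRel G.Adj] {L : V → Finset β}

omit [Fintype V] [DecidableRel G.Adj] in
private theorem rulek_cov {D' I : Finset V} {v x : V} {S : Finset V}
    (h : ∀ w ∈ D', w ≠ v → w = x ∨ G.Adj x w → w ∈ S) : Cov G D' I v x S :=
  fun w hw _ hne hx => h w hw hne hx

/-- Rule K8. The eight vertices `p, q, r, f` (inner) and `v, v1, v3, v4` (boundary) with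
`N(p) = {v, v1, f}`, `N(q) = {v, v3, r}`, `N(r) = {v1, v4, q}`, `N(f) = {v3, v4, p}`, and the
siblings of `v` and `v4` are different (`s ≠ v4`):
`D1 = D \ {p, q, r, f, v, v1, v3, v4}`, `W1 = W ∪ {p, q}`.
Proof: commit `p, q`; then `peel4` with `k1 = v`, `k2 = f`, `k3 = v4`, `k4 = r`; then peel `v1`,
peel `v3` (the first colours), that is
`Good D1 W1 → Good (insert v3 D1) W1`: `N(v3) = {z3, q, f}`: `z3` contributes at most `s3`, `q ∉ D'`
contributes nothing (`v, v3, r ∉ D'`), `f ∉ D'` contributes nothing.
`→ Good (D1 ∪ {v1, v3}) W1`: `N(v1) = {z1, p, r}`: `z1` contributes at most `s1`, `p` and `r`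
contribute nothing.
`→ Good (D1 ∪ {v1, v3, v, f, v4, r}) W1` by `peel4` with `D' = D1 ∪ {v1, v3}`: all four are
adjacent to `W1` (`v ~ z`, `f ~ p`, `v4 ~ z4`, `r ~ q`); `¬ Near v v4`: `N(v) = {z, p, q}` and
`N(v4) = {z4, r, f}` are disjoint, since `z = z4` would give `v4 ∈ N(z) ∩ D = {v, s}`.
In `D'` near to `v`: only `s` (by `z`), `v1` (by `p`), `v3` (by `q`): at most `3`.
Near to `v4`: `s4`, `v1` (by `r`), `v3` (by `f`): at most `3`.
Near to `f`: `v3` (adjacent), by `v3`: nothing (`z3, q ∉ D'`), by `v4`: nothing, by `p`: `v1`: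
at most `{v1, v3}`, two. Near to `r`: `v1`, by `q`: `v3`: at most two.
`→ Good D W` by `commit`. -/
theorem rule_k8 {D W : Finset V} {p q r f v v1 v3 v4 z z1 z3 z4 s s1 s3 s4 : V}
    (h3 : ∀ x, (G.neighborFinset x).card ≤ 3)
    (hL : ∀ x, 5 ≤ (L x).card) (st : St G D W)
    (hnd : [p, q, r, f, v, v1, v3, v4].Nodup)
    (hp : G.neighborFinset p = {v, v1, f}) (hq : G.neighborFinset q = {v, v3, r})
    (hr : G.neighborFinset r = {v1, v4, q}) (hf : G.neighborFinset f = {v3, v4, p})
    (pD : Inn G D p) (qD : Inn G D q) (rD : Inn G D r) (fD : Inn G D f)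
    (b : Bd G D W v z p q s) (b1 : Bd G D W v1 z1 p r s1) (b3 : Bd G D W v3 z3 q f s3)
    (b4 : Bd G D W v4 z4 r f s4) (hs : s ≠ v4) : ∃ D1 W1, Step G L D W D1 W1 := by
  have _ := h3
  have hnot : ∀ x ∈ W, x ∉ D := fun x hx hx' => Finset.disjoint_left.1 st.disj hx' hx
  have ap : ∀ y, G.Adj p y ↔ y = v ∨ y = v1 ∨ y = f := fun y => by
    rw [← G.mem_neighborFinset, hp]; simp
  have aq : ∀ y, G.Adj q y ↔ y = v ∨ y = v3 ∨ y = r := fun y => by
    rw [← G.mem_neighborFinset, hq]; simp
  have ar : ∀ y, G.Adj r y ↔ y = v1 ∨ y = v4 ∨ y = q := fun y => by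
    rw [← G.mem_neighborFinset, hr]; simp
  have af : ∀ y, G.Adj f y ↔ y = v3 ∨ y = v4 ∨ y = p := fun y => by
    rw [← G.mem_neighborFinset, hf]; simp
  have av : ∀ y, G.Adj v y ↔ y = z ∨ y = p ∨ y = q := fun y => by
    rw [← G.mem_neighborFinset, b.nb]; simp
  have av1 : ∀ y, G.Adj v1 y ↔ y = z1 ∨ y = p ∨ y = r := fun y => by
    rw [← G.mem_neighborFinset, b1.nb]; simp
  have av3 : ∀ y, G.Adj v3 y ↔ y = z3 ∨ y = q ∨ y = f := fun y => by
    rw [← G.mem_neighborFinset, b3.nb]; simp
  have av4 : ∀ y, G.Adj v4 y ↔ y = z4 ∨ y = r ∨ y = f := fun y => by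
    rw [← G.mem_neighborFinset, b4.nb]; simp
  have az : ∀ y ∈ D, G.Adj z y → y = v ∨ y = s := fun y hy h => by
    have : y ∈ G.neighborFinset z ∩ D := by simp [hy, h]
    rw [b.nz] at this; simpa using this
  have az1 : ∀ y ∈ D, G.Adj z1 y → y = v1 ∨ y = s1 := fun y hy h => by
    have : y ∈ G.neighborFinset z1 ∩ D := by simp [hy, h]
    rw [b1.nz] at this; simpa using this
  have az3 : ∀ y ∈ D, G.Adj z3 y → y = v3 ∨ y = s3 := fun y hy h => by
    have : y ∈ G.neighborFinset z3 ∩ D := by simp [hy, h]
    rw [b3.nz] at this; simpa using this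
  have az4 : ∀ y ∈ D, G.Adj z4 y → y = v4 ∨ y = s4 := fun y hy h => by
    have : y ∈ G.neighborFinset z4 ∩ D := by simp [hy, h]
    rw [b4.nz] at this; simpa using this
  have nz : ∀ w ∈ D, w ≠ z := fun w hw h => hnot z b.zW (h ▸ hw)
  have nz1 : ∀ w ∈ D, w ≠ z1 := fun w hw h => hnot z1 b1.zW (h ▸ hw)
  have nz3 : ∀ w ∈ D, w ≠ z3 := fun w hw h => hnot z3 b3.zW (h ▸ hw)
  have nz4 : ∀ w ∈ D, w ≠ z4 := fun w hw h => hnot z4 b4.zW (h ▸ hw)
  simp only [List.nodup_cons, List.mem_cons, List.not_mem_nil, not_or, or_false, not_false_eq_true,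
    List.nodup_nil, and_true] at hnd
  obtain ⟨⟨pq', pr', pf', pv, pv1, pv3, pv4⟩, ⟨qr', qf', qv, qv1, qv3, qv4⟩,
    ⟨rf', rv, rv1, rv3, rv4⟩, ⟨fv, fv1, fv3, fv4⟩, ⟨vv1, vv3, vv4⟩, ⟨v13, v14⟩, v34⟩ := hnd
  have mem4 : ∀ w, w ∈ (D \ {p, q}) \ {v, f, v4, r} ↔
      w ∈ D ∧ w ≠ p ∧ w ≠ q ∧ w ≠ v ∧ w ≠ f ∧ w ≠ v4 ∧ w ≠ r := by
    intro w
    simp only [Finset.mem_sdiff, Finset.mem_insert, Finset.mem_singleton, not_or]
    tauto
  refine ⟨D \ {p, q, r, f, v, v1, v3, v4}, W ∪ {p, q}, ?_, ?_, ?_⟩
  · -- strict subset
    rw [Finset.ssubset_iff_of_subset Finset.sdiff_subset]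
    exact ⟨p, pD.1, by simp⟩
  · -- the state
    refine ⟨?_, ?_, ?_⟩
    · rw [Finset.disjoint_left]
      intro x hx hx'
      simp only [Finset.mem_sdiff, Finset.mem_insert, Finset.mem_singleton, not_or] at hx
      simp only [Finset.mem_union, Finset.mem_insert, Finset.mem_singleton] at hx'
      rcases hx' with h | h | h
      · exact hnot x h hx.1
      · exact hx.2.1 h
      · exact hx.2.2.1 h
    · intro x hx y hy hxy
      simp only [Finset.mem_union, Finset.mem_insert, Finset.mem_singleton] at hx hy
      have hpW : ∀ y ∈ W, ¬ G.Adj p y := fun y hy h => hnot y hy (pD.2 y h)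
      have hqW : ∀ y ∈ W, ¬ G.Adj q y := fun y hy h => hnot y hy (qD.2 y h)
      have hpq : ¬ G.Adj p q := by
        rw [ap]
        rintro (h | h | h)
        · exact qv h
        · exact qv1 h
        · exact qf' h
      rcases hx with hx | rfl | rfl
      · rcases hy with hy | rfl | rfl
        · exact st.ind x hx y hy hxy
        · exact hpW x hx hxy.symm
        · exact hqW x hx hxy.symm
      · rcases hy with hy | rfl | rfl
        · exact hpW y hy hxy
        · exact G.loopless.irrefl _ hxy
        · exact hpq hxy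
      · rcases hy with hy | rfl | rfl
        · exact hqW y hy hxy
        · exact hpq hxy.symm
        · exact G.loopless.irrefl _ hxy
    · refine Inv.sdiff st.inv ?_
      intro x hx _
      have hempty : G.neighborFinset x ∩ (D \ {p, q, r, f, v, v1, v3, v4}) = ∅ := by
        rw [Finset.eq_empty_iff_forall_notMem]
        intro w hw
        simp only [Finset.mem_inter, G.mem_neighborFinset, Finset.mem_sdiff, Finset.mem_insert,
          Finset.mem_singleton, not_or] at hw
        obtain ⟨hxw, hwD, h⟩ := hw
        have n0 := nz w hwD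
        have n1 := nz1 w hwD
        have n3 := nz3 w hwD
        have n4 := nz4 w hwD
        simp only [Finset.mem_insert, Finset.mem_singleton] at hx
        rcases hx with rfl | rfl | rfl | rfl | rfl | rfl | rfl | rfl
        · rw [ap] at hxw; tauto
        · rw [aq] at hxw; tauto
        · rw [ar] at hxw; tauto
        · rw [af] at hxw; tauto
        · rw [av] at hxw; tauto
        · rw [av1] at hxw; tauto
        · rw [av3] at hxw; tauto
        · rw [av4] at hxw; tauto
      rw [hempty]
      simp
  · intro hgood
    have c1 : ∀ a : V, ({a} : Finset V).card = 1 := fun a => Finset.card_singleton a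
    refine commit (J := {p, q}) ?_ ?_
    · intro x hx
      simp only [Finset.mem_insert, Finset.mem_singleton] at hx
      rcases hx with rfl | rfl
      · exact pD.1
      · exact qD.1
    refine peel4 (k1 := v) (k2 := f) (k3 := v4) (k4 := r) hL ?_ ?_ ?_ ?_ ?_ ?_
    · simp only [List.nodup_cons, List.mem_cons, List.not_mem_nil, not_or, or_false,
        not_false_eq_true, List.nodup_nil, and_true]
      exact ⟨⟨Ne.symm fv, vv4, Ne.symm rv⟩, ⟨fv4, Ne.symm rf'⟩, Ne.symm rv4⟩
    · intro k hk
      simp only [List.mem_cons, List.not_mem_nil, or_false] at hk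
      simp only [Finset.mem_sdiff, Finset.mem_insert, Finset.mem_singleton, not_or]
      rcases hk with rfl | rfl | rfl | rfl
      · exact ⟨b.vD, Ne.symm pv, Ne.symm qv⟩
      · exact ⟨fD.1, Ne.symm pf', Ne.symm qf'⟩
      · exact ⟨b4.vD, Ne.symm pv4, Ne.symm qv4⟩
      · exact ⟨rD.1, Ne.symm pr', Ne.symm qr'⟩
    · intro k hk
      simp only [List.mem_cons, List.not_mem_nil, or_false] at hk
      rcases hk with rfl | rfl | rfl | rfl
      · exact ⟨p, by simp, by rw [av]; simp⟩
      · exact ⟨p, by simp, by rw [af]; simp⟩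
      · exact ⟨z4, by simp [b4.zW], by rw [av4]; simp⟩
      · exact ⟨q, by simp, by rw [ar]; simp⟩
    · rintro ⟨_, h | ⟨w, h1, h2⟩⟩
      · rw [av] at h
        have := nz v4 b4.vD
        rcases h with h | h | h
        · exact this h
        · exact pv4 h.symm
        · exact qv4 h.symm
      · rw [av] at h1
        rcases h1 with rfl | rfl | rfl
        · rcases az v4 b4.vD h2 with h | h
          · exact vv4 h.symm
          · exact hs h.symm
        · rw [ap] at h2
          rcases h2 with h | h | h
          · exact vv4 h.symm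
          · exact v14 h.symm
          · exact fv4 h.symm
        · rw [aq] at h2
          rcases h2 with h | h | h
          · exact vv4 h.symm
          · exact v34 h.symm
          · exact rv4 h.symm
    · refine peel (v := v1) ?_ (hL v1) ?_ ?_
      · rw [mem4]
        exact ⟨b1.vD, Ne.symm pv1, Ne.symm qv1, Ne.symm vv1, Ne.symm fv1, v14, Ne.symm rv1⟩
      · refine peel (v := v3) ?_ (hL v3) ?_ ?_
        · rw [Finset.mem_erase, mem4]
          exact ⟨Ne.symm v13, b3.vD, Ne.symm pv3, Ne.symm qv3, Ne.symm vv3, Ne.symm fv3, v34,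
            Ne.symm rv3⟩
        · have e : ((((D \ {p, q}) \ {v, f, v4, r}).erase v1).erase v3) =
              D \ {p, q, r, f, v, v1, v3, v4} := by
            ext w
            rw [Finset.mem_erase, Finset.mem_erase, mem4]
            simp only [Finset.mem_sdiff, Finset.mem_insert, Finset.mem_singleton, not_or]
            tauto
          rw [e]
          exact hgood
        · intro I _ _
          refine ⟨{s3} ∪ ∅ ∪ ∅, by simp, nr_of_cov (a := z3) (b := q) (c := f) (by rw [b3.nb])
            ?_ ?_ ?_⟩
          · refine rulek_cov fun w hw hne h => ?_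
            rw [Finset.mem_erase, Finset.mem_erase, mem4] at hw
            have n3 := nz3 w hw.2.2.1
            rw [Finset.mem_singleton]
            rcases h with h | h
            · exact absurd h n3
            · have := az3 w hw.2.2.1 h
              tauto
          · refine rulek_cov fun w hw hne h => ?_
            rw [Finset.mem_erase, Finset.mem_erase, mem4] at hw
            rw [aq] at h
            exfalso
            tauto
          · refine rulek_cov fun w hw hne h => ?_
            rw [Finset.mem_erase, Finset.mem_erase, mem4] at hw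
            rw [af] at h
            exfalso
            tauto
      · intro I _ _
        refine ⟨{s1} ∪ ∅ ∪ ∅, by simp, nr_of_cov (a := z1) (b := p) (c := r) (by rw [b1.nb])
          ?_ ?_ ?_⟩
        · refine rulek_cov fun w hw hne h => ?_
          rw [Finset.mem_erase, mem4] at hw
          have n1 := nz1 w hw.2.1
          rw [Finset.mem_singleton]
          rcases h with h | h
          · exact absurd h n1
          · have := az1 w hw.2.1 h
            tauto
        · refine rulek_cov fun w hw hne h => ?_
          rw [Finset.mem_erase, mem4] at hw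
          rw [ap] at h
          exfalso
          tauto
        · refine rulek_cov fun w hw hne h => ?_
          rw [Finset.mem_erase, mem4] at hw
          rw [ar] at h
          exfalso
          tauto
    · intro I _
      refine ⟨⟨{s} ∪ {v1} ∪ {v3}, ?_, nr_of_cov (a := z) (b := p) (c := q) (by rw [b.nb])
          ?_ ?_ ?_⟩, ⟨{s4} ∪ {v1} ∪ {v3}, ?_, nr_of_cov (a := z4) (b := r) (c := f) (by rw [b4.nb])
          ?_ ?_ ?_⟩, ⟨{v3} ∪ ∅ ∪ {v1}, ?_, ?_, nr_of_cov (a := v3) (b := v4) (c := p) (by rw [hf])
          ?_ ?_ ?_⟩, ⟨{v1} ∪ ∅ ∪ {v3}, ?_, ?_, nr_of_cov (a := v1) (b := v4) (c := q) (by rw [hr])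
          ?_ ?_ ?_⟩⟩
      · have h1 := Finset.card_union_le (({s} : Finset V) ∪ {v1}) {v3}
        have h2 := Finset.card_union_le ({s} : Finset V) {v1}
        rw [c1] at h1
        rw [c1, c1] at h2
        omega
      · refine rulek_cov fun w hw hne h => ?_
        rw [mem4] at hw
        have n0 := nz w hw.1
        rw [Finset.mem_singleton]
        rcases h with h | h
        · exact absurd h n0
        · have := az w hw.1 h
          tauto
      · refine rulek_cov fun w hw hne h => ?_
        rw [mem4] at hw
        rw [ap] at h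
        rw [Finset.mem_singleton]
        tauto
      · refine rulek_cov fun w hw hne h => ?_
        rw [mem4] at hw
        rw [aq] at h
        rw [Finset.mem_singleton]
        tauto
      · have h1 := Finset.card_union_le (({s4} : Finset V) ∪ {v1}) {v3}
        have h2 := Finset.card_union_le ({s4} : Finset V) {v1}
        rw [c1] at h1
        rw [c1, c1] at h2
        omega
      · refine rulek_cov fun w hw hne h => ?_
        rw [mem4] at hw
        have n4 := nz4 w hw.1
        rw [Finset.mem_singleton]
        rcases h with h | h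
        · exact absurd h n4
        · have := az4 w hw.1 h
          tauto
      · refine rulek_cov fun w hw hne h => ?_
        rw [mem4] at hw
        rw [ar] at h
        rw [Finset.mem_singleton]
        tauto
      · refine rulek_cov fun w hw hne h => ?_
        rw [mem4] at hw
        rw [af] at h
        rw [Finset.mem_singleton]
        tauto
      · have h1 := Finset.card_union_le (({v3} : Finset V) ∪ ∅) {v1}
        rw [Finset.union_empty, c1, c1] at h1
        rw [Finset.union_empty]
        omega
      · intro _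
        have h1 := Finset.card_union_le (({v3} : Finset V) ∪ ∅) {v1}
        rw [Finset.union_empty, c1, c1] at h1
        rw [Finset.union_empty]
        omega
      · refine rulek_cov fun w hw hne h => ?_
        rw [mem4] at hw
        have n3 := nz3 w hw.1
        rw [av3] at h
        rw [Finset.mem_singleton]
        tauto
      · refine rulek_cov fun w hw hne h => ?_
        rw [mem4] at hw
        have n4 := nz4 w hw.1
        rw [av4] at h
        exfalso
        tauto
      · refine rulek_cov fun w hw hne h => ?_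
        rw [mem4] at hw
        rw [ap] at h
        rw [Finset.mem_singleton]
        tauto
      · have h1 := Finset.card_union_le (({v1} : Finset V) ∪ ∅) {v3}
        rw [Finset.union_empty, c1, c1] at h1
        rw [Finset.union_empty]
        omega
      · intro _
        have h1 := Finset.card_union_le (({v1} : Finset V) ∪ ∅) {v3}
        rw [Finset.union_empty, c1, c1] at h1
        rw [Finset.union_empty]
        omega
      · refine rulek_cov fun w hw hne h => ?_
        rw [mem4] at hw
        have n1 := nz1 w hw.1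
        rw [av1] at h
        rw [Finset.mem_singleton]
        tauto
      · refine rulek_cov fun w hw hne h => ?_
        rw [mem4] at hw
        have n4 := nz4 w hw.1
        rw [av4] at h
        exfalso
        tauto
      · refine rulek_cov fun w hw hne h => ?_
        rw [mem4] at hw
        rw [aq] at h
        rw [Finset.mem_singleton]
        tauto

end Pool.Agent.E8B
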