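import Pool.Agent.E8B.Calc1

set_option autoImplicit false

namespace Pool.Agent.E8B

open Finset

universe u

variable {V : Type u} {β : Type*} [Fintype V] [DecidableEq V] {G : SimpleGraph V}
  [DecidableRel G.Adj] {L : V → Finset β}

/-- Rule P. `N(p) = {v, x, y}` with `x ~ y`; `x` and `q` are inner, different and not adjacent:
`D1 = D \ {x, q, p, v}`, `W1 = W ∪ {x, q}`: commit `x, q`, peel `p` (last colour), peel `v`:
`peel v` with `D' = D \ {x, q, p, v}`: `z` contributes at most `s`, `p ∉ D'` contributes at most
`y`, `q ∉ D'` contributes at most its two neighbours different from `v`.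
`peel p` with `D' = D \ {x, q, p}`: `v ∈ D'` contributes only `v` (`z, q ∉ D'`), `x ∉ D'`
contributes at most `y` and its third neighbour `x'`, `y` contributes at most `y` and its third
neighbour `y'` (`p, x ∉ D'`): together at most `{v, y, x', y'}`. -/
theorem rule_ptri {D W : Finset V} {v z p q s x y : V}
    (h3 : ∀ x, (G.neighborFinset x).card ≤ 3)
    (hL : ∀ x, 5 ≤ (L x).card) (st : St G D W) (hb : Bd G D W v z p q s)
    (hp : G.neighborFinset p = {v, x, y}) (hx : Inn G D x) (hq : Inn G D q)
    (hxy : G.Adj x y) (hqx : ¬ G.Adj q x) (hqx' : q ≠ x) (hvx : v ≠ x) (hvy : v ≠ y) :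
    ∃ D1 W1, Step G L D W D1 W1 := by
  have hvz : G.Adj v z := by
    rw [← SimpleGraph.mem_neighborFinset, hb.nb]; simp
  have hvp : G.Adj v p := by
    rw [← SimpleGraph.mem_neighborFinset, hb.nb]; simp
  have hvq : G.Adj v q := by
    rw [← SimpleGraph.mem_neighborFinset, hb.nb]; simp
  have hpx : G.Adj p x := by
    rw [← SimpleGraph.mem_neighborFinset, hp]; simp
  have hpy : G.Adj p y := by
    rw [← SimpleGraph.mem_neighborFinset, hp]; simp
  have hzD : z ∉ D := fun h => (Finset.disjoint_left.mp st.disj h) hb.zW
  have hJ : ({x, q} : Finset V) ⊆ D := by
    intro w hw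
    simp only [mem_insert, mem_singleton] at hw
    rcases hw with rfl | rfl
    · exact hx.1
    · exact hb.qD
  have hnotW : ∀ w, w ∈ D → w ∉ W := fun w h => Finset.disjoint_left.mp st.disj h
  have hxW : ∀ w ∈ W, ¬ G.Adj x w := fun w hw h => hnotW w (hx.2 w h) hw
  have hqW : ∀ w ∈ W, ¬ G.Adj q w := fun w hw h => hnotW w (hq.2 w h) hw
  have hqe : ((G.neighborFinset q).erase v).card ≤ 2 := by
    rw [Finset.card_erase_of_mem (by simpa using hvq.symm)]
    have := h3 q
    omega
  have hxe : ((G.neighborFinset x).erase p).card ≤ 2 := by
    rw [Finset.card_erase_of_mem (by simpa using hpx.symm)]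
    have := h3 x
    omega
  have hye : (((G.neighborFinset y).erase p).erase x).card ≤ 1 := by
    rw [Finset.card_erase_of_mem, Finset.card_erase_of_mem]
    · have := h3 y
      omega
    · simpa using hpy.symm
    · simp only [mem_erase, ne_eq, SimpleGraph.mem_neighborFinset]
      exact ⟨hpx.ne', hxy.symm⟩
  refine ⟨D \ {x, q, p, v}, W ∪ {x, q}, ⟨?_, ⟨?_, ?_, ?_⟩, ?_⟩⟩
  · refine Finset.ssubset_iff_subset_ne.mpr ⟨Finset.sdiff_subset, ?_⟩
    intro h
    have : v ∈ D \ {x, q, p, v} := by rw [h]; exact hb.vD
    simp at this
  · rw [Finset.disjoint_left]
    intro w hw hw'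
    simp only [mem_sdiff, mem_insert, mem_singleton, mem_union, not_or] at hw hw'
    rcases hw' with h | h | h
    · exact hnotW w hw.1 h
    · exact hw.2.1 h
    · exact hw.2.2.1 h
  · intro a ha b hb' hab
    simp only [mem_union, mem_insert, mem_singleton] at ha hb'
    rcases ha with ha | rfl | rfl
    · rcases hb' with hb' | rfl | rfl
      · exact st.ind a ha b hb' hab
      · exact hxW a ha hab.symm
      · exact hqW a ha hab.symm
    · rcases hb' with hb' | rfl | rfl
      · exact hxW b hb' hab
      · exact hab.ne rfl
      · exact hqx hab.symm
    · rcases hb' with hb' | rfl | rfl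
      · exact hqW b hb' hab
      · exact hqx hab
      · exact hab.ne rfl
  · refine st.inv.sdiff ?_
    intro w hw hwD
    simp only [mem_insert, mem_singleton] at hw
    rcases hw with rfl | rfl | rfl | rfl
    · refine (Finset.card_le_card ?_).trans hxe
      intro a ha
      simp only [mem_inter, mem_sdiff, mem_insert, mem_singleton, not_or] at ha
      exact mem_erase.mpr ⟨ha.2.2.2.2.1, ha.1⟩
    · refine (Finset.card_le_card ?_).trans hqe
      intro a ha
      simp only [mem_inter, mem_sdiff, mem_insert, mem_singleton, not_or] at ha
      exact mem_erase.mpr ⟨ha.2.2.2.2.2, ha.1⟩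
    · have : G.neighborFinset w ∩ (D \ {x, q, w, v}) ⊆ {y} := by
        intro a ha
        simp only [mem_inter, mem_sdiff, mem_insert, mem_singleton, not_or, hp] at ha
        simp only [mem_singleton]
        rcases ha.1 with h | h | h
        · exact absurd h ha.2.2.2.2.2
        · exact absurd h ha.2.2.1
        · exact h
      exact (Finset.card_le_card this).trans (by simp)
    · have : G.neighborFinset w ∩ (D \ {x, q, p, w}) ⊆ ∅ := by
        intro a ha
        simp only [mem_inter, mem_sdiff, mem_insert, mem_singleton, not_or, hb.nb] at ha
        rcases ha.1 with h | h | h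
        · exact absurd (h ▸ ha.2.1) hzD
        · exact absurd h ha.2.2.2.2.1
        · exact absurd h ha.2.2.2.1
      exact (Finset.card_le_card this).trans (by simp)
  · intro hg
    refine commit hJ ?_
    have hpD' : p ∈ D \ {x, q} := by
      simp only [mem_sdiff, mem_insert, mem_singleton, not_or]
      exact ⟨hb.pD, hpx.ne, hb.pq⟩
    refine peel hpD' (hL p) ?_ ?_
    · have hvD' : v ∈ (D \ {x, q}).erase p := by
        simp only [mem_erase, mem_sdiff, mem_insert, mem_singleton, not_or]
        exact ⟨hvp.ne, hb.vD, hvx, hvq.ne⟩
      have hDD : ((D \ {x, q}).erase p).erase v = D \ {x, q, p, v} := by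
        ext a
        simp only [mem_erase, mem_sdiff, mem_insert, mem_singleton, not_or]
        tauto
      refine peel hvD' (hL v) (by rw [hDD]; exact hg) ?_
      intro I _ _
      rw [hDD]
      refine ⟨{s} ∪ {y} ∪ (G.neighborFinset q).erase v, ?_, ?_⟩
      · refine (Finset.card_union_le _ _).trans ?_
        have := Finset.card_union_le ({s} : Finset V) {y}
        simp only [card_singleton] at this
        omega
      · refine nr_of_cov (a := z) (b := p) (c := q) (by rw [hb.nb]) ?_ ?_ ?_
        · refine cov_out (by simp [hzD]) ?_
          intro a ha
          have : a ∈ G.neighborFinset z ∩ D := by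
            simp only [mem_inter, mem_sdiff] at ha ⊢
            exact ⟨ha.1, ha.2.1⟩
          rw [hb.nz] at this
          exact this
        · refine cov_out (by simp) ?_
          intro a ha
          simp only [mem_inter, mem_sdiff, mem_insert, mem_singleton, not_or, hp] at ha
          simp only [mem_insert, mem_singleton]
          rcases ha.1 with h | h | h
          · exact Or.inl h
          · exact absurd h ha.2.2.1
          · exact Or.inr h
        · refine cov_out (by simp) ?_
          intro a ha
          simp only [mem_inter] at ha
          simp only [mem_insert, mem_erase]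
          by_cases h : a = v
          · exact Or.inl h
          · exact Or.inr ⟨h, ha.1⟩
    · intro I _ _
      refine ⟨{v} ∪ (G.neighborFinset x).erase p ∪ ((G.neighborFinset y).erase p).erase x, ?_, ?_⟩
      · refine (Finset.card_union_le _ _).trans ?_
        have := Finset.card_union_le ({v} : Finset V) ((G.neighborFinset x).erase p)
        simp only [card_singleton] at this
        omega
      · have hcy : Cov G ((D \ {x, q}).erase p) I p y
            (insert y (((G.neighborFinset y).erase p).erase x)) := by
          intro w hw _ hwp hwy
          simp only [mem_erase, mem_sdiff, mem_insert, mem_singleton, not_or] at hw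
          simp only [mem_insert, mem_erase, SimpleGraph.mem_neighborFinset]
          rcases hwy with h | h
          · exact Or.inl h
          · exact Or.inr ⟨hw.2.2.1, hwp, h⟩
        have hcx : Cov G ((D \ {x, q}).erase p) I p x ((G.neighborFinset x).erase p) := by
          refine cov_out (by simp) ?_
          intro a ha
          simp only [mem_inter] at ha
          simp only [mem_insert, mem_erase]
          by_cases h : a = p
          · exact Or.inl h
          · exact Or.inr ⟨h, ha.1⟩
        have hcv : Cov G ((D \ {x, q}).erase p) I p v {v} := by
          intro w hw _ hwp hwv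
          simp only [mem_erase, mem_sdiff, mem_insert, mem_singleton, not_or] at hw
          simp only [mem_singleton]
          rcases hwv with h | h
          · exact h
          · rw [← SimpleGraph.mem_neighborFinset, hb.nb] at h
            simp only [mem_insert, mem_singleton] at h
            rcases h with h | h | h
            · exact absurd (h ▸ hw.2.1) hzD
            · exact absurd h hwp
            · exact absurd h hw.2.2.2
        have := nr_of_cov (by rw [hp]) hcv hcx hcy
        have hS : {v} ∪ (G.neighborFinset x).erase p ∪
            insert y (((G.neighborFinset y).erase p).erase x)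
            = {v} ∪ (G.neighborFinset x).erase p ∪ ((G.neighborFinset y).erase p).erase x := by
          ext a
          simp only [mem_union, mem_insert, mem_erase, mem_singleton,
            SimpleGraph.mem_neighborFinset]
          constructor
          · rintro (h | h | h)
            · exact Or.inl h
            · subst h
              exact Or.inl (Or.inr ⟨hpy.ne', hxy⟩)
            · exact Or.inr h
          · rintro (h | h)
            · exact Or.inl h
            · exact Or.inr (Or.inr h)
        rw [hS] at this
        exact this

end Pool.Agent.E8B
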