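import Pool.Agent.E8B.Calc1

set_option autoImplicit false

namespace Pool.Agent.E8B

open Finset

universe u

variable {V : Type u} {β : Type*} [Fintype V] [DecidableEq V] {G : SimpleGraph V}
  [DecidableRel G.Adj] {L : V → Finset β}

/-- Rule Q. `t ≠ v` is a common neighbour of `p` and `q`, and `p` is inner:
`D1 = D \ {p, v}`, `W1 = insert p W`: commit `p`, peel `v`: `D' = D \ {p, v}`; `z` contributes at
most `s`; `p ∉ D'` contributes its neighbours `t, p''` different from `v`; `q ∈ D'` has the closed
neighbourhood `{q, v, t, q''}`; `t ∈ D'`, `t ∉ I` because `t` is adjacent to `p ∈ W1`; if `q ∉ I`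
then `q` is dominated by a vertex of `I ∪ W1`, which can only be `q''`; so the contribution of `q`
is covered by `{t, q''}` or by `{t, q}`. Together: `s, t, p''` and one more, at most `4`. -/
theorem rule_quad {D W : Finset V} {v z p q s t : V}
    (h3 : ∀ x, (G.neighborFinset x).card ≤ 3)
    (hL : ∀ x, 5 ≤ (L x).card) (st : St G D W) (hb : Bd G D W v z p q s)
    (hp : Inn G D p) (htv : t ≠ v) (hpt : G.Adj p t) (hqt : G.Adj q t) :
    ∃ D1 W1, Step G L D W D1 W1 := by
  have hvz : G.Adj v z := by
    rw [← SimpleGraph.mem_neighborFinset, hb.nb]; simp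
  have hvp : G.Adj v p := by
    rw [← SimpleGraph.mem_neighborFinset, hb.nb]; simp
  have hvq : G.Adj v q := by
    rw [← SimpleGraph.mem_neighborFinset, hb.nb]; simp
  have hnotW : ∀ w, w ∈ D → w ∉ W := fun w h => Finset.disjoint_left.mp st.disj h
  have hzD : z ∉ D := fun h => hnotW z h hb.zW
  have hpW : ∀ w ∈ W, ¬ G.Adj p w := fun w hw h => hnotW w (hp.2 w h) hw
  have hJ : ({p} : Finset V) ⊆ D := singleton_subset_iff.2 hp.1
  have hpe : ((G.neighborFinset p).erase v).card ≤ 2 := by
    rw [Finset.card_erase_of_mem (by simpa using hvp.symm)]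
    have := h3 p; omega
  have hqe : (((G.neighborFinset q).erase v).erase t).card ≤ 1 := by
    rw [card_erase_of_mem, card_erase_of_mem]
    · have := h3 q; omega
    · simpa using hvq.symm
    · refine mem_erase.2 ⟨htv, ?_⟩
      simpa using hqt
  have hvD' : v ∈ D \ {p} := by
    simp only [mem_sdiff, mem_singleton]
    exact ⟨hb.vD, hvp.ne⟩
  have hDD : (D \ {p}).erase v = D \ {p, v} := by
    ext a
    simp only [mem_erase, mem_sdiff, mem_insert, mem_singleton, not_or]
    tauto
  have hdis : Disjoint (D \ {p, v}) (W ∪ {p}) := by
    rw [Finset.disjoint_left]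
    intro w hw hw'
    simp only [mem_sdiff, mem_insert, mem_singleton, mem_union, not_or] at hw hw'
    rcases hw' with h | h
    · exact hnotW w hw.1 h
    · exact hw.2.1 h
  refine ⟨D \ {p, v}, W ∪ {p}, ⟨?_, ⟨hdis, ?_, ?_⟩, ?_⟩⟩
  · refine Finset.ssubset_iff_subset_ne.mpr ⟨Finset.sdiff_subset, ?_⟩
    intro h
    have : v ∈ D \ {p, v} := by rw [h]; exact hb.vD
    simp at this
  · intro a ha b hb' hab
    simp only [mem_union, mem_singleton] at ha hb'
    rcases ha with ha | rfl
    · rcases hb' with hb' | rfl
      · exact st.ind a ha b hb' hab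
      · exact hpW a ha hab.symm
    · rcases hb' with hb' | rfl
      · exact hpW b hb' hab
      · exact hab.ne rfl
  · refine st.inv.sdiff ?_
    intro w hw hwD
    simp only [mem_insert, mem_singleton] at hw
    rcases hw with rfl | rfl
    · refine (Finset.card_le_card ?_).trans hpe
      intro a ha
      simp only [mem_inter, mem_sdiff, mem_insert, mem_singleton, not_or] at ha
      exact mem_erase.mpr ⟨ha.2.2.2, ha.1⟩
    · have : G.neighborFinset w ∩ (D \ {p, w}) ⊆ {q} := by
        intro a ha
        simp only [mem_inter, mem_sdiff, mem_insert, mem_singleton, not_or, hb.nb] at ha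
        simp only [mem_singleton]
        rcases ha.1 with h | h | h
        · exact absurd (h ▸ ha.2.1) hzD
        · exact absurd h ha.2.2.1
        · exact h
      exact (Finset.card_le_card this).trans (by simp)
  · intro hg
    refine commit hJ ?_
    refine peel hvD' (hL v) (by rw [hDD]; exact hg) ?_
    rw [hDD]
    intro I hP _
    have hCz : Cov G (D \ {p, v}) I v z {s} := by
      refine cov_out (by simp [hzD]) ?_
      intro a ha
      have : a ∈ G.neighborFinset z ∩ D := by
        simp only [mem_inter, mem_sdiff] at ha ⊢
        exact ⟨ha.1, ha.2.1⟩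
      rw [hb.nz] at this
      exact this
    have hCp : Cov G (D \ {p, v}) I v p ((G.neighborFinset p).erase v) := by
      refine cov_out (by simp) ?_
      intro a ha
      simp only [mem_inter] at ha
      simp only [mem_insert, mem_erase]
      by_cases h : a = v
      · exact Or.inl h
      · exact Or.inr ⟨h, ha.1⟩
    have htp : t ∈ (G.neighborFinset p).erase v := mem_erase.2 ⟨htv, by simpa using hpt⟩
    have htI : t ∉ I ∪ (W ∪ {p}) := by
      intro h
      exact hP.ind p (by simp) t h hpt
    -- a set of size one to be added
    obtain ⟨R, hR, hCq⟩ : ∃ R : Finset V, R.card ≤ 1 ∧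
        Cov G (D \ {p, v}) I v q ((G.neighborFinset p).erase v ∪ R) := by
      by_cases hqI : q ∈ I
      · refine ⟨((G.neighborFinset q).erase v).erase t, hqe, ?_⟩
        intro w hw hwI hwv h
        rcases h with h | h
        · exact absurd (h ▸ hqI) hwI
        · by_cases hwt : w = t
          · rw [hwt]; exact mem_union_left _ htp
          · exact mem_union_right _ (mem_erase.2 ⟨hwt, mem_erase.2 ⟨hwv, by simpa using h⟩⟩)
      · refine ⟨{q}, by simp, ?_⟩
        have hqD : q ∈ D \ {p, v} := by
          simp only [mem_sdiff, mem_insert, mem_singleton, not_or]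
          exact ⟨hb.qD, hb.pq.symm, hvq.ne'⟩
        obtain ⟨x, hx, hqx⟩ := hP.dom q hqD hqI
        have hxt : x ≠ t := by
          rintro rfl
          exact htI hx
        have hxv : x ≠ v := by
          rintro rfl
          rcases mem_union.1 hx with h | h
          · have := hP.sub h
            simp at this
          · rcases mem_union.1 h with h | h
            · exact hnotW x hb.vD h
            · exact hvp.ne (mem_singleton.1 h)
        have hxm : x ∈ ((G.neighborFinset q).erase v).erase t :=
          mem_erase.2 ⟨hxt, mem_erase.2 ⟨hxv, by simpa using hqx⟩⟩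
        intro w hw hwI hwv h
        rcases h with h | h
        · exact mem_union_right _ (mem_singleton.2 h)
        · by_cases hwt : w = t
          · rw [hwt]; exact mem_union_left _ htp
          · have hwm : w ∈ ((G.neighborFinset q).erase v).erase t :=
              mem_erase.2 ⟨hwt, mem_erase.2 ⟨hwv, by simpa using h⟩⟩
            have hwx : w = x := Finset.card_le_one.1 hqe w hwm x hxm
            subst hwx
            rcases mem_union.1 hx with h | h
            · exact absurd h hwI
            · exact absurd h (Finset.disjoint_left.1 hdis hw)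
    refine ⟨_, ?_, nr_of_cov (by rw [hb.nb]) hCz hCp hCq⟩
    have hE : {s} ∪ (G.neighborFinset p).erase v ∪ ((G.neighborFinset p).erase v ∪ R)
        = {s} ∪ (G.neighborFinset p).erase v ∪ R := by
      ext a
      simp only [mem_union]
      tauto
    rw [hE]
    have h1 := card_union_le ({s} ∪ (G.neighborFinset p).erase v) R
    have h2 := card_union_le ({s} : Finset V) ((G.neighborFinset p).erase v)
    rw [card_singleton] at h2
    omega

end Pool.Agent.E8B
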