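import Pool.Agent.E8B.Calc1

set_option autoImplicit false

namespace Pool.Agent.E8B

open Finset

universe u

variable {V : Type u} {β : Type*} [Fintype V] [DecidableEq V] {G : SimpleGraph V}
  [DecidableRel G.Adj] {L : V → Finset β}

private theorem RuleR_erase {a b : V} (h3 : (G.neighborFinset a).card ≤ 3) (h : G.Adj a b) :
    ((G.neighborFinset a).erase b).card ≤ 2 := by
  rw [Finset.card_erase_of_mem (by simpa using h)]
  omega

/-- Rule R5. The boundary vertices `v` and `p` are adjacent, and the other neighbour `q` of `v` in
`D` is inner: `D1 = D \ {q, p, v}`, `W1 = insert q W`.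
Proof of `Good G L D1 W1 → Good G L D W`: commit `q`, peel `p` (last colour), peel `v`, that is:
`Good (D \ {q, p, v}) W1 → Good (D \ {q, p}) W1`: `peel v`: `z` contributes at most `s`, `p ∉ D'`
contributes at most its third neighbour `p'`, `q ∉ D'` contributes at most its two neighbours
different from `v`: at most `4`.
`Good (D \ {q, p}) W1 → Good (D \ {q}) W1`: `peel p`: `z'` contributes at most `s'`, `v` contributes
only `v` (`z, q ∉ D'`), `p'` at most two (`cov_two`).
`Good (D \ {q}) W1 → Good D W`: `commit`.
(It is possible that `p' = q` or `s' = v` or that `s` is one of the other vertices.) -/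
theorem rule_bbf {D W : Finset V} {v z p q s z' p' s' : V}
    (h3 : ∀ x, (G.neighborFinset x).card ≤ 3)
    (hL : ∀ x, 5 ≤ (L x).card) (st : St G D W) (hb : Bd G D W v z p q s)
    (hp : Bd G D W p z' v p' s') (hq : Inn G D q) : ∃ D1 W1, Step G L D W D1 W1 := by
  have hvz : G.Adj v z := by
    rw [← SimpleGraph.mem_neighborFinset, hb.nb]; simp
  have hvp : G.Adj v p := by
    rw [← SimpleGraph.mem_neighborFinset, hb.nb]; simp
  have hvq : G.Adj v q := by
    rw [← SimpleGraph.mem_neighborFinset, hb.nb]; simp
  have hpp : G.Adj p p' := by
    rw [← SimpleGraph.mem_neighborFinset, hp.nb]; simp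
  have hnotW : ∀ w, w ∈ D → w ∉ W := fun w h => Finset.disjoint_left.mp st.disj h
  have hzD : z ∉ D := fun h => hnotW z h hb.zW
  have hzD' : z' ∉ D := fun h => hnotW z' h hp.zW
  have hqW : ∀ w ∈ W, ¬ G.Adj q w := fun w hw h => hnotW w (hq.2 w h) hw
  have hJ : ({q} : Finset V) ⊆ D := singleton_subset_iff.2 hq.1
  have hqe := RuleR_erase (h3 q) hvq.symm
  have hpe := RuleR_erase (h3 p') hpp.symm
  have hpq : p ≠ q := hb.pq
  have hvD' : v ∈ (D \ {q}).erase p := by
    simp only [mem_erase, mem_sdiff, mem_singleton]
    exact ⟨hvp.ne, hb.vD, hvq.ne⟩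
  have hpD' : p ∈ D \ {q} := by
    simp only [mem_sdiff, mem_singleton]
    exact ⟨hb.pD, hpq⟩
  have hDD : ((D \ {q}).erase p).erase v = D \ {q, p, v} := by
    ext a
    simp only [mem_erase, mem_sdiff, mem_insert, mem_singleton, not_or]
    tauto
  have hdisj : ∀ S : Finset V, Disjoint (D \ insert q S) (W ∪ {q}) := by
    intro S
    rw [Finset.disjoint_left]
    intro w hw hw'
    simp only [mem_sdiff, mem_insert, mem_singleton, mem_union, not_or] at hw hw'
    rcases hw' with h | h
    · exact hnotW w hw.1 h
    · exact hw.2.1 h
  refine ⟨D \ {q, p, v}, W ∪ {q}, ⟨?_, ⟨hdisj _, ?_, ?_⟩, ?_⟩⟩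
  · refine Finset.ssubset_iff_subset_ne.mpr ⟨Finset.sdiff_subset, ?_⟩
    intro h
    have : v ∈ D \ {q, p, v} := by rw [h]; exact hb.vD
    simp at this
  · intro a ha b hb' hab
    simp only [mem_union, mem_singleton] at ha hb'
    rcases ha with ha | rfl
    · rcases hb' with hb' | rfl
      · exact st.ind a ha b hb' hab
      · exact hqW a ha hab.symm
    · rcases hb' with hb' | rfl
      · exact hqW b hb' hab
      · exact hab.ne rfl
  · refine st.inv.sdiff ?_
    intro w hw hwD
    simp only [mem_insert, mem_singleton] at hw
    rcases hw with rfl | rfl | rfl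
    · refine (Finset.card_le_card ?_).trans hqe
      intro a ha
      simp only [mem_inter, mem_sdiff, mem_insert, mem_singleton, not_or] at ha
      exact mem_erase.mpr ⟨ha.2.2.2.2, ha.1⟩
    · have : G.neighborFinset w ∩ (D \ {q, w, v}) ⊆ {p'} := by
        intro a ha
        simp only [mem_inter, mem_sdiff, mem_insert, mem_singleton, not_or, hp.nb] at ha
        simp only [mem_singleton]
        rcases ha.1 with h | h | h
        · exact absurd (h ▸ ha.2.1) hzD'
        · exact absurd h ha.2.2.2.2
        · exact h
      exact (Finset.card_le_card this).trans (by simp)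
    · have : G.neighborFinset w ∩ (D \ {q, p, w}) ⊆ ∅ := by
        intro a ha
        simp only [mem_inter, mem_sdiff, mem_insert, mem_singleton, not_or, hb.nb] at ha
        rcases ha.1 with h | h | h
        · exact absurd (h ▸ ha.2.1) hzD
        · exact absurd h ha.2.2.2.1
        · exact absurd h ha.2.2.1
      exact (Finset.card_le_card this).trans (by simp)
  · intro hg
    refine commit hJ ?_
    refine peel hpD' (hL p) ?_ ?_
    · refine peel hvD' (hL v) (by rw [hDD]; exact hg) ?_
      intro I _ _
      rw [hDD]
      refine ⟨{s} ∪ {p'} ∪ (G.neighborFinset q).erase v, ?_, ?_⟩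
      · refine (Finset.card_union_le _ _).trans ?_
        have := Finset.card_union_le ({s} : Finset V) {p'}
        simp only [card_singleton] at this
        omega
      · refine nr_of_cov (a := z) (b := p) (c := q) (by rw [hb.nb]) ?_ ?_ ?_
        · refine cov_out (by simp [hzD]) ?_
          intro a ha
          have : a ∈ G.neighborFinset z ∩ D := by
            simp only [mem_inter, mem_sdiff] at ha ⊢
            exact ⟨ha.1, ha.2.1⟩
          rw [hb.nz] at this
          exact this
        · refine cov_out (by simp) ?_
          intro a ha
          simp only [mem_inter, mem_sdiff, mem_insert, mem_singleton, not_or, hp.nb] at ha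
          simp only [mem_insert, mem_singleton]
          rcases ha.1 with h | h | h
          · exact absurd (h ▸ ha.2.1) hzD'
          · exact Or.inl h
          · exact Or.inr h
        · refine cov_out (by simp) ?_
          intro a ha
          simp only [mem_inter] at ha
          simp only [mem_insert, mem_erase]
          by_cases h : a = v
          · exact Or.inl h
          · exact Or.inr ⟨h, ha.1⟩
    · intro I hP _
      have hpn : p ∉ (D \ {q}).erase p := notMem_erase _ _
      have hpW : p ∉ W ∪ {q} := by
        simp only [mem_union, mem_singleton, not_or]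
        exact ⟨hnotW p hb.pD, hpq⟩
      have hdis : Disjoint ((D \ {q}).erase p) (W ∪ {q}) := by
        have := hdisj ∅
        refine Disjoint.mono_left ?_ this
        intro a ha
        simp only [mem_erase, mem_sdiff, mem_singleton] at ha
        simp only [mem_sdiff, mem_insert, notMem_empty, or_false]
        exact ha.2
      obtain ⟨S, hS, hC⟩ := cov_two (h3 p') hP hdis hpp hpn hpW (fun _ => by
        refine (Finset.card_le_card ?_).trans hpe
        intro a ha
        rw [mem_inter, mem_erase] at ha
        exact mem_erase.2 ⟨ha.2.1, ha.1⟩)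
      refine ⟨{s'} ∪ {v} ∪ S, ?_, ?_⟩
      · refine (Finset.card_union_le _ _).trans ?_
        have := Finset.card_union_le ({s'} : Finset V) {v}
        simp only [card_singleton] at this
        omega
      · refine nr_of_cov (a := z') (b := v) (c := p') (by rw [hp.nb]) ?_ ?_ hC
        · refine cov_out (by simp [hzD']) ?_
          intro a ha
          have : a ∈ G.neighborFinset z' ∩ D := by
            simp only [mem_inter, mem_erase, mem_sdiff] at ha ⊢
            exact ⟨ha.1, ha.2.2.1⟩
          rw [hp.nz] at this
          exact this
        · intro w hw _ hwp hwv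
          simp only [mem_erase, mem_sdiff, mem_singleton] at hw
          simp only [mem_singleton]
          rcases hwv with h | h
          · exact h
          · rw [← SimpleGraph.mem_neighborFinset, hb.nb] at h
            simp only [mem_insert, mem_singleton] at h
            rcases h with h | h | h
            · exact absurd (h ▸ hw.2.1) hzD
            · exact absurd h hwp
            · exact absurd h hw.2.2

end Pool.Agent.E8B
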