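import Pool.Agent.E8B.Calc1

set_option autoImplicit false

namespace Pool.Agent.E8B

open Finset

universe u

variable {V : Type u} {β : Type*} [Fintype V] [DecidableEq V] {G : SimpleGraph V}
  [DecidableRel G.Adj] {L : V → Finset β}

/-- The union of the contributions of all neighbours. -/
private theorem ra1_nr {D' I : Finset V} {v : V} (S : V → Finset V)
    (hS : ∀ x, G.Adj v x → Cov G D' I v x (S x)) :
    Nr G D' I v ((G.neighborFinset v).biUnion S) := by
  intro w hw hwI hn
  rw [mem_biUnion]
  rcases hn with ⟨hne, h | ⟨x, h1, h2⟩⟩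
  · exact ⟨w, by simpa using h, hS w h w hw hwI (Ne.symm hne) (Or.inl rfl)⟩
  · exact ⟨x, by simpa using h1, hS x h1 w hw hwI (Ne.symm hne) (Or.inr h2)⟩

/-- Counting: one neighbour contributes nothing, the others at most two. -/
private theorem ra1_count {v w : V} (h3 : (G.neighborFinset v).card ≤ 3) (hw : G.Adj v w)
    (S : V → Finset V) (h0 : (S w).card = 0) (h2 : ∀ x, G.Adj v x → (S x).card ≤ 2) :
    ((G.neighborFinset v).biUnion S).card ≤ 4 := by
  have hwm : w ∈ G.neighborFinset v := by simpa using hw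
  refine card_biUnion_le.trans ?_
  rw [← add_sum_erase _ _ hwm, h0]
  have h1 : ((G.neighborFinset v).erase w).card ≤ 2 := by
    rw [card_erase_of_mem hwm]; omega
  have h4 : ∑ x ∈ (G.neighborFinset v).erase w, (S x).card
      ≤ ((G.neighborFinset v).erase w).card * 2 :=
    sum_le_card_nsmul _ _ _ (fun x hx => h2 x (by simpa using mem_of_mem_erase hx))
  omega

/-- A general removal of one vertex. -/
private theorem ra1_inv_erase {D : Finset V} {v : V} (h : Inv G D)
    (hv : (G.neighborFinset v ∩ D.erase v).card ≤ 2) : Inv G (D.erase v) := by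
  intro w hw
  by_cases hwv : w = v
  · subst hwv; exact hv
  · have hwD : w ∉ D := fun h' => hw (mem_erase.2 ⟨hwv, h'⟩)
    exact (card_le_card (inter_subset_inter_left (erase_subset _ _))).trans (h w hwD)

private theorem ra1_st_erase {D W : Finset V} {v : V} (st : St G D W)
    (hv : (G.neighborFinset v ∩ D.erase v).card ≤ 2) : St G (D.erase v) W :=
  ⟨st.disj.mono_left (erase_subset _ _), st.ind, ra1_inv_erase st.inv hv⟩

/-- `D1 = D.erase v`, `W1 = W`. At most two neighbours, each contributes at most two (`cov_two`). -/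
theorem rule_low {D W : Finset V} {v : V} (h3 : ∀ x, (G.neighborFinset x).card ≤ 3)
    (hL : ∀ x, 5 ≤ (L x).card) (st : St G D W) (hv : v ∈ D)
    (hd : (G.neighborFinset v).card ≤ 2) : ∃ D1 W1, Step G L D W D1 W1 := by
  have st' : St G (D.erase v) W :=
    ra1_st_erase st ((card_le_card inter_subset_left).trans hd)
  refine ⟨D.erase v, W, erase_ssubset hv, st', fun hg => peel hv (hL v) hg ?_⟩
  intro I hP _
  have hvW : v ∉ W := fun h => disjoint_left.1 st.disj hv h
  have hex : ∀ x, ∃ S : Finset V, G.Adj v x → S.card ≤ 2 ∧ Cov G (D.erase v) I v x S := by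
    intro x
    by_cases hx : G.Adj v x
    · obtain ⟨S, h1, h2⟩ := cov_two (h3 x) hP st'.disj hx (notMem_erase v D) hvW
        (fun hxD => st'.inv x hxD)
      exact ⟨S, fun _ => ⟨h1, h2⟩⟩
    · exact ⟨∅, fun h => absurd h hx⟩
  choose S hS using hex
  refine ⟨(G.neighborFinset v).biUnion S, ?_, ra1_nr S (fun x hx => (hS x hx).2)⟩
  refine (card_biUnion_le_card_mul _ _ 2 (fun x hx => (hS x (by simpa using hx)).1)).trans ?_
  omega

/-- `D1 = D.erase v`, `W1 = W`. The neighbours `x, y ∉ D` contribute at most one vertex each (they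
have at most two neighbours in `D`, one of them is `v`), the third neighbour at most two. -/
theorem rule_two {D W : Finset V} {v x y : V} (h3 : ∀ x, (G.neighborFinset x).card ≤ 3)
    (hL : ∀ x, 5 ≤ (L x).card) (st : St G D W) (hv : v ∈ D) (hx : x ∉ D) (hy : y ∉ D)
    (hxy : x ≠ y) (hvx : G.Adj v x) (hvy : G.Adj v y) : ∃ D1 W1, Step G L D W D1 W1 := by
  have hxm : x ∈ G.neighborFinset v := by simpa using hvx
  have hym : y ∈ G.neighborFinset v := by simpa using hvy
  have hym' : y ∈ (G.neighborFinset v).erase x := mem_erase.2 ⟨Ne.symm hxy, hym⟩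
  have hc : (((G.neighborFinset v).erase x).erase y).card ≤ 1 := by
    rw [card_erase_of_mem hym', card_erase_of_mem hxm]
    have := h3 v; omega
  have st' : St G (D.erase v) W := by
    refine ra1_st_erase st ?_
    have hsub : G.neighborFinset v ∩ D.erase v ⊆ ((G.neighborFinset v).erase x).erase y := by
      intro u hu
      rw [mem_inter, mem_erase] at hu
      refine mem_erase.2 ⟨?_, mem_erase.2 ⟨?_, hu.1⟩⟩
      · rintro rfl; exact hy hu.2.2
      · rintro rfl; exact hx hu.2.2
    exact (card_le_card hsub).trans (by omega)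
  refine ⟨D.erase v, W, erase_ssubset hv, st', fun hg => peel hv (hL v) hg ?_⟩
  intro I hP _
  have hvW : v ∉ W := fun h => disjoint_left.1 st.disj hv h
  -- a neighbour outside `D` contributes at most one vertex
  have hout : ∀ u, u ∉ D → G.Adj v u → (G.neighborFinset u ∩ D.erase v).card ≤ 1 ∧
      Cov G (D.erase v) I v u (G.neighborFinset u ∩ D.erase v) := by
    intro u hu hvu
    constructor
    · have h1 := st.inv u hu
      have h2 : v ∈ G.neighborFinset u ∩ D := mem_inter.2 ⟨by simpa using hvu.symm, hv⟩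
      have h4 : G.neighborFinset u ∩ D.erase v ⊆ (G.neighborFinset u ∩ D).erase v := by
        intro z hz
        rw [mem_inter, mem_erase] at hz
        exact mem_erase.2 ⟨hz.2.1, mem_inter.2 ⟨hz.1, hz.2.2⟩⟩
      have h5 := card_le_card h4
      rw [card_erase_of_mem h2] at h5
      omega
    · exact cov_out (fun h => hu (mem_of_mem_erase h)) (subset_insert _ _)
  have hex : ∀ u, ∃ S : Finset V, G.Adj v u → (S.card ≤ 2 ∧ (u ∉ D → S.card ≤ 1)) ∧
      Cov G (D.erase v) I v u S := by
    intro u
    by_cases hu : G.Adj v u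
    · by_cases huD : u ∉ D
      · obtain ⟨h1, h2⟩ := hout u huD hu
        exact ⟨_, fun _ => ⟨⟨by omega, fun _ => h1⟩, h2⟩⟩
      · obtain ⟨S, h1, h2⟩ := cov_two (h3 u) hP st'.disj hu (notMem_erase v D) hvW
          (fun hxD => st'.inv u hxD)
        exact ⟨S, fun _ => ⟨⟨h1, fun h => absurd h huD⟩, h2⟩⟩
    · exact ⟨∅, fun h => absurd h hu⟩
  choose S hS using hex
  refine ⟨(G.neighborFinset v).biUnion S, ?_, ra1_nr S (fun x hx => (hS x hx).2)⟩
  refine card_biUnion_le.trans ?_
  rw [← add_sum_erase _ _ hxm, ← add_sum_erase _ _ hym']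
  have h1 : (S x).card ≤ 1 := (hS x hvx).1.2 hx
  have h2 : (S y).card ≤ 1 := (hS y hvy).1.2 hy
  have h4 : ∑ u ∈ ((G.neighborFinset v).erase x).erase y, (S u).card
      ≤ (((G.neighborFinset v).erase x).erase y).card * 2 :=
    sum_le_card_nsmul _ _ _
      (fun u hu => (hS u (by simpa using mem_of_mem_erase (mem_of_mem_erase hu))).1.1)
  omega

/-- `D1 = D.erase v`, `W1 = W`. The neighbour `w` contributes nothing. -/
theorem rule_one {D W : Finset V} {v w : V} (h3 : ∀ x, (G.neighborFinset x).card ≤ 3)
    (hL : ∀ x, 5 ≤ (L x).card) (st : St G D W) (hw : w ∉ D)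
    (hN : G.neighborFinset w ∩ D = {v}) : ∃ D1 W1, Step G L D W D1 W1 := by
  have hvm : v ∈ G.neighborFinset w ∩ D := by rw [hN]; exact mem_singleton_self v
  have hv : v ∈ D := (mem_inter.1 hvm).2
  have hwv : G.Adj w v := by simpa using (mem_inter.1 hvm).1
  have hwm : w ∈ G.neighborFinset v := by simpa using hwv.symm
  have st' : St G (D.erase v) W := by
    refine ra1_st_erase st ?_
    have hsub : G.neighborFinset v ∩ D.erase v ⊆ (G.neighborFinset v).erase w := by
      intro u hu
      rw [mem_inter, mem_erase] at hu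
      refine mem_erase.2 ⟨?_, hu.1⟩
      rintro rfl; exact hw hu.2.2
    refine (card_le_card hsub).trans ?_
    rw [card_erase_of_mem hwm]
    have := h3 v; omega
  refine ⟨D.erase v, W, erase_ssubset hv, st', fun hg => peel hv (hL v) hg ?_⟩
  intro I hP _
  have hvW : v ∉ W := fun h => disjoint_left.1 st.disj hv h
  have hex : ∀ u, ∃ S : Finset V, G.Adj v u → (S.card ≤ 2 ∧ (u = w → S.card = 0)) ∧
      Cov G (D.erase v) I v u S := by
    intro u
    by_cases hu : G.Adj v u
    · by_cases huw : u = w
      · subst huw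
        refine ⟨∅, fun _ => ⟨⟨by simp, fun _ => by simp⟩, ?_⟩⟩
        refine cov_out (fun h => hw (mem_of_mem_erase h)) ?_
        intro z hz
        rw [mem_inter, mem_erase] at hz
        have : z ∈ G.neighborFinset u ∩ D := mem_inter.2 ⟨hz.1, hz.2.2⟩
        rw [hN, mem_singleton] at this
        exact absurd this hz.2.1
      · obtain ⟨S, h1, h2⟩ := cov_two (h3 u) hP st'.disj hu (notMem_erase v D) hvW
          (fun hxD => st'.inv u hxD)
        exact ⟨S, fun _ => ⟨⟨h1, fun h => absurd h huw⟩, h2⟩⟩
    · exact ⟨∅, fun h => absurd h hu⟩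
  choose S hS using hex
  exact ⟨(G.neighborFinset v).biUnion S,
    ra1_count (h3 v) hwv.symm S ((hS w hwv.symm).1.2 rfl) (fun x hx => (hS x hx).1.1),
    ra1_nr S (fun x hx => (hS x hx).2)⟩

/-- `w` is outside `D` and `W` and has exactly the neighbours `v, s` in `D`, and `w` is the only
neighbour of `v` outside `D`: `D1 = D \ {v, s}`, `W1 = insert v W`: commit `v`, then peel `s` (now
`w` contributes nothing for `s`). -/
theorem rule_free {D W : Finset V} {v s w : V} (h3 : ∀ x, (G.neighborFinset x).card ≤ 3)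
    (hL : ∀ x, 5 ≤ (L x).card) (st : St G D W) (hw : w ∉ D) (hwW : w ∉ W)
    (hN : G.neighborFinset w ∩ D = {v, s}) (hvs : v ≠ s)
    (hv : ∀ x, G.Adj v x → x ∉ D → x = w) : ∃ D1 W1, Step G L D W D1 W1 := by
  have hvm : v ∈ G.neighborFinset w ∩ D := by rw [hN]; simp
  have hsm : s ∈ G.neighborFinset w ∩ D := by rw [hN]; simp
  have hvD : v ∈ D := (mem_inter.1 hvm).2
  have hsD : s ∈ D := (mem_inter.1 hsm).2
  have hwv : G.Adj w v := by simpa using (mem_inter.1 hvm).1
  have hws : G.Adj w s := by simpa using (mem_inter.1 hsm).1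
  have hcard : ∀ u, G.Adj w u → ∀ D' : Finset V, D' ⊆ D →
      (G.neighborFinset u ∩ D').card ≤ 2 := by
    intro u hu D' hD'
    have hwm : w ∈ G.neighborFinset u := by simpa using hu.symm
    have hsub : G.neighborFinset u ∩ D' ⊆ (G.neighborFinset u).erase w := by
      intro z hz
      rw [mem_inter] at hz
      refine mem_erase.2 ⟨?_, hz.1⟩
      rintro rfl; exact hw (hD' hz.2)
    refine (card_le_card hsub).trans ?_
    rw [card_erase_of_mem hwm]
    have := h3 u; omega
  have st' : St G (D \ {v, s}) (insert v W) := by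
    refine ⟨?_, ?_, ?_⟩
    · rw [disjoint_left]
      intro z hz hz'
      rw [mem_sdiff, mem_insert, mem_singleton, not_or] at hz
      rcases mem_insert.1 hz' with h | h
      · exact hz.2.1 h
      · exact disjoint_left.1 st.disj hz.1 h
    · intro x hx y hy hxy
      rcases mem_insert.1 hx with rfl | hx'
      · rcases mem_insert.1 hy with rfl | hy'
        · exact G.loopless.irrefl _ hxy
        · have hyD : y ∉ D := fun h => disjoint_left.1 st.disj h hy'
          exact hwW ((hv y hxy hyD) ▸ hy')
      · rcases mem_insert.1 hy with rfl | hy'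
        · have hxD : x ∉ D := fun h => disjoint_left.1 st.disj h hx'
          exact hwW ((hv x hxy.symm hxD) ▸ hx')
        · exact st.ind x hx' y hy' hxy
    · refine Inv.sdiff st.inv ?_
      intro u hu _
      rw [mem_insert, mem_singleton] at hu
      rcases hu with rfl | rfl
      · exact hcard _ hwv _ sdiff_subset
      · exact hcard _ hws _ sdiff_subset
  refine ⟨D \ {v, s}, insert v W, ?_, st', fun hg => ?_⟩
  · refine ⟨sdiff_subset, fun h => ?_⟩
    have := h hvD
    simp at this
  · have hJ : ({v} : Finset V) ⊆ D := singleton_subset_iff.2 hvD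
    refine commit hJ ?_
    have hs' : s ∈ D \ {v} := by
      rw [mem_sdiff, mem_singleton]; exact ⟨hsD, Ne.symm hvs⟩
    have hE : (D \ {v}).erase s = D \ {v, s} := by
      ext z
      simp only [mem_erase, mem_sdiff, mem_singleton, mem_insert, not_or]
      tauto
    have hW : W ∪ {v} = insert v W := by
      ext z; simp only [mem_union, mem_singleton, mem_insert]; tauto
    refine peel hs' (hL s) (by rw [hE, hW]; exact hg) ?_
    rw [hE, hW]
    intro I hP _
    have hsD' : s ∉ D \ {v, s} := by simp
    have hsW : s ∉ insert v W := by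
      rw [mem_insert, not_or]
      exact ⟨Ne.symm hvs, fun h => disjoint_left.1 st.disj hsD h⟩
    have hex : ∀ u, ∃ S : Finset V, G.Adj s u → (S.card ≤ 2 ∧ (u = w → S.card = 0)) ∧
        Cov G (D \ {v, s}) I s u S := by
      intro u
      by_cases hu : G.Adj s u
      · by_cases huw : u = w
        · subst huw
          refine ⟨∅, fun _ => ⟨⟨by simp, fun _ => by simp⟩, ?_⟩⟩
          refine cov_out (fun h => hw (mem_sdiff.1 h).1) ?_
          intro z hz
          rw [mem_inter, mem_sdiff] at hz
          have : z ∈ G.neighborFinset u ∩ D := mem_inter.2 ⟨hz.1, hz.2.1⟩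
          rw [hN] at this
          exact absurd this hz.2.2
        · obtain ⟨S, h1, h2⟩ := cov_two (h3 u) hP st'.disj hu hsD' hsW
            (fun hxD => st'.inv u hxD)
          exact ⟨S, fun _ => ⟨⟨h1, fun h => absurd h huw⟩, h2⟩⟩
      · exact ⟨∅, fun h => absurd h hu⟩
    choose S hS using hex
    exact ⟨(G.neighborFinset s).biUnion S,
      ra1_count (h3 s) hws.symm S ((hS w hws.symm).1.2 rfl) (fun x hx => (hS x hx).1.1),
      ra1_nr S (fun x hx => (hS x hx).2)⟩

end Pool.Agent.E8B
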