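import Pool.Agent.E8B.Calc1

set_option autoImplicit false

namespace Pool.Agent.E8B

open Finset

universe u

variable {V : Type u} {β : Type*} [Fintype V] [DecidableEq V] {G : SimpleGraph V}
  [DecidableRel G.Adj] {L : V → Finset β}

private theorem RulesA2_st {D W : Finset V} {v z p q s : V} (st : St G D W)
    (hb : Bd G D W v z p q s) : St G (D.erase v) W := by
  have hzD : z ∉ D := fun h => (Finset.disjoint_left.mp st.disj h) hb.zW
  refine ⟨st.disj.mono_left (erase_subset _ _), st.ind, ?_⟩
  intro w hw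
  by_cases hwv : w = v
  · subst hwv
    have : G.neighborFinset w ∩ D.erase w ⊆ {p, q} := by
      intro a ha
      rw [mem_inter, hb.nb, mem_erase] at ha
      rcases ha with ⟨h1, -, h2⟩
      simp only [mem_insert, mem_singleton] at h1 ⊢
      rcases h1 with h | h | h
      · exact absurd (h ▸ h2) hzD
      · exact Or.inl h
      · exact Or.inr h
    exact (card_le_card this).trans card_le_two
  · have hwD : w ∉ D := fun h' => hw (mem_erase.2 ⟨hwv, h'⟩)
    exact (card_le_card (inter_subset_inter_left (erase_subset _ _))).trans (st.inv w hwD)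

private theorem RulesA2_adj {D W : Finset V} {v z p q s : V} (hb : Bd G D W v z p q s) :
    G.Adj v z ∧ G.Adj v p ∧ G.Adj v q := by
  refine ⟨?_, ?_, ?_⟩ <;> rw [← SimpleGraph.mem_neighborFinset, hb.nb] <;> simp

/-- The sibling `s` of `v` is equal or adjacent to `p`: `D1 = D.erase v`, `W1 = W`. The neighbour
`z` contributes only `s`, which is already in the contribution of `p` (at most two vertices by
`cov_in`), and `q` contributes at most two: together at most four. -/
theorem rule_sib {D W : Finset V} {v z p q s : V} (h3 : ∀ x, (G.neighborFinset x).card ≤ 3)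
    (hL : ∀ x, 5 ≤ (L x).card) (st : St G D W) (hb : Bd G D W v z p q s)
    (hs : s = p ∨ G.Adj p s) : ∃ D1 W1, Step G L D W D1 W1 := by
  have hzD : z ∉ D := fun h => (Finset.disjoint_left.mp st.disj h) hb.zW
  obtain ⟨hvz, hvp, hvq⟩ := RulesA2_adj hb
  have st' := RulesA2_st st hb
  have hvW : v ∉ W := fun h => disjoint_left.1 st.disj hb.vD h
  refine ⟨D.erase v, W, erase_ssubset hb.vD, st', fun hg => peel hb.vD (hL v) hg ?_⟩
  intro I hP _
  obtain ⟨Sp, hSp, hCp⟩ := cov_in (h3 p) hP st'.disj hvp (mem_erase.2 ⟨hvp.ne', hb.pD⟩)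
    (notMem_erase v D) hvW
  obtain ⟨Sq, hSq, hCq⟩ := cov_in (h3 q) hP st'.disj hvq (mem_erase.2 ⟨hvq.ne', hb.qD⟩)
    (notMem_erase v D) hvW
  have hCz : Cov G (D.erase v) I v z Sp := by
    intro w hw hwI hwv h
    have hwD : w ∈ D := mem_of_mem_erase hw
    rcases h with h | h
    · exact absurd (h ▸ hwD) hzD
    · have h1 : w ∈ G.neighborFinset z ∩ D := mem_inter.2 ⟨by simpa using h, hwD⟩
      rw [hb.nz] at h1
      simp only [mem_insert, mem_singleton] at h1
      rcases h1 with h1 | h1
      · exact absurd h1 hwv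
      · subst h1
        exact hCp w hw hwI hwv hs
  refine ⟨Sp ∪ Sp ∪ Sq, ?_, nr_of_cov (by rw [hb.nb]) hCz hCp hCq⟩
  rw [union_self]
  exact (card_union_le _ _).trans (by omega)

/-- `p` and `q` are adjacent: `D1 = D.erase v`, `W1 = W`. The contribution of `p` has at most two
vertices (`cov_in`); the contribution of `q` is contained in `{q, p, q'}` where `q'` is the third
neighbour of `q`, so it adds only `q'` to that of `p` (which covers `p` and its neighbour `q`);
`z` contributes only `s`. -/
theorem rule_tri {D W : Finset V} {v z p q s : V} (h3 : ∀ x, (G.neighborFinset x).card ≤ 3)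
    (hL : ∀ x, 5 ≤ (L x).card) (st : St G D W) (hb : Bd G D W v z p q s)
    (hpq : G.Adj p q) : ∃ D1 W1, Step G L D W D1 W1 := by
  have hzD : z ∉ D := fun h => (Finset.disjoint_left.mp st.disj h) hb.zW
  obtain ⟨hvz, hvp, hvq⟩ := RulesA2_adj hb
  have st' := RulesA2_st st hb
  have hvW : v ∉ W := fun h => disjoint_left.1 st.disj hb.vD h
  refine ⟨D.erase v, W, erase_ssubset hb.vD, st', fun hg => peel hb.vD (hL v) hg ?_⟩
  intro I hP _
  obtain ⟨Sp, hSp, hCp⟩ := cov_in (h3 p) hP st'.disj hvp (mem_erase.2 ⟨hvp.ne', hb.pD⟩)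
    (notMem_erase v D) hvW
  have hT : (((G.neighborFinset q).erase v).erase p).card ≤ 1 := by
    rw [card_erase_of_mem, card_erase_of_mem]
    · have := h3 q; omega
    · simpa using hvq.symm
    · refine mem_erase.2 ⟨hvp.ne', ?_⟩
      simpa using hpq.symm
  have hCq : Cov G (D.erase v) I v q (Sp ∪ ((G.neighborFinset q).erase v).erase p) := by
    intro w hw hwI hwv h
    by_cases hwp : w = p
    · exact mem_union_left _ (hCp w hw hwI hwv (Or.inl hwp))
    rcases h with h | h
    · subst h
      exact mem_union_left _ (hCp w hw hwI hwv (Or.inr hpq))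
    · exact mem_union_right _ (mem_erase.2 ⟨hwp, mem_erase.2 ⟨hwv, by simpa using h⟩⟩)
  have hCz : Cov G (D.erase v) I v z {s} := by
    refine cov_out (fun h => hzD (mem_of_mem_erase h)) ?_
    intro a ha
    have h1 : a ∈ G.neighborFinset z ∩ D := by
      rw [mem_inter] at ha ⊢
      exact ⟨ha.1, mem_of_mem_erase ha.2⟩
    rw [hb.nz] at h1
    exact h1
  refine ⟨_, ?_, nr_of_cov (by rw [hb.nb]) hCz hCp hCq⟩
  have hE : {s} ∪ Sp ∪ (Sp ∪ ((G.neighborFinset q).erase v).erase p)
      = {s} ∪ Sp ∪ ((G.neighborFinset q).erase v).erase p := by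
    ext a
    simp only [mem_union]
    tauto
  rw [hE]
  have h1 := card_union_le ({s} ∪ Sp) (((G.neighborFinset q).erase v).erase p)
  have h2 := card_union_le ({s} : Finset V) Sp
  rw [card_singleton] at h2
  omega

end Pool.Agent.E8B
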