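import Pool.Agent.E8B.Defs

set_option autoImplicit false

namespace Pool.Agent.E8B

open Finset

universe u

variable {V : Type u} [Fintype V] [DecidableEq V] {G : SimpleGraph V} [DecidableRel G.Adj]

omit [Fintype V] in
private theorem Side_mem_cyc {l : List V} {n : ℕ} (hn : l.length = n) (h0 : 0 < n) (e : Sym2 V) :
    e ∈ cyc l ↔ ∃ i : ℕ, ∃ hi : i < n,
      e = s(l[i]'(hn ▸ hi), l[(i + 1) % n]'(by rw [hn]; exact Nat.mod_lt _ h0)) := by
  subst hn
  unfold cyc
  rw [List.mem_toFinset, List.mem_iff_getElem]
  constructor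
  · rintro ⟨i, hi, rfl⟩
    have hi' : i < l.length := by
      rw [List.length_zipWith, List.length_rotate, min_self] at hi
      exact hi
    refine ⟨i, hi', ?_⟩
    rw [List.getElem_zipWith]
    simp only [List.getElem_rotate]
  · rintro ⟨i, hi, rfl⟩
    refine ⟨i, ?_, ?_⟩
    · rw [List.length_zipWith, List.length_rotate, min_self]
      exact hi
    · rw [List.getElem_zipWith]
      simp only [List.getElem_rotate]

private theorem Side_even_cyc {l : List V} (hc : l.Nodup) (h3 : 3 ≤ l.length) (v : V) :
    Even ((cyc l).filter (v ∈ ·)).card := by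
  obtain ⟨n, hn⟩ : ∃ n, l.length = n := ⟨_, rfl⟩
  have h0 : 0 < n := by omega
  have hinj : ∀ i j (hi : i < n) (hj : j < n), l[i]'(hn ▸ hi) = l[j]'(hn ▸ hj) → i = j := by
    intro i j hi hj h
    exact (List.Nodup.getElem_inj_iff hc).1 h
  by_cases hv : v ∈ l
  · obtain ⟨k, hk, rfl⟩ := List.mem_iff_getElem.1 hv
    rw [hn] at hk
    have hlt1 : (k + 1) % n < n := Nat.mod_lt _ h0
    have hlt2 : (k + (n - 1)) % n < n := Nat.mod_lt _ h0
    have hk1 : (k + 1) % n = if k + 1 = n then 0 else k + 1 := by
      split_ifs with h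
      · rw [h, Nat.mod_self]
      · exact Nat.mod_eq_of_lt (by omega)
    have hk2 : (k + (n - 1)) % n = if k = 0 then n - 1 else k - 1 := by
      split_ifs with h
      · subst h
        rw [zero_add]
        exact Nat.mod_eq_of_lt (by omega)
      · have h1 : k + (n - 1) = (k - 1) + n := by omega
        rw [h1, Nat.add_mod_right]
        exact Nat.mod_eq_of_lt (by omega)
    have hset : (cyc l).filter (l[k]'(hn ▸ hk) ∈ ·) =
        {s(l[k]'(hn ▸ hk), l[(k + 1) % n]'(hn ▸ hlt1)),
          s(l[(k + (n - 1)) % n]'(hn ▸ hlt2), l[k]'(hn ▸ hk))} := by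
      ext e
      rw [mem_filter, mem_insert, mem_singleton, Side_mem_cyc hn h0]
      constructor
      · rintro ⟨⟨i, hi, rfl⟩, hm⟩
        rw [Sym2.mem_iff] at hm
        rcases hm with hm | hm
        · left
          have := hinj _ _ hk hi hm
          subst this
          rfl
        · right
          have h1 := hinj _ _ hk (Nat.mod_lt _ h0) hm
          have h2 : i = (k + (n - 1)) % n := by
            have h4 : (i + 1) % n = if i + 1 = n then 0 else i + 1 := by
              split_ifs with h
              · rw [h, Nat.mod_self]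
              · exact Nat.mod_eq_of_lt (by omega)
            rw [hk2]
            rw [h4] at h1
            split_ifs at h1 ⊢ <;> omega
          subst h2
          simp only [← h1]
      · rintro (rfl | rfl)
        · refine ⟨⟨k, hk, rfl⟩, Sym2.mem_mk_left _ _⟩
        · refine ⟨⟨(k + (n - 1)) % n, hlt2, ?_⟩, Sym2.mem_mk_right _ _⟩
          have h1 : ((k + (n - 1)) % n + 1) % n = k := by
            rw [hk2]
            split_ifs with h
            · subst h
              rw [Nat.sub_add_cancel (by omega), Nat.mod_self]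
            · rw [Nat.sub_add_cancel (by omega)]
              exact Nat.mod_eq_of_lt hk
          simp only [h1]
    rw [hset, card_pair]
    · exact ⟨1, rfl⟩
    · intro h
      rw [Sym2.eq_iff] at h
      rcases h with ⟨h, _⟩ | ⟨_, h⟩
      · have h1 := hinj _ _ hk hlt2 h
        rw [hk2] at h1
        split_ifs at h1 <;> omega
      · have h1 := hinj _ _ hlt1 hlt2 h
        rw [hk1, hk2] at h1
        split_ifs at h1 <;> omega
  · rw [filter_eq_empty_iff.2, card_empty]
    · exact ⟨0, rfl⟩
    · intro e he hve
      rw [Side_mem_cyc hn h0] at he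
      obtain ⟨i, hi, rfl⟩ := he
      rw [Sym2.mem_iff] at hve
      rcases hve with rfl | rfl
      · exact hv (List.getElem_mem _)
      · exact hv (List.getElem_mem _)

/-- The edges of a cycle form an even set: every vertex of `c` is in exactly two of them. -/
theorem even_cyc {c : List V} (hc : c.Nodup) (h3 : 3 ≤ c.length) (v : V) :
    Even ((cyc c).filter (v ∈ ·)).card :=
  Side_even_cyc hc h3 v

/-- A face with the edge `s(v, x)` has a further edge at `v`. -/
private theorem Side_other (S : FaceStruct G) {v x : V} {k : S.F} (hk : s(v, x) ∈ S.B k) :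
    ∃ w, w ≠ x ∧ G.Adj v w ∧ s(v, w) ∈ S.B k := by
  have h1 : s(v, x) ∈ (S.B k).filter (v ∈ ·) :=
    mem_filter.2 ⟨hk, Sym2.mem_mk_left _ _⟩
  have h2 : 1 < ((S.B k).filter (v ∈ ·)).card := by
    have h3 := S.even k v
    have h4 : 0 < ((S.B k).filter (v ∈ ·)).card := card_pos.2 ⟨_, h1⟩
    rcases h3 with ⟨m, hm⟩
    omega
  obtain ⟨e, he, hne⟩ := exists_mem_ne h2 s(v, x)
  rw [mem_filter] at he
  obtain ⟨w, rfl⟩ := Sym2.mem_iff_exists.1 he.2
  refine ⟨w, ?_, ?_, he.1⟩
  · rintro rfl
    exact hne rfl
  · have := S.sub k he.1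
    simpa using this

/-- Two edges at `v` which are in faces are in a common face: if `v` has a third edge in a face,
every face contains none or two of the three edges and every edge is in two faces, so each pair is
in exactly one face; otherwise every face contains both or none. -/
theorem common_face (S : FaceStruct G) (h3 : ∀ x, (G.neighborFinset x).card ≤ 3) {v x y : V}
    (hx : G.Adj v x) (hy : G.Adj v y) {f g : S.F} (hf : s(v, x) ∈ S.B f) (hg : s(v, y) ∈ S.B g) :
    ∃ k, s(v, x) ∈ S.B k ∧ s(v, y) ∈ S.B k := by
  by_contra hcon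
  push Not at hcon
  have hxy : x ≠ y := by
    rintro rfl
    exact hcon f hf hf
  obtain ⟨z, hzx, hz, hzf⟩ := Side_other S hf
  have hzy : z ≠ y := by
    rintro rfl
    exact hcon f hf hzf
  have hN : G.neighborFinset v = {x, y, z} := by
    symm
    apply eq_of_subset_of_card_le
    · intro w hw
      rw [mem_insert, mem_insert, mem_singleton] at hw
      rw [SimpleGraph.mem_neighborFinset]
      rcases hw with rfl | rfl | rfl
      · exact hx
      · exact hy
      · exact hz
    · have : ({x, y, z} : Finset V).card = 3 := by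
        rw [card_insert_of_notMem, card_pair hzy.symm]
        rw [mem_insert, mem_singleton]
        rintro (h | h)
        · exact hxy h
        · exact hzx h.symm
      rw [this]
      exact h3 v
  have hw : ∀ w, G.Adj v w → w = x ∨ w = y ∨ w = z := by
    intro w hw
    have : w ∈ G.neighborFinset v := (SimpleGraph.mem_neighborFinset _ _ _).2 hw
    rw [hN, mem_insert, mem_insert, mem_singleton] at this
    exact this
  have hcx : (univ.filter (s(v, x) ∈ S.B ·)).card = 2 := by
    rcases S.two s(v, x) with h | h
    · rw [card_eq_zero, filter_eq_empty_iff] at h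
      exact absurd hf (h (mem_univ f))
    · exact h
  have hcy : (univ.filter (s(v, y) ∈ S.B ·)).card = 2 := by
    rcases S.two s(v, y) with h | h
    · rw [card_eq_zero, filter_eq_empty_iff] at h
      exact absurd hg (h (mem_univ g))
    · exact h
  have hdis : Disjoint (univ.filter (s(v, x) ∈ S.B ·)) (univ.filter (s(v, y) ∈ S.B ·)) := by
    rw [disjoint_left]
    intro k h1 h2
    exact hcon k (mem_filter.1 h1).2 (mem_filter.1 h2).2
  have hsub : (univ.filter (s(v, x) ∈ S.B ·)) ∪ (univ.filter (s(v, y) ∈ S.B ·)) ⊆
      univ.filter (s(v, z) ∈ S.B ·) := by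
    intro k hk
    rw [mem_union, mem_filter, mem_filter] at hk
    rw [mem_filter]
    refine ⟨mem_univ _, ?_⟩
    rcases hk with hk | hk
    · obtain ⟨w, hwx, hvw, hwk⟩ := Side_other S hk.2
      rcases hw w hvw with rfl | rfl | rfl
      · exact absurd rfl hwx
      · exact absurd hwk (hcon k hk.2)
      · exact hwk
    · obtain ⟨w, hwx, hvw, hwk⟩ := Side_other S hk.2
      rcases hw w hvw with rfl | rfl | rfl
      · exact absurd hk.2 (hcon k hwk)
      · exact absurd rfl hwx
      · exact hwk
  have h5 := card_le_card hsub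
  rw [card_union_of_disjoint hdis, hcx, hcy] at h5
  rcases S.two s(v, z) with h | h
  · omega
  · omega

/-- For an edge in an even number of the faces of `T`. -/
private theorem Side_in_iff (S : FaceStruct G) {e : Sym2 V} {k : S.F} (hk : e ∈ S.B k)
    (T : Finset S.F) (hT : ¬ Odd (T.filter (e ∈ S.B ·)).card) : S.In T e ↔ k ∈ T := by
  constructor
  · rintro ⟨f, hfT, hf⟩
    by_contra hkT
    apply hT
    have h2 : (univ.filter (e ∈ S.B ·)).card = 2 := by
      rcases S.two e with h | h
      · rw [card_eq_zero, filter_eq_empty_iff] at h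
        exact absurd hk (h (mem_univ k))
      · exact h
    have hsub : T.filter (e ∈ S.B ·) ⊆ (univ.filter (e ∈ S.B ·)).erase k := by
      intro g hg
      rw [mem_filter] at hg
      rw [mem_erase, mem_filter]
      refine ⟨?_, mem_univ _, hg.2⟩
      rintro rfl
      exact hkT hg.1
    have h3 := card_le_card hsub
    rw [card_erase_of_mem (show k ∈ univ.filter (e ∈ S.B ·) from
      mem_filter.2 ⟨mem_univ _, hk⟩), h2] at h3
    have h4 : 0 < (T.filter (e ∈ S.B ·)).card := card_pos.2 ⟨f, mem_filter.2 ⟨hfT, hf⟩⟩
    have h5 : (T.filter (e ∈ S.B ·)).card = 1 := by omega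
    rw [h5]
    exact odd_one
  · intro hkT
    exact ⟨k, hkT, hk⟩

/-- If no edge at `v` is in an odd number of faces of `T` then all edges at `v` (which are in
faces) are on the same side. (By `common_face`, for an edge which is in an even number of faces of
`T` is in faces of `T` only or in no face of `T`.) -/
theorem side_vertex (S : FaceStruct G) (h3 : ∀ x, (G.neighborFinset x).card ≤ 3) {v x y : V}
    (hx : G.Adj v x) (hy : G.Adj v y) {f g : S.F} (hf : s(v, x) ∈ S.B f) (hg : s(v, y) ∈ S.B g)
    (T : Finset S.F) (hT : ∀ w, ¬ Odd (T.filter (s(v, w) ∈ S.B ·)).card) :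
    S.In T s(v, x) ↔ S.In T s(v, y) := by
  obtain ⟨k, hk1, hk2⟩ := common_face S h3 hx hy hf hg
  rw [Side_in_iff S hk1 T (hT x), Side_in_iff S hk2 T (hT y)]

/-- All edges of a path are on the same side of `T` if the interior vertices of the path are on no
edge of `Z` (the set of the edges which are in an odd number of faces of `T`). Induction. -/
theorem side_path (S : FaceStruct G) (h3 : ∀ x, (G.neighborFinset x).card ≤ 3) {x y : V}
    {l : List V} (h : Ch G x l y) (hB : ∀ e ∈ pe x l y, ∃ f, e ∈ S.B f)
    (T : Finset S.F) (hT : ∀ v ∈ l, ∀ w, ¬ Odd (T.filter (s(v, w) ∈ S.B ·)).card) :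
    ∀ e ∈ pe x l y, ∀ e' ∈ pe x l y, S.In T e ↔ S.In T e' := by
  induction l generalizing x with
  | nil =>
    intro e he e' he'
    have h1 : pe x [] y = [s(x, y)] := by simp [pe]
    rw [h1, List.mem_singleton] at he he'
    rw [he, he']
  | cons a l ih =>
    have hpe : pe x (a :: l) y = s(x, a) :: pe a l y := by simp [pe]
    have hxa : G.Adj x a := by
      unfold Ch at h
      rw [List.cons_append, List.isChain_cons_cons] at h
      exact h.1
    have hch : Ch G a l y := by
      unfold Ch at h ⊢
      rw [List.cons_append, List.isChain_cons_cons] at h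
      exact h.2
    have hB' : ∀ e ∈ pe a l y, ∃ f, e ∈ S.B f := by
      intro e he
      exact hB e (by rw [hpe]; exact List.mem_cons_of_mem _ he)
    have ih' := ih hch hB' (fun v hv => hT v (List.mem_cons_of_mem _ hv))
    -- the first edge of the rest
    obtain ⟨b, hab, hb⟩ : ∃ b, G.Adj a b ∧ s(a, b) ∈ pe a l y := by
      unfold Ch at hch
      cases l with
      | nil =>
        rw [List.nil_append, List.isChain_cons_cons] at hch
        exact ⟨y, hch.1, by simp [pe]⟩
      | cons b l =>
        rw [List.cons_append, List.isChain_cons_cons] at hch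
        exact ⟨b, hch.1, by simp [pe]⟩
    obtain ⟨f, hf⟩ := hB s(x, a) (by rw [hpe]; exact List.mem_cons_self)
    obtain ⟨g, hg⟩ := hB' _ hb
    have hf' : s(a, x) ∈ S.B f := by rwa [Sym2.eq_swap]
    have hkey := side_vertex S h3 hxa.symm hab hf' hg T (hT a List.mem_cons_self)
    rw [Sym2.eq_swap] at hkey
    have hfirst : ∀ e ∈ pe a l y, S.In T s(x, a) ↔ S.In T e := by
      intro e he
      rw [hkey]
      exact ih' _ hb e he
    intro e he e' he'
    rw [hpe, List.mem_cons] at he he'
    rcases he with rfl | he <;> rcases he' with rfl | he'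
    · exact Iff.rfl
    · exact hfirst e' he'
    · exact (hfirst e he).symm
    · exact ih' e he e' he'

end Pool.Agent.E8B
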