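import Pool.Agent.E8B.Flood

set_option autoImplicit false

namespace Pool.Agent.E8B

open Finset

universe u

variable {V : Type u} {β : Type*} [Fintype V] [DecidableEq V] {G : SimpleGraph V}
  [DecidableRel G.Adj] {L : V → Finset β}

/-- A vertex of degree at most two: `flood` for `D = univ.erase v`, `W = ∅`, then `peel v` (two
neighbours, `cov_two`). -/
theorem start_low (h3 : ∀ x, (G.neighborFinset x).card ≤ 3) (hL : ∀ x, 5 ≤ (L x).card)
    (hK : NoK33 G) (hc : G.Connected) {v : V} (hv : (G.neighborFinset v).card ≤ 2) :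
    Good G L univ ∅ := by
  have hne : univ.erase v ≠ (univ : Finset V) := by
    intro h
    have := mem_univ v
    rw [← h] at this
    simp at this
  have st : St G (univ.erase v) ∅ := by
    refine ⟨disjoint_empty_right _, by simp, ?_⟩
    intro w hw
    have hwv : w = v := by
      by_contra h
      exact hw (by simp [h])
    subst hwv
    exact le_trans (card_le_card inter_subset_left) hv
  refine peel (v := v) (mem_univ v) (hL v) (flood h3 hL hK hc _ _ st hne) ?_
  intro I hI hex
  have cov : ∀ x, x ∈ G.neighborFinset v →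
      ∃ S : Finset V, S.card ≤ 2 ∧ Cov G (univ.erase v) I v x S := by
    intro x hx
    rw [SimpleGraph.mem_neighborFinset] at hx
    refine cov_two (h3 x) hI (disjoint_empty_right _) hx (by simp) (by simp) ?_
    intro hxD
    exact absurd (by simp [hx.ne'] : x ∈ univ.erase v) hxD
  have hex' : ∃ a, a ∈ G.neighborFinset v := by
    obtain ⟨x, -, hx⟩ := hex
    exact ⟨x, (G.mem_neighborFinset v x).mpr hx⟩
  obtain ⟨a, ha⟩ := hex'
  have hcard : ((G.neighborFinset v).erase a).card ≤ 1 := by
    rw [card_erase_of_mem ha]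
    omega
  obtain ⟨b, hb, hsub⟩ : ∃ b ∈ G.neighborFinset v, G.neighborFinset v ⊆ {a, b, b} := by
    rcases Finset.eq_empty_or_nonempty ((G.neighborFinset v).erase a) with h | ⟨b, hb⟩
    · refine ⟨a, ha, ?_⟩
      intro c hc
      by_contra hca
      have : c ∈ (G.neighborFinset v).erase a := by
        rw [mem_erase]
        exact ⟨fun h => hca (by simp [h]), hc⟩
      rw [h] at this
      simp at this
    · refine ⟨b, mem_of_mem_erase hb, ?_⟩
      intro c hc
      by_cases hca : c = a
      · simp [hca]
      · have h1 : c ∈ (G.neighborFinset v).erase a := mem_erase.mpr ⟨hca, hc⟩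
        have h2 := Finset.card_le_one.mp hcard c h1 b hb
        simp [h2]
  obtain ⟨Sa, hSa, ca⟩ := cov a ha
  obtain ⟨Sb, hSb, cb⟩ := cov b hb
  refine ⟨Sa ∪ Sb ∪ Sb, ?_, nr_of_cov hsub ca cb cb⟩
  have h1 : Sa ∪ Sb ∪ Sb = Sa ∪ Sb := by
    rw [union_assoc, union_self]
  rw [h1]
  refine le_trans (card_union_le _ _) ?_
  omega

end Pool.Agent.E8B
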