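import Pool.Agent.E8B.Flood
import Pool.Agent.E8B.Calc2

set_option autoImplicit false

namespace Pool.Agent.E8B

open Finset

universe u

variable {V : Type u} {β : Type*} [Fintype V] [DecidableEq V] {G : SimpleGraph V}
  [DecidableRel G.Adj] {L : V → Finset β}

omit [Fintype V] [DecidableEq V] [DecidableRel G.Adj] in
private theorem StartH_notin (h5' : G5 G) {x1 x2 x3 x4 x5 x6 d : V}
    (hnd : [x1, x2, x3, x4, x5, x6].Nodup)
    (e12 : G.Adj x1 x2) (e23 : G.Adj x2 x3) (e34 : G.Adj x3 x4) (_e45 : G.Adj x4 x5)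
    (e56 : G.Adj x5 x6) (e61 : G.Adj x6 x1) (ed : G.Adj x1 d) (d2 : d ≠ x2) (d6 : d ≠ x6) :
    d ≠ x1 ∧ d ≠ x2 ∧ d ≠ x3 ∧ d ≠ x4 ∧ d ≠ x5 ∧ d ≠ x6 := by
  simp only [List.nodup_cons, List.mem_cons, not_or, List.not_mem_nil, not_false_eq_true,
    List.nodup_nil, and_true] at hnd
  obtain ⟨⟨n12, n13, n14, n15, n16⟩, ⟨n23, n24, n25, n26⟩, ⟨n34, n35, n36⟩, ⟨n45, n46⟩, n56⟩ := hnd
  refine ⟨?_, d2, ?_, ?_, ?_, d6⟩
  · rintro rfl; exact G.loopless.irrefl _ ed
  · rintro rfl; exact h5'.1 _ _ _ e12 e23 ed.symm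
  · rintro rfl
    exact n24 (h5'.2 x1 x2 x3 d n13 e12 e23 ed e34.symm)
  · rintro rfl
    exact h5'.1 _ _ _ e56 e61 ed

omit [Fintype V] [DecidableEq V] [DecidableRel G.Adj] in
private theorem StartH_ne1 (h5' : G5 G) {x y d e : V} (exy : G.Adj x y) (exd : G.Adj x d)
    (eye : G.Adj y e) : d ≠ e := by
  rintro rfl
  exact h5'.1 _ _ _ exy eye exd.symm

omit [Fintype V] [DecidableEq V] [DecidableRel G.Adj] in
private theorem StartH_ne2 (h5' : G5 G) {x y z d e : V} (hxz : x ≠ z) (exy : G.Adj x y)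
    (eyz : G.Adj y z) (exd : G.Adj x d) (eze : G.Adj z e) (hdy : d ≠ y) : d ≠ e := by
  rintro rfl
  exact hdy (h5'.2 x y z d hxz exy eyz exd eze.symm).symm

omit [Fintype V] in
private theorem StartH_perm (a b c d : V) : ({b, c, d, a} : Finset V) = {a, b, c, d} := by
  ext x; simp only [mem_insert, mem_singleton]; tauto

omit [Fintype V] in
private theorem StartH_swap (a b c : V) : ({b, a, c} : Finset V) ⊆ {a, b, c} := by
  intro x hx; simp only [mem_insert, mem_singleton] at hx ⊢; tauto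

private theorem StartH_cnt {D I : Finset V} {v x y z e v' : V}
    (hN : G.neighborFinset v ⊆ {x, y, z}) (hx : x ∉ D) (hy : y ∉ D) (hz : z ∉ D)
    (hxD : G.neighborFinset x ∩ D = ∅) (hyD : G.neighborFinset y ∩ D ⊆ {e})
    (hz3 : (G.neighborFinset z).card = 3) (hvz : G.Adj z v) (hv : v ∉ D) (hv' : v' ∉ D)
    (hvv' : v ≠ v') (near : Near G v v' → G.Adj z v') :
    ∃ S : Finset V, S.card ≤ 3 ∧ (Near G v v' → S.card ≤ 2) ∧ Nr G D I v S := by
  have h1 : (G.neighborFinset z ∩ D).card ≤ 2 := by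
    have : G.neighborFinset z ∩ D ⊆ (G.neighborFinset z).erase v := by
      intro w hw
      rw [mem_inter] at hw
      rw [mem_erase]
      exact ⟨fun h => hv (h ▸ hw.2), hw.1⟩
    have h2 := card_le_card this
    rw [card_erase_of_mem (by simpa using hvz), hz3] at h2
    exact h2
  refine ⟨∅ ∪ {e} ∪ (G.neighborFinset z ∩ D), ?_, ?_, ?_⟩
  · refine (card_union_le _ _).trans ?_
    have : (∅ ∪ {e} : Finset V).card ≤ 1 := by simp
    omega
  · intro hn
    have hzv' := near hn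
    have h2 : (G.neighborFinset z ∩ D).card ≤ 1 := by
      have : G.neighborFinset z ∩ D ⊆ ((G.neighborFinset z).erase v).erase v' := by
        intro w hw
        rw [mem_inter] at hw
        rw [mem_erase, mem_erase]
        exact ⟨fun h => hv' (h ▸ hw.2), fun h => hv (h ▸ hw.2), hw.1⟩
      have h2 := card_le_card this
      rw [card_erase_of_mem (by
        rw [mem_erase]; exact ⟨hvv'.symm, by simpa using hzv'⟩),
        card_erase_of_mem (by simpa using hvz), hz3] at h2
      exact h2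
    refine (card_union_le _ _).trans ?_
    have : (∅ ∪ {e} : Finset V).card ≤ 1 := by simp
    omega
  · refine nr_of_cov hN (cov_out hx ?_) (cov_out hy ?_) (cov_out hz ?_)
    · rw [hxD]; exact empty_subset _
    · exact hyD.trans (subset_insert _ _)
    · exact subset_insert _ _

/-- A cycle `h1, …, h6` in a cubic graph of girth at least five, `di` is the third neighbour of
`hi`; `d1, d3, d4, d6` are pairwise not adjacent, and not (`d1 = d4` and `d3 = d6`).
`W = {h2, h5, d1, d3, d4, d6}`, `K = {h1, h3, h4, h6}`, `D = univ \ (W ∪ K)`: `flood`, then `peel4`,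
then `commit`.
`Near h1 h4 ↔ d1 = d4` and `Near h3 h6 ↔ d3 = d6` (girth). If `d1 ≠ d4` use `peel4` with
`k1 = h1, k2 = h3, k3 = h4, k4 = h6`, otherwise with `k1 = h3, k2 = h4, k3 = h6, k4 = h1`.
In `D' = D` near to `h1`: by `h2` at most `d2`, by `h6` nothing (`h5, d6 ∈ W`), by `d1` its two
other neighbours (only one of them if `d1 = d4`, as `h4 ∉ D`): at most `3`, resp. `2`. The same for
`h3, h4, h6`.
`W` is independent by girth and the hypotheses (`h2 ≁ h5`, `h2 ≁ d1` as `d1 ≠ d2`, `h2 ≁ d4` as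
`d4 ≠ d2` by girth, ...). `Inv`: `h2` has in `D` at most the neighbour `d2`, `d1` at most its two
neighbours different from `h1`, `h1` none, and so on. -/
theorem start_hex (hcub : ∀ x, (G.neighborFinset x).card = 3) (hL : ∀ x, 5 ≤ (L x).card)
    (hK : NoK33 G) (hc : G.Connected) (h5' : G5 G)
    {h1 h2 h3 h4 h5 h6 d1 d2 d3 d4 d5 d6 : V} (hnd : [h1, h2, h3, h4, h5, h6].Nodup)
    (n1 : G.neighborFinset h1 = {h6, h2, d1}) (n2 : G.neighborFinset h2 = {h1, h3, d2})
    (n3 : G.neighborFinset h3 = {h2, h4, d3}) (n4 : G.neighborFinset h4 = {h3, h5, d4})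
    (n5 : G.neighborFinset h5 = {h4, h6, d5}) (n6 : G.neighborFinset h6 = {h5, h1, d6})
    (a13 : ¬ G.Adj d1 d3) (a14 : ¬ G.Adj d1 d4) (a16 : ¬ G.Adj d1 d6)
    (a34 : ¬ G.Adj d3 d4) (a36 : ¬ G.Adj d3 d6) (a46 : ¬ G.Adj d4 d6)
    (hne : ¬ (d1 = d4 ∧ d3 = d6)) : Good G L univ ∅ := by
  have m1 : ∀ x, G.Adj h1 x ↔ x = h6 ∨ x = h2 ∨ x = d1 := fun x => by
    rw [← SimpleGraph.mem_neighborFinset, n1]; simp
  have m2 : ∀ x, G.Adj h2 x ↔ x = h1 ∨ x = h3 ∨ x = d2 := fun x => by
    rw [← SimpleGraph.mem_neighborFinset, n2]; simp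
  have m3 : ∀ x, G.Adj h3 x ↔ x = h2 ∨ x = h4 ∨ x = d3 := fun x => by
    rw [← SimpleGraph.mem_neighborFinset, n3]; simp
  have m4 : ∀ x, G.Adj h4 x ↔ x = h3 ∨ x = h5 ∨ x = d4 := fun x => by
    rw [← SimpleGraph.mem_neighborFinset, n4]; simp
  have m5 : ∀ x, G.Adj h5 x ↔ x = h4 ∨ x = h6 ∨ x = d5 := fun x => by
    rw [← SimpleGraph.mem_neighborFinset, n5]; simp
  have m6 : ∀ x, G.Adj h6 x ↔ x = h5 ∨ x = h1 ∨ x = d6 := fun x => by
    rw [← SimpleGraph.mem_neighborFinset, n6]; simp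
  have e12 : G.Adj h1 h2 := (m1 _).2 (by tauto)
  have e23 : G.Adj h2 h3 := (m2 _).2 (by tauto)
  have e34 : G.Adj h3 h4 := (m3 _).2 (by tauto)
  have e45 : G.Adj h4 h5 := (m4 _).2 (by tauto)
  have e56 : G.Adj h5 h6 := (m5 _).2 (by tauto)
  have e61 : G.Adj h6 h1 := (m6 _).2 (by tauto)
  have f1 : G.Adj h1 d1 := (m1 _).2 (by tauto)
  have f2 : G.Adj h2 d2 := (m2 _).2 (by tauto)
  have f3 : G.Adj h3 d3 := (m3 _).2 (by tauto)
  have f4 : G.Adj h4 d4 := (m4 _).2 (by tauto)
  have f5 : G.Adj h5 d5 := (m5 _).2 (by tauto)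
  have f6 : G.Adj h6 d6 := (m6 _).2 (by tauto)
  have c3 : ∀ {v a b c : V}, G.neighborFinset v = {a, b, c} → a ≠ b ∧ a ≠ c ∧ b ≠ c := by
    intro v a b c h
    have h0 := hcub v
    rw [h] at h0
    refine ⟨?_, ?_, ?_⟩
    · rintro rfl
      have := card_le_two (a := a) (b := c)
      simp only [mem_insert, true_or, insert_eq_of_mem] at h0
      omega
    · rintro rfl
      have h1 : ({a, b, a} : Finset V) ⊆ {a, b} := by
        intro x hx; simp only [mem_insert, mem_singleton] at hx ⊢; tauto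
      have := card_le_card h1
      have := card_le_two (a := a) (b := b)
      omega
    · rintro rfl
      have h1 : ({a, b, b} : Finset V) ⊆ {a, b} := by
        intro x hx; simp only [mem_insert, mem_singleton] at hx ⊢; tauto
      have := card_le_card h1
      have := card_le_two (a := a) (b := b)
      omega
  obtain ⟨-, q61, q21⟩ := c3 n1
  obtain ⟨-, q12, q32⟩ := c3 n2
  obtain ⟨-, q23, q43⟩ := c3 n3
  obtain ⟨-, q34, q54⟩ := c3 n4
  obtain ⟨-, q45, q65⟩ := c3 n5
  obtain ⟨-, q56, q16⟩ := c3 n6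
  have r1 := StartH_notin h5' hnd e12 e23 e34 e45 e56 e61 f1 q21.symm q61.symm
  have hnd2 : [h2, h3, h4, h5, h6, h1].Nodup := by
    exact (List.nodup_rotate (n := 1)).2 hnd
  have hnd3 : [h3, h4, h5, h6, h1, h2].Nodup := by
    exact (List.nodup_rotate (n := 2)).2 hnd
  have hnd4 : [h4, h5, h6, h1, h2, h3].Nodup := by
    exact (List.nodup_rotate (n := 3)).2 hnd
  have hnd5 : [h5, h6, h1, h2, h3, h4].Nodup := by
    exact (List.nodup_rotate (n := 4)).2 hnd
  have hnd6 : [h6, h1, h2, h3, h4, h5].Nodup := by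
    exact (List.nodup_rotate (n := 5)).2 hnd
  have r2 := StartH_notin h5' hnd2 e23 e34 e45 e56 e61 e12 f2 q32.symm q12.symm
  have r3 := StartH_notin h5' hnd3 e34 e45 e56 e61 e12 e23 f3 q43.symm q23.symm
  have r4 := StartH_notin h5' hnd4 e45 e56 e61 e12 e23 e34 f4 q54.symm q34.symm
  have r5 := StartH_notin h5' hnd5 e56 e61 e12 e23 e34 e45 f5 q65.symm q45.symm
  have r6 := StartH_notin h5' hnd6 e61 e12 e23 e34 e45 e56 f6 q16.symm q56.symm
  have hnd' := hnd
  simp only [List.nodup_cons, List.mem_cons, not_or, List.not_mem_nil, not_false_eq_true,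
    List.nodup_nil, and_true] at hnd'
  obtain ⟨⟨n12, n13, n14, n15, n16⟩, ⟨n23, n24, n25, n26⟩, ⟨n34, n35, n36⟩, ⟨n45, n46⟩, n56⟩ :=
    hnd'
  -- the `d`s
  have d12 : d1 ≠ d2 := StartH_ne1 h5' e12 f1 f2
  have d23 : d2 ≠ d3 := StartH_ne1 h5' e23 f2 f3
  have d34 : d3 ≠ d4 := StartH_ne1 h5' e34 f3 f4
  have d45 : d4 ≠ d5 := StartH_ne1 h5' e45 f4 f5
  have d56 : d5 ≠ d6 := StartH_ne1 h5' e56 f5 f6
  have d61 : d6 ≠ d1 := StartH_ne1 h5' e61 f6 f1
  have d13 : d1 ≠ d3 := StartH_ne2 h5' n13 e12 e23 f1 f3 r1.2.1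
  have d24 : d2 ≠ d4 := StartH_ne2 h5' n24 e23 e34 f2 f4 r2.2.1
  have d35 : d3 ≠ d5 := StartH_ne2 h5' n35 e34 e45 f3 f5 r3.2.1
  have d46 : d4 ≠ d6 := StartH_ne2 h5' n46 e45 e56 f4 f6 r4.2.1
  have d51 : d5 ≠ d1 := StartH_ne2 h5' (Ne.symm n15) e56 e61 f5 f1 r5.2.1
  have d62 : d6 ≠ d2 := StartH_ne2 h5' (Ne.symm n26) e61 e12 f6 f2 r6.2.1
  set W : Finset V := {h2, h5, d1, d3, d4, d6} with hWdef
  have hWm : ∀ x, x ∈ W ↔ x = h2 ∨ x = h5 ∨ x = d1 ∨ x = d3 ∨ x = d4 ∨ x = d6 := by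
    intro x; rw [hWdef]; simp
  obtain ⟨r11, r12, r13, r14, r15, r16⟩ := r1
  obtain ⟨r22, r23, r24, r25, r26, r21⟩ := r2
  obtain ⟨r33, r34, r35, r36, r31, r32⟩ := r3
  obtain ⟨r44, r45, r46, r41, r42, r43⟩ := r4
  obtain ⟨r55, r56, r51, r52, r53, r54⟩ := r5
  obtain ⟨r66, r61, r62, r63, r64, r65⟩ := r6
  have hWi : ∀ x ∈ W, ∀ y ∈ W, ¬ G.Adj x y := by
    have i1 : ∀ y ∈ W, ¬ G.Adj h2 y := by
      intro y hy h
      rw [hWm] at hy; rw [m2] at h
      rcases h with rfl | rfl | rfl <;> rcases hy with h | h | h | h | h | h <;>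
        first | exact absurd h (by assumption) | exact absurd h.symm (by assumption)
    have i2 : ∀ y ∈ W, ¬ G.Adj h5 y := by
      intro y hy h
      rw [hWm] at hy; rw [m5] at h
      rcases h with rfl | rfl | rfl <;> rcases hy with h | h | h | h | h | h <;>
        first | exact absurd h (by assumption) | exact absurd h.symm (by assumption)
    intro x hx y hy h
    have hx' := hx
    have hy' := hy
    rw [hWm] at hx hy
    rcases hx with rfl | rfl | rfl | rfl | rfl | rfl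
    · exact i1 _ hy' h
    · exact i2 _ hy' h
    · rcases hy with rfl | rfl | rfl | rfl | rfl | rfl
      · exact i1 _ hx' h.symm
      · exact i2 _ hx' h.symm
      · exact G.loopless.irrefl _ h
      · exact a13 h
      · exact a14 h
      · exact a16 h
    · rcases hy with rfl | rfl | rfl | rfl | rfl | rfl
      · exact i1 _ hx' h.symm
      · exact i2 _ hx' h.symm
      · exact a13 h.symm
      · exact G.loopless.irrefl _ h
      · exact a34 h
      · exact a36 h
    · rcases hy with rfl | rfl | rfl | rfl | rfl | rfl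
      · exact i1 _ hx' h.symm
      · exact i2 _ hx' h.symm
      · exact a14 h.symm
      · exact a34 h.symm
      · exact G.loopless.irrefl _ h
      · exact a46 h
    · rcases hy with rfl | rfl | rfl | rfl | rfl | rfl
      · exact i1 _ hx' h.symm
      · exact i2 _ hx' h.symm
      · exact a16 h.symm
      · exact a36 h.symm
      · exact a46 h.symm
      · exact G.loopless.irrefl _ h
  set D : Finset V := (univ \ W) \ {h1, h3, h4, h6} with hDdef
  have hDm : ∀ x, x ∈ D ↔ x ∉ W ∧ ¬ (x = h1 ∨ x = h3 ∨ x = h4 ∨ x = h6) := by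
    intro x; rw [hDdef]; simp
  have hWD : ∀ x ∈ W, x ∉ D := fun x hx h => ((hDm x).1 h).1 hx
  have w2 : h2 ∈ W := (hWm _).2 (by simp)
  have w5 : h5 ∈ W := (hWm _).2 (by simp)
  have v1 : d1 ∈ W := (hWm _).2 (by simp)
  have v3 : d3 ∈ W := (hWm _).2 (by simp)
  have v4 : d4 ∈ W := (hWm _).2 (by simp)
  have v6 : d6 ∈ W := (hWm _).2 (by simp)
  have k1 : h1 ∉ D := fun h => ((hDm _).1 h).2 (by simp)
  have k3 : h3 ∉ D := fun h => ((hDm _).1 h).2 (by simp)
  have k4 : h4 ∉ D := fun h => ((hDm _).1 h).2 (by simp)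
  have k6 : h6 ∉ D := fun h => ((hDm _).1 h).2 (by simp)
  have empt : ∀ {v a b c : V}, G.neighborFinset v = {a, b, c} → a ∉ D → b ∉ D → c ∉ D →
      G.neighborFinset v ∩ D = ∅ := by
    intro v a b c h ha hb hc
    rw [h]
    ext x
    simp only [mem_inter, mem_insert, mem_singleton, notMem_empty, iff_false, not_and]
    rintro (rfl | rfl | rfl) <;> assumption
  have N1 := empt n1 k6 (hWD _ w2) (hWD _ v1)
  have N3 := empt n3 (hWD _ w2) k4 (hWD _ v3)
  have N4 := empt n4 k3 (hWD _ w5) (hWD _ v4)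
  have N6 := empt n6 (hWD _ w5) k1 (hWD _ v6)
  have one : ∀ {v a b c : V}, G.neighborFinset v = {a, b, c} → a ∉ D → b ∉ D →
      G.neighborFinset v ∩ D ⊆ {c} := by
    intro v a b c h ha hb x hx
    rw [h] at hx
    simp only [mem_inter, mem_insert, mem_singleton] at hx ⊢
    rcases hx with ⟨rfl | rfl | rfl, hx⟩
    · exact absurd hx ha
    · exact absurd hx hb
    · rfl
  have N2 := one n2 k1 k3
  have N5 := one n5 k4 k6
  have two : ∀ {v a : V}, G.Adj v a → a ∉ D → (G.neighborFinset v ∩ D).card ≤ 2 := by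
    intro v a hva ha
    have : G.neighborFinset v ∩ D ⊆ (G.neighborFinset v).erase a := by
      intro w hw
      rw [mem_inter] at hw
      rw [mem_erase]
      exact ⟨fun h => ha (h ▸ hw.2), hw.1⟩
    have h2 := card_le_card this
    rw [card_erase_of_mem (by simpa using hva), hcub v] at h2
    exact h2
  have hst : St G D W := by
    refine ⟨?_, hWi, ?_⟩
    · rw [disjoint_left]
      intro x hx hx'
      exact hWD _ hx' hx
    · intro w hw
      rw [hDm, not_and_or, not_not, not_not] at hw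
      rcases hw with hw | hw
      · rw [hWm] at hw
        rcases hw with rfl | rfl | rfl | rfl | rfl | rfl
        · exact two e12.symm k1
        · exact two e45.symm k4
        · exact two f1.symm k1
        · exact two f3.symm k3
        · exact two f4.symm k4
        · exact two f6.symm k6
      · rcases hw with rfl | rfl | rfl | rfl
        · rw [N1]; simp
        · rw [N3]; simp
        · rw [N4]; simp
        · rw [N6]; simp
  have hDu : D ≠ univ := fun h => k1 (h ▸ mem_univ _)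
  have hgood : Good G L D W := flood (fun x => (hcub x).le) hL hK hc D W hst hDu
  have near14 : Near G h1 h4 → d1 = d4 := by
    rintro ⟨-, h | ⟨w, hw, hw'⟩⟩
    · rw [m1] at h
      rcases h with h | h | h
      · exact absurd h n46
      · exact absurd h (Ne.symm n24)
      · exact absurd h.symm r14
    · have hw' := hw'.symm
      rw [m1] at hw; rw [m4] at hw'
      rcases hw with rfl | rfl | rfl <;> rcases hw' with h | h | h <;>
        first | exact h | exact absurd h (by assumption) | exact absurd h.symm (by assumption)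
  have near36 : Near G h3 h6 → d3 = d6 := by
    rintro ⟨-, h | ⟨w, hw, hw'⟩⟩
    · rw [m3] at h
      rcases h with h | h | h
      · exact absurd h.symm n26
      · exact absurd h.symm n46
      · exact absurd h.symm r36
    · have hw' := hw'.symm
      rw [m3] at hw; rw [m6] at hw'
      rcases hw with rfl | rfl | rfl <;> rcases hw' with h | h | h <;>
        first | exact h | exact absurd h (by assumption) | exact absurd h.symm (by assumption)
  have C1 : ∀ I : Finset V, ∃ S : Finset V, S.card ≤ 3 ∧ (Near G h1 h4 → S.card ≤ 2) ∧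
      Nr G D I h1 S := fun I =>
    StartH_cnt (e := d2) (n1 ▸ subset_rfl) k6 (hWD _ w2) (hWD _ v1) N6 N2 (hcub _) f1.symm k1 k4 n14
      (fun h => by rw [near14 h]; exact f4.symm)
  have C3 : ∀ I : Finset V, ∃ S : Finset V, S.card ≤ 3 ∧ (Near G h3 h6 → S.card ≤ 2) ∧
      Nr G D I h3 S := fun I =>
    StartH_cnt (x := h4) (y := h2) (e := d2)
      (n3 ▸ StartH_swap _ _ _)
      k4 (hWD _ w2) (hWD _ v3) N4 N2 (hcub _) f3.symm k3 k6 n36
      (fun h => by rw [near36 h]; exact f6.symm)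
  have C4 : ∀ I : Finset V, ∃ S : Finset V, S.card ≤ 3 ∧ (Near G h4 h1 → S.card ≤ 2) ∧
      Nr G D I h4 S := fun I =>
    StartH_cnt (e := d5) (n4 ▸ subset_rfl) k3 (hWD _ w5) (hWD _ v4) N3 N5 (hcub _) f4.symm k4 k1
      (Ne.symm n14) (fun h => by rw [← near14 h.symm']; exact f1.symm)
  have C6 : ∀ I : Finset V, ∃ S : Finset V, S.card ≤ 3 ∧ (Near G h6 h3 → S.card ≤ 2) ∧
      Nr G D I h6 S := fun I =>
    StartH_cnt (x := h1) (y := h5) (e := d5)
      (n6 ▸ StartH_swap _ _ _)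
      k1 (hWD _ w5) (hWD _ v6) N1 N5 (hcub _) f6.symm k6 k3 (Ne.symm n36)
      (fun h => by rw [← near36 h.symm']; exact f3.symm)
  have nW : ∀ x, (x = h1 ∨ x = h3 ∨ x = h4 ∨ x = h6) → x ∈ univ \ W := by
    intro x hx
    rw [mem_sdiff]
    refine ⟨mem_univ _, fun h => ?_⟩
    rw [hWm] at h
    rcases hx with rfl | rfl | rfl | rfl <;> rcases h with h | h | h | h | h | h <;>
      first | exact absurd h (by assumption) | exact absurd h.symm (by assumption)
  have dW : ∀ x, (x = h1 ∨ x = h3 ∨ x = h4 ∨ x = h6) → ∃ y ∈ W, G.Adj x y := by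
    rintro x (rfl | rfl | rfl | rfl)
    · exact ⟨h2, w2, e12⟩
    · exact ⟨h2, w2, e23.symm⟩
    · exact ⟨h5, w5, e45⟩
    · exact ⟨h5, w5, e56.symm⟩
  have hmain : Good G L (univ \ W) W := by
    by_cases h14 : d1 = d4
    · have h36 : d3 ≠ d6 := fun h => hne ⟨h14, h⟩
      have hset : (univ \ W) \ {h3, h4, h6, h1} = D := by
        rw [hDdef, StartH_perm]
      refine peel4 (k1 := h3) (k2 := h4) (k3 := h6) (k4 := h1) hL ?_ ?_ ?_ (fun h => h36 (near36 h))
        (by rw [hset]; exact hgood) ?_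
      · simp only [List.nodup_cons, List.mem_cons, not_or, List.not_mem_nil, not_false_eq_true,
          List.nodup_nil, and_true]
        exact ⟨⟨n34, n36, Ne.symm n13⟩, ⟨n46, Ne.symm n14⟩, Ne.symm n16⟩
      · intro k hk
        simp only [List.mem_cons, List.not_mem_nil, or_false] at hk
        exact nW k (by rcases hk with rfl | rfl | rfl | rfl <;> simp)
      · intro k hk
        simp only [List.mem_cons, List.not_mem_nil, or_false] at hk
        exact dW k (by rcases hk with rfl | rfl | rfl | rfl <;> simp)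
      · rw [hset]
        intro I _
        obtain ⟨S3, s3, -, s3'⟩ := C3 I
        obtain ⟨S6, s6, -, s6'⟩ := C6 I
        obtain ⟨S4, s4, t4, s4'⟩ := C4 I
        obtain ⟨S1, s1, t1, s1'⟩ := C1 I
        exact ⟨⟨S3, s3, s3'⟩, ⟨S6, s6, s6'⟩, ⟨S4, s4, t4, s4'⟩, ⟨S1, s1, fun h => t1 h.symm', s1'⟩⟩
    · refine peel4 (k1 := h1) (k2 := h3) (k3 := h4) (k4 := h6) hL ?_ ?_ ?_ (fun h => h14 (near14 h))
        hgood ?_
      · simp only [List.nodup_cons, List.mem_cons, not_or, List.not_mem_nil, not_false_eq_true,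
          List.nodup_nil, and_true]
        exact ⟨⟨n13, n14, n16⟩, ⟨n34, n36⟩, n46⟩
      · intro k hk
        simp only [List.mem_cons, List.not_mem_nil, or_false] at hk
        exact nW k (by rcases hk with rfl | rfl | rfl | rfl <;> simp)
      · intro k hk
        simp only [List.mem_cons, List.not_mem_nil, or_false] at hk
        exact dW k (by rcases hk with rfl | rfl | rfl | rfl <;> simp)
      · intro I _
        obtain ⟨S3, s3, t3, s3'⟩ := C3 I
        obtain ⟨S6, s6, t6, s6'⟩ := C6 I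
        obtain ⟨S4, s4, -, s4'⟩ := C4 I
        obtain ⟨S1, s1, -, s1'⟩ := C1 I
        exact ⟨⟨S1, s1, s1'⟩, ⟨S4, s4, s4'⟩, ⟨S3, s3, t3, s3'⟩, ⟨S6, s6, fun h => t6 h.symm', s6'⟩⟩
  exact commit (J := W) (subset_univ _) (by rw [empty_union]; exact hmain)

end Pool.Agent.E8B
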