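import Pool.Agent.E8B.Flood
import Pool.Agent.E8B.Calc2

set_option autoImplicit false

namespace Pool.Agent.E8B

open Finset

universe u

variable {V : Type u} {β : Type*} [Fintype V] [DecidableEq V] {G : SimpleGraph V}
  [DecidableRel G.Adj] {L : V → Finset β}

private theorem startm_one {x u1 u2 : V} (hx : (G.neighborFinset x).card = 3) (h1 : G.Adj x u1)
    (h2 : G.Adj x u2) (hne : u1 ≠ u2) {D' : Finset V} (n1 : u1 ∉ D') (n2 : u2 ∉ D') :
    (G.neighborFinset x ∩ D').card ≤ 1 := by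
  have hs : G.neighborFinset x ∩ D' ⊆ ((G.neighborFinset x).erase u1).erase u2 := by
    intro t ht
    rw [Finset.mem_inter] at ht
    rw [Finset.mem_erase, Finset.mem_erase]
    refine ⟨fun h => n2 (h ▸ ht.2), fun h => n1 (h ▸ ht.2), ht.1⟩
  refine (Finset.card_le_card hs).trans ?_
  rw [Finset.card_erase_of_mem, Finset.card_erase_of_mem, hx]
  · rw [G.mem_neighborFinset]; exact h1
  · rw [Finset.mem_erase, G.mem_neighborFinset]
    exact ⟨hne.symm, h2⟩

private theorem startm_two {x u1 : V} (hx : (G.neighborFinset x).card = 3) (h1 : G.Adj x u1)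
    {D' : Finset V} (n1 : u1 ∉ D') : (G.neighborFinset x ∩ D').card ≤ 2 := by
  have hs : G.neighborFinset x ∩ D' ⊆ (G.neighborFinset x).erase u1 := by
    intro t ht
    rw [Finset.mem_inter] at ht
    rw [Finset.mem_erase]
    exact ⟨fun h => n1 (h ▸ ht.2), ht.1⟩
  refine (Finset.card_le_card hs).trans ?_
  rw [Finset.card_erase_of_mem, hx]
  rw [G.mem_neighborFinset]; exact h1

private theorem startm_third {x u1 u2 : V} (hx : (G.neighborFinset x).card = 3) (h1 : G.Adj x u1)
    (h2 : G.Adj x u2) (hne : u1 ≠ u2) :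
    ∃ t, G.Adj x t ∧ t ≠ u1 ∧ t ≠ u2 ∧ G.neighborFinset x ⊆ {u1, u2, t} := by
  have hc : (((G.neighborFinset x).erase u1).erase u2).card = 1 := by
    rw [Finset.card_erase_of_mem, Finset.card_erase_of_mem, hx]
    · rw [G.mem_neighborFinset]; exact h1
    · rw [Finset.mem_erase, G.mem_neighborFinset]
      exact ⟨hne.symm, h2⟩
  obtain ⟨t, ht⟩ := Finset.card_eq_one.1 hc
  have hm : t ∈ ((G.neighborFinset x).erase u1).erase u2 := by
    rw [ht]; simp
  rw [Finset.mem_erase, Finset.mem_erase, G.mem_neighborFinset] at hm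
  refine ⟨t, hm.2.2, hm.2.1, hm.1, ?_⟩
  intro r hr
  simp only [Finset.mem_insert, Finset.mem_singleton]
  by_cases e1 : r = u1
  · exact Or.inl e1
  by_cases e2 : r = u2
  · exact Or.inr (Or.inl e2)
  have : r ∈ ((G.neighborFinset x).erase u1).erase u2 := by
    rw [Finset.mem_erase, Finset.mem_erase]
    exact ⟨e2, e1, hr⟩
  rw [ht, Finset.mem_singleton] at this
  exact Or.inr (Or.inr this)

omit [Fintype V] [DecidableRel G.Adj] in
private theorem startm_cov {D' I : Finset V} {v x : V} {S : Finset V}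
    (h : ∀ r ∈ D', r ≠ v → r = x ∨ G.Adj x r → r ∈ S) : Cov G D' I v x S :=
  fun r hr _ hne hx => h r hr hne hx

private theorem startm_cov' {D' I : Finset V} {v x : V} (hx : x ∉ D') :
    Cov G D' I v x (G.neighborFinset x ∩ D') := by
  refine startm_cov fun r hr _ h => ?_
  rcases h with h | h
  · exact absurd (h ▸ hr) hx
  · rw [Finset.mem_inter, G.mem_neighborFinset]
    exact ⟨h, hr⟩

private theorem startm_u3 {A B C : Finset V} {a b c : ℕ} (ha : A.card ≤ a) (hb : B.card ≤ b)
    (hc : C.card ≤ c) : (A ∪ B ∪ C).card ≤ a + b + c := by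
  have h1 := Finset.card_union_le (A ∪ B) C
  have h2 := Finset.card_union_le A B
  omega

/-- Two cycles `h2, a1, a2, a3, h1` and `h2, b1, b2, b3, h1` of length five with the common edge
`h1 h2` in a cubic graph of girth at least five, `y`, `w` are the third neighbours of `a1`, `b1`;
there is no cycle of length five through `a1, h2, b1`; `a1, b3` are not near.
`W = {h1, a2, b2, y, w}`, `K = {a1, a3, b3, b1}`, `D = univ \ (W ∪ K ∪ {h2})`: `flood`, then `peel4`
with `k1 = a1, k2 = a3, k3 = b3, k4 = b1` (if `Near a3 b1` then this is because of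
a common neighbour, which is the third neighbour of both), then `peel h2`, then `commit`.
First: all eight vertices of the two cycles are different (girth), `y, w` are different and are
none of the eight vertices (girth). `W` is independent: `h1 ≁ a2, b2, y, w` (`N(h1) = {h2, a3, b3}`),
`a2 ≁ b2`, `a2 ≁ w`, `b2 ≁ y`, `y ≁ w` because there is no cycle of length five through
`a1, h2, b1`; `a2 ≁ y`, `b2 ≁ w` by girth.
`Inv D`: `h1, h2, a1, b1` have no neighbour in `D`; `a2, b2, a3, b3` at most one (their third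
neighbour), `y, w` at most two (as `a1, b1 ∉ D`).
Counts for `peel4` with `D' = D`: near to `a1`: by `h2` nothing (`h1, b1 ∉ D`), by `a2` at most the
third neighbour of `a2`, by `y` at most its two other neighbours: at most `3`. Near to `a3`: by `a2`
the same vertex, by `h1` nothing, by the third neighbour `y3` of `a3` at most two (`cov_two`): at
most `3`; if `Near a3 b1`, then `y3 = w ∉ D` has the neighbours `a3, b1` and one more, so at most
`2`. In the same way for `b3`, `b1` (if `Near a3 b1` then `w` is adjacent to `a3, b1` and one more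
vertex: at most `2` for `b1`).
`peel h2` with `D' = D ∪ K`: `h1` contributes at most `a3, b3`, `a1` only `a1` (`a2, y ∈ W`), `b1`
only `b1`: at most four. -/
theorem start_pair (hcub : ∀ x, (G.neighborFinset x).card = 3) (hL : ∀ x, 5 ≤ (L x).card)
    (hK : NoK33 G) (hc : G.Connected) (h5 : G5 G)
    {h1 h2 a1 a2 a3 b1 b2 b3 y w : V}
    (nh2 : G.neighborFinset h2 = {h1, a1, b1}) (nh1 : G.neighborFinset h1 = {h2, a3, b3})
    (na1 : G.neighborFinset a1 = {h2, a2, y}) (nb1 : G.neighborFinset b1 = {h2, b2, w})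
    (ha : G.Adj a2 a3) (hb : G.Adj b2 b3) (hab : a1 ≠ b1) (hab3 : a3 ≠ b3)
    (hno : ∀ p q, ¬ Ang G a1 h2 b1 p q) (hnear : ¬ Near G a1 b3) : Good G L univ ∅ := by
  obtain ⟨tri, four⟩ := h5
  -- adjacency
  have ah2 : ∀ r, G.Adj h2 r ↔ r = h1 ∨ r = a1 ∨ r = b1 := fun r => by
    rw [← G.mem_neighborFinset, nh2]; simp
  have ah1 : ∀ r, G.Adj h1 r ↔ r = h2 ∨ r = a3 ∨ r = b3 := fun r => by
    rw [← G.mem_neighborFinset, nh1]; simp
  have aa1 : ∀ r, G.Adj a1 r ↔ r = h2 ∨ r = a2 ∨ r = y := fun r => by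
    rw [← G.mem_neighborFinset, na1]; simp
  have ab1 : ∀ r, G.Adj b1 r ↔ r = h2 ∨ r = b2 ∨ r = w := fun r => by
    rw [← G.mem_neighborFinset, nb1]; simp
  have e21 : G.Adj h2 h1 := by rw [ah2]; simp
  have e2a : G.Adj h2 a1 := by rw [ah2]; simp
  have e2b : G.Adj h2 b1 := by rw [ah2]; simp
  have e1a : G.Adj h1 a3 := by rw [ah1]; simp
  have e1b : G.Adj h1 b3 := by rw [ah1]; simp
  have eaa : G.Adj a1 a2 := by rw [aa1]; simp
  have eay : G.Adj a1 y := by rw [aa1]; simp
  have ebb : G.Adj b1 b2 := by rw [ab1]; simp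
  have ebw : G.Adj b1 w := by rw [ab1]; simp
  have c2 : ({h1, a1, b1} : Finset V).card = 3 := by rw [← nh2]; exact hcub h2
  have c1 : ({h2, a3, b3} : Finset V).card = 3 := by rw [← nh1]; exact hcub h1
  have ca : ({h2, a2, y} : Finset V).card = 3 := by rw [← na1]; exact hcub a1
  have cb : ({h2, b2, w} : Finset V).card = 3 := by rw [← nb1]; exact hcub b1
  have dist3 : ∀ p q r : V, ({p, q, r} : Finset V).card = 3 → p ≠ q ∧ p ≠ r ∧ q ≠ r := by
    intro p q r h
    refine ⟨?_, ?_, ?_⟩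
    · rintro rfl
      have h' := Finset.card_le_two (a := p) (b := r)
      rw [Finset.insert_eq_of_mem (by simp : p ∈ ({p, r} : Finset V))] at h
      omega
    · rintro rfl
      have h' := Finset.card_le_two (a := q) (b := p)
      rw [Finset.insert_eq_of_mem (by simp : p ∈ ({q, p} : Finset V))] at h
      omega
    · rintro rfl
      have h' := Finset.card_le_two (a := p) (b := q)
      rw [Finset.pair_eq_singleton] at h
      omega
  obtain ⟨n_h1a1, n_h1b1, n_a1b1⟩ := dist3 _ _ _ c2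
  obtain ⟨n_h2a3, n_h2b3, n_a3b3⟩ := dist3 _ _ _ c1
  obtain ⟨n_h2a2, n_h2y, n_a2y⟩ := dist3 _ _ _ ca
  obtain ⟨n_h2b2, n_h2w, n_b2w⟩ := dist3 _ _ _ cb
  have n_h2h1 : h2 ≠ h1 := G.ne_of_adj e21
  have n_h2a1 : h2 ≠ a1 := G.ne_of_adj e2a
  have n_h2b1 : h2 ≠ b1 := G.ne_of_adj e2b
  have n_h1a3 : h1 ≠ a3 := G.ne_of_adj e1a
  have n_h1b3 : h1 ≠ b3 := G.ne_of_adj e1b
  have n_a1a2 : a1 ≠ a2 := G.ne_of_adj eaa
  have n_a1y : a1 ≠ y := G.ne_of_adj eay
  have n_b1b2 : b1 ≠ b2 := G.ne_of_adj ebb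
  have n_b1w : b1 ≠ w := G.ne_of_adj ebw
  have n_a2a3 : a2 ≠ a3 := G.ne_of_adj ha
  have n_b2b3 : b2 ≠ b3 := G.ne_of_adj hb
  -- triangles
  have t1a : ¬ G.Adj a1 h1 := fun h => tri h2 a1 h1 e2a h e21.symm
  have t1b : ¬ G.Adj b1 h1 := fun h => tri h2 b1 h1 e2b h e21.symm
  have tab : ¬ G.Adj a1 b1 := fun h => tri h2 a1 b1 e2a h e2b.symm
  have n_h1a2 : h1 ≠ a2 := fun h => t1a (h ▸ eaa)
  have n_h1b2 : h1 ≠ b2 := fun h => t1b (h ▸ ebb)
  have n_h1y : h1 ≠ y := fun h => t1a (h ▸ eay)
  have n_h1w : h1 ≠ w := fun h => t1b (h ▸ ebw)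
  have n_a1a3 : a1 ≠ a3 := fun h => t1a (h ▸ e1a.symm)
  have n_a1b2 : a1 ≠ b2 := fun h => tab (h ▸ ebb.symm)
  have n_a1b3 : a1 ≠ b3 := fun h => t1a (h ▸ e1b.symm)
  have n_a1w : a1 ≠ w := fun h => tab (h ▸ ebw.symm)
  have n_a2b1 : a2 ≠ b1 := fun h => tab (h ▸ eaa)
  have n_a3b1 : a3 ≠ b1 := fun h => t1b (h ▸ e1a.symm)
  have n_b1b3 : b1 ≠ b3 := fun h => t1b (h ▸ e1b.symm)
  have n_b1y : b1 ≠ y := fun h => tab (h ▸ eay)
  have n_a2b2 : a2 ≠ b2 := fun h => n_a1b1 (four h2 a1 a2 b1 n_h2a2 e2a eaa e2b (h ▸ ebb))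
  have n_a2b3 : a2 ≠ b3 := fun h => n_h1a1 (four h2 a1 a2 h1 n_h2a2 e2a eaa e21 (h ▸ e1b)).symm
  have n_a2w : a2 ≠ w := fun h => n_a1b1 (four h2 a1 a2 b1 n_h2a2 e2a eaa e2b (h ▸ ebw))
  have n_a3b2 : a3 ≠ b2 := fun h => n_h1b1 (four h2 h1 a3 b1 n_h2a3 e21 e1a e2b (h ▸ ebb))
  have n_a3y : a3 ≠ y := fun h => n_h1a1 (four h2 h1 a3 a1 n_h2a3 e21 e1a e2a (h ▸ eay))
  have n_a3w : a3 ≠ w := fun h => n_h1b1 (four h2 h1 a3 b1 n_h2a3 e21 e1a e2b (h ▸ ebw))
  have n_b2y : b2 ≠ y := fun h => n_a1b1 (four h2 a1 b2 b1 n_h2b2 e2a (h ▸ eay) e2b ebb)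
  have n_b3y : b3 ≠ y := fun h => n_h1a1 (four h2 h1 b3 a1 n_h2b3 e21 e1b e2a (h ▸ eay))
  have n_b3w : b3 ≠ w := fun h => n_h1b1 (four h2 h1 b3 b1 n_h2b3 e21 e1b e2b (h ▸ ebw))
  have n_yw : y ≠ w := fun h => n_a1b1 (four h2 a1 y b1 n_h2y e2a eay e2b (h ▸ ebw))
  -- the sets
  have memD : ∀ r, r ∈ ((univ \ {h1, a2, b2, y, w}).erase h2) \ {a1, a3, b3, b1} ↔
      r ≠ h2 ∧ r ≠ h1 ∧ r ≠ a2 ∧ r ≠ b2 ∧ r ≠ y ∧ r ≠ w ∧ r ≠ a1 ∧ r ≠ a3 ∧ r ≠ b3 ∧ r ≠ b1 := by
    intro r
    simp only [Finset.mem_sdiff, Finset.mem_erase, Finset.mem_univ, Finset.mem_insert,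
      Finset.mem_singleton, not_or, true_and]
    tauto
  have memE : ∀ r, r ∈ (univ \ {h1, a2, b2, y, w}).erase h2 ↔
      r ≠ h2 ∧ r ≠ h1 ∧ r ≠ a2 ∧ r ≠ b2 ∧ r ≠ y ∧ r ≠ w := by
    intro r
    simp only [Finset.mem_sdiff, Finset.mem_erase, Finset.mem_univ, Finset.mem_insert,
      Finset.mem_singleton, not_or, true_and]
  have hInv : Inv G (((univ \ {h1, a2, b2, y, w}).erase h2) \ {a1, a3, b3, b1}) := by
    intro r hr
    rw [memD] at hr
    have hr' : r = h2 ∨ r = h1 ∨ r = a2 ∨ r = b2 ∨ r = y ∨ r = w ∨ r = a1 ∨ r = a3 ∨ r = b3 ∨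
        r = b1 := by tauto
    rcases hr' with rfl | rfl | rfl | rfl | rfl | rfl | rfl | rfl | rfl | rfl
    · exact startm_two (hcub _) e21 (by rw [memD]; tauto)
    · exact startm_two (hcub _) e21.symm (by rw [memD]; tauto)
    · exact startm_two (hcub _) eaa.symm (by rw [memD]; tauto)
    · exact startm_two (hcub _) ebb.symm (by rw [memD]; tauto)
    · exact startm_two (hcub _) eay.symm (by rw [memD]; tauto)
    · exact startm_two (hcub _) ebw.symm (by rw [memD]; tauto)
    · exact startm_two (hcub _) e2a.symm (by rw [memD]; tauto)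
    · exact startm_two (hcub _) e1a.symm (by rw [memD]; tauto)
    · exact startm_two (hcub _) e1b.symm (by rw [memD]; tauto)
    · exact startm_two (hcub _) e2b.symm (by rw [memD]; tauto)
  have hDisj : Disjoint (((univ \ {h1, a2, b2, y, w}).erase h2) \ {a1, a3, b3, b1})
      ({h1, a2, b2, y, w} : Finset V) := by
    rw [Finset.disjoint_left]
    intro r hr hr'
    rw [memD] at hr
    simp only [Finset.mem_insert, Finset.mem_singleton] at hr'
    tauto
  have hInd : ∀ r ∈ ({h1, a2, b2, y, w} : Finset V), ∀ t ∈ ({h1, a2, b2, y, w} : Finset V),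
      ¬ G.Adj r t := by
    have k1 : ∀ t ∈ ({h1, a2, b2, y, w} : Finset V), ¬ G.Adj h1 t := by
      intro t ht h
      rw [ah1] at h
      simp only [Finset.mem_insert, Finset.mem_singleton] at ht
      rcases h with rfl | rfl | rfl
      · rcases ht with h | h | h | h | h
        · exact n_h2h1 h
        · exact n_h2a2 h
        · exact n_h2b2 h
        · exact n_h2y h
        · exact n_h2w h
      · rcases ht with h | h | h | h | h
        · exact n_h1a3 h.symm
        · exact n_a2a3 h.symm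
        · exact n_a3b2 h
        · exact n_a3y h
        · exact n_a3w h
      · rcases ht with h | h | h | h | h
        · exact n_h1b3 h.symm
        · exact n_a2b3 h.symm
        · exact n_b2b3 h.symm
        · exact n_b3y h
        · exact n_b3w h
    have k2 : ¬ G.Adj a2 b2 := fun h =>
      hno a2 b2 ⟨e2a, e2b, n_a1b1, eaa, h, ebb.symm, n_h2a2.symm, n_h2b2.symm⟩
    have k3 : ¬ G.Adj a2 w := fun h =>
      hno a2 w ⟨e2a, e2b, n_a1b1, eaa, h, ebw.symm, n_h2a2.symm, n_h2w.symm⟩
    have k4 : ¬ G.Adj y b2 := fun h =>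
      hno y b2 ⟨e2a, e2b, n_a1b1, eay, h, ebb.symm, n_h2y.symm, n_h2b2.symm⟩
    have k5 : ¬ G.Adj y w := fun h =>
      hno y w ⟨e2a, e2b, n_a1b1, eay, h, ebw.symm, n_h2y.symm, n_h2w.symm⟩
    have k6 : ¬ G.Adj a2 y := fun h => tri a1 a2 y eaa h eay.symm
    have k7 : ¬ G.Adj b2 w := fun h => tri b1 b2 w ebb h ebw.symm
    have kk : ∀ r, ¬ G.Adj r r := fun r => G.loopless.irrefl r
    intro r hr t ht h
    simp only [Finset.mem_insert, Finset.mem_singleton] at hr
    rcases hr with rfl | rfl | rfl | rfl | rfl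
    · exact k1 t ht h
    all_goals
      simp only [Finset.mem_insert, Finset.mem_singleton] at ht
      rcases ht with rfl | rfl | rfl | rfl | rfl
      · exact k1 _ (by simp) h.symm
      all_goals first
        | exact kk _ h
        | exact k2 h
        | exact k2 h.symm
        | exact k3 h
        | exact k3 h.symm
        | exact k4 h
        | exact k4 h.symm
        | exact k5 h
        | exact k5 h.symm
        | exact k6 h
        | exact k6 h.symm
        | exact k7 h
        | exact k7 h.symm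
  have hst : St G (((univ \ {h1, a2, b2, y, w}).erase h2) \ {a1, a3, b3, b1})
      ({h1, a2, b2, y, w} : Finset V) := ⟨hDisj, hInd, hInv⟩
  have hflood := flood (L := L) (fun x => (hcub x).le) hL hK hc _ _ hst (by
    intro h
    have : h2 ∈ ((univ \ {h1, a2, b2, y, w}).erase h2) \ {a1, a3, b3, b1} := by
      rw [h]; simp
    rw [memD] at this
    exact this.1 rfl)
  refine commit (J := {h1, a2, b2, y, w}) (Finset.subset_univ _) ?_
  rw [Finset.empty_union]
  refine peel (v := h2) ?_ (hL h2) ?_ ?_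
  · simp only [Finset.mem_sdiff, Finset.mem_univ, Finset.mem_insert, Finset.mem_singleton,
      not_or, true_and]
    exact ⟨n_h2h1, n_h2a2, n_h2b2, n_h2y, n_h2w⟩
  · refine peel4 (k1 := a1) (k2 := a3) (k3 := b3) (k4 := b1) hL ?_ ?_ ?_ hnear hflood ?_
    · simp only [List.nodup_cons, List.mem_cons, List.not_mem_nil, not_or, or_false,
        not_false_eq_true, List.nodup_nil, and_true]
      exact ⟨⟨n_a1a3, n_a1b3, n_a1b1⟩, ⟨n_a3b3, n_a3b1⟩, n_b1b3.symm⟩
    · intro k hk
      simp only [List.mem_cons, List.not_mem_nil, or_false] at hk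
      rw [memE]
      rcases hk with rfl | rfl | rfl | rfl
      · exact ⟨n_h2a1.symm, n_h1a1.symm, n_a1a2, n_a1b2, n_a1y, n_a1w⟩
      · exact ⟨n_h2a3.symm, n_h1a3.symm, n_a2a3.symm, n_a3b2, n_a3y, n_a3w⟩
      · exact ⟨n_h2b3.symm, n_h1b3.symm, n_a2b3.symm, n_b2b3.symm, n_b3y, n_b3w⟩
      · exact ⟨n_h2b1.symm, n_h1b1.symm, n_a2b1.symm, n_b1b2, n_b1y, n_b1w⟩
    · intro k hk
      simp only [List.mem_cons, List.not_mem_nil, or_false] at hk
      rcases hk with rfl | rfl | rfl | rfl
      · exact ⟨a2, by simp, eaa⟩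
      · exact ⟨a2, by simp, ha.symm⟩
      · exact ⟨b2, by simp, hb.symm⟩
      · exact ⟨b2, by simp, ebb⟩
    · intro I hI
      have m_h2 : h2 ∉ ((univ \ {h1, a2, b2, y, w}).erase h2) \ {a1, a3, b3, b1} := by
        rw [memD]; tauto
      have m_h1 : h1 ∉ ((univ \ {h1, a2, b2, y, w}).erase h2) \ {a1, a3, b3, b1} := by
        rw [memD]; tauto
      have m_a1 : a1 ∉ ((univ \ {h1, a2, b2, y, w}).erase h2) \ {a1, a3, b3, b1} := by
        rw [memD]; tauto
      have m_a2 : a2 ∉ ((univ \ {h1, a2, b2, y, w}).erase h2) \ {a1, a3, b3, b1} := by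
        rw [memD]; tauto
      have m_a3 : a3 ∉ ((univ \ {h1, a2, b2, y, w}).erase h2) \ {a1, a3, b3, b1} := by
        rw [memD]; tauto
      have m_b1 : b1 ∉ ((univ \ {h1, a2, b2, y, w}).erase h2) \ {a1, a3, b3, b1} := by
        rw [memD]; tauto
      have m_b2 : b2 ∉ ((univ \ {h1, a2, b2, y, w}).erase h2) \ {a1, a3, b3, b1} := by
        rw [memD]; tauto
      have m_b3 : b3 ∉ ((univ \ {h1, a2, b2, y, w}).erase h2) \ {a1, a3, b3, b1} := by
        rw [memD]; tauto
      have m_y : y ∉ ((univ \ {h1, a2, b2, y, w}).erase h2) \ {a1, a3, b3, b1} := by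
        rw [memD]; tauto
      have m_w : w ∉ ((univ \ {h1, a2, b2, y, w}).erase h2) \ {a1, a3, b3, b1} := by
        rw [memD]; tauto
      set D' := ((univ \ {h1, a2, b2, y, w}).erase h2) \ {a1, a3, b3, b1} with hD'
      have q_a2 : (G.neighborFinset a2 ∩ D').card ≤ 1 :=
        startm_one (hcub _) eaa.symm ha n_a1a3 m_a1 m_a3
      have q_b2 : (G.neighborFinset b2 ∩ D').card ≤ 1 :=
        startm_one (hcub _) ebb.symm hb n_b1b3 m_b1 m_b3
      have q_y : (G.neighborFinset y ∩ D').card ≤ 2 := startm_two (hcub _) eay.symm m_a1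
      have q_w : (G.neighborFinset w ∩ D').card ≤ 2 := startm_two (hcub _) ebw.symm m_b1
      have cov_h2 : ∀ v, Cov G D' I v h2 ∅ := by
        intro v
        refine startm_cov fun r hr _ h => ?_
        exfalso
        rcases h with rfl | h
        · exact m_h2 hr
        · rw [ah2] at h
          rcases h with rfl | rfl | rfl
          · exact m_h1 hr
          · exact m_a1 hr
          · exact m_b1 hr
      have cov_h1 : ∀ v, Cov G D' I v h1 ∅ := by
        intro v
        refine startm_cov fun r hr _ h => ?_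
        exfalso
        rcases h with rfl | h
        · exact m_h1 hr
        · rw [ah1] at h
          rcases h with rfl | rfl | rfl
          · exact m_h2 hr
          · exact m_a3 hr
          · exact m_b3 hr
      -- near a3 b1 only by w
      have hnw : Near G a3 b1 → G.Adj a3 w := by
        rintro ⟨_, h | ⟨t, h, h'⟩⟩
        · exfalso
          have h' := (ab1 a3).1 h.symm
          rcases h' with h' | h' | h'
          · exact n_h2a3 h'.symm
          · exact n_a3b2 h'
          · exact n_a3w h'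
        · have h'' := (ab1 t).1 h'.symm
          rcases h'' with rfl | rfl | rfl
          · exfalso
            have := (ah2 a3).1 h.symm
            rcases this with h' | h' | h'
            · exact n_h1a3 h'.symm
            · exact n_a1a3 h'.symm
            · exact n_a3b1 h'
          · exfalso
            exact n_h1b2 (four a3 t b3 h1 n_a3b3 h hb e1a.symm e1b).symm
          · exact h
      have q_w' : Near G a3 b1 → (G.neighborFinset w ∩ D').card ≤ 1 := fun h =>
        startm_one (hcub _) (hnw h).symm ebw.symm n_a3b1 m_a3 m_b1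
      obtain ⟨ta, eta, ta1, ta2, hta⟩ := startm_third (hcub a3) ha.symm e1a.symm n_h1a2.symm
      obtain ⟨tb, etb, tb1, tb2, htb⟩ := startm_third (hcub b3) hb.symm e1b.symm n_h1b2.symm
      have a3W : a3 ∉ ({h1, a2, b2, y, w} : Finset V) := by
        simp only [Finset.mem_insert, Finset.mem_singleton, not_or]
        exact ⟨n_h1a3.symm, n_a2a3.symm, n_a3b2, n_a3y, n_a3w⟩
      have b3W : b3 ∉ ({h1, a2, b2, y, w} : Finset V) := by
        simp only [Finset.mem_insert, Finset.mem_singleton, not_or]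
        exact ⟨n_h1b3.symm, n_a2b3.symm, n_b2b3.symm, n_b3y, n_b3w⟩
      obtain ⟨Sa, hSa, cSa⟩ := cov_two (hcub ta).le hI hDisj eta m_a3 a3W (fun h => hInv _ h)
      obtain ⟨Sb, hSb, cSb⟩ := cov_two (hcub tb).le hI hDisj etb m_b3 b3W (fun h => hInv _ h)
      have z0 : (∅ : Finset V).card ≤ 0 := by simp
      refine ⟨⟨_, ?_, nr_of_cov (a := h2) (b := a2) (c := y) (by rw [na1]) (cov_h2 a1)
        (startm_cov' m_a2) (startm_cov' m_y)⟩,
        ⟨_, ?_, nr_of_cov (a := b2) (b := h1) (c := tb) htb (startm_cov' m_b2) (cov_h1 b3) cSb⟩,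
        ?_, ⟨_, ?_, ?_, nr_of_cov (a := h2) (b := b2) (c := w) (by rw [nb1]) (cov_h2 b1)
        (startm_cov' m_b2) (startm_cov' m_w)⟩⟩
      · exact startm_u3 z0 q_a2 q_y
      · exact startm_u3 q_b2 z0 hSb
      · by_cases hn : Near G a3 b1
        · have hw : ta = w := by
            have h' := hta (by rw [G.mem_neighborFinset]; exact hnw hn : w ∈ G.neighborFinset a3)
            simp only [Finset.mem_insert, Finset.mem_singleton] at h'
            rcases h' with h' | h' | h'
            · exact absurd h'.symm n_a2w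
            · exact absurd h'.symm n_h1w
            · exact h'.symm
          subst hw
          refine ⟨_, ?_, ?_, nr_of_cov (a := a2) (b := h1) (c := ta) hta (startm_cov' m_a2)
            (cov_h1 a3) (startm_cov' m_w)⟩
          · exact (startm_u3 q_a2 z0 (q_w' hn)).trans (by norm_num)
          · intro _
            exact startm_u3 q_a2 z0 (q_w' hn)
        · refine ⟨_, ?_, fun h => absurd h hn, nr_of_cov (a := a2) (b := h1) (c := ta) hta
            (startm_cov' m_a2) (cov_h1 a3) cSa⟩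
          exact startm_u3 q_a2 z0 hSa
      · exact startm_u3 z0 q_b2 q_w
      · intro h
        exact startm_u3 z0 q_b2 (q_w' h)
  · intro I _ _
    refine ⟨{a3, b3} ∪ {a1} ∪ {b1}, ?_, nr_of_cov (a := h1) (b := a1) (c := b1) (by rw [nh2])
      ?_ ?_ ?_⟩
    · exact startm_u3 (Finset.card_le_two) (Finset.card_singleton a1).le
        (Finset.card_singleton b1).le
    · refine startm_cov fun r hr hne h => ?_
      rw [memE] at hr
      rw [ah1] at h
      simp only [Finset.mem_insert, Finset.mem_singleton]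
      tauto
    · refine startm_cov fun r hr hne h => ?_
      rw [memE] at hr
      rw [aa1] at h
      rw [Finset.mem_singleton]
      tauto
    · refine startm_cov fun r hr hne h => ?_
      rw [memE] at hr
      rw [ab1] at h
      rw [Finset.mem_singleton]
      tauto

end Pool.Agent.E8B
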