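import Pool.Agent.E8B.RulesA1
import Pool.Agent.E8B.RuleR

set_option autoImplicit false

namespace Pool.Agent.E8B

open Finset

universe u

variable {V : Type u} {β : Type*} [Fintype V] [DecidableEq V] {G : SimpleGraph V}
  [DecidableRel G.Adj] {L : V → Finset β}

/-- In a stuck state every vertex of `D` is inner of degree three or a boundary vertex with its
data: by `rule_low` the degree is three; by `rule_two` at most one neighbour `z` is outside `D`;
`N(z) ∩ D` has one or two elements; one: `rule_one`; so `N(z) ∩ D = {v, s}`; `z ∉ W`: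
`rule_free`. -/
theorem stuck_local {D W : Finset V} (h3 : ∀ x, (G.neighborFinset x).card ≤ 3)
    (hL : ∀ x, 5 ≤ (L x).card) (h : Stuck G L D W) {v : V} (hv : v ∈ D) :
    (Inn G D v ∧ (G.neighborFinset v).card = 3) ∨ ∃ z p q s, Bd G D W v z p q s := by
  obtain ⟨st, hs⟩ := h
  have hno : ¬ ∃ D1 W1, Step G L D W D1 W1 := by
    rintro ⟨D1, W1, h1⟩
    exact hs D1 W1 h1
  have hc : (G.neighborFinset v).card = 3 := by
    by_contra hne
    have hle : (G.neighborFinset v).card ≤ 2 := by
      have := h3 v
      omega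
    exact hno (rule_low h3 hL st hv hle)
  by_cases hin : ∀ x, G.Adj v x → x ∈ D
  · exact Or.inl ⟨⟨hv, hin⟩, hc⟩
  · right
    push Not at hin
    obtain ⟨z, hvz, hz⟩ := hin
    have huniq : ∀ x, G.Adj v x → x ∉ D → x = z := by
      intro x hvx hx
      by_contra hne
      exact hno (rule_two h3 hL st hv hx hz hne hvx hvz)
    have hzN : z ∈ G.neighborFinset v := by
      rw [SimpleGraph.mem_neighborFinset]
      exact hvz
    have h2 : ((G.neighborFinset v).erase z).card = 2 := by
      rw [Finset.card_erase_of_mem hzN, hc]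
    obtain ⟨p, q, hpq, hE⟩ := Finset.card_eq_two.mp h2
    have hN : G.neighborFinset v = {z, p, q} := by
      rw [← Finset.insert_erase hzN, hE]
    have hpE : p ∈ (G.neighborFinset v).erase z := by
      rw [hE]; simp
    have hqE : q ∈ (G.neighborFinset v).erase z := by
      rw [hE]; simp
    rw [Finset.mem_erase, SimpleGraph.mem_neighborFinset] at hpE hqE
    have hpD : p ∈ D := by
      by_contra hp
      exact hpE.1 (huniq p hpE.2 hp)
    have hqD : q ∈ D := by
      by_contra hq
      exact hqE.1 (huniq q hqE.2 hq)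
    have hvNz : v ∈ G.neighborFinset z ∩ D := by
      rw [Finset.mem_inter, SimpleGraph.mem_neighborFinset]
      exact ⟨hvz.symm, hv⟩
    have hz2 : (G.neighborFinset z ∩ D).card ≤ 2 := st.inv z hz
    have hcE : ((G.neighborFinset z ∩ D).erase v).card = (G.neighborFinset z ∩ D).card - 1 :=
      Finset.card_erase_of_mem hvNz
    have hpos : 0 < (G.neighborFinset z ∩ D).card := Finset.card_pos.mpr ⟨v, hvNz⟩
    by_cases h1 : (G.neighborFinset z ∩ D).card = 1
    · exfalso
      obtain ⟨w, hw⟩ := Finset.card_eq_one.mp h1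
      have hvw : v = w := by
        rw [hw, Finset.mem_singleton] at hvNz
        exact hvNz
      subst hvw
      exact hno (rule_one h3 hL st hz hw)
    · have hE1 : ((G.neighborFinset z ∩ D).erase v).card = 1 := by omega
      obtain ⟨s, hsE⟩ := Finset.card_eq_one.mp hE1
      have hzN2 : G.neighborFinset z ∩ D = {v, s} := by
        rw [← Finset.insert_erase hvNz, hsE]
      have hvs : v ≠ s := by
        have : s ∈ (G.neighborFinset z ∩ D).erase v := by
          rw [hsE]; simp
        rw [Finset.mem_erase] at this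
        exact this.1.symm
      have hzW : z ∈ W := by
        by_contra hzW
        exact hno (rule_free h3 hL st hz hzW hzN2 hvs huniq)
      exact ⟨z, p, q, s, ⟨hv, hN, hpE.1.symm, hqE.1.symm, hpq, hzW, hpD, hqD, hzN2, hvs⟩⟩

/-- Symmetry of the boundary data. -/
theorem Bd.swap {D W : Finset V} {v z p q s : V} (h : Bd G D W v z p q s) :
    Bd G D W v z q p s := by
  refine ⟨h.vD, ?_, h.zq, h.zp, h.pq.symm, h.zW, h.qD, h.pD, h.nz, h.vs⟩
  rw [h.nb, Finset.pair_comm p q]

theorem Stuck1.bd_adj {D W : Finset V} {v z p q s x : V} (h : Bd G D W v z p q s) :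
    G.Adj v x ↔ x = z ∨ x = p ∨ x = q := by
  rw [← SimpleGraph.mem_neighborFinset, h.nb]
  simp

theorem Stuck1.bd_zD {D W : Finset V} (st : St G D W) {v z p q s : V}
    (h : Bd G D W v z p q s) : z ∉ D := fun hz =>
  (Finset.disjoint_left.mp st.disj) hz h.zW

theorem Stuck1.bd_not_inn {D W : Finset V} (st : St G D W) {v z p q s : V}
    (h : Bd G D W v z p q s) : ¬ Inn G D v := fun hv =>
  Stuck1.bd_zD st h (hv.2 z ((Stuck1.bd_adj h).mpr (Or.inl rfl)))

/-- A boundary vertex with a neighbour `p` in `D`: its data can be arranged so that `p` is the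
first neighbour. -/
theorem Stuck1.bd_arr {D W : Finset V} (st : St G D W) {v z p' q' s p : V}
    (h : Bd G D W v z p' q' s) (hp : p ∈ D) (hvp : G.Adj v p) :
    ∃ q, Bd G D W v z p q s := by
  rcases (Stuck1.bd_adj h).mp hvp with h1 | h1 | h1
  · exact absurd (h1 ▸ hp) (Stuck1.bd_zD st h)
  · subst h1
    exact ⟨q', h⟩
  · subst h1
    exact ⟨p', h.swap⟩

/-- In a stuck state, `p` inner implies `q` inner: otherwise `q` is a boundary vertex adjacent to
the boundary vertex `v` whose third neighbour `p` is inner, and `rule_bbf` applies. -/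
theorem stuck_inner {D W : Finset V} (h3 : ∀ x, (G.neighborFinset x).card ≤ 3)
    (hL : ∀ x, 5 ≤ (L x).card) (h : Stuck G L D W) {v z p q s : V}
    (hb : Bd G D W v z p q s) (hp : Inn G D p) : Inn G D q := by
  rcases stuck_local h3 hL h hb.qD with h1 | ⟨z', p', q', s', h1⟩
  · exact h1.1
  · exfalso
    have hvq : G.Adj v q := (Stuck1.bd_adj hb).mpr (Or.inr (Or.inr rfl))
    obtain ⟨q'', h2⟩ := Stuck1.bd_arr h.1 h1 hb.vD hvq.symm
    obtain ⟨D1, W1, h4⟩ := rule_bbf h3 hL h.1 hb.swap h2 hp
    exact h.2 D1 W1 h4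

end Pool.Agent.E8B
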