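import Pool.Agent.E8B.Stuck1
import Pool.Agent.E8B.RulesA2
import Pool.Agent.E8B.RuleQ
import Pool.Agent.E8B.RuleP
import Pool.Agent.E8B.RuleA
import Pool.Agent.E8B.RuleB

set_option autoImplicit false

namespace Pool.Agent.E8B

open Finset

universe u

variable {V : Type u} {β : Type*} [Fintype V] [DecidableEq V] {G : SimpleGraph V}
  [DecidableRel G.Adj] {L : V → Finset β}

theorem Stuck2.not_adj {D W : Finset V} (h3 : ∀ x, (G.neighborFinset x).card ≤ 3)
    (hL : ∀ x, 5 ≤ (L x).card) (h : Stuck G L D W) {v z p q s : V}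
    (hb : Bd G D W v z p q s) : ¬ G.Adj p q := fun ha => by
  obtain ⟨D1, W1, h4⟩ := rule_tri h3 hL h.1 hb ha
  exact h.2 D1 W1 h4

theorem Stuck2.not_common {D W : Finset V} (h3 : ∀ x, (G.neighborFinset x).card ≤ 3)
    (hL : ∀ x, 5 ≤ (L x).card) (h : Stuck G L D W) {v z p q s t : V}
    (hb : Bd G D W v z p q s) (hp : Inn G D p) (ht : t ≠ v) (hpt : G.Adj p t) :
    ¬ G.Adj q t := fun ha => by
  obtain ⟨D1, W1, h4⟩ := rule_quad h3 hL h.1 hb hp ht hpt ha
  exact h.2 D1 W1 h4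

/-- In a stuck state let `v` be a boundary vertex with the inner neighbours `p, q`, and let
`N(p) = {v, x, y}` with `y` inner. Then `x` is a boundary vertex with the data `z1, p, r, s1` where
`r` is inner, and `r ~ q`.
Proof: `p, q` are not adjacent (`rule_tri`) and have no common neighbour `≠ v` (`rule_quad`).
`x ≁ y`: otherwise `rule_ptri` applies with the inner vertex `y` (note `q ≁ y`, since `y` would be a
common neighbour, and `q ≠ y` since `p ≁ q`). `x` is not inner: otherwise `rule_aaa` applies. So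
`x` is a boundary vertex adjacent to `p`, its data are `z1, p, r, s1` (after `Bd.swap`), `r` is
inner by `stuck_inner`, `q ≠ r` (`x` would be a common neighbour of `p` and `q`), `q ≠ y`, `r ≠ y`
(`rule_tri` for `x`, as `p ~ y`), `q ≁ y`, `r ≁ y` (`rule_quad` for `x`), so `rule_bq` gives
`q ~ r`. -/
theorem stuck_step {D W : Finset V} (h3 : ∀ x, (G.neighborFinset x).card ≤ 3)
    (hL : ∀ x, 5 ≤ (L x).card) (h : Stuck G L D W) {v z p q s x y : V}
    (hb : Bd G D W v z p q s) (hp : Inn G D p) (hN : G.neighborFinset p = {v, x, y})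
    (hvx : v ≠ x) (hvy : v ≠ y) (hxy : x ≠ y) (hy : Inn G D y) :
    ∃ z1 r s1, Bd G D W x z1 p r s1 ∧ Inn G D r ∧ G.Adj r q := by
  have hq : Inn G D q := stuck_inner h3 hL h hb hp
  have hpadj : ∀ w, G.Adj p w ↔ w = v ∨ w = x ∨ w = y := by
    intro w
    rw [← SimpleGraph.mem_neighborFinset, hN]
    simp
  have hpx : G.Adj p x := (hpadj x).mpr (Or.inr (Or.inl rfl))
  have hpy : G.Adj p y := (hpadj y).mpr (Or.inr (Or.inr rfl))
  have hpq : ¬ G.Adj p q := Stuck2.not_adj h3 hL h hb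
  have hqy : ¬ G.Adj q y := Stuck2.not_common h3 hL h hb hp hvy.symm hpy
  have hqx : ¬ G.Adj q x := Stuck2.not_common h3 hL h hb hp hvx.symm hpx
  have hqney : q ≠ y := fun e => hpq (e ▸ hpy)
  have hqnex : q ≠ x := fun e => hpq (e ▸ hpx)
  have hxyn : ¬ G.Adj x y := by
    intro ha
    obtain ⟨D1, W1, h4⟩ := rule_ptri h3 hL h.1 hb (x := y) (y := x)
      (by rw [hN, Finset.pair_comm x y]) hy hq ha.symm hqy hqney hvy hvx
    exact h.2 D1 W1 h4
  have hxD : x ∈ D := hp.2 x hpx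
  have hxI : ¬ Inn G D x := by
    intro hx
    obtain ⟨D1, W1, h4⟩ := rule_aaa h3 hL h.1 hb hN hx hy hq hvx hvy hxy hqnex hqney hxyn hqx hqy
    exact h.2 D1 W1 h4
  rcases stuck_local h3 hL h hxD with h1 | ⟨z1, p', q', s1, h1⟩
  · exact absurd h1.1 hxI
  · obtain ⟨r, h2⟩ := Stuck1.bd_arr h.1 h1 hp.1 hpx.symm
    have hr : Inn G D r := stuck_inner h3 hL h h2 hp
    have hxr : G.Adj x r := (Stuck1.bd_adj h2).mpr (Or.inr (Or.inr rfl))
    have hpr : ¬ G.Adj p r := Stuck2.not_adj h3 hL h h2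
    have hqr : q ≠ r := fun e => hqx (e ▸ hxr.symm)
    have hry : r ≠ y := fun e => hpr (e ▸ hpy)
    have hrya : ¬ G.Adj r y := Stuck2.not_common h3 hL h h2 hp hxy.symm hpy
    refine ⟨z1, r, s1, h2, hr, ?_⟩
    by_contra hno
    obtain ⟨D1, W1, h4⟩ := rule_bq h3 hL h.1 hb h2 hN hy hq hr hvx hqr hqney hry
      (fun ha => hno ha.symm) hqy hrya
    exact h.2 D1 W1 h4

end Pool.Agent.E8B
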