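import Pool.Agent.E8B.Stuck2
import Pool.Agent.E8B.RuleK

set_option autoImplicit false

namespace Pool.Agent.E8B

open Finset

universe u

variable {V : Type u} {β : Type*} [Fintype V] [DecidableEq V] {G : SimpleGraph V}
  [DecidableRel G.Adj] {L : V → Finset β}

theorem Stuck3.card_inn {D W : Finset V} (h3 : ∀ x, (G.neighborFinset x).card ≤ 3)
    (hL : ∀ x, 5 ≤ (L x).card) (h : Stuck G L D W) {v : V} (hv : Inn G D v) :
    (G.neighborFinset v).card = 3 := by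
  rcases stuck_local h3 hL h hv.1 with h1 | ⟨z, p, q, s, h1⟩
  · exact h1.2
  · exact absurd hv (Stuck1.bd_not_inn h.1 h1)

/-- The third neighbour. -/
theorem Stuck3.third {p a c : V} (hc : (G.neighborFinset p).card = 3) (ha : G.Adj p a)
    (hb : G.Adj p c) (hac : a ≠ c) :
    ∃ b, G.neighborFinset p = {a, b, c} ∧ a ≠ b ∧ b ≠ c := by
  have h1 : a ∈ G.neighborFinset p := by
    rw [SimpleGraph.mem_neighborFinset]; exact ha
  have h2 : c ∈ (G.neighborFinset p).erase a := by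
    rw [Finset.mem_erase, SimpleGraph.mem_neighborFinset]; exact ⟨hac.symm, hb⟩
  have h4 : (((G.neighborFinset p).erase a).erase c).card = 1 := by
    rw [Finset.card_erase_of_mem h2, Finset.card_erase_of_mem h1, hc]
  obtain ⟨b, hb'⟩ := Finset.card_eq_one.mp h4
  have hm : b ∈ ((G.neighborFinset p).erase a).erase c := by
    rw [hb']; simp
  rw [Finset.mem_erase, Finset.mem_erase] at hm
  refine ⟨b, ?_, hm.2.1.symm, hm.1⟩
  rw [← Finset.insert_erase h1, ← Finset.insert_erase h2, hb', Finset.pair_comm]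

/-- In a stuck state, an inner vertex `p` with a boundary neighbour `v` has only boundary
neighbours.
Proof: let `N(v) = {z, p, q}`, so `q` is inner (`stuck_inner`). Suppose a neighbour `f` of `p` is
inner, `N(p) = {v, v1, f}`. By `stuck_step` (with `x = v1`, `y = f`) `v1` is a boundary vertex with
the data `z1, p, r, s1`, `r` inner, `r ~ q`.
Now `q` has the neighbours `v` and `r` (inner), `N(q) = {v, v3, r}`, and `stuck_step` for `v, q, p`
gives: `v3` is a boundary vertex with the data `z3, q, f3, s3`, `f3` inner and `f3 ~ p`; as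
`N(p) = {v, v1, f}` and `v, v1` are not inner, `f3 = f`.
`r` has the neighbours `v1` and `q` (inner), `N(r) = {v1, v4, q}`, and `stuck_step` for `v1, r, p`
(the data of `v1` are `z1, r, p, s1`) gives: `v4` is a boundary vertex with the data `z4, r, f4, s4`,
`f4` inner, `f4 ~ p`, so `f4 = f`. Then `N(f) = {p, v3, v4}`; all eight vertices are different.
If `s ≠ v4` then `rule_k8` applies. If `s = v4` then `z ~ v, v4` and `NoK33` is contradicted by the
cycle `p, v, q, v3, f, v4, r, v1` with the chord paths `p f`, `v z v4`, `q r`: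
`b1 = p, b2 = v, b3 = q, b4 = f, b5 = v4, b6 = r`, `A3 = [v3]`, `A6 = [v1]`, `P2 = [z]`, the other
lists are empty. -/
theorem stuck_fb {D W : Finset V} (h3 : ∀ x, (G.neighborFinset x).card ≤ 3)
    (hL : ∀ x, 5 ≤ (L x).card) (hK : NoK33 G) (h : Stuck G L D W) {v z p q s : V}
    (hb : Bd G D W v z p q s) (hp : Inn G D p) {x : V} (hx : G.Adj p x) : ¬ Inn G D x := by
  intro hf
  have st := h.1
  have hq : Inn G D q := stuck_inner h3 hL h hb hp
  have hvI : ¬ Inn G D v := Stuck1.bd_not_inn st hb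
  have hvp : G.Adj v p := (Stuck1.bd_adj hb).mpr (Or.inr (Or.inl rfl))
  have hvq : G.Adj v q := (Stuck1.bd_adj hb).mpr (Or.inr (Or.inr rfl))
  have hvz : G.Adj v z := (Stuck1.bd_adj hb).mpr (Or.inl rfl)
  have hzD : z ∉ D := Stuck1.bd_zD st hb
  have hvf : v ≠ x := fun e => hvI (e ▸ hf)
  obtain ⟨v1, hNp, hvv1, hv1f⟩ := Stuck3.third (Stuck3.card_inn h3 hL h hp) hvp.symm hx hvf
  obtain ⟨z1, r, s1, b1, hr, hrq⟩ := stuck_step h3 hL h hb hp hNp hvv1 hvf hv1f hf
  have hv1I : ¬ Inn G D v1 := Stuck1.bd_not_inn st b1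
  have hv1p : G.Adj v1 p := (Stuck1.bd_adj b1).mpr (Or.inr (Or.inl rfl))
  have hv1r : G.Adj v1 r := (Stuck1.bd_adj b1).mpr (Or.inr (Or.inr rfl))
  have hvr : v ≠ r := fun e => hvI (e ▸ hr)
  obtain ⟨v3, hNq, hvv3, hv3r⟩ := Stuck3.third (Stuck3.card_inn h3 hL h hq) hvq.symm hrq.symm hvr
  obtain ⟨z3, f3, s3, b3, hf3, hf3p⟩ := stuck_step h3 hL h hb.swap hq hNq hvv3 hvr hv3r hr
  have hpadj : ∀ w, G.Adj p w ↔ w = v ∨ w = v1 ∨ w = x := by
    intro w
    rw [← SimpleGraph.mem_neighborFinset, hNp]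
    simp
  have e3 : f3 = x := by
    rcases (hpadj f3).mp hf3p.symm with e | e | e
    · exact absurd (e ▸ hf3) hvI
    · exact absurd (e ▸ hf3) hv1I
    · exact e
  subst e3
  have hv3I : ¬ Inn G D v3 := Stuck1.bd_not_inn st b3
  have hv3q : G.Adj v3 q := (Stuck1.bd_adj b3).mpr (Or.inr (Or.inl rfl))
  have hv3f : G.Adj v3 f3 := (Stuck1.bd_adj b3).mpr (Or.inr (Or.inr rfl))
  have hv1q : v1 ≠ q := fun e => hv1I (e ▸ hq)
  obtain ⟨v4, hNr, hv1v4, hv4q⟩ :=
    Stuck3.third (Stuck3.card_inn h3 hL h hr) hv1r.symm hrq hv1q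
  obtain ⟨z4, f4, s4, b4, hf4, hf4p⟩ := stuck_step h3 hL h b1.swap hr hNr hv1v4 hv1q hv4q hq
  have e4 : f4 = f3 := by
    rcases (hpadj f4).mp hf4p.symm with e | e | e
    · exact absurd (e ▸ hf4) hvI
    · exact absurd (e ▸ hf4) hv1I
    · exact e
  subst e4
  have hv4I : ¬ Inn G D v4 := Stuck1.bd_not_inn st b4
  have hv4r : G.Adj v4 r := (Stuck1.bd_adj b4).mpr (Or.inr (Or.inl rfl))
  have hv4f : G.Adj v4 f4 := (Stuck1.bd_adj b4).mpr (Or.inr (Or.inr rfl))
  have hv3v4 : v3 ≠ v4 := by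
    intro e
    rcases (Stuck1.bd_adj b4).mp (e ▸ hv3q) with e1 | e1 | e1
    · exact Stuck1.bd_zD st b4 (e1 ▸ hq.1)
    · exact G.loopless.irrefl r (e1 ▸ hrq)
    · exact b3.pq e1
  have hv3p : v3 ≠ p := fun e => hv3I (e ▸ hp)
  have hv4p : v4 ≠ p := fun e => hv4I (e ▸ hp)
  have hNf : G.neighborFinset f4 = {v3, v4, p} := by
    obtain ⟨w, hw, hw1, hw2⟩ :=
      Stuck3.third (Stuck3.card_inn h3 hL h hf) hv3f.symm hx.symm hv3p
    have : v4 ∈ G.neighborFinset f4 := by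
      rw [SimpleGraph.mem_neighborFinset]; exact hv4f.symm
    rw [hw] at this
    simp only [Finset.mem_insert, Finset.mem_singleton] at this
    rcases this with e | e | e
    · exact absurd e.symm hv3v4
    · rw [hw, e]
    · exact absurd e hv4p
  have hpr : p ≠ r := b1.pq
  have hpf : p ≠ f4 := G.ne_of_adj hx
  have hqr : q ≠ r := (G.ne_of_adj hrq).symm
  have hqf : q ≠ f4 := b3.pq
  have hrf : r ≠ f4 := b4.pq
  have hvv4 : v ≠ v4 := by
    intro e
    rcases (Stuck1.bd_adj b4).mp (e ▸ hvp) with e1 | e1 | e1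
    · exact Stuck1.bd_zD st b4 (e1 ▸ hp.1)
    · exact hpr e1
    · exact hpf e1
  have hv1v3 : v1 ≠ v3 := by
    intro e
    rcases (Stuck1.bd_adj b3).mp (e ▸ hv1p) with e1 | e1 | e1
    · exact Stuck1.bd_zD st b3 (e1 ▸ hp.1)
    · exact hb.pq e1
    · exact hpf e1
  have ni : ∀ {a b : V}, Inn G D a → ¬ Inn G D b → a ≠ b := fun ha hb' e => hb' (e ▸ ha)
  by_cases hs : s = v4
  · subst hs
    have hzs : G.Adj z s := by
      have : s ∈ G.neighborFinset z ∩ D := by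
        rw [hb.nz]; simp
      rw [Finset.mem_inter, SimpleGraph.mem_neighborFinset] at this
      exact this.1
    have nz : ∀ {a : V}, a ∈ D → a ≠ z := fun ha e => hzD (e ▸ ha)
    refine hK p v q f4 s r [] [] [v3] [] [] [v1] [] [z] [] ?_ ?_ ?_ ?_ ?_ ?_ ?_ ?_ ?_ ?_
    · simp only [List.nil_append, List.append_nil, List.cons_append, List.nodup_cons,
        List.mem_cons, List.not_mem_nil, or_false, not_or, List.nodup_nil, and_true, not_false_eq_true]
      exact ⟨⟨ni hp hvI, hb.pq, hpf, ni hp hv4I, hpr, hv3p.symm, ni hp hv1I, nz hp.1⟩,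
        ⟨(ni hq hvI).symm, hvf, hvv4, hvr, hvv3, hvv1, nz hb.vD⟩,
        ⟨hqf, ni hq hv4I, hqr, ni hq hv3I, ni hq hv1I, nz hq.1⟩,
        ⟨ni hf hv4I, hrf.symm, ni hf hv3I, ni hf hv1I, nz hf.1⟩,
        ⟨(ni hr hv4I).symm, hv3v4.symm, hv1v4.symm, nz b4.vD⟩,
        ⟨ni hr hv3I, ni hr hv1I, nz hr.1⟩,
        ⟨hv1v3.symm, nz b3.vD⟩, nz b1.vD⟩
    · simp [Ch, hvp.symm]
    · simp [Ch, hvq]
    · simp [Ch, hv3q.symm, hv3f]
    · simp [Ch, hv4f.symm]
    · simp [Ch, hv4r]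
    · simp [Ch, hv1r.symm, hv1p]
    · simp [Ch, hx]
    · simp [Ch, hvz, hzs]
    · simp [Ch, hrq.symm]
  · have hnd : [p, q, r, f4, v, v1, v3, v4].Nodup := by
      simp only [List.nodup_cons, List.mem_cons, List.not_mem_nil, or_false, not_or,
        List.nodup_nil, and_true, not_false_eq_true]
      exact ⟨⟨hb.pq, hpr, hpf, ni hp hvI, ni hp hv1I, hv3p.symm, hv4p.symm⟩,
        ⟨hqr, hqf, ni hq hvI, ni hq hv1I, ni hq hv3I, ni hq hv4I⟩,
        ⟨hrf, ni hr hvI, ni hr hv1I, ni hr hv3I, ni hr hv4I⟩,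
        ⟨ni hf hvI, ni hf hv1I, ni hf hv3I, ni hf hv4I⟩,
        ⟨hvv1, hvv3, hvv4⟩, ⟨hv1v3, hv1v4⟩, hv3v4⟩
    obtain ⟨D1, W1, h4⟩ := rule_k8 h3 hL st hnd hNp hNq hNr hNf hp hq hr hf hb b1 b3 b4 hs
    exact h.2 D1 W1 h4

end Pool.Agent.E8B
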