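import Pool.Agent.E8B.Stuck3

set_option autoImplicit false

namespace Pool.Agent.E8B

open Finset

universe u

variable {V : Type u} {β : Type*} [Fintype V] [DecidableEq V] {G : SimpleGraph V}
  [DecidableRel G.Adj] {L : V → Finset β}

/-- In a stuck state all neighbours of an inner vertex are boundary vertices.
Proof: the set of the inner vertices all whose neighbours are inner is closed under adjacency by
`stuck_fb` (if `v` is in it and `x ~ v`, then `x` is inner and has the inner neighbour `v`, so `x`
has no boundary neighbour, for a boundary neighbour would make `v` not inner by `stuck_fb`; by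
`stuck_local` every vertex of `D` is inner or a boundary vertex). If it is not empty, then by
connectedness it is everything and `D = univ`, a contradiction. So every inner vertex has a
boundary neighbour and `stuck_fb` applies. -/
theorem stuck_inn {D W : Finset V} (h3 : ∀ x, (G.neighborFinset x).card ≤ 3)
    (hL : ∀ x, 5 ≤ (L x).card) (hK : NoK33 G) (hc : G.Connected) (hD : D ≠ univ)
    (h : Stuck G L D W) {v x : V} (hv : Inn G D v) (hx : G.Adj v x) : ¬ Inn G D x := by
  have key : ∀ {a b : V}, Inn G D a → G.Adj a b → ¬ Inn G D b →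
      ∃ z q s, Bd G D W b z a q s := by
    intro a b ha hab hb
    rcases stuck_local h3 hL h (ha.2 b hab) with h1 | ⟨z, p', q', s, h1⟩
    · exact absurd h1.1 hb
    · obtain ⟨q, h2⟩ := Stuck1.bd_arr h.1 h1 ha.1 hab.symm
      exact ⟨z, q, s, h2⟩
  by_cases hall : ∀ y, G.Adj v y → Inn G D y
  · exfalso
    apply hD
    have hclosed : ∀ a b : V, (Inn G D a ∧ ∀ y, G.Adj a y → Inn G D y) → G.Adj a b →
        (Inn G D b ∧ ∀ y, G.Adj b y → Inn G D y) := by
      intro a b ha hab
      have hb : Inn G D b := ha.2 b hab
      refine ⟨hb, fun y hby => ?_⟩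
      by_contra hy
      obtain ⟨z, q, s, h2⟩ := key hb hby hy
      exact stuck_fb h3 hL hK h h2 hb hab.symm ha.1
    have hwalk : ∀ (a b : V), G.Walk a b → (Inn G D a ∧ ∀ y, G.Adj a y → Inn G D y) →
        (Inn G D b ∧ ∀ y, G.Adj b y → Inn G D y) := by
      intro a b w
      induction w with
      | nil => exact fun ha => ha
      | cons hab _ ih => exact fun ha => ih (hclosed _ _ ha hab)
    ext b
    simp only [Finset.mem_univ, iff_true]
    obtain ⟨w⟩ := hc.preconnected v b
    exact (hwalk v b w ⟨hv, hall⟩).1.1
  · push Not at hall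
    obtain ⟨y, hvy, hy⟩ := hall
    obtain ⟨z, q, s, h2⟩ := key hv hvy hy
    exact stuck_fb h3 hL hK h h2 hv hx

end Pool.Agent.E8B
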