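import Pool.Agent.E8B.StartH

set_option autoImplicit false

namespace Pool.Agent.E8B

open Finset

universe u

variable {V : Type u} {β : Type*} [Fintype V] [DecidableEq V] {G : SimpleGraph V}
  [DecidableRel G.Adj] {L : V → Finset β}

namespace ThetaAux

omit β L in
theorem nb_eq {x a b c : V} (h : (G.neighborFinset x).card = 3) (ha : G.Adj x a) (hb : G.Adj x b)
    (hc : G.Adj x c) (hab : a ≠ b) (hac : a ≠ c) (hbc : b ≠ c) :
    G.neighborFinset x = {a, b, c} := by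
  symm
  apply Finset.eq_of_subset_of_card_le
  · intro z hz
    simp only [Finset.mem_insert, Finset.mem_singleton] at hz
    rw [SimpleGraph.mem_neighborFinset]
    rcases hz with rfl | rfl | rfl
    · exact ha
    · exact hb
    · exact hc
  · rw [h, Finset.card_insert_of_notMem (by simp [hab, hac]), Finset.card_pair hbc]

theorem third {x a b : V} (h : (G.neighborFinset x).card = 3) (ha : G.Adj x a) (hb : G.Adj x b)
    (hab : a ≠ b) : ∃ c, G.neighborFinset x = {a, b, c} ∧ G.Adj x c ∧ c ≠ a ∧ c ≠ b := by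
  have h1 : ((G.neighborFinset x) \ {a, b}).Nonempty := by
    rw [← Finset.card_pos]
    have h2 := Finset.le_card_sdiff {a, b} (G.neighborFinset x)
    rw [h, Finset.card_pair hab] at h2
    omega
  obtain ⟨c, hc⟩ := h1
  simp only [Finset.mem_sdiff, SimpleGraph.mem_neighborFinset, Finset.mem_insert,
    Finset.mem_singleton, not_or] at hc
  exact ⟨c, nb_eq h ha hb hc.1 hab (Ne.symm hc.2.1) (Ne.symm hc.2.2), hc.1, hc.2.1, hc.2.2⟩

end ThetaAux

open ThetaAux in
/-- Two cycles of length five with two common adjacent edges.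
Proof. `Ang x v y p q` and `Ang x v y p' q'` with `(p, q) ≠ (p', q')`. By girth `p ≠ p'` (otherwise
`q = q'`, common neighbours of `p` and `y`; note `p ≠ y`) and `q ≠ q'`. The cycle
`h1 = x, h2 = p, h3 = q, h4 = y, h5 = q', h6 = p'` has six different vertices (girth), `v` is the
third neighbour of `h1` and `h4`. Let `d2, d3, d5, d6` be the third neighbours of `h2, h3, h5, h6`.
`v ≁ d2, d3, d5, d6` (cycles of length four). If `d3 ≁ d6` and `d3 ≠ d6` use `start_hex`. If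
`d2 ≁ d5` and `d2 ≠ d5` use `start_hex` for the rotated cycle `h2, h3, h4, h5, h6, h1` (then the four
vertices are `d2, d4, d5, d1`). Otherwise there are disjoint chord paths `h3 … h6` (by `d3 = d6` or
`d3, d6`), `h2 … h5` and `h1 v h4`, against `NoK33`. (`d2, d3, d5, d6, v` are different except
possibly `d2 = d5`, `d3 = d6`, by girth; they are not on the cycle.) -/
theorem theta_good (hcub : ∀ x, (G.neighborFinset x).card = 3) (hL : ∀ x, 5 ≤ (L x).card)
    (hK : NoK33 G) (hc : G.Connected) (h5 : G5 G) (hu : ¬ Uniq G) : Good G L univ ∅ := by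
  unfold Uniq at hu
  push Not at hu
  obtain ⟨x, v, y, p, q, p', q', hA, hB, hne⟩ := hu
  obtain ⟨vx, vy, xy, xp, pq, qy, pv, qv⟩ := hA
  obtain ⟨-, -, -, xp', pq', qy', pv', qv'⟩ := hB
  obtain ⟨T, Q⟩ := h5
  have T' : ∀ {a b c : V}, G.Adj a b → G.Adj b c → G.Adj a c → False :=
    fun {a b c} h1 h2 h3 => T a b c h1 h2 h3.symm
  have Q' : ∀ {a b c d : V}, a ≠ c → G.Adj a b → G.Adj b c → G.Adj a d → G.Adj d c → b = d :=
    fun {a b c d} h0 h1 h2 h3 h4 => Q a b c d h0 h1 h2 h3 h4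
  -- non-adjacencies
  have nxy : ¬ G.Adj x y := fun h => T' vx h vy
  have npv : ¬ G.Adj p v := fun h => T' vx xp h.symm
  have nqv : ¬ G.Adj q v := fun h => T' vy qy.symm h.symm
  have npv' : ¬ G.Adj p' v := fun h => T' vx xp' h.symm
  have nqv' : ¬ G.Adj q' v := fun h => T' vy qy'.symm h.symm
  have npy : ¬ G.Adj p y := fun h => xy (Q' pv.symm vx xp vy h.symm)
  have npy' : ¬ G.Adj p' y := fun h => xy (Q' pv'.symm vx xp' vy h.symm)
  have nqx : ¬ G.Adj q x := fun h => xy (Q' qv.symm vx h.symm vy qy.symm)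
  have nqx' : ¬ G.Adj q' x := fun h => xy (Q' qv'.symm vx h.symm vy qy'.symm)
  have exp : x ≠ p := xp.ne
  have exp' : x ≠ p' := xp'.ne
  have exq : x ≠ q := fun h => nxy (h ▸ qy)
  have exq' : x ≠ q' := fun h => nxy (h ▸ qy')
  have epy : p ≠ y := fun h => nxy (h ▸ xp)
  have epy' : p' ≠ y := fun h => nxy (h ▸ xp')
  have epq' : p ≠ q' := fun h => npy (h ▸ qy')
  have eqp' : q ≠ p' := fun h => nqx (h ▸ xp'.symm)
  have epp : p ≠ p' := by
    intro h
    refine hne h ?_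
    subst h
    exact Q' epy pq qy pq' qy'
  have eqq : q ≠ q' := by
    intro h
    subst h
    exact epp (Q' exq xp pq xp' pq')
  have npp : ¬ G.Adj p p' := fun h => T' xp h xp'
  have nqq : ¬ G.Adj q q' := fun h => T' qy.symm h qy'.symm
  have npq' : ¬ G.Adj p q' := fun h => eqq (Q' epy pq qy h qy')
  have nqp' : ¬ G.Adj q p' := fun h => epp (Q' exq.symm pq.symm xp.symm h xp'.symm)
  have hnd : [x, p, q, y, q', p'].Nodup := by
    simp only [List.nodup_cons, List.mem_cons, List.not_mem_nil, or_false, not_or,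
      List.nodup_nil, and_true, not_false_eq_true]
    exact ⟨⟨exp, exq, xy, exq', exp'⟩, ⟨pq.ne, epy, epq', epp⟩, ⟨qy.ne, eqq, eqp'⟩,
      ⟨qy'.ne', epy'.symm⟩, pq'.ne'⟩
  have n1 : G.neighborFinset x = {p', p, v} := nb_eq (hcub x) xp' xp vx.symm epp.symm pv' pv
  have n4 : G.neighborFinset y = {q, q', v} := nb_eq (hcub y) qy.symm qy'.symm vy.symm eqq qv qv'
  obtain ⟨d2, n2, pd2, d2x, d2q⟩ := third (hcub p) xp.symm pq exq
  obtain ⟨d3, n3, qd3, d3p, d3y⟩ := third (hcub q) pq.symm qy epy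
  obtain ⟨d5, n5, qd5, d5y, d5p⟩ := third (hcub q') qy' pq'.symm epy'.symm
  obtain ⟨d6, n6, pd6, d6q, d6x⟩ := third (hcub p') pq' xp'.symm exq'.symm
  have nv2 : ¬ G.Adj v d2 := fun h => d2x (Q' pv.symm h pd2.symm vx xp)
  have nv3 : ¬ G.Adj v d3 := fun h => d3y (Q' qv.symm h qd3.symm vy qy.symm)
  have nv5 : ¬ G.Adj v d5 := fun h => d5y (Q' qv'.symm h qd5.symm vy qy'.symm)
  have nv6 : ¬ G.Adj v d6 := fun h => d6x (Q' pv'.symm h pd6.symm vx xp')
  by_cases c36 : ¬ G.Adj d3 d6 ∧ d3 ≠ d6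
  · exact start_hex hcub hL hK hc ⟨T, Q⟩ hnd n1 n2 n3 n4 n5 n6 nv3 (G.irrefl) nv6
      (fun h => nv3 h.symm) c36.1 nv6 (fun h => c36.2 h.2)
  by_cases c25 : ¬ G.Adj d2 d5 ∧ d2 ≠ d5
  · have hnd' : [p, q, y, q', p', x].Nodup := by
      simp only [List.nodup_cons, List.mem_cons, List.not_mem_nil, or_false, not_or,
        List.nodup_nil, and_true, not_false_eq_true]
      exact ⟨⟨pq.ne, epy, epq', epp, exp.symm⟩, ⟨qy.ne, eqq, eqp', exq.symm⟩,
        ⟨qy'.ne', epy'.symm, xy.symm⟩, ⟨pq'.ne', exq'.symm⟩, exp'.symm⟩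
    exact start_hex hcub hL hK hc ⟨T, Q⟩ hnd' n2 n3 n4 n5 n6 n1 (fun h => nv2 h.symm) c25.1
      (fun h => nv2 h.symm) nv5 (G.irrefl) (fun h => nv5 h.symm) (fun h => c25.2 h.1)
  exfalso
  -- the vertices `d` are new
  have ev2 : v ≠ d2 := fun h => npv (h ▸ pd2)
  have ev3 : v ≠ d3 := fun h => nqv (h ▸ qd3)
  have ev5 : v ≠ d5 := fun h => nqv' (h ▸ qd5)
  have ev6 : v ≠ d6 := fun h => npv' (h ▸ pd6)
  have e23 : d2 ≠ d3 := fun h => T' pq qd3 (h ▸ pd2)
  have e26 : d2 ≠ d6 := fun h => d2x (Q' epp pd2 (h ▸ pd6.symm) xp.symm xp')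
  have e53 : d5 ≠ d3 := fun h => d5y (Q' eqq.symm qd5 (h ▸ qd3.symm) qy' qy.symm)
  have e56 : d5 ≠ d6 := fun h => T' pq'.symm pd6 (h ▸ qd5)
  have x2 : d2 ≠ y := fun h => npy (h ▸ pd2)
  have x3 : d2 ≠ q' := fun h => npq' (h ▸ pd2)
  have x4 : d2 ≠ p' := fun h => npp (h ▸ pd2)
  have y1 : d3 ≠ x := fun h => nqx (h ▸ qd3)
  have y2 : d3 ≠ q' := fun h => nqq (h ▸ qd3)
  have y3 : d3 ≠ p' := fun h => nqp' (h ▸ qd3)
  have z1 : d5 ≠ x := fun h => nqx' (h ▸ qd5)
  have z2 : d5 ≠ p := fun h => npq' (h ▸ qd5).symm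
  have z3 : d5 ≠ q := fun h => nqq (h ▸ qd5).symm
  have w1 : d6 ≠ p := fun h => npp (h ▸ pd6).symm
  have w2 : d6 ≠ q := fun h => nqp' (h ▸ pd6).symm
  have w3 : d6 ≠ y := fun h => npy' (h ▸ pd6)
  have hP1 : Ch G x [v] y := by
    simp only [Ch, List.singleton_append, List.isChain_cons_cons, List.isChain_singleton, and_true]
    exact ⟨vx.symm, vy⟩
  have hA : ∀ {a b : V}, G.Adj a b → Ch G a [] b := by
    intro a b h
    simp only [Ch, List.nil_append, List.isChain_cons_cons, List.isChain_singleton, and_true]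
    exact h
  obtain ⟨P2, hP2, hP2a, hP2b⟩ : ∃ P2 : List V, Ch G p P2 q' ∧ P2.Nodup ∧
      ∀ z ∈ P2, z = d2 ∨ z = d5 := by
    by_cases h : d2 = d5
    · refine ⟨[d2], ?_, List.nodup_singleton _, by simp⟩
      simp only [Ch, List.singleton_append, List.isChain_cons_cons, List.isChain_singleton,
        and_true]
      exact ⟨pd2, h ▸ qd5.symm⟩
    · have h' : G.Adj d2 d5 := by
        by_contra h1
        exact c25 ⟨h1, h⟩
      refine ⟨[d2, d5], ?_, by simp [h], by simp⟩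
      simp only [Ch, List.cons_append, List.nil_append, List.isChain_cons_cons,
        List.isChain_singleton, and_true]
      exact ⟨pd2, h', qd5.symm⟩
  obtain ⟨P3, hP3, hP3a, hP3b⟩ : ∃ P3 : List V, Ch G q P3 p' ∧ P3.Nodup ∧
      ∀ z ∈ P3, z = d3 ∨ z = d6 := by
    by_cases h : d3 = d6
    · refine ⟨[d3], ?_, List.nodup_singleton _, by simp⟩
      simp only [Ch, List.singleton_append, List.isChain_cons_cons, List.isChain_singleton,
        and_true]
      exact ⟨qd3, h ▸ pd6.symm⟩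
    · have h' : G.Adj d3 d6 := by
        by_contra h1
        exact c36 ⟨h1, h⟩
      refine ⟨[d3, d6], ?_, by simp [h], by simp⟩
      simp only [Ch, List.cons_append, List.nil_append, List.isChain_cons_cons,
        List.isChain_singleton, and_true]
      exact ⟨qd3, h', pd6.symm⟩
  refine hK x p q y q' p' [] [] [] [] [] [] [v] P2 P3 ?_ (hA xp) (hA pq) (hA qy) (hA qy'.symm)
    (hA pq'.symm) (hA xp'.symm) hP1 hP2 hP3
  have hdis : ∀ z ∈ P2, z ∉ P3 := by
    intro z hz hz'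
    rcases hP2b z hz with h1 | h1 <;> rcases hP3b z hz' with h2 | h2
    · exact e23 (h1.symm.trans h2)
    · exact e26 (h1.symm.trans h2)
    · exact e53 (h1.symm.trans h2)
    · exact e56 (h1.symm.trans h2)
  have hall : ∀ z, z = d2 ∨ z = d5 ∨ z = d3 ∨ z = d6 → z ≠ x ∧ z ≠ p ∧ z ≠ q ∧ z ≠ y ∧ z ≠ q' ∧
      z ≠ p' ∧ z ≠ v := by
    rintro z (rfl | rfl | rfl | rfl)
    · exact ⟨d2x, pd2.ne', d2q, x2, x3, x4, ev2.symm⟩
    · exact ⟨z1, z2, z3, d5y, qd5.ne', d5p, ev5.symm⟩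
    · exact ⟨y1, d3p, qd3.ne', d3y, y2, y3, ev3.symm⟩
    · exact ⟨d6x, w1, w2, w3, d6q, pd6.ne', ev6.symm⟩
  have hall2 : ∀ z ∈ P2 ++ P3, z ≠ x ∧ z ≠ p ∧ z ≠ q ∧ z ≠ y ∧ z ≠ q' ∧ z ≠ p' ∧ z ≠ v := by
    intro z hz
    apply hall
    rcases List.mem_append.1 hz with h | h
    · rcases hP2b z h with h1 | h1
      · exact Or.inl h1
      · exact Or.inr (Or.inl h1)
    · rcases hP3b z h with h1 | h1
      · exact Or.inr (Or.inr (Or.inl h1))
      · exact Or.inr (Or.inr (Or.inr h1))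
  have hnd2 : (P2 ++ P3).Nodup := by
    rw [List.nodup_append]
    refine ⟨hP2a, hP3a, ?_⟩
    intro a ha b hb hab
    subst hab
    exact hdis a ha hb
  have hlist : (x :: p :: q :: y :: q' :: p' ::
      (([] : List V) ++ [] ++ [] ++ [] ++ [] ++ [] ++ [v] ++ P2 ++ P3)) =
      [x, p, q, y, q', p', v] ++ (P2 ++ P3) := by simp
  rw [hlist, List.nodup_append]
  refine ⟨?_, hnd2, ?_⟩
  · simp only [List.nodup_cons, List.mem_cons, List.not_mem_nil, or_false, not_or,
      List.nodup_nil, and_true, not_false_eq_true]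
    exact ⟨⟨exp, exq, xy, exq', exp', vx.ne'⟩, ⟨pq.ne, epy, epq', epp, pv⟩,
      ⟨qy.ne, eqq, eqp', qv⟩, ⟨qy'.ne', epy'.symm, vy.ne'⟩, ⟨pq'.ne', qv'⟩, pv'⟩
  · intro a ha b hb hab
    subst hab
    obtain ⟨r1, r2, r3, r4, r5, r6, r7⟩ := hall2 a hb
    simp only [List.mem_cons, List.not_mem_nil, or_false] at ha
    rcases ha with h | h | h | h | h | h | h
    · exact r1 h
    · exact r2 h
    · exact r3 h
    · exact r4 h
    · exact r5 h
    · exact r6 h
    · exact r7 h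

end Pool.Agent.E8B
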